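import Pool.Agent.Helper96.CookLevinNum

/-!
# NP, #P, reductions; interface for hardness proofs

Main interface:
* `PolyTime ea eb f`: polynomial-time computability (Mathlib's `TM2ComputableInPolyTime` with finite
  stack alphabets);
* `InNP`, `PolyReduces`, `NPHard`, `NPComplete`, `InSharpP`;
* `Def`, `DefP` (file `Def`): definable numbers/predicates of the input (`X false`, `X true` are the
  two input strings), closed under `+, -, *, /, %`, polynomials, bounded sums, bounded quantifiers,
  Boolean operations, reading bits;
* `polyTime_bits`: a string-valued function whose length and bits are definable is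
  polynomial-time computable; `polyTime_pred`: the same for relations;
* `cook_levin_data`: every polynomial-time witness relation is given by a definable CNF
  (parsimoniously);
* `npHard_of_cnf`: criterion for NP-hardness.
-/

set_option autoImplicit false

namespace Pool.Agent.Helper96

open Classical

/-- The input consisting of one string. -/
def inp1 (x : List Bool) : Inp := fun i => cond i [] x

/-- The input consisting of two strings. -/
def inp2 (x y : List Bool) : Inp := fun i => cond i y x

@[simp] theorem inp1_false (x : List Bool) : inp1 x false = x := rfl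
@[simp] theorem inp1_true (x : List Bool) : inp1 x true = [] := rfl
@[simp] theorem inp2_false (x y : List Bool) : inp2 x y false = x := rfl
@[simp] theorem inp2_true (x y : List Bool) : inp2 x y true = y := rfl

/-- The string of length `len` with `i`-th bit `b i`. -/
noncomputable def bits (len : ℕ) (b : ℕ → Prop) : List Bool :=
  (List.range len).map fun i => decide (b i)

@[simp] theorem length_bits (len : ℕ) (b : ℕ → Prop) : (bits len b).length = len := by
  simp [bits]

theorem getElem?_bits (len : ℕ) (b : ℕ → Prop) (i : ℕ) :
    (bits len b)[i]? = some true ↔ i < len ∧ b i := by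
  unfold bits
  rw [List.getElem?_map]
  by_cases h : i < len
  · rw [List.getElem?_range h]
    simp [h]
  · rw [List.getElem?_eq_none (by simpa using h)]
    simp [h]

/-- Definable numbers as expressions in the zero environment. -/
theorem proj_inp1 (x : List Bool) (i : Bool) :
    proj (fun b : Bool => (false, b)) i x = inp1 x i := by
  unfold proj
  cases i
  · simp
  · simp

theorem proj_inp2 (x y : List Bool) (i : Bool) :
    proj (fun s : Bool ⊕ Bool => (Sum.isRight s, Sum.elim id id s)) i (pairEnc (x, y)) =
      inp2 x y i := by
  unfold proj pairEnc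
  rw [List.filterMap_append, List.filterMap_map, List.filterMap_map]
  cases i
  · simp
  · simp

/-- Functions with definable length, filter and bits are polynomial-time computable. -/
theorem genOut_eq {len : Inp → ℕ} {b : Inp → ℕ → Prop} {L B : Exp}
    (hL : ∀ X v, L.eval X v = len X) (hB : ∀ X v, B.eval X v = if b X (v 0) then 1 else 0)
    (X : Inp) : genOut L (.const 1) B X = bits (len X) (b X) := by
  unfold genOut bits
  rw [hL, List.filter_eq_self.2 (by intro a _; simp [Exp.eval])]
  apply List.map_congr_left
  intro i _
  rw [hB]
  simp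

/-- A string function with definable length and definable bits is polynomial-time computable. -/
theorem polyTime_bits {len : Inp → ℕ} {b : Inp → ℕ → Prop} (hlen : Def fun X _ => len X)
    (hb : DefP fun X v => b X (v 0)) :
    PolyTime id id (fun x : List Bool => bits (len (inp1 x)) (b (inp1 x))) := by
  obtain ⟨L, hL⟩ := hlen
  obtain ⟨B, hB⟩ := hb
  refine polyTime_gen (fun b : Bool => (false, b)) id id _ L (.const 1) B fun x => ?_
  have : (fun i => proj (fun b : Bool => (false, b)) i (id x)) = inp1 x := by
    funext i; exact proj_inp1 x i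
  rw [this, genOut_eq hL hB]
  rfl

/-- A definable relation is polynomial-time decidable. -/
theorem polyTime_pred {P : Inp → Prop} (hP : DefP fun X _ => P X) :
    PolyTime pairEnc encBool (fun z : List Bool × List Bool => decide (P (inp2 z.1 z.2))) := by
  obtain ⟨B, hB⟩ := hP
  refine polyTime_gen (fun s : Bool ⊕ Bool => (Sum.isRight s, Sum.elim id id s)) pairEnc encBool _
    (.const 1) (.const 1) B fun z => ?_
  have : (fun i => proj (fun s : Bool ⊕ Bool => (Sum.isRight s, Sum.elim id id s)) i (pairEnc z)) =
      inp2 z.1 z.2 := by
    funext i; exact proj_inp2 z.1 z.2 i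
  rw [this]
  simp [genOut, Exp.eval, encBool, hB]

/-- Languages in NP: there are a polynomial `p` and a polynomial-time relation `R` such that
`x ∈ L` iff some `y` of length `p |x|` has `R x y`. -/
def InNP (L : List Bool → Prop) : Prop :=
  ∃ (p : Polynomial ℕ) (R : List Bool × List Bool → Bool), PolyTime pairEnc encBool R ∧
    ∀ x, L x ↔ ∃ y : List Bool, y.length = p.eval x.length ∧ R (x, y) = true

/-- Counting functions in #P: `f x` is the number of strings `y` of length `p |x|` with
`R x y`, for a polynomial `p` and a polynomial-time relation `R`. -/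
def InSharpP (f : List Bool → ℕ) : Prop :=
  ∃ (p : Polynomial ℕ) (R : List Bool × List Bool → Bool), PolyTime pairEnc encBool R ∧
    ∀ x, f x = Nat.card {y : List Bool // y.length = p.eval x.length ∧ R (x, y) = true}

/-- Polynomial-time many-one reducibility. -/
def PolyReduces (L L' : List Bool → Prop) : Prop :=
  ∃ q : List Bool → List Bool, PolyTime id id q ∧ ∀ x, L x ↔ L' (q x)

/-- NP-hardness. -/
def NPHard (L : List Bool → Prop) : Prop := ∀ L', InNP L' → PolyReduces L' L

/-- NP-completeness. -/
def NPComplete (L : List Bool → Prop) : Prop := InNP L ∧ NPHard L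

theorem inNP_of_defP {L : List Bool → Prop} (p : Polynomial ℕ) {P : Inp → Prop}
    (hP : DefP fun X _ => P X)
    (h : ∀ x, L x ↔ ∃ y : List Bool, y.length = p.eval x.length ∧ P (inp2 x y)) : InNP L :=
  ⟨p, _, polyTime_pred hP, fun x => by simpa using h x⟩

theorem inSharpP_of_defP {f : List Bool → ℕ} (p : Polynomial ℕ) {P : Inp → Prop}
    (hP : DefP fun X _ => P X)
    (h : ∀ x, f x = Nat.card {y : List Bool // y.length = p.eval x.length ∧ P (inp2 x y)}) :
    InSharpP f :=
  ⟨p, _, polyTime_pred hP, fun x => by simpa using h x⟩

/-- A uniformly definable family of CNF formulas. -/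
structure CNFData where
  /-- number of variables -/
  n : Inp → ℕ
  /-- number of clauses -/
  m : Inp → ℕ
  /-- `lit X i s j`: variable `i` occurs with sign `s` (`1` positive, `0` negative) in clause `j` -/
  lit : Inp → ℕ → ℕ → ℕ → Prop
  def_n : Def fun X _ => n X
  def_m : Def fun X _ => m X
  def_lit : DefP fun X v => lit X (v 0) (v 1) (v 2)
  m_pos : ∀ X, 0 < m X
  /-- each variable has a clause containing no other variables -/
  pair : ∀ X, ∀ i < n X, ∃ j < m X, ∀ i' s', i' < n X → lit X i' s' j → i' = i

/-- Satisfaction. -/
def CNFData.Sat (Φ : CNFData) (X : Inp) (α : Fin (Φ.n X) → Bool) : Prop :=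
  ∀ j < Φ.m X, ∃ i : Fin (Φ.n X), Φ.lit X i.val (if α i = true then 1 else 0) j

/-- **Cook-Levin theorem**, parsimonious and uniform. -/
theorem cook_levin_data (p : Polynomial ℕ) (R : List Bool × List Bool → Bool)
    (hR : PolyTime pairEnc encBool R) :
    ∃ Φ : CNFData, ∀ X, Nat.card {y : List Bool // y.length = p.eval (X false).length ∧
          R (X false, y) = true} = Nat.card {α : Fin (Φ.n X) → Bool // Φ.Sat X α} := by
  obtain ⟨n, m, lit, h1, h2, h3, h4, h5, h6⟩ := cook_levin p R hR
  exact ⟨⟨n, m, lit, h1, h2, h3, h4, h5⟩, h6⟩

theorem cook_levin_sat (p : Polynomial ℕ) (R : List Bool × List Bool → Bool)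
    (hR : PolyTime pairEnc encBool R) :
    ∃ Φ : CNFData, ∀ X, (∃ y : List Bool, y.length = p.eval (X false).length ∧
          R (X false, y) = true) ↔ ∃ α : Fin (Φ.n X) → Bool, Φ.Sat X α := by
  obtain ⟨Φ, hΦ⟩ := cook_levin_data p R hR
  refine ⟨Φ, fun X => ?_⟩
  have hfin : Finite {y : List Bool // y.length = p.eval (X false).length ∧
      R (X false, y) = true} := by
    have : Finite {y : List Bool // y.length = p.eval (X false).length} :=
      (List.finite_length_eq Bool _).to_subtype
    refine Finite.of_injective (fun y : {y : List Bool // y.length = p.eval (X false).length ∧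
      R (X false, y) = true} => (⟨y.1, y.2.1⟩ :
        {y : List Bool // y.length = p.eval (X false).length})) ?_
    intro a b h
    exact Subtype.ext (Subtype.mk.inj h)
  have h1 : (∃ y : List Bool, y.length = p.eval (X false).length ∧
          R (X false, y) = true) ↔ Nat.card {y : List Bool // y.length = p.eval (X false).length ∧
          R (X false, y) = true} ≠ 0 := by
    rw [Ne, Finite.card_eq_zero_iff, not_isEmpty_iff, nonempty_subtype]
  have h2 : (∃ α : Fin (Φ.n X) → Bool, Φ.Sat X α) ↔
      Nat.card {α : Fin (Φ.n X) → Bool // Φ.Sat X α} ≠ 0 := by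
    rw [Ne, Finite.card_eq_zero_iff, not_isEmpty_iff, nonempty_subtype]
  rw [h1, h2, hΦ X]

/-- Criterion for NP-hardness: for each definable family of CNFs there is a string with definable
length and bits that belongs to the language iff the formula is satisfiable. -/
theorem npHard_of_cnf {L : List Bool → Prop}
    (h : ∀ Φ : CNFData, ∃ (len : Inp → ℕ) (b : Inp → ℕ → Prop), Def (fun X _ => len X) ∧
      DefP (fun X v => b X (v 0)) ∧
      ∀ X, (∃ α : Fin (Φ.n X) → Bool, Φ.Sat X α) ↔ L (bits (len X) (b X))) : NPHard L := by
  rintro L' ⟨p, R, hR, hL'⟩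
  obtain ⟨Φ, hΦ⟩ := cook_levin_sat p R hR
  obtain ⟨len, b, hlen, hb, h⟩ := h Φ
  refine ⟨_, polyTime_bits hlen hb, fun x => ?_⟩
  rw [hL' x, ← h (inp1 x), ← hΦ (inp1 x)]
  rfl

end Pool.Agent.Helper96
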