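import Mathlib

/-!
# Sets of branches in which the apart element of a triple is never in the middle
-/

namespace Pool.Agent.Helper96.Split

open Cardinal Set

variable {ι : Type} [LinearOrder ι]

/-- `x` and `y` first differ at `t`. -/
def FD (t : ι) (x y : ι → Bool) : Prop := (∀ u < t, x u = y u) ∧ x t ≠ y t

theorem FD.symm {t : ι} {x y : ι → Bool} (h : FD t x y) : FD t y x :=
  ⟨fun u hu => (h.1 u hu).symm, h.2.symm⟩

theorem FD.ne {t : ι} {x y : ι → Bool} (h : FD t x y) : x ≠ y := by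
  rintro rfl
  exact h.2 rfl

theorem FD.unique {t t' : ι} {x y : ι → Bool} (h : FD t x y) (h' : FD t' x y) : t = t' := by
  rcases lt_trichotomy t t' with hlt | rfl | hlt
  · exact absurd (h'.1 t hlt) h.2
  · rfl
  · exact absurd (h.1 t' hlt) h'.2

theorem exists_fd [WellFoundedLT ι] {x y : ι → Bool} (h : x ≠ y) : ∃ t, FD t x y := by
  classical
  have hne : ∃ t, x t ≠ y t := by
    by_contra hc
    push Not at hc
    exact h (funext hc)
  obtain ⟨t, ht, hmin⟩ := (wellFounded_lt (α := ι)).has_min {t | x t ≠ y t} hne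
  refine ⟨t, ?_, ht⟩
  intro u hu
  by_contra hc
  exact hmin u hc hu

/-- `x` splits off from `y` and `z` before these two split (or `y = z`). -/
def Apart (x y z : ι → Bool) : Prop := ∃ t, FD t x y ∧ ∀ u ≤ t, y u = z u

theorem Apart.symm {x y z : ι → Bool} (h : Apart x y z) : Apart x z y := by
  obtain ⟨t, h1, h2⟩ := h
  refine ⟨t, ⟨fun u hu => (h1.1 u hu).trans (h2 u hu.le), ?_⟩, fun u hu => (h2 u hu).symm⟩
  rw [← h2 t le_rfl]
  exact h1.2

variable {r : (ι → Bool) → (ι → Bool) → Prop} [IsWellOrder (ι → Bool) r]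

/-- the sides of a node are separated -/
theorem sep {X : Set (ι → Bool)}
    (hX : ∀ a ∈ X, ∀ b ∈ X, ∀ c ∈ X, Apart a b c → ¬ (r b a ∧ r a c))
    {t : ι} {x x' z z' : ι → Bool} (hx : x ∈ X) (hx' : x' ∈ X) (hz : z ∈ X) (hz' : z' ∈ X)
    (h1 : FD t x z) (h2 : ∀ u ≤ t, x u = x' u) (h3 : ∀ u ≤ t, z u = z' u)
    (h : r x z) : r x' z' := by
  have hA : Apart x z z' := ⟨t, h1, h3⟩
  have n1 := hX x hx z' hz' z hz hA.symm
  have hxz' : FD t x z' :=
    ⟨fun u hu => (h1.1 u hu).trans (h3 u hu.le), by rw [← h3 t le_rfl]; exact h1.2⟩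
  have r1 : r x z' := by
    rcases trichotomous_of r x z' with h4 | h4 | h4
    · exact h4
    · exact absurd h4 hxz'.ne
    · exact absurd ⟨h4, h⟩ n1
  have hB : Apart z' x x' := ⟨t, hxz'.symm, h2⟩
  have n2 := hX z' hz' x hx x' hx' hB
  have hx'z' : FD t x' z' :=
    ⟨fun u hu => (h2 u hu.le).symm.trans (hxz'.1 u hu), by rw [← h2 t le_rfl]; exact hxz'.2⟩
  rcases trichotomous_of r x' z' with h4 | h4 | h4
  · exact h4
  · exact absurd h4 hx'z'.ne
  · exact absurd ⟨r1, h4⟩ n2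

/-- least representatives of the classes of `agreement below α` -/
def Rep (r : (ι → Bool) → (ι → Bool) → Prop) (X : Set (ι → Bool)) (α : WithTop ι) :
    Set (ι → Bool) :=
  {x ∈ X | ∀ y ∈ X, (∀ t : ι, (t : WithTop ι) < α → y t = x t) → ¬ r y x}

theorem exists_rep (X : Set (ι → Bool)) (α : WithTop ι) {x : ι → Bool} (hx : x ∈ X) :
    ∃ y ∈ Rep r X α, ∀ t : ι, (t : WithTop ι) < α → y t = x t := by
  have hwf : WellFounded r := IsWellFounded.wf
  obtain ⟨y, hy, hmin⟩ := hwf.has_min {y | y ∈ X ∧ ∀ t : ι, (t : WithTop ι) < α → y t = x t}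
    ⟨x, hx, fun _ _ => rfl⟩
  refine ⟨y, ⟨hy.1, ?_⟩, hy.2⟩
  intro z hz hzy
  exact hmin z ⟨hz, fun t ht => (hzy t ht).trans (hy.2 t ht)⟩

theorem rep_top (X : Set (ι → Bool)) : Rep r X ⊤ = X := by
  ext x
  refine ⟨fun h => h.1, fun h => ⟨h, ?_⟩⟩
  intro y _ hyx
  have : y = x := funext fun t => hyx t (WithTop.coe_lt_top t)
  subst this
  exact irrefl_of r y

theorem card_rep [WellFoundedLT ι] {X : Set (ι → Bool)} {D : Set ι}
    (hD : ∀ x ∈ X, ∀ y ∈ X, ∀ t, FD t x y → t ∈ D)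
    (hX : ∀ a ∈ X, ∀ b ∈ X, ∀ c ∈ X, Apart a b c → ¬ (r b a ∧ r a c))
    (α : WithTop ι) : #(Rep r X α) ≤ max #D ℵ₀ := by
  classical
  induction α using WellFoundedLT.induction with
  | ind α ih =>
  have hwf : WellFounded r := IsWellFounded.wf
  set S : Set (ι → Bool) := {x ∈ Rep r X α | ∃ y ∈ Rep r X α, r x y} with hS
  -- the successor
  have hsucc : ∀ x : S, ∃ y ∈ Rep r X α, r x.1 y ∧ ∀ z ∈ Rep r X α, r x.1 z → ¬ r z y := by
    rintro ⟨x, hx, y, hy, hxy⟩
    obtain ⟨w, hw, hmin⟩ := hwf.has_min {w | w ∈ Rep r X α ∧ r x w} ⟨y, hy, hxy⟩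
    exact ⟨w, hw.1, hw.2, fun z hz hxz => hmin z ⟨hz, hxz⟩⟩
  choose sc hsc1 hsc2 hsc3 using hsucc
  have hfd : ∀ x : S, ∃ t : ι, FD t x.1 (sc x) := by
    intro x
    apply exists_fd
    intro h
    have := hsc2 x
    rw [← h] at this
    exact irrefl_of r _ this
  choose lv hlv using hfd
  have hlvα : ∀ x : S, (lv x : WithTop ι) < α := by
    intro x
    by_contra hc
    have hc' : α ≤ lv x := not_lt.mp hc
    refine (hsc1 x).2 x.1 x.2.1.1 ?_ (hsc2 x)
    intro t ht
    exact (hlv x).1 t (WithTop.coe_lt_coe.mp (ht.trans_le hc'))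
  have hlvD : ∀ x : S, lv x ∈ D := fun x =>
    hD x.1 x.2.1.1 (sc x) (hsc1 x).1 (lv x) (hlv x)
  have hrep : ∀ x : S, ∃ y ∈ Rep r X (lv x : WithTop ι), ∀ t : ι, t < lv x → y t = x.1 t := by
    intro x
    obtain ⟨y, hy, hy2⟩ := exists_rep (r := r) X (lv x : WithTop ι) x.2.1.1
    exact ⟨y, hy, fun t ht => hy2 t (WithTop.coe_lt_coe.mpr ht)⟩
  choose rp hrp1 hrp2 using hrep
  let Φ : S → Σ t : {t : ι // t ∈ D ∧ (t : WithTop ι) < α}, Rep r X (t.1 : WithTop ι) :=
    fun x => ⟨⟨lv x, hlvD x, hlvα x⟩, ⟨rp x, hrp1 x⟩⟩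
  -- no two elements have the same image
  have key : ∀ x x' : S, lv x = lv x' → rp x = rp x' → ¬ r x.1 x'.1 := by
    intro x x' hl hr hxx'
    have hagree : ∀ u < lv x, x.1 u = x'.1 u := by
      intro u hu
      rw [← hrp2 x u hu, hr, hrp2 x' u (hl ▸ hu)]
    have hF := hlv x
    have hF' := hlv x'
    rw [← hl] at hF'
    by_cases hv : x.1 (lv x) = x'.1 (lv x)
    · -- same side
      have h2 : ∀ u ≤ lv x, x.1 u = x'.1 u := by
        intro u hu
        rcases hu.lt_or_eq with hu | rfl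
        · exact hagree u hu
        · exact hv
      have h5 : r x'.1 (sc x) :=
        sep hX x.2.1.1 x'.2.1.1 (hsc1 x).1 (hsc1 x).1 hF h2 (fun _ _ => rfl) (hsc2 x)
      exact hsc3 x x'.1 x'.2.1 hxx' h5
    · -- opposite sides
      have e1 : ∀ u ≤ lv x, x.1 u = sc x' u := by
        intro u hu
        rcases hu.lt_or_eq with hu | rfl
        · rw [hagree u hu]; exact hF'.1 u hu
        · have a1 := hF'.2
          revert hv a1
          cases x.1 (lv x) <;> cases x'.1 (lv x) <;> cases sc x' (lv x) <;> simp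
      have e2 : ∀ u ≤ lv x, sc x u = x'.1 u := by
        intro u hu
        rcases hu.lt_or_eq with hu | rfl
        · rw [← hagree u hu]; exact (hF.1 u hu).symm
        · have a1 := hF.2
          revert hv a1
          cases x.1 (lv x) <;> cases x'.1 (lv x) <;> cases sc x (lv x) <;> simp
      have h5 : r (sc x') x'.1 :=
        sep hX x.2.1.1 (hsc1 x').1 (hsc1 x).1 x'.2.1.1 hF e1 e2 (hsc2 x)
      exact asymm_of r h5 (hsc2 x')
  have hΦ : Function.Injective Φ := by
    intro x x' h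
    have h1 : lv x = lv x' := by
      have := congrArg (fun p => p.1.1) h
      exact this
    have h2 : rp x = rp x' := by
      have := congrArg (fun p => p.2.1) h
      exact this
    rcases trichotomous_of r x.1 x'.1 with h4 | h4 | h4
    · exact absurd h4 (key x x' h1 h2)
    · exact Subtype.ext h4
    · exact absurd h4 (key x' x h1.symm h2.symm)
  have hSle : #S ≤ max #D ℵ₀ := by
    calc #S ≤ #(Σ t : {t : ι // t ∈ D ∧ (t : WithTop ι) < α}, Rep r X (t.1 : WithTop ι)) :=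
          mk_le_of_injective hΦ
      _ = Cardinal.sum fun t : {t : ι // t ∈ D ∧ (t : WithTop ι) < α} =>
            #(Rep r X (t.1 : WithTop ι)) := mk_sigma _
      _ ≤ Cardinal.sum fun _ : {t : ι // t ∈ D ∧ (t : WithTop ι) < α} => max #D ℵ₀ := by
          apply sum_le_sum
          rintro ⟨t, htD, htα⟩
          exact ih (t : WithTop ι) htα
      _ = #{t : ι // t ∈ D ∧ (t : WithTop ι) < α} * max #D ℵ₀ := by
          rw [sum_const']
      _ ≤ max #D ℵ₀ * max #D ℵ₀ := by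
          gcongr
          refine le_trans ?_ (le_max_left _ _)
          exact mk_subtype_mono (fun t ht => ht.1)
      _ = max #D ℵ₀ := mul_eq_self (le_max_right _ _)
  have hrest : (Rep r X α \ S).Subsingleton := by
    intro x hx y hy
    rcases trichotomous_of r x y with h4 | h4 | h4
    · exact absurd ⟨hx.1, y, hy.1, h4⟩ hx.2
    · exact h4
    · exact absurd ⟨hy.1, x, hx.1, h4⟩ hy.2
  have hrest' : #(Rep r X α \ S : Set (ι → Bool)) ≤ 1 := by
    rw [mk_le_one_iff_set_subsingleton]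
    exact hrest
  calc #(Rep r X α) ≤ #(S ∪ (Rep r X α \ S) : Set (ι → Bool)) :=
        mk_le_mk_of_subset (by intro x hx; by_cases h : x ∈ S <;> simp [h, hx])
    _ ≤ #S + #(Rep r X α \ S : Set (ι → Bool)) := mk_union_le _ _
    _ ≤ max #D ℵ₀ + max #D ℵ₀ := by
        gcongr
        exact hrest'.trans (one_le_aleph0.trans (le_max_right _ _))
    _ = max #D ℵ₀ := add_eq_self (le_max_right _ _)

/-- **Size bound.** -/
theorem card_le [WellFoundedLT ι] {X : Set (ι → Bool)} {D : Set ι}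
    (hD : ∀ x ∈ X, ∀ y ∈ X, ∀ t, FD t x y → t ∈ D)
    (hX : ∀ a ∈ X, ∀ b ∈ X, ∀ c ∈ X, Apart a b c → ¬ (r b a ∧ r a c)) :
    #X ≤ max #D ℵ₀ := by
  have := card_rep hD hX ⊤
  rwa [rep_top] at this

end Pool.Agent.Helper96.Split
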