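import Mathlib
import Pool.Agent.Helper96.Split1

/-!
# A triple system on `⊔ 2^{ω_n}` without complete quadruples
-/

namespace Pool.Agent.Helper96.Split

open Cardinal Set

variable {ι : Type} [LinearOrder ι]

theorem Apart.unique1 {x y z : ι → Bool} (h : Apart x y z) : ¬ Apart y x z := by
  rintro ⟨t', h1', h2'⟩
  obtain ⟨t, h1, h2⟩ := h
  have : t' = t := h1'.symm.unique h1
  subst this
  exact h1.2 ((h2' t' le_rfl).trans (h2 t' le_rfl).symm)

theorem Apart.unique2 {x y z : ι → Bool} (h : Apart x y z) : ¬ Apart z x y :=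
  fun h' => h.symm.unique1 h'.symm.symm

variable (r : (ι → Bool) → (ι → Bool) → Prop) 

/-- the apart element of the triple is `x` and it is in the middle -/
def Mid (x y z : ι → Bool) : Prop := Apart x y z ∧ ((r y x ∧ r x z) ∨ (r z x ∧ r x y))

/-- the apart element of the triple is in the middle -/
def M (x y z : ι → Bool) : Prop := Mid r x y z ∨ Mid r y x z ∨ Mid r z x y

variable {r}

theorem Mid.symm {x y z : ι → Bool} (h : Mid r x y z) : Mid r x z y :=
  ⟨h.1.symm, h.2.symm⟩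

theorem M.mid {x y z : ι → Bool} (h : M r x y z) (ha : Apart x y z) :
    (r y x ∧ r x z) ∨ (r z x ∧ r x y) := by
  rcases h with h | h | h
  · exact h.2
  · exact absurd h.1 ha.unique1
  · exact absurd h.1 ha.unique2

theorem M.swap12 {x y z : ι → Bool} (h : M r x y z) : M r y x z := by
  rcases h with h | h | h
  · exact Or.inr (Or.inl h)
  · exact Or.inl h
  · exact Or.inr (Or.inr h.symm)

theorem M.swap23 {x y z : ι → Bool} (h : M r x y z) : M r x z y := by
  rcases h with h | h | h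
  · exact Or.inl h.symm
  · exact Or.inr (Or.inr h)
  · exact Or.inr (Or.inl h)

theorem quad_aux [WellFoundedLT ι] [IsWellOrder (ι → Bool) r] {a b c d : ι → Bool}
    (hda : d ≠ a) (hdb : d ≠ b) (h1 : Apart a b c) (hba : r b a) (hac : r a c)
    (h2 : M r a b d) (h3 : M r a c d) (h4 : M r b c d) : False := by
  obtain ⟨t, hab, hbc⟩ := h1
  obtain ⟨u, hu⟩ := exists_fd hda
  obtain ⟨v, hv⟩ := exists_fd hdb
  have hacF : FD t a c := ⟨fun w hw => (hab.1 w hw).trans (hbc w hw.le), by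
    rw [← hbc t le_rfl]; exact hab.2⟩
  by_cases hc1 : ∀ w ≤ t, d w = b w
  · -- `d` on the side of `b`
    have e1 : Apart a b d := ⟨t, hab, fun w hw => (hc1 w hw).symm⟩
    have e2 : Apart a c d := ⟨t, hacF, fun w hw => ((hc1 w hw).trans (hbc w hw)).symm⟩
    have f1 : r a d := by
      rcases h2.mid e1 with h | h
      · exact h.2
      · exact absurd h.2 (asymm_of r hba)
    have f2 : r d a := by
      rcases h3.mid e2 with h | h
      · exact absurd h.1 (asymm_of r hac)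
      · exact h.1
    exact asymm_of r f1 f2
  · by_cases hc2 : ∀ w ≤ t, d w = a w
    · -- `d` on the side of `a`
      have e1 : Apart b a d := ⟨t, hab.symm, fun w hw => (hc2 w hw).symm⟩
      have e2 : Apart c a d := ⟨t, hacF.symm, fun w hw => (hc2 w hw).symm⟩
      have f1 : r d b := by
        rcases h2.swap12.mid e1 with h | h
        · exact absurd h.1 (asymm_of r hba)
        · exact h.1
      have f2 : r c d := by
        rcases h3.swap12.mid e2 with h | h
        · exact h.2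
        · exact absurd h.2 (asymm_of r hac)
      exact asymm_of r (trans_of r f1 (trans_of r hba hac)) f2
    · -- `d` splits off first
      have hut : u < t := by
        by_contra hge
        push Not at hge
        rcases hge.lt_or_eq with hlt | heq
        · -- `d` agrees with `a` up to `t`
          exact hc2 fun w hw => hu.1 w (hw.trans_lt hlt)
        · subst heq
          -- `d` and `a` differ at `t`, so `d` agrees with `b`
          refine hc1 fun w hw => ?_
          rcases hw.lt_or_eq with hw | rfl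
          · exact (hu.1 w hw).trans (hab.1 w hw)
          · have a1 := hu.2
            have a2 := hab.2
            revert a1 a2
            cases d w <;> cases a w <;> cases b w <;> simp
      have e1 : Apart d a b := ⟨u, hu, fun w hw => hab.1 w (hw.trans_lt hut)⟩
      have e2 : Apart d a c := ⟨u, hu, fun w hw => hacF.1 w (hw.trans_lt hut)⟩
      have f1 : r d a := by
        rcases (h2.swap23.swap12).mid e1 with h | h
        · exact absurd (trans_of r h.1 h.2) (asymm_of r hba)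
        · exact h.2
      have f2 : r a d := by
        rcases (h3.swap23.swap12).mid e2 with h | h
        · exact h.1
        · exact absurd (trans_of r h.1 h.2) (asymm_of r hac)
      exact asymm_of r f1 f2

theorem quad [WellFoundedLT ι] [IsWellOrder (ι → Bool) r] {a b c d : ι → Bool}
    (hda : d ≠ a) (hdb : d ≠ b) (hdc : d ≠ c)
    (h1 : M r a b c) (h2 : M r a b d) (h3 : M r a c d) (h4 : M r b c d) : False := by
  rcases h1 with h | h | h
  · rcases h.2 with g | g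
    · exact quad_aux hda hdb h.1 g.1 g.2 h2 h3 h4
    · exact quad_aux hda hdc h.1.symm g.1 g.2 h3 h2 h4.swap12
  · rcases h.2 with g | g
    · exact quad_aux hdb hda h.1 g.1 g.2 h2.swap12 h4 h3
    · exact quad_aux hdb hdc h.1.symm g.1 g.2 h4 h2.swap12 h3.swap12
  · rcases h.2 with g | g
    · exact quad_aux hdc hda h.1 g.1 g.2 h3.swap12 h4.swap12 h2
    · exact quad_aux hdc hdb h.1.symm g.1 g.2 h4.swap12 h3.swap12 h2.swap12

variable (r)
/-- the graph on `2^ι` attached to the number `m` -/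
def G (B : ι → Set ℕ) (m : ℕ) (x y : ι → Bool) : Prop :=
  (r x y ∧ ∃ t, FD t x y ∧ (m ∈ B t ↔ x t = true)) ∨
  (r y x ∧ ∃ t, FD t x y ∧ (m ∈ B t ↔ y t = true))
variable {r}

theorem G.symm {B : ι → Set ℕ} {m : ℕ} {x y : ι → Bool} (h : G r B m x y) : G r B m y x := by
  rcases h with ⟨h1, t, h2, h3⟩ | ⟨h1, t, h2, h3⟩
  · exact Or.inr ⟨h1, t, h2.symm, h3⟩
  · exact Or.inl ⟨h1, t, h2.symm, h3⟩

theorem G.of_rel [IsWellOrder (ι → Bool) r] {B : ι → Set ℕ} {m : ℕ} {x y : ι → Bool}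
    (h : G r B m x y) (hxy : r x y) {t : ι} (ht : FD t x y) : m ∈ B t ↔ x t = true := by
  rcases h with ⟨_, t', h2, h3⟩ | ⟨h1, _⟩
  · rwa [h2.unique ht] at h3
  · exact absurd h1 (asymm_of r hxy)

theorem triple_aux [IsWellOrder (ι → Bool) r] {B : ι → Set ℕ} {m : ℕ} {a b c : ι → Bool}
    (h : Mid r a b c) (h1 : G r B m a b) (h2 : G r B m a c) : False := by
  obtain ⟨⟨t, hab, hbc⟩, h⟩ := h
  have hac : FD t a c := ⟨fun w hw => (hab.1 w hw).trans (hbc w hw.le), by
    rw [← hbc t le_rfl]; exact hab.2⟩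
  rcases h with ⟨g1, g2⟩ | ⟨g1, g2⟩
  · have e1 := h1.symm.of_rel g1 hab.symm
    have e2 := h2.of_rel g2 hac
    have := e1.symm.trans e2
    have n := hab.2
    revert this n
    cases a t <;> cases b t <;> simp
  · have e1 := h2.symm.of_rel g1 hac.symm
    have e2 := h1.of_rel g2 hab
    have := e1.symm.trans e2
    have n := hac.2
    revert this n
    cases a t <;> cases c t <;> simp

theorem triple [IsWellOrder (ι → Bool) r] {B : ι → Set ℕ} {m : ℕ} {a b c : ι → Bool}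
    (h : M r a b c) (h1 : G r B m a b) (h2 : G r B m a c) (h3 : G r B m b c) : False := by
  rcases h with h | h | h
  · exact triple_aux h h1 h2
  · exact triple_aux h h1.symm h3
  · exact triple_aux h h2.symm h3.symm

variable (r) in
/-- ordered form of the edges -/
def Edge (B : ι → Set ℕ) (p q w : ℕ × (ι → Bool)) : Prop :=
  (p.1 = q.1 ∧ p.1 = w.1 ∧ Apart p.2 q.2 w.2 ∧ r q.2 p.2 ∧ r p.2 w.2) ∨
  (p.1 = q.1 ∧ p.1 < w.1 ∧ r p.2 q.2 ∧ ∃ t, FD t p.2 q.2 ∧ (w.1 ∈ B t ↔ p.2 t = true))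

variable (r) in
/-- symmetrised edges -/
def SE (B : ι → Set ℕ) (p q w : ℕ × (ι → Bool)) : Prop :=
  Edge r B p q w ∨ Edge r B p w q ∨ Edge r B q p w ∨ Edge r B q w p ∨ Edge r B w p q ∨
    Edge r B w q p

theorem SE.swap12 {B : ι → Set ℕ} {p q w : ℕ × (ι → Bool)} (h : SE r B p q w) :
    SE r B q p w := by
  unfold SE at h ⊢; tauto

theorem SE.swap23 {B : ι → Set ℕ} {p q w : ℕ × (ι → Bool)} (h : SE r B p q w) :
    SE r B p w q := by
  unfold SE at h ⊢; tauto

theorem SE.same {B : ι → Set ℕ} {p q w : ℕ × (ι → Bool)} (h : SE r B p q w)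
    (h1 : p.1 = q.1) (h2 : p.1 = w.1) : M r p.2 q.2 w.2 := by
  have h3 : q.1 = w.1 := h1.symm.trans h2
  rcases h with h | h | h | h | h | h <;> rcases h with ⟨_, _, ha, hb, hc⟩ | ⟨_, hlt, _⟩
  · exact Or.inl ⟨ha, Or.inl ⟨hb, hc⟩⟩
  · omega
  · exact Or.inl (Mid.symm ⟨ha, Or.inl ⟨hb, hc⟩⟩)
  · omega
  · exact Or.inr (Or.inl ⟨ha, Or.inl ⟨hb, hc⟩⟩)
  · omega
  · exact Or.inr (Or.inl (Mid.symm ⟨ha, Or.inl ⟨hb, hc⟩⟩))
  · omega
  · exact Or.inr (Or.inr ⟨ha, Or.inl ⟨hb, hc⟩⟩)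
  · omega
  · exact Or.inr (Or.inr (Mid.symm ⟨ha, Or.inl ⟨hb, hc⟩⟩))
  · omega

theorem SE.graph {B : ι → Set ℕ} {p q w : ℕ × (ι → Bool)} (h : SE r B p q w)
    (h1 : p.1 = q.1) (h2 : p.1 < w.1) : G r B w.1 p.2 q.2 := by
  rcases h with h | h | h | h | h | h <;>
    rcases h with ⟨_, _, ha, hb, hc⟩ | ⟨_, hlt, ha, t, hb, hc⟩
  · omega
  · exact Or.inl ⟨ha, t, hb, hc⟩
  · omega
  · omega
  · omega
  · exact Or.inr ⟨ha, t, hb.symm, hc⟩
  · omega
  · omega
  · omega
  · omega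
  · omega
  · omega

theorem SE.not_low {B : ι → Set ℕ} {p q w : ℕ × (ι → Bool)} (h : SE r B p q w)
    (h1 : p.1 < q.1) (h2 : p.1 < w.1) : False := by
  rcases h with h | h | h | h | h | h <;>
    rcases h with ⟨_, _, ha, hb, hc⟩ | ⟨_, hlt, ha, t, hb, hc⟩ <;> omega

theorem no_quad_min [WellFoundedLT ι] [IsWellOrder (ι → Bool) r] {B : ι → Set ℕ}
    {p q w v : ℕ × (ι → Bool)} (hpv : p ≠ v) (hqv : q ≠ v) (hwv : w ≠ v)
    (h1 : SE r B p q w) (h2 : SE r B p q v) (h3 : SE r B p w v) (h4 : SE r B q w v)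
    (m1 : p.1 ≤ q.1) (m2 : p.1 ≤ w.1) (m3 : p.1 ≤ v.1) : False := by
  rcases m1.lt_or_eq with l1 | l1 <;> rcases m2.lt_or_eq with l2 | l2 <;>
    rcases m3.lt_or_eq with l3 | l3
  · exact h1.not_low l1 l2
  · exact h1.not_low l1 l2
  · exact h2.not_low l1 l3
  · -- `q` high, `p w v` low
    exact triple (h3.same l2 l3) (h1.swap23.graph l2 l1) (h2.swap23.graph l3 l1)
      (h4.swap12.swap23.graph (l2.symm.trans l3) (by omega))
  · exact h3.not_low l2 l3
  · -- `w` high
    exact triple (h2.same l1 l3) (h1.graph l1 l2) (h3.swap23.graph l3 l2)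
      (h4.swap23.graph (l1.symm.trans l3) (by omega))
  · -- `v` high
    exact triple (h1.same l1 l2) (h2.graph l1 l3) (h3.graph l2 l3)
      (h4.graph (l1.symm.trans l2) (by omega))
  · have e1 : v.2 ≠ p.2 := fun h => hpv (Prod.ext l3 h.symm)
    have e2 : v.2 ≠ q.2 := fun h => hqv (Prod.ext (l1.symm.trans l3) h.symm)
    have e3 : v.2 ≠ w.2 := fun h => hwv (Prod.ext (l2.symm.trans l3) h.symm)
    exact quad e1 e2 e3 (h1.same l1 l2) (h2.same l1 l3) (h3.same l2 l3)
      (h4.same (l1.symm.trans l2) (l1.symm.trans l3))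

/-- **There is no complete quadruple.** -/
theorem no_quad [WellFoundedLT ι] [IsWellOrder (ι → Bool) r] {B : ι → Set ℕ}
    {p q w v : ℕ × (ι → Bool)} (hpq : p ≠ q) (hpw : p ≠ w) (hqw : q ≠ w)
    (hpv : p ≠ v) (hqv : q ≠ v) (hwv : w ≠ v)
    (h1 : SE r B p q w) (h2 : SE r B p q v) (h3 : SE r B p w v) (h4 : SE r B q w v) :
    False := by
  have hmin : (p.1 ≤ q.1 ∧ p.1 ≤ w.1 ∧ p.1 ≤ v.1) ∨ (q.1 ≤ p.1 ∧ q.1 ≤ w.1 ∧ q.1 ≤ v.1) ∨
      (w.1 ≤ p.1 ∧ w.1 ≤ q.1 ∧ w.1 ≤ v.1) ∨ (v.1 ≤ p.1 ∧ v.1 ≤ q.1 ∧ v.1 ≤ w.1) := by omega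
  rcases hmin with ⟨m1, m2, m3⟩ | ⟨m1, m2, m3⟩ | ⟨m1, m2, m3⟩ | ⟨m1, m2, m3⟩
  · exact no_quad_min hpv hqv hwv h1 h2 h3 h4 m1 m2 m3
  · exact no_quad_min hqv hpv hwv h1.swap12 h2.swap12 h4 h3 m1 m2 m3
  · exact no_quad_min hwv hpv hqv h1.swap23.swap12 h3.swap12 h4.swap12 h2 m1 m2 m3
  · exact no_quad_min (Ne.symm hwv) hpw hqw h2.swap23.swap12 h3.swap23.swap12
      h4.swap23.swap12 h1 m1 m2 m3

end Pool.Agent.Helper96.Split
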