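import Mathlib
import Pool.Agent.Helper96.Split2

/-!
# Independent sets of the triple system
-/

namespace Pool.Agent.Helper96.Split

open Cardinal Set Ordinal

variable {ι : Type} [LinearOrder ι]

/-- levels at which two members of `X` split -/
def lev (X : Set (ι → Bool)) : Set ι := {t | ∃ x ∈ X, ∃ y ∈ X, FD t x y}

variable {r : (ι → Bool) → (ι → Bool) → Prop}

theorem block_bound [WellFoundedLT ι] [IsWellOrder (ι → Bool) r] {X : Set (ι → Bool)}
    (hM : ∀ a ∈ X, ∀ b ∈ X, ∀ c ∈ X, ¬ M r a b c) : #X ≤ max #(lev X) ℵ₀ := by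
  apply card_le (r := r) (D := lev X)
  · intro x hx y hy t ht
    exact ⟨x, hx, y, hy, ht⟩
  · intro a ha b hb c hc h1 h2
    exact hM a ha b hb c hc (Or.inl ⟨h1, Or.inl h2⟩)

theorem nonsplit [IsWellOrder (ι → Bool) r] {B : ι → Set ℕ} {X : Set (ι → Bool)}
    {A : Set ℕ} {n : ℕ} (hG : ∀ m ∈ A, n < m → ∀ x ∈ X, ∀ y ∈ X, ¬ G r B m x y) {t : ι}
    (ht : t ∈ lev X) : (A ∩ B t).Finite ∨ (A \ B t).Finite := by
  obtain ⟨x, hx, y, hy, hxy⟩ := ht
  -- choose the smaller one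
  obtain ⟨u, v, hu, hv, huv, hr⟩ : ∃ u v, u ∈ X ∧ v ∈ X ∧ FD t u v ∧ r u v := by
    rcases trichotomous_of r x y with h | h | h
    · exact ⟨x, y, hx, hy, hxy, h⟩
    · exact absurd h hxy.ne
    · exact ⟨y, x, hy, hx, hxy.symm, h⟩
  have key : ∀ m ∈ A, n < m → ¬ (m ∈ B t ↔ u t = true) := by
    intro m hm hnm h
    exact hG m hm hnm u hu v hv (Or.inl ⟨hr, t, huv, h⟩)
  cases hut : u t with
  | true =>
    left
    apply (Set.finite_Iic n).subset
    rintro m ⟨hm, hmB⟩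
    by_contra hc
    exact key m hm (not_le.mp hc) (by simp [hmB, hut])
  | false =>
    right
    apply (Set.finite_Iic n).subset
    rintro m ⟨hm, hmB⟩
    by_contra hc
    exact key m hm (not_le.mp hc) (by simp [hmB, hut])

/-- In a sum of countably many sets whose sizes are bounded by `ν` the size is bounded. -/
theorem card_sigma_bound {α : Type} (H : Set (ℕ × α)) {ν : Cardinal.{0}} (hν : ℵ₀ ≤ ν)
    (h : ∀ n, #{x | (n, x) ∈ H} ≤ ν) : #H ≤ ν := by
  have e : H ⊆ ⋃ n : ℕ, (fun x => (n, x)) '' {x | (n, x) ∈ H} := by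
    rintro ⟨n, x⟩ hx
    exact mem_iUnion.mpr ⟨n, x, hx, rfl⟩
  calc #H ≤ #(⋃ n : ℕ, (fun x => (n, x)) '' {x | (n, x) ∈ H} : Set (ℕ × α)) :=
        mk_le_mk_of_subset e
    _ ≤ Cardinal.sum fun n : ℕ => #((fun x => (n, x)) '' {x | (n, x) ∈ H} : Set (ℕ × α)) :=
        mk_iUnion_le_sum_mk
    _ ≤ Cardinal.sum fun _ : ℕ => ν := sum_le_sum _ _ fun n => mk_image_le.trans (h n)
    _ = ℵ₀ * ν := by rw [sum_const']; simp
    _ ≤ ν * ν := by gcongr
    _ = ν := mul_eq_self hν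

/-- the hypothesis on the family `B` indexed by the ordered set `ι` -/
def Good (B : ι → Set ℕ) : Prop :=
  ∀ A : Set ℕ, A.Infinite → #{t | (A ∩ B t).Finite ∨ (A \ B t).Finite} < ℵ_ ω

theorem aleph_lt_omega (n : ℕ) : ℵ_ (n : Ordinal.{0}) < ℵ_ ω :=
  aleph_lt_aleph.mpr (natCast_lt_omega0 n)

theorem aleph0_lt_omega : ℵ₀ < ℵ_ (ω : Ordinal.{0}) := by
  rw [← aleph_zero]
  exact aleph_lt_aleph.mpr omega0_pos

/-- **Independent sets are small.** -/
theorem indep_small [WellFoundedLT ι] [IsWellOrder (ι → Bool) r] {B : ι → Set ℕ}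
    (hB : Good B) (J : ℕ → Set ι) (hJ : ∀ n : ℕ, #(J n) = ℵ_ (n : Ordinal))
    (H : Set (ℕ × (ι → Bool))) (hH : ∀ p ∈ H, ∀ t ∉ J p.1, p.2 t = false)
    (hI : ∀ p ∈ H, ∀ q ∈ H, ∀ w ∈ H, ¬ Edge r B p q w) : #H < ℵ_ ω := by
  set X : ℕ → Set (ι → Bool) := fun n => {x | (n, x) ∈ H} with hX
  have hM : ∀ n, ∀ a ∈ X n, ∀ b ∈ X n, ∀ c ∈ X n, ¬ M r a b c := by
    intro n a ha b hb c hc h
    have main : ∀ a ∈ X n, ∀ b ∈ X n, ∀ c ∈ X n, ¬ Mid r a b c := by
      intro a ha b hb c hc h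
      rcases h.2 with g | g
      · exact hI (n, a) ha (n, b) hb (n, c) hc (Or.inl ⟨rfl, rfl, h.1, g.1, g.2⟩)
      · exact hI (n, a) ha (n, c) hc (n, b) hb (Or.inl ⟨rfl, rfl, h.1.symm, g.1, g.2⟩)
    rcases h with h | h | h
    · exact main a ha b hb c hc h
    · exact main b hb a ha c hc h
    · exact main c hc a ha b hb h
  have hlev : ∀ n, lev (X n) ⊆ J n := by
    rintro n t ⟨x, hx, y, hy, hxy⟩
    by_contra hc
    have h1 : x t = false := hH (n, x) hx t hc
    have h2 : y t = false := hH (n, y) hy t hc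
    exact hxy.2 (h1.trans h2.symm)
  by_cases hA : {n | (X n).Nonempty}.Infinite
  · set A := {n | (X n).Nonempty} with hAdef
    set T := {t | (A ∩ B t).Finite ∨ (A \ B t).Finite} with hT
    have hTlt : #T < ℵ_ ω := hB A hA
    have hbd : ∀ n, #(X n) ≤ max #T ℵ₀ := by
      intro n
      refine (block_bound (hM n)).trans ?_
      apply max_le_max _ le_rfl
      apply mk_le_mk_of_subset
      intro t ht
      refine nonsplit (r := r) (n := n) ?_ ht
      rintro m ⟨z, hz⟩ hnm x hx y hy hG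
      rcases hG with ⟨h1, t', h2, h3⟩ | ⟨h1, t', h2, h3⟩
      · exact hI (n, x) hx (n, y) hy (m, z) hz (Or.inr ⟨rfl, hnm, h1, t', h2, h3⟩)
      · exact hI (n, y) hy (n, x) hx (m, z) hz (Or.inr ⟨rfl, hnm, h1, t', h2.symm, h3⟩)
    exact (card_sigma_bound H (le_max_right _ _) hbd).trans_lt
      (max_lt hTlt aleph0_lt_omega)
  · rw [Set.not_infinite] at hA
    obtain ⟨N, hN⟩ := hA.bddAbove
    have hbd : ∀ n, #(X n) ≤ ℵ_ (N : Ordinal) := by
      intro n
      by_cases hn : (X n).Nonempty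
      · have hnN : n ≤ N := hN hn
        refine (block_bound (hM n)).trans ?_
        apply max_le _ (aleph0_le_aleph _)
        refine (mk_le_mk_of_subset (hlev n)).trans ?_
        rw [hJ n]
        exact aleph_le_aleph.mpr (by exact_mod_cast hnN)
      · rw [Set.not_nonempty_iff_eq_empty] at hn
        rw [hn]
        simp
    exact (card_sigma_bound H (aleph0_le_aleph _) hbd).trans_lt (aleph_lt_omega N)

end Pool.Agent.Helper96.Split
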