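import Mathlib
import Pool.Agent.Helper96.Split3

/-!
# Combs in large sets of branches without crossing pairs
-/

namespace Pool.Agent.Helper96.Split

open Cardinal Set Ordinal

variable {K : Type} [LinearOrder K]

theorem FD.lt_of {a b c : K → Bool} {s t : K} (h1 : FD s a b) (h2 : FD s a c) (h3 : FD t b c) :
    s < t := by
  rcases lt_trichotomy s t with h | h | h
  · exact h
  · subst h
    have a1 := h1.2
    have a2 := h2.2
    have a3 := h3.2
    revert a1 a2 a3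
    cases a s <;> cases b s <;> cases c s <;> simp
  · exact absurd ((h1.1 t h).symm.trans (h2.1 t h)) h3.2

theorem FD.no3 {a b c : K → Bool} {t : K} (h1 : FD t a b) (h2 : FD t a c) (h3 : FD t b c) :
    False := lt_irrefl _ (h1.lt_of h2 h3)

/-- if `a` and `b` both split from `c` at `t`, they agree up to `t` -/
theorem FD.agree {a b c : K → Bool} {t : K} (h1 : FD t a c) (h2 : FD t b c) :
    ∀ u ≤ t, a u = b u := by
  intro u hu
  rcases hu.lt_or_eq with hu | rfl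
  · exact (h1.1 u hu).trans (h2.1 u hu).symm
  · have a1 := h1.2
    have a2 := h2.2
    revert a1 a2
    cases a u <;> cases b u <;> cases c u <;> simp

theorem FD.of_agree_right {a b c : K → Bool} {t : K} (h1 : FD t a b) (h2 : ∀ u ≤ t, b u = c u) :
    FD t a c :=
  ⟨fun u hu => (h1.1 u hu).trans (h2 u hu.le), by rw [← h2 t le_rfl]; exact h1.2⟩

theorem FD.of_agree_left {a b c : K → Bool} {t : K} (h1 : FD t a b) (h2 : ∀ u ≤ t, a u = c u) :
    FD t c b := (h1.symm.of_agree_right h2).symm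

variable {R : (K → Bool) → (K → Bool) → Prop} [IsWellOrder (K → Bool) R]

/-- no crossing balanced quadruple -/
def NoCross (R : (K → Bool) → (K → Bool) → Prop) (X : Set (K → Bool)) : Prop :=
  ∀ a ∈ X, ∀ b ∈ X, ∀ c ∈ X, ∀ d ∈ X, ∀ t, FD t a c → (∀ u ≤ t, a u = b u) →
    (∀ u ≤ t, c u = d u) → ¬ (R a c ∧ R c b ∧ R b d)

theorem mk_emptyc' {α : Type} : #(∅ : Set α) = 0 := by simp

omit [LinearOrder K] in
theorem initial_part (R : (K → Bool) → (K → Bool) → Prop) [IsWellOrder (K → Bool) R]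
    {X : Set (K → Bool)} {κ : Cardinal.{0}} (hX : κ ≤ #X) :
    ∃ X₁ ⊆ X, κ ≤ #X₁ ∧ ∀ x ∈ X₁, #{y ∈ X₁ | R y x} < κ := by
  have hwf : WellFounded R := IsWellFounded.wf
  refine ⟨{x ∈ X | #{y ∈ X | R y x} < κ}, fun x hx => hx.1, ?_, ?_⟩
  · by_cases h : ∃ x ∈ X, ¬ #{y ∈ X | R y x} < κ
    · obtain ⟨x, ⟨hx, hxκ⟩, hmin⟩ :=
        hwf.has_min {x | x ∈ X ∧ ¬ #{y ∈ X | R y x} < κ} (by obtain ⟨x, h1, h2⟩ := h; exact ⟨x, h1, h2⟩)
      refine (not_lt.mp hxκ).trans (mk_le_mk_of_subset ?_)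
      rintro y ⟨hy, hyx⟩
      refine ⟨hy, ?_⟩
      by_contra hc
      exact hmin y ⟨hy, hc⟩ hyx
    · push Not at h
      refine hX.trans (mk_le_mk_of_subset ?_)
      intro x hx
      exact ⟨hx, h x hx⟩
  · intro x hx
    refine lt_of_le_of_lt (mk_le_mk_of_subset ?_) hx.2
    intro y hy
    exact ⟨hy.1.1, hy.2⟩

section

variable {X : Set (K → Bool)} {κ : Cardinal.{0}}

omit [LinearOrder K] in
theorem bounded (hκ : κ.IsRegular) (hX : κ ≤ #X) (hseg : ∀ x ∈ X, #{y ∈ X | R y x} < κ)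
    {Y : Set (K → Bool)} (hYX : Y ⊆ X) (hY : #Y < κ) : ∃ β ∈ X, ∀ y ∈ Y, R y β := by
  by_contra hc
  push Not at hc
  have hsub : X ⊆ ⋃ y : Y, ({z ∈ X | R z y.1} ∪ {y.1}) := by
    intro z hz
    obtain ⟨y, hy, hyz⟩ := hc z hz
    rw [mem_iUnion]
    refine ⟨⟨y, hy⟩, ?_⟩
    rcases trichotomous_of R z y with h | h | h
    · exact Or.inl ⟨hz, h⟩
    · exact Or.inr h
    · exact absurd h hyz
  have hlt : #(⋃ y : Y, ({z ∈ X | R z y.1} ∪ {y.1}) : Set (K → Bool)) < κ := by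
    refine lt_of_le_of_lt (mk_iUnion_le_sum_mk) ?_
    apply sum_lt_of_isRegular hκ hY
    intro y
    refine lt_of_le_of_lt (mk_union_le _ _) ?_
    apply add_lt_of_lt hκ.aleph0_le (hseg y.1 (hYX y.2))
    rw [mk_singleton]
    exact one_lt_aleph0.trans_le hκ.aleph0_le
  exact absurd ((mk_le_mk_of_subset hsub).trans_lt hlt) (not_lt.mpr hX)

omit [LinearOrder K] in
theorem above (hκ : κ.IsRegular) (hseg : ∀ x ∈ X, #{y ∈ X | R y x} < κ)
    {Y : Set (K → Bool)} (hYX : Y ⊆ X) (hY : κ ≤ #Y) {x : K → Bool} (hx : x ∈ X) :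
    ∃ y ∈ Y, R x y := by
  by_contra hc
  push Not at hc
  have hsub : Y ⊆ {y ∈ X | R y x} ∪ {x} := by
    intro y hy
    rcases trichotomous_of R x y with h | h | h
    · exact absurd h (hc y hy)
    · exact Or.inr h.symm
    · exact Or.inl ⟨hYX hy, h⟩
  have hlt : #({y ∈ X | R y x} ∪ {x} : Set (K → Bool)) < κ := by
    refine lt_of_le_of_lt (mk_union_le _ _) ?_
    apply add_lt_of_lt hκ.aleph0_le (hseg x hx)
    rw [mk_singleton]
    exact one_lt_aleph0.trans_le hκ.aleph0_le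
  exact absurd ((mk_le_mk_of_subset hsub).trans_lt hlt) (not_lt.mpr hY)

/-- at a splitting level at most one side is large -/
theorem one_side (hκ : κ.IsRegular) (hseg : ∀ x ∈ X, #{y ∈ X | R y x} < κ)
    (hcr : NoCross R X) {t : K} {a c : K → Bool} (hac : FD t a c)
    (h1 : κ ≤ #{y ∈ X | ∀ u ≤ t, a u = y u}) (h2 : κ ≤ #{y ∈ X | ∀ u ≤ t, c u = y u}) :
    False := by
  have hκ0 : 0 < κ := hκ.pos
  have ne1 : {y ∈ X | ∀ u ≤ t, a u = y u}.Nonempty := by
    rw [Set.nonempty_iff_ne_empty]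
    intro h
    rw [h, mk_emptyc'] at h1
    exact absurd hκ0 (not_lt.mpr h1)
  obtain ⟨a₀, ha₀⟩ := ne1
  obtain ⟨c₀, hc₀, hr1⟩ := above hκ hseg (fun y hy => hy.1) h2 ha₀.1
  obtain ⟨b₀, hb₀, hr2⟩ := above hκ hseg (fun y hy => hy.1) h1 hc₀.1
  obtain ⟨d₀, hd₀, hr3⟩ := above hκ hseg (fun y hy => hy.1) h2 hb₀.1
  refine hcr a₀ ha₀.1 b₀ hb₀.1 c₀ hc₀.1 d₀ hd₀.1 t ?_ ?_ ?_ ⟨hr1, hr2, hr3⟩
  · exact (hac.of_agree_left ha₀.2).of_agree_right hc₀.2
  · exact fun u hu => (ha₀.2 u hu).symm.trans (hb₀.2 u hu)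
  · exact fun u hu => (hc₀.2 u hu).symm.trans (hd₀.2 u hu)

/-- large sides agree -/
theorem large_agree [WellFoundedLT K] (hκ : κ.IsRegular) (hseg : ∀ x ∈ X, #{y ∈ X | R y x} < κ)
    (hcr : NoCross R X) {t : K} {a c : K → Bool}
    (h1 : κ ≤ #{y ∈ X | ∀ u ≤ t, a u = y u}) (h2 : κ ≤ #{y ∈ X | ∀ u ≤ t, c u = y u}) :
    ∀ u ≤ t, a u = c u := by
  by_contra hc
  have hne : a ≠ c := by
    rintro rfl
    exact hc fun _ _ => rfl
  obtain ⟨s, hs⟩ := exists_fd hne
  have hst : s ≤ t := by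
    by_contra hst
    exact hc fun u hu => hs.1 u (hu.trans_lt (not_le.mp hst))
  refine one_side hκ hseg hcr hs (h1.trans (mk_le_mk_of_subset ?_))
    (h2.trans (mk_le_mk_of_subset ?_))
  · exact fun y hy => ⟨hy.1, fun u hu => hy.2 u (hu.trans hst)⟩
  · exact fun y hy => ⟨hy.1, fun u hu => hy.2 u (hu.trans hst)⟩

/-- **The comb.** -/
theorem comb_aux [WellFoundedLT K] (hκ : κ.IsRegular) (hX : κ ≤ #X)
    (hseg : ∀ x ∈ X, #{y ∈ X | R y x} < κ) (hcr : NoCross R X) :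
    ∃ (D : Set K) (y : K → (K → Bool)), κ ≤ #D ∧ (∀ d ∈ D, y d ∈ X) ∧
      ∀ d ∈ D, ∀ d' ∈ D, d < d' → FD d (y d) (y d') := by
  classical
  set D : Set K := {d | ∃ w ∈ X, κ ≤ #{z ∈ X | ∀ u ≤ d, w u = z u} ∧ ∃ y ∈ X, FD d y w} with hD
  have hch : ∀ d : D, ∃ w ∈ X, κ ≤ #{z ∈ X | ∀ u ≤ d.1, w u = z u} ∧ ∃ y ∈ X, FD d.1 y w :=
    fun d => d.2
  choose w hwX hwl y hyX hyw using hch
  -- small sides
  have hsmall : ∀ (d : D) (x : K → Bool), FD d.1 x (w d) →
      #{z ∈ X | ∀ u ≤ d.1, x u = z u} < κ := by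
    intro d x hx
    by_contra hc
    exact one_side hκ hseg hcr hx (not_lt.mp hc) (hwl d)
  have hDlarge : κ ≤ #D := by
    by_contra hDs
    rw [not_le] at hDs
    set X' : Set (K → Bool) := {x ∈ X | ∀ d : D, ¬ FD d.1 x (w d)} with hX'
    -- the rest is small
    have hrest : #(X \ X' : Set (K → Bool)) < κ := by
      have hsub : X \ X' ⊆ ⋃ d : D, {z ∈ X | FD d.1 z (w d)} := by
        rintro x ⟨hx, hx'⟩
        by_contra hc
        apply hx'
        refine ⟨hx, fun d hd => hc ?_⟩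
        rw [mem_iUnion]
        exact ⟨d, hx, hd⟩
      refine (mk_le_mk_of_subset hsub).trans_lt (mk_iUnion_le_sum_mk.trans_lt ?_)
      apply sum_lt_of_isRegular hκ hDs
      intro d
      refine lt_of_le_of_lt (mk_le_mk_of_subset ?_) (hsmall d (y d) (hyw d))
      rintro z ⟨hz, hzw⟩
      exact ⟨hz, (hyw d).agree hzw⟩
    have hX'l : κ ≤ #X' := by
      by_contra hc
      rw [not_le] at hc
      have h1 : #X ≤ #X' + #(X \ X' : Set (K → Bool)) := by
        refine le_trans (mk_le_mk_of_subset ?_) (mk_union_le X' (X \ X'))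
        intro x hx
        by_cases h : x ∈ X'
        · exact Or.inl h
        · exact Or.inr ⟨hx, h⟩
      exact absurd (h1.trans_lt (add_lt_of_lt hκ.aleph0_le hc hrest)) (not_lt.mpr hX)
    -- the large levels
    set Lg : Set (WithTop K) := {d | ∃ x ∈ X, κ ≤ #{z ∈ X | ∀ u : K, (u : WithTop K) < d → x u = z u}}
      with hLg
    have htop : (⊤ : WithTop K) ∉ Lg := by
      rintro ⟨x, hx, hl⟩
      have : {z ∈ X | ∀ u : K, (u : WithTop K) < ⊤ → x u = z u} ⊆ {x} := by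
        rintro z ⟨_, hz⟩
        exact (funext fun u => hz u (WithTop.coe_lt_top u)).symm
      have h2 := hl.trans (mk_le_mk_of_subset this)
      rw [mk_singleton] at h2
      exact absurd (one_lt_aleph0.trans_le (hκ.aleph0_le.trans h2)) (lt_irrefl _)
    obtain ⟨δ, hδ, hδmin⟩ := (wellFounded_lt (α := WithTop K)).has_min {d | d ∉ Lg} ⟨⊤, htop⟩
    have hδlt : ∀ d < δ, d ∈ Lg := by
      intro d hd
      by_contra hc
      exact hδmin d hc hd
    -- members of `X'` are in every large class below `δ`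
    have hmem : ∀ x ∈ X', ∀ d : K, (d : WithTop K) < δ →
        ∀ w₀ : K → Bool, κ ≤ #{z ∈ X | ∀ u < d, w₀ u = z u} → w₀ ∈ X → ∀ u < d, x u = w₀ u := by
      intro x hx d _ w₀ hw₀ hw₀X
      by_contra hc
      have hne : x ≠ w₀ := by
        rintro rfl
        exact hc fun _ _ => rfl
      obtain ⟨t, ht⟩ := exists_fd hne
      have htd : t < d := by
        by_contra htd
        exact hc fun u hu => ht.1 u (hu.trans_le (not_lt.mp htd))
      have hl : κ ≤ #{z ∈ X | ∀ u ≤ t, w₀ u = z u} :=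
        hw₀.trans (mk_le_mk_of_subset fun z hz => ⟨hz.1, fun u hu => hz.2 u (hu.trans_lt htd)⟩)
      have htD : t ∈ D := ⟨w₀, hw₀X, hl, x, hx.1, ht⟩
      have hag := large_agree hκ hseg hcr hl (hwl ⟨t, htD⟩)
      exact hx.2 ⟨t, htD⟩ (ht.of_agree_right hag)
    -- members of `X'` agree below `δ`
    have hagree : ∀ x ∈ X', ∀ x' ∈ X', ∀ u : K, (u : WithTop K) < δ → x u = x' u := by
      intro x hx x' hx' u hu
      by_cases hex : ∃ d : K, u < d ∧ (d : WithTop K) < δ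
      · obtain ⟨d, hud, hdδ⟩ := hex
        obtain ⟨w₀, hw₀X, hw₀⟩ := hδlt _ hdδ
        have hw₀' : κ ≤ #{z ∈ X | ∀ u < d, w₀ u = z u} := by
          refine hw₀.trans (mk_le_mk_of_subset ?_)
          exact fun z hz => ⟨hz.1, fun v hv => hz.2 v (WithTop.coe_lt_coe.mpr hv)⟩
        exact (hmem x hx d hdδ w₀ hw₀' hw₀X u hud).trans
          (hmem x' hx' d hdδ w₀ hw₀' hw₀X u hud).symm
      · exfalso
        push Not at hex
        obtain ⟨w₀, hw₀X, hw₀⟩ := hδlt _ hu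
        -- the class splits at `u`
        have hlev : ∀ v : K, (v : WithTop K) < δ → v ≤ u := by
          intro v hv
          by_contra hc
          exact absurd hv (not_lt.mpr (hex v (not_le.mp hc)))
        have hcase : ∀ b : Bool, #{z ∈ X | (∀ v < u, w₀ v = z v) ∧ z u = b} < κ := by
          intro b
          by_contra hc
          rw [not_lt] at hc
          have hne : {z ∈ X | (∀ v < u, w₀ v = z v) ∧ z u = b}.Nonempty := by
            rw [Set.nonempty_iff_ne_empty]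
            intro h
            rw [h, mk_emptyc'] at hc
            exact absurd hκ.pos (not_lt.mpr hc)
          obtain ⟨z₀, hz₀X, hz₀, hz₀b⟩ := hne
          apply hδ
          refine ⟨z₀, hz₀X, hc.trans (mk_le_mk_of_subset ?_)⟩
          rintro z ⟨hzX, hz, hzb⟩
          refine ⟨hzX, fun v hv => ?_⟩
          rcases (hlev v hv).lt_or_eq with h | rfl
          · exact (hz₀ v h).symm.trans (hz v h)
          · rw [hz₀b, hzb]
        have hsub : {z ∈ X | ∀ v : K, (v : WithTop K) < u → w₀ v = z v} ⊆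
            {z ∈ X | (∀ v < u, w₀ v = z v) ∧ z u = true} ∪
            {z ∈ X | (∀ v < u, w₀ v = z v) ∧ z u = false} := by
          rintro z ⟨hzX, hz⟩
          have hz' : ∀ v < u, w₀ v = z v := fun v hv => hz v (WithTop.coe_lt_coe.mpr hv)
          cases h : z u
          · exact Or.inr ⟨hzX, hz', h⟩
          · exact Or.inl ⟨hzX, hz', h⟩
        have := (hw₀.trans (mk_le_mk_of_subset hsub)).trans (mk_union_le _ _)
        exact absurd (this.trans_lt (add_lt_of_lt hκ.aleph0_le (hcase true) (hcase false)))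
          (lt_irrefl _)
    have hne : X'.Nonempty := by
      rw [Set.nonempty_iff_ne_empty]
      intro h
      rw [h, mk_emptyc'] at hX'l
      exact absurd hκ.pos (not_lt.mpr hX'l)
    obtain ⟨x₀, hx₀⟩ := hne
    apply hδ
    refine ⟨x₀, hx₀.1, hX'l.trans (mk_le_mk_of_subset ?_)⟩
    intro z hz
    exact ⟨hz.1, fun u hu => hagree x₀ hx₀ z hz u hu⟩
  refine ⟨D, fun d => if h : d ∈ D then y ⟨d, h⟩ else fun _ => false, hDlarge, ?_, ?_⟩
  · intro d hd
    simp only [dif_pos hd]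
    exact hyX ⟨d, hd⟩
  · intro d hd d' hd' hlt
    simp only [dif_pos hd, dif_pos hd']
    have e1 : ∀ u ≤ d, w ⟨d, hd⟩ u = w ⟨d', hd'⟩ u := by
      apply large_agree hκ hseg hcr (hwl ⟨d, hd⟩)
      exact (hwl ⟨d', hd'⟩).trans (mk_le_mk_of_subset fun z hz =>
        ⟨hz.1, fun u hu => hz.2 u (hu.trans hlt.le)⟩)
    have e2 : ∀ u ≤ d, w ⟨d, hd⟩ u = y ⟨d', hd'⟩ u := fun u hu =>
      (e1 u hu).trans ((hyw ⟨d', hd'⟩).1 u (hu.trans_lt hlt)).symm
    exact (hyw ⟨d, hd⟩).of_agree_right e2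

theorem comb [WellFoundedLT K] (hκ : κ.IsRegular) (hX : κ ≤ #X)
    (hcr : NoCross R X) :
    ∃ (D D₁ : Set K) (y : K → (K → Bool)), D₁ ⊆ D ∧ κ ≤ #D₁ ∧ (∀ d ∈ D, y d ∈ X) ∧
      (∀ d ∈ D, ∀ d' ∈ D, d < d' → FD d (y d) (y d') ∧ R (y d) (y d')) ∧
      (∀ d ∈ D₁, ∃ d' ∈ D, d < d') := by
  classical
  obtain ⟨X₁, hX₁X, hX₁, hseg⟩ := initial_part R hX
  have hcr₁ : NoCross R X₁ := fun a ha b hb c hc d hd =>
    hcr a (hX₁X ha) b (hX₁X hb) c (hX₁X hc) d (hX₁X hd)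
  obtain ⟨D, y, hD, hyX, hfd⟩ := comb_aux hκ hX₁ hseg hcr₁
  have hinj : Set.InjOn y D := by
    intro d hd d' hd' h
    rcases lt_trichotomy d d' with hlt | heq | hlt
    · exact absurd h (hfd d hd d' hd' hlt).ne
    · exact heq
    · exact absurd h.symm (hfd d' hd' d hd hlt).ne
  set D' : Set K := {d ∈ D | ∀ d' ∈ D, d' < d → R (y d') (y d)} with hD'
  have hD'l : κ ≤ #D' := by
    by_contra hc
    rw [not_le] at hc
    obtain ⟨β, hβ, hβ2⟩ := bounded hκ hX₁ hseg (Y := y '' D')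
      (by rintro _ ⟨d, hd, rfl⟩; exact hyX d hd.1) (mk_image_le.trans_lt hc)
    have hl : κ ≤ #(y '' D) := by
      rw [mk_image_eq_of_injOn _ _ hinj]
      exact hD
    obtain ⟨_, ⟨d₁, hd₁, rfl⟩, hβd₁⟩ := above (R := R) hκ hseg (Y := y '' D)
      (by rintro _ ⟨d, hd, rfl⟩; exact hyX d hd) hl hβ
    obtain ⟨d₀, ⟨hd₀, hβd₀⟩, hmin⟩ := (wellFounded_lt (α := K)).has_min
      {d | d ∈ D ∧ R β (y d)} ⟨d₁, hd₁, hβd₁⟩
    have hrec : d₀ ∈ D' := by
      refine ⟨hd₀, fun d' hd' hlt => ?_⟩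
      have : ¬ R β (y d') := fun h => hmin d' ⟨hd', h⟩ hlt
      rcases trichotomous_of R β (y d') with h | h | h
      · exact absurd h this
      · rw [← h]; exact hβd₀
      · exact trans_of R h hβd₀
    exact asymm_of R hβd₀ (hβ2 _ ⟨d₀, hrec, rfl⟩)
  set D'' : Set K := {d ∈ D' | ∃ d' ∈ D', d < d'} with hD''
  have hD''l : κ ≤ #D'' := by
    by_contra hc
    rw [not_le] at hc
    have hsub : (D' \ D'').Subsingleton := by
      intro a ha b hb
      rcases lt_trichotomy a b with h | h | h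
      · exact absurd ⟨ha.1, b, hb.1, h⟩ ha.2
      · exact h
      · exact absurd ⟨hb.1, a, ha.1, h⟩ hb.2
    have h1 : #(D' \ D'' : Set K) ≤ 1 := by
      rw [mk_le_one_iff_set_subsingleton]
      exact hsub
    have h2 : #D' ≤ #D'' + #(D' \ D'' : Set K) := by
      refine le_trans (mk_le_mk_of_subset ?_) (mk_union_le D'' (D' \ D''))
      intro x hx
      by_cases h : x ∈ D''
      · exact Or.inl h
      · exact Or.inr ⟨hx, h⟩
    exact absurd (h2.trans_lt (add_lt_of_lt hκ.aleph0_le hc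
      (h1.trans_lt (one_lt_aleph0.trans_le hκ.aleph0_le)))) (not_lt.mpr hD'l)
  exact ⟨D', D'', y, fun d hd => hd.1, hD''l, fun d hd => hX₁X (hyX d hd.1),
    fun d hd d' hd' hlt => ⟨hfd d hd.1 d' hd'.1 hlt, hd'.2 d hd.1 hlt⟩, fun d hd => hd.2⟩

end

end Pool.Agent.Helper96.Split
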