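import Mathlib
import Pool.Agent.Helper96.Split4

/-!
# A quadruple system without complete quintuples (stepping up)
-/

namespace Pool.Agent.Helper96.Split

open Cardinal Set Ordinal
open scoped Classical

variable {K : Type} [LinearOrder K]

section defs

variable (R : (K → Bool) → (K → Bool) → Prop) (M : K → K → K → Prop) (G : ℕ → K → K → Prop)

/-- caterpillar quadruples -/
def CatE (s : Finset (ℕ × (K → Bool))) : Prop :=
  ∃ e x y z : ℕ × (K → Bool), s = {e, x, y, z} ∧ e.1 = x.1 ∧ e.1 = y.1 ∧ e.1 = z.1 ∧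
    ∃ d₀ d₁ d₂, FD d₀ e.2 x.2 ∧ FD d₀ e.2 y.2 ∧ FD d₀ e.2 z.2 ∧ FD d₁ x.2 y.2 ∧
      FD d₁ x.2 z.2 ∧ FD d₂ y.2 z.2 ∧ M d₀ d₁ d₂ ∧ R e.2 x.2 ∧ R e.2 y.2 ∧ R e.2 z.2 ∧
      R x.2 y.2 ∧ R x.2 z.2

/-- balanced quadruples -/
def BalE (s : Finset (ℕ × (K → Bool))) : Prop :=
  ∃ a b c d : ℕ × (K → Bool), s = {a, b, c, d} ∧ a.1 = b.1 ∧ a.1 = c.1 ∧ a.1 = d.1 ∧
    ∃ t, FD t a.2 c.2 ∧ (∀ u ≤ t, a.2 u = b.2 u) ∧ (∀ u ≤ t, c.2 u = d.2 u) ∧
      R a.2 c.2 ∧ R c.2 b.2 ∧ R b.2 d.2

/-- quadruples with three points in the lowest block -/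
def CrossE (s : Finset (ℕ × (K → Bool))) : Prop :=
  ∃ x y z w : ℕ × (K → Bool), s = {x, y, z, w} ∧ x.1 = y.1 ∧ x.1 = z.1 ∧ x.1 < w.1 ∧
    ∃ d₀ d₁, FD d₀ x.2 y.2 ∧ FD d₀ x.2 z.2 ∧ FD d₁ y.2 z.2 ∧ G w.1 d₀ d₁ ∧
      R x.2 y.2 ∧ R x.2 z.2

/-- the quadruple system -/
def E4 (s : Finset (ℕ × (K → Bool))) : Prop := CatE R M s ∨ BalE R s ∨ CrossE R G s

/-- auxiliary condition on triples -/
def T3 (Φ : K → K → Prop) (T : Finset (ℕ × (K → Bool))) : Prop :=
  ∃ x y z : ℕ × (K → Bool), T = {x, y, z} ∧ ∃ d₁ d₂, FD d₁ x.2 y.2 ∧ FD d₁ x.2 z.2 ∧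
    FD d₂ y.2 z.2 ∧ Φ d₁ d₂ ∧ R x.2 y.2 ∧ R x.2 z.2

end defs

variable {R : (K → Bool) → (K → Bool) → Prop} {M : K → K → K → Prop} {G : ℕ → K → K → Prop}

theorem ne_of_fd {x y : ℕ × (K → Bool)} {t : K} (h : FD t x.2 y.2) : x ≠ y := by
  rintro rfl
  exact h.ne rfl

theorem t3_apt {Φ : K → K → Prop} {w x y : ℕ × (K → Bool)} {d₁ d₂ : K}
    (h1 : FD d₁ w.2 x.2) (h2 : FD d₁ w.2 y.2) (h3 : FD d₂ x.2 y.2)
    (h : T3 R Φ {w, x, y}) : Φ d₁ d₂ ∧ R w.2 x.2 ∧ R w.2 y.2 := by
  have h12 : d₁ < d₂ := h1.lt_of h2 h3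
  obtain ⟨x', y', z', he, e₁, e₂, g1, g2, g3, g4, g5, g6⟩ := h
  have hx' : x' ∈ ({w, x, y} : Finset (ℕ × (K → Bool))) := by rw [he]; simp
  have hy' : y' ∈ ({w, x, y} : Finset (ℕ × (K → Bool))) := by rw [he]; simp
  have hz' : z' ∈ ({w, x, y} : Finset (ℕ × (K → Bool))) := by rw [he]; simp
  simp only [Finset.mem_insert, Finset.mem_singleton] at hx' hy' hz'
  have n1 := ne_of_fd g1
  have n2 := ne_of_fd g2
  have n3 := ne_of_fd g3
  rcases hx' with rfl | rfl | rfl <;> rcases hy' with rfl | rfl | rfl <;>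
    rcases hz' with rfl | rfl | rfl <;>
    first
    | exact absurd rfl n1
    | exact absurd rfl n2
    | exact absurd rfl n3
    | skip
  · have a1 := h1.unique g1
    have a2 := h3.unique g3
    subst a1 a2
    exact ⟨g4, g5, g6⟩
  · have a1 := h1.unique g2
    have a2 := h3.symm.unique g3
    subst a1 a2
    exact ⟨g4, g6, g5⟩
  · have a1 := h1.symm.unique g1
    have a2 := h3.unique g2
    rw [a1, a2] at h12
    exact absurd h12 (lt_irrefl _)
  · have a1 := h1.symm.unique g2
    have a2 := h3.unique g1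
    rw [a1, a2] at h12
    exact absurd h12 (lt_irrefl _)
  · have a1 := h2.symm.unique g1
    have a2 := h3.symm.unique g2
    rw [a1, a2] at h12
    exact absurd h12 (lt_irrefl _)
  · have a1 := h2.symm.unique g2
    have a2 := h3.symm.unique g1
    rw [a1, a2] at h12
    exact absurd h12 (lt_irrefl _)

theorem card3 {x y z : ℕ × (K → Bool)} (h1 : x ≠ y) (h2 : x ≠ z) (h3 : y ≠ z) :
    ({x, y, z} : Finset (ℕ × (K → Bool))).card = 3 :=
  Finset.card_eq_three.mpr ⟨x, y, z, h1, h2, h3, rfl⟩

theorem four_points [WellFoundedLT K] [IsWellOrder (K → Bool) R] {Φ : K → K → Prop}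
    {Q : Finset (ℕ × (K → Bool))}
    (hQ : CatE R M Q ∨ BalE R Q) (hT : ∀ T ⊆ Q, T.card = 3 → T3 R Φ T) :
    ∃ d₁ d₂ d₃, d₁ < d₂ ∧ d₂ < d₃ ∧ M d₁ d₂ d₃ ∧ Φ d₁ d₂ ∧ Φ d₁ d₃ ∧ Φ d₂ d₃ ∧
      ∃ y ∈ Q, ∃ z ∈ Q, FD d₃ y.2 z.2 := by
  rcases hQ with hQ | hQ
  · obtain ⟨e, x, y, z, rfl, _, _, _, d₀, d₁, d₂, h1, h2, h3, h4, h5, h6, h7, _⟩ := hQ
    refine ⟨d₀, d₁, d₂, h1.lt_of h2 h4, h4.lt_of h5 h6, h7, ?_, ?_, ?_,
      ⟨y, by simp, z, by simp, h6⟩⟩
    · refine (t3_apt h1 h2 h4 (hT {e, x, y} ?_ (card3 (ne_of_fd h1) (ne_of_fd h2)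
        (ne_of_fd h4)))).1
      intro v; simp only [Finset.mem_insert, Finset.mem_singleton]; tauto
    · refine (t3_apt h2 h3 h6 (hT {e, y, z} ?_ (card3 (ne_of_fd h2) (ne_of_fd h3)
        (ne_of_fd h6)))).1
      intro v; simp only [Finset.mem_insert, Finset.mem_singleton]; tauto
    · refine (t3_apt h4 h5 h6 (hT {x, y, z} ?_ (card3 (ne_of_fd h4) (ne_of_fd h5)
        (ne_of_fd h6)))).1
      intro v; simp only [Finset.mem_insert, Finset.mem_singleton]; tauto
  · exfalso
    obtain ⟨a, b, c, d, rfl, _, _, _, t, h1, h2, h3, r1, r2, r3⟩ := hQ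
    have hab : a.2 ≠ b.2 := by
      intro h
      rw [h] at r1
      exact asymm_of R r1 r2
    obtain ⟨t', ht'⟩ := exists_fd hab
    have h4 : FD t c.2 b.2 := (h1.of_agree_left h2).symm
    have := t3_apt (Φ := Φ) h1.symm h4 ht' (hT {c, a, b} (by
      intro v; simp only [Finset.mem_insert, Finset.mem_singleton]; tauto)
      (card3 (ne_of_fd h1).symm (ne_of_fd h4) (ne_of_fd ht')))
    exact asymm_of R this.2.1 r1

theorem e_edge [WellFoundedLT K] [IsWellOrder (K → Bool) R] {s : Finset (ℕ × (K → Bool))}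
    (hs : CatE R M s ∨ BalE R s) {e : ℕ × (K → Bool)} (he : e ∈ s) {d₀ : K}
    (hfd : ∀ t ∈ s, t ≠ e → FD d₀ e.2 t.2) : T3 R (M d₀) (s.erase e) := by
  rcases hs with hs | hs
  · obtain ⟨e', x, y, z, rfl, _, _, _, t₀, t₁, t₂, h1, h2, h3, h4, h5, h6, h7, r1, r2, r3, r4, r5⟩ := hs
    simp only [Finset.mem_insert, Finset.mem_singleton] at he hfd
    have nx := ne_of_fd h1
    have ny := ne_of_fd h2
    have nz := ne_of_fd h3
    have nxy := ne_of_fd h4
    have nxz := ne_of_fd h5
    have nyz := ne_of_fd h6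
    have hee : e = e' := by
      by_contra hne
      have g := hfd e' (Or.inl rfl) (Ne.symm hne)
      rcases he with he | he | he | he
      · exact hne he
      · subst he
        have a1 := h1.symm.unique g
        subst a1
        exact h1.no3 h2 (hfd y (by tauto) nxy.symm)
      · subst he
        have a1 := h2.symm.unique g
        subst a1
        exact h2.no3 h3 (hfd z (by tauto) nyz.symm)
      · subst he
        have a1 := h3.symm.unique g
        subst a1
        exact h3.no3 h2 (hfd y (by tauto) nyz)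
    subst hee
    have a1 : d₀ = t₀ := (hfd x (by tauto) nx.symm).unique h1
    subst a1
    refine ⟨x, y, z, ?_, t₁, t₂, h4, h5, h6, h7, r4, r5⟩
    ext v
    simp only [Finset.mem_erase, Finset.mem_insert, Finset.mem_singleton]
    constructor
    · rintro ⟨h, h' | h' | h' | h'⟩ <;> tauto
    · rintro (rfl | rfl | rfl)
      · exact ⟨nx.symm, by tauto⟩
      · exact ⟨ny.symm, by tauto⟩
      · exact ⟨nz.symm, by tauto⟩
  · exfalso
    obtain ⟨a, b, c, d, rfl, _, _, _, t, h1, h2, h3, r1, r2, r3⟩ := hs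
    simp only [Finset.mem_insert, Finset.mem_singleton] at he hfd
    have hab : a.2 ≠ b.2 := by
      intro h
      rw [h] at r1
      exact asymm_of R r1 r2
    have hcd : c.2 ≠ d.2 := by
      intro h
      rw [h] at r2
      exact asymm_of R r2 r3
    have had : FD t a.2 d.2 := h1.of_agree_right h3
    have hbc : FD t b.2 c.2 := h1.of_agree_left h2
    have hbd : FD t b.2 d.2 := had.of_agree_left h2
    have nab : a ≠ b := fun h => hab (congrArg Prod.snd h)
    have ncd : c ≠ d := fun h => hcd (congrArg Prod.snd h)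
    rcases he with rfl | rfl | rfl | rfl
    · have g1 := hfd c (by tauto) (ne_of_fd h1).symm
      have a1 := g1.unique h1
      subst a1
      exact (hfd b (by tauto) nab.symm).2 (h2 _ le_rfl)
    · have g1 := hfd c (by tauto) (ne_of_fd hbc).symm
      have a1 := g1.unique hbc
      subst a1
      exact (hfd a (by tauto) nab).2 (h2 _ le_rfl).symm
    · have g1 := hfd a (by tauto) (ne_of_fd h1)
      have a1 := g1.unique h1.symm
      subst a1
      exact (hfd d (by tauto) ncd.symm).2 (h3 _ le_rfl)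
    · have g1 := hfd a (by tauto) (ne_of_fd had)
      have a1 := g1.unique had.symm
      subst a1
      exact (hfd c (by tauto) ncd).2 (h3 _ le_rfl).symm

theorem eta_edge {T : Finset (ℕ × (K → Bool))} {n : ℕ} (hTn : ∀ p ∈ T, p.1 = n)
    (hT : T.Nonempty) {η : ℕ × (K → Bool)} (hη : n < η.1) (hs : E4 R M G (insert η T)) :
    T3 R (G η.1) T := by
  have hηT : η ∉ T := fun h => absurd (hTn η h) (by omega)
  have hall : ∀ p ∈ insert η T, p.1 = n ∨ p = η := by
    intro p hp
    rw [Finset.mem_insert] at hp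
    rcases hp with h | h
    · exact Or.inr h
    · exact Or.inl (hTn p h)
  obtain ⟨τ, hτ⟩ := hT
  have hτn := hTn τ hτ
  rcases hs with hs | hs | hs
  · exfalso
    obtain ⟨e, x, y, z, he, h1, h2, h3, _⟩ := hs
    have k1 : η ∈ insert η T := by simp
    have k2 : τ ∈ insert η T := by simp [hτ]
    rw [he] at k1 k2
    simp only [Finset.mem_insert, Finset.mem_singleton] at k1 k2
    have m1 : η.1 = e.1 := by rcases k1 with rfl | rfl | rfl | rfl <;> omega
    have m2 : τ.1 = e.1 := by rcases k2 with rfl | rfl | rfl | rfl <;> omega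
    omega
  · exfalso
    obtain ⟨e, x, y, z, he, h1, h2, h3, _⟩ := hs
    have k1 : η ∈ insert η T := by simp
    have k2 : τ ∈ insert η T := by simp [hτ]
    rw [he] at k1 k2
    simp only [Finset.mem_insert, Finset.mem_singleton] at k1 k2
    have m1 : η.1 = e.1 := by rcases k1 with rfl | rfl | rfl | rfl <;> omega
    have m2 : τ.1 = e.1 := by rcases k2 with rfl | rfl | rfl | rfl <;> omega
    omega
  · obtain ⟨x, y, z, w, he, h1, h2, h3, d₀, d₁, g1, g2, g3, g4, g5, g6⟩ := hs
    have kw := hall w (by rw [he]; simp)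
    have kx := hall x (by rw [he]; simp)
    have ky := hall y (by rw [he]; simp)
    have kz := hall z (by rw [he]; simp)
    have hw : w = η := by
      rcases kw with kw | kw
      · rcases kx with kx | kx
        · omega
        · rw [kx] at h3; omega
      · exact kw
    subst hw
    refine ⟨x, y, z, ?_, d₀, d₁, g1, g2, g3, g4, g5, g6⟩
    have nx : x ≠ w := by rintro rfl; omega
    have ny : y ≠ w := by rintro rfl; omega
    have nz : z ≠ w := by rintro rfl; omega
    have : T = (insert w T).erase w := by rw [Finset.erase_insert hηT]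
    rw [this, he]
    ext v
    simp only [Finset.mem_erase, Finset.mem_insert, Finset.mem_singleton]
    constructor
    · rintro ⟨h, h' | h' | h' | h'⟩ <;> tauto
    · rintro (rfl | rfl | rfl)
      · exact ⟨nx, by tauto⟩
      · exact ⟨ny, by tauto⟩
      · exact ⟨nz, by tauto⟩

/-- `z` is between `a` and `b` -/
def Btw (R : (K → Bool) → (K → Bool) → Prop) (a b z : K → Bool) : Prop := R a z ↔ R z b

theorem btw_symm [IsWellOrder (K → Bool) R] {a b z : K → Bool} (h1 : z ≠ a) (h2 : z ≠ b) :
    Btw R a b z ↔ Btw R b a z := by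
  have t1 : R a z ↔ ¬ R z a := ⟨fun h => asymm_of R h, fun h => by
    rcases trichotomous_of R a z with h' | h' | h'
    · exact h'
    · exact absurd h'.symm h1
    · exact absurd h' h⟩
  have t2 : R b z ↔ ¬ R z b := ⟨fun h => asymm_of R h, fun h => by
    rcases trichotomous_of R b z with h' | h' | h'
    · exact h'
    · exact absurd h'.symm h2
    · exact absurd h' h⟩
  unfold Btw
  tauto

theorem cross_btw [IsWellOrder (K → Bool) R] {a b c d : K → Bool} (h1 : R a c) (h2 : R c b)
    (h3 : R b d) : Btw R a b c ∧ ¬ Btw R a b d ∧ ¬ Btw R c d a ∧ Btw R c d b := by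
  have h4 : R a d := trans_of R h1 (trans_of R h2 h3)
  have n1 : ¬ R d b := asymm_of R h3
  have n2 : ¬ R c a := asymm_of R h1
  unfold Btw
  tauto

/-- a quadruple with root split `{a, b} | {u, v}` -/
theorem bal_core [WellFoundedLT K] [IsWellOrder (K → Bool) R] {a b u v : ℕ × (K → Bool)}
    (hs : CatE R M {a, b, u, v} ∨ BalE R {a, b, u, v}) {d₀ : K}
    (hau : FD d₀ a.2 u.2) (hav : FD d₀ a.2 v.2) (hbu : FD d₀ b.2 u.2) (hbv : FD d₀ b.2 v.2)
    (hab : a ≠ b) (huv : u ≠ v) : ¬ (Btw R a.2 b.2 u.2 ↔ Btw R a.2 b.2 v.2) := by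
  have agab := hau.agree hbu
  have aguv : ∀ w ≤ d₀, u.2 w = v.2 w := hau.symm.agree hav.symm
  have cases4 : ∀ p ∈ ({a, b, u, v} : Finset (ℕ × (K → Bool))), p = a ∨ p = b ∨ p = u ∨ p = v := by
    intro p hp
    simpa using hp
  rcases hs with hs | hs
  · exfalso
    obtain ⟨e, x, y, z, he, _, _, _, t₀, t₁, t₂, h1, h2, h3, h4, h5, h6, _⟩ := hs
    have nx := ne_of_fd h1
    have ny := ne_of_fd h2
    have nz := ne_of_fd h3
    have nxy := ne_of_fd h4
    have nxz := ne_of_fd h5
    have nyz := ne_of_fd h6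
    -- every other point splits from `e` at `t₀`
    have hall : ∀ p ∈ ({a, b, u, v} : Finset (ℕ × (K → Bool))), p ≠ e → FD t₀ e.2 p.2 := by
      intro p hp hpe
      rw [he] at hp
      simp only [Finset.mem_insert, Finset.mem_singleton] at hp
      rcases hp with rfl | rfl | rfl | rfl
      · exact absurd rfl hpe
      · exact h1
      · exact h2
      · exact h3
    have ke := cases4 e (by rw [he]; simp)
    rcases ke with rfl | rfl | rfl | rfl
    · have g := (hall u (by simp) (ne_of_fd hau).symm).unique hau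
      subst g
      exact (hall b (by simp) hab.symm).2 (agab _ le_rfl)
    · have g := (hall u (by simp) (ne_of_fd hbu).symm).unique hbu
      subst g
      exact (hall a (by simp) hab).2 (agab _ le_rfl).symm
    · have g := (hall a (by simp) (ne_of_fd hau)).unique hau.symm
      subst g
      exact (hall v (by simp) huv.symm).2 (aguv _ le_rfl)
    · have g := (hall a (by simp) (ne_of_fd hav)).unique hav.symm
      subst g
      exact (hall u (by simp) huv).2 (aguv _ le_rfl).symm
  · obtain ⟨a', b', c', d', he, _, _, _, t, h1, h2, h3, r1, r2, r3⟩ := hs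
    have had : FD t a'.2 d'.2 := h1.of_agree_right h3
    have hbc : FD t b'.2 c'.2 := h1.of_agree_left h2
    have hbd : FD t b'.2 d'.2 := had.of_agree_left h2
    have hab' : a' ≠ b' := by
      rintro rfl
      exact asymm_of R r1 r2
    have hcd' : c' ≠ d' := by
      rintro rfl
      exact asymm_of R r2 r3
    have ka := cases4 a' (by rw [he]; simp)
    have kb := cases4 b' (by rw [he]; simp)
    have kc := cases4 c' (by rw [he]; simp)
    have kd := cases4 d' (by rw [he]; simp)
    -- the roots agree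
    have key : ∀ p q : ℕ × (K → Bool), (p = a ∨ p = b ∨ p = u ∨ p = v) →
        (q = a ∨ q = b ∨ q = u ∨ q = v) → ∀ w < d₀, p.2 w = q.2 w := by
      intro p q hp hq w hw
      have e1 : ∀ p : ℕ × (K → Bool), (p = a ∨ p = b ∨ p = u ∨ p = v) → p.2 w = a.2 w := by
        rintro p (rfl | rfl | rfl | rfl)
        · rfl
        · exact (agab w hw.le).symm
        · exact (hau.1 w hw).symm
        · exact (hav.1 w hw).symm
      rw [e1 p hp, e1 q hq]
    have htd : t = d₀ := by
      rcases lt_trichotomy t d₀ with hlt | heq | hlt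
      · exact absurd (key a' c' ka kc t hlt) h1.2
      · exact heq
      · exfalso
        -- everything agrees at `d₀`, impossible
        have hag : ∀ p : ℕ × (K → Bool), p ∈ ({a', b', c', d'} : Finset (ℕ × (K → Bool))) →
            p.2 d₀ = a'.2 d₀ := by
          intro p hp
          simp only [Finset.mem_insert, Finset.mem_singleton] at hp
          rcases hp with rfl | rfl | rfl | rfl
          · rfl
          · exact (h2 d₀ hlt.le).symm
          · exact (h1.1 d₀ hlt).symm
          · exact (had.1 d₀ hlt).symm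
        have e1 := hag a (by rw [← he]; simp)
        have e2 := hag u (by rw [← he]; simp)
        exact hau.2 (e1.trans e2.symm)
    subst htd
    have q1 := cross_btw r1 r2 r3
    have nau := ne_of_fd hau
    have nav := ne_of_fd hav
    have nbu := ne_of_fd hbu
    have nbv := ne_of_fd hbv
    have mau : u.2 ≠ a.2 := hau.ne.symm
    have mav : v.2 ≠ a.2 := hav.ne.symm
    have mbu : u.2 ≠ b.2 := hbu.ne.symm
    have mbv : v.2 ≠ b.2 := hbv.ne.symm
    have s1 := btw_symm (R := R) mau mbu
    have s2 := btw_symm (R := R) mav mbv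
    -- values at `t`
    rcases ka with rfl | rfl | rfl | rfl
    · have kb2 : b' = b := by
        rcases kb with rfl | rfl | rfl | rfl
        · exact absurd rfl hab'
        · rfl
        · exact absurd (h2 t le_rfl) hau.2
        · exact absurd (h2 t le_rfl) hav.2
      subst kb2
      rcases kc with rfl | rfl | rfl | rfl
      · exact absurd rfl h1.ne
      · exact absurd rfl hbc.ne
      · rcases kd with rfl | rfl | rfl | rfl
        · exact absurd rfl had.ne
        · exact absurd rfl hbd.ne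
        · exact absurd rfl hcd'
        · tauto
      · rcases kd with rfl | rfl | rfl | rfl
        · exact absurd rfl had.ne
        · exact absurd rfl hbd.ne
        · tauto
        · exact absurd rfl hcd'
    · have kb2 : b' = a := by
        rcases kb with rfl | rfl | rfl | rfl
        · rfl
        · exact absurd rfl hab'
        · exact absurd (h2 t le_rfl) hbu.2
        · exact absurd (h2 t le_rfl) hbv.2
      subst kb2
      rcases kc with rfl | rfl | rfl | rfl
      · exact absurd rfl hbc.ne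
      · exact absurd rfl h1.ne
      · rcases kd with rfl | rfl | rfl | rfl
        · exact absurd rfl hbd.ne
        · exact absurd rfl had.ne
        · exact absurd rfl hcd'
        · tauto
      · rcases kd with rfl | rfl | rfl | rfl
        · exact absurd rfl hbd.ne
        · exact absurd rfl had.ne
        · tauto
        · exact absurd rfl hcd'
    · have kb2 : b' = v := by
        rcases kb with rfl | rfl | rfl | rfl
        · exact absurd (h2 t le_rfl).symm hau.2
        · exact absurd (h2 t le_rfl).symm hbu.2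
        · exact absurd rfl hab'
        · rfl
      subst kb2
      rcases kc with rfl | rfl | rfl | rfl
      · rcases kd with rfl | rfl | rfl | rfl
        · exact absurd rfl hcd'
        · tauto
        · exact absurd rfl had.ne
        · exact absurd rfl hbd.ne
      · rcases kd with rfl | rfl | rfl | rfl
        · tauto
        · exact absurd rfl hcd'
        · exact absurd rfl had.ne
        · exact absurd rfl hbd.ne
      · exact absurd rfl h1.ne
      · exact absurd rfl hbc.ne
    · have kb2 : b' = u := by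
        rcases kb with rfl | rfl | rfl | rfl
        · exact absurd (h2 t le_rfl).symm hav.2
        · exact absurd (h2 t le_rfl).symm hbv.2
        · rfl
        · exact absurd rfl hab'
      subst kb2
      rcases kc with rfl | rfl | rfl | rfl
      · rcases kd with rfl | rfl | rfl | rfl
        · exact absurd rfl hcd'
        · tauto
        · exact absurd rfl hbd.ne
        · exact absurd rfl had.ne
      · rcases kd with rfl | rfl | rfl | rfl
        · tauto
        · exact absurd rfl hcd'
        · exact absurd rfl hbd.ne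
        · exact absurd rfl had.ne
      · exact absurd rfl hbc.ne
      · exact absurd rfl h1.ne

end Pool.Agent.Helper96.Split
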