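import Mathlib
import Pool.Agent.Helper96.Split5

/-!
# The stepped-up system: no complete quintuple, small independent sets
-/

namespace Pool.Agent.Helper96.Split

open Cardinal Set Ordinal
open scoped Classical

section

variable {K : Type} [LinearOrder K]
variable {R : (K → Bool) → (K → Bool) → Prop} {M : K → K → K → Prop} {G : ℕ → K → K → Prop}

theorem low_block [IsWellOrder (K → Bool) R] {s : Finset (ℕ × (K → Bool))}
    (h : E4 R M G s) : ∃ n, 3 ≤ (s.filter (fun p => p.1 = n)).card ∧ ∀ p ∈ s, n ≤ p.1 := by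
  rcases h with h | h | h
  · obtain ⟨e, x, y, z, rfl, h1, h2, h3, d₀, d₁, d₂, g1, g2, g3, g4, _⟩ := h
    refine ⟨e.1, ?_, ?_⟩
    · rw [← card3 (ne_of_fd g1) (ne_of_fd g2) (ne_of_fd g4)]
      apply Finset.card_le_card
      intro v hv
      simp only [Finset.mem_insert, Finset.mem_singleton] at hv
      rw [Finset.mem_filter]
      rcases hv with rfl | rfl | rfl
      · exact ⟨by simp, rfl⟩
      · exact ⟨by simp, h1.symm⟩
      · exact ⟨by simp, h2.symm⟩
    · intro p hp
      simp only [Finset.mem_insert, Finset.mem_singleton] at hp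
      rcases hp with rfl | rfl | rfl | rfl <;> omega
  · obtain ⟨a, b, c, d, rfl, h1, h2, h3, t, g1, _, _, r1, r2, r3⟩ := h
    refine ⟨a.1, ?_, ?_⟩
    · have nab : a ≠ b := by rintro rfl; exact asymm_of R r1 r2
      have nac : a ≠ c := ne_of_fd g1
      have nbc : b ≠ c := by rintro rfl; exact irrefl_of R _ r2
      rw [← card3 nab nac nbc]
      apply Finset.card_le_card
      intro v hv
      simp only [Finset.mem_insert, Finset.mem_singleton] at hv
      rw [Finset.mem_filter]
      rcases hv with rfl | rfl | rfl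
      · exact ⟨by simp, rfl⟩
      · exact ⟨by simp, h1.symm⟩
      · exact ⟨by simp, h2.symm⟩
    · intro p hp
      simp only [Finset.mem_insert, Finset.mem_singleton] at hp
      rcases hp with rfl | rfl | rfl | rfl <;> omega
  · obtain ⟨x, y, z, w, rfl, h1, h2, h3, d₀, d₁, g1, g2, g3, _⟩ := h
    refine ⟨x.1, ?_, ?_⟩
    · rw [← card3 (ne_of_fd g1) (ne_of_fd g2) (ne_of_fd g3)]
      apply Finset.card_le_card
      intro v hv
      simp only [Finset.mem_insert, Finset.mem_singleton] at hv
      rw [Finset.mem_filter]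
      rcases hv with rfl | rfl | rfl
      · exact ⟨by simp, rfl⟩
      · exact ⟨by simp, h1.symm⟩
      · exact ⟨by simp, h2.symm⟩
    · intro p hp
      simp only [Finset.mem_insert, Finset.mem_singleton] at hp
      rcases hp with rfl | rfl | rfl | rfl <;> omega

theorem inblock {s : Finset (ℕ × (K → Bool))} {N : ℕ} (hN : ∀ p ∈ s, p.1 = N)
    (h : E4 R M G s) : CatE R M s ∨ BalE R s := by
  rcases h with h | h | h
  · exact Or.inl h
  · exact Or.inr h
  · exfalso
    obtain ⟨x, y, z, w, rfl, h1, h2, h3, _⟩ := h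
    have e1 := hN x (by simp)
    have e2 := hN w (by simp)
    omega

theorem no_quint_block [WellFoundedLT K] [IsWellOrder (K → Bool) R]
    (hquad : ∀ a b c d, d ≠ a → d ≠ b → d ≠ c → M a b c → M a b d → M a c d → M b c d → False)
    {S : Finset (ℕ × (K → Bool))} {N : ℕ} (hN : ∀ p ∈ S, p.1 = N) (hS : S.card = 5)
    (hE : ∀ s ⊆ S, s.card = 4 → CatE R M s ∨ BalE R s) : False := by
  have hsnd : ∀ p ∈ S, ∀ q ∈ S, p ≠ q → p.2 ≠ q.2 := by
    intro p hp q hq hpq h
    exact hpq (Prod.ext ((hN p hp).trans (hN q hq).symm) h)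
  have hne : ∃ t, ∃ p ∈ S, ∃ q ∈ S, FD t p.2 q.2 := by
    obtain ⟨p, hp, q, hq, hpq⟩ := Finset.one_lt_card.mp (by omega : 1 < S.card)
    obtain ⟨t, ht⟩ := exists_fd (hsnd p hp q hq hpq)
    exact ⟨t, p, hp, q, hq, ht⟩
  obtain ⟨d₀, hd₀, hmin⟩ := (wellFounded_lt (α := K)).has_min
    {t | ∃ p ∈ S, ∃ q ∈ S, FD t p.2 q.2} hne
  have hbelow : ∀ p ∈ S, ∀ q ∈ S, ∀ u < d₀, p.2 u = q.2 u := by
    intro p hp q hq u hu
    by_contra hc
    have hpq : p.2 ≠ q.2 := by
      intro h
      rw [h] at hc
      exact hc rfl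
    obtain ⟨t, ht⟩ := exists_fd hpq
    have htu : t ≤ u := by
      by_contra htu
      exact hc (ht.1 u (not_le.mp htu))
    exact hmin t ⟨p, hp, q, hq, ht⟩ (htu.trans_lt hu)
  have hcross : ∀ p ∈ S, ∀ q ∈ S, p.2 d₀ ≠ q.2 d₀ → FD d₀ p.2 q.2 := fun p hp q hq h =>
    ⟨hbelow p hp q hq, h⟩
  have main : ∀ b : Bool, 1 ≤ (S.filter (fun p => p.2 d₀ = b)).card →
      (S.filter (fun p => p.2 d₀ = b)).card ≤ 2 → False := by
    intro b h1 h2
    have hQc : (S.filter (fun p => p.2 d₀ = b)).card +
        (S.filter (fun p => ¬ p.2 d₀ = b)).card = 5 := by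
      rw [Finset.card_filter_add_card_filter_not, hS]
    rcases h1.lt_or_eq with h1 | h1
    · -- two points on one side
      have hP : (S.filter (fun p => p.2 d₀ = b)).card = 2 := by omega
      have hQ : (S.filter (fun p => ¬ p.2 d₀ = b)).card = 3 := by omega
      obtain ⟨p, q, hpq, hPe⟩ := Finset.card_eq_two.mp hP
      obtain ⟨x, y, z, hxy, hxz, hyz, hQe⟩ := Finset.card_eq_three.mp hQ
      have mp : p ∈ S ∧ p.2 d₀ = b := by
        have h : p ∈ S.filter (fun p => p.2 d₀ = b) := by rw [hPe]; simp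
        exact Finset.mem_filter.mp h
      have mq : q ∈ S ∧ q.2 d₀ = b := by
        have h : q ∈ S.filter (fun p => p.2 d₀ = b) := by rw [hPe]; simp
        exact Finset.mem_filter.mp h
      have mx : x ∈ S ∧ ¬ x.2 d₀ = b := by
        have h : x ∈ S.filter (fun p => ¬ p.2 d₀ = b) := by rw [hQe]; simp
        exact Finset.mem_filter.mp h
      have my : y ∈ S ∧ ¬ y.2 d₀ = b := by
        have h : y ∈ S.filter (fun p => ¬ p.2 d₀ = b) := by rw [hQe]; simp
        exact Finset.mem_filter.mp h
      have mz : z ∈ S ∧ ¬ z.2 d₀ = b := by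
        have h : z ∈ S.filter (fun p => ¬ p.2 d₀ = b) := by rw [hQe]; simp
        exact Finset.mem_filter.mp h
      have fd : ∀ v w, v ∈ S ∧ v.2 d₀ = b → w ∈ S ∧ ¬ w.2 d₀ = b → FD d₀ v.2 w.2 := by
        rintro v w ⟨hv, hvb⟩ ⟨hw, hwb⟩
        exact hcross v hv w hw (by rw [hvb]; exact fun h => hwb h.symm)
      have use : ∀ u v, u ∈ S ∧ ¬ u.2 d₀ = b → v ∈ S ∧ ¬ v.2 d₀ = b → u ≠ v →
          ¬ (Btw R p.2 q.2 u.2 ↔ Btw R p.2 q.2 v.2) := by
        intro u v hu hv huv
        refine bal_core (M := M) (hE {p, q, u, v} ?_ ?_) (fd p u mp hu) (fd p v mp hv)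
          (fd q u mq hu) (fd q v mq hv) hpq huv
        · intro w hw
          simp only [Finset.mem_insert, Finset.mem_singleton] at hw
          rcases hw with rfl | rfl | rfl | rfl
          · exact mp.1
          · exact mq.1
          · exact hu.1
          · exact hv.1
        · exact Finset.card_eq_four.mpr ⟨p, q, u, v, hpq, ne_of_fd (fd p u mp hu),
            ne_of_fd (fd p v mp hv), ne_of_fd (fd q u mq hu), ne_of_fd (fd q v mq hv), huv, rfl⟩
      have u1 := use x y mx my hxy
      have u2 := use x z mx mz hxz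
      have u3 := use y z my mz hyz
      tauto
    · -- one point on one side
      obtain ⟨e, hPe⟩ := Finset.card_eq_one.mp h1.symm
      have me : e ∈ S ∧ e.2 d₀ = b := by
        have h : e ∈ S.filter (fun p => p.2 d₀ = b) := by rw [hPe]; simp
        exact Finset.mem_filter.mp h
      have hfd : ∀ t ∈ S, t ≠ e → FD d₀ e.2 t.2 := by
        intro t ht hte
        apply hcross e me.1 t ht
        rw [me.2]
        intro h
        have : t ∈ S.filter (fun p => p.2 d₀ = b) := Finset.mem_filter.mpr ⟨ht, h.symm⟩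
        rw [hPe, Finset.mem_singleton] at this
        exact hte this
      have hQcard : (S.erase e).card = 4 := by rw [Finset.card_erase_of_mem me.1, hS]
      have hT : ∀ T ⊆ S.erase e, T.card = 3 → T3 R (M d₀) T := by
        intro T hT hTc
        have heT : e ∉ T := fun h => by
          have := hT h
          simp at this
        have hsub : insert e T ⊆ S := by
          intro v hv
          rw [Finset.mem_insert] at hv
          rcases hv with rfl | hv
          · exact me.1
          · exact Finset.mem_of_mem_erase (hT hv)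
        have := e_edge (hE (insert e T) hsub (by rw [Finset.card_insert_of_notMem heT, hTc]))
          (e := e) (by simp) (d₀ := d₀) (fun t ht hte => hfd t (hsub ht) hte)
        rwa [Finset.erase_insert heT] at this
      obtain ⟨d₁, d₂, d₃, l1, l2, m1, m2, m3, m4, y, hy, z, hz, hyz⟩ :=
        four_points (hE (S.erase e) (Finset.erase_subset _ _) hQcard) hT
      have hy' := Finset.mem_erase.mp hy
      have hz' := Finset.mem_erase.mp hz
      have l0 : d₀ < d₃ := (hfd y hy'.2 hy'.1).lt_of (hfd z hz'.2 hz'.1) hyz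
      exact hquad d₀ d₁ d₂ d₃ l0.ne' (l1.trans l2).ne' l2.ne' m2 m3 m4 m1
  -- both sides are nonempty
  obtain ⟨p, hp, q, hq, hpq⟩ := hd₀
  have hsum : (S.filter (fun p => p.2 d₀ = true)).card +
      (S.filter (fun p => p.2 d₀ = false)).card = 5 := by
    have e : (S.filter (fun p => p.2 d₀ = false)) = S.filter (fun p => ¬ p.2 d₀ = true) := by
      ext v
      simp
    rw [e, Finset.card_filter_add_card_filter_not, hS]
  have h1 : ∀ b : Bool, 1 ≤ (S.filter (fun p => p.2 d₀ = b)).card := by
    intro b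
    rw [Nat.one_le_iff_ne_zero, Finset.card_ne_zero]
    by_cases hb : p.2 d₀ = b
    · exact ⟨p, Finset.mem_filter.mpr ⟨hp, hb⟩⟩
    · refine ⟨q, Finset.mem_filter.mpr ⟨hq, ?_⟩⟩
      have := hpq.2
      revert this hb
      cases p.2 d₀ <;> cases q.2 d₀ <;> cases b <;> simp
  by_cases h : (S.filter (fun p => p.2 d₀ = true)).card ≤ 2
  · exact main true (h1 true) h
  · exact main false (h1 false) (by omega)

/-- **There is no complete quintuple.** -/
theorem no_quint [WellFoundedLT K] [IsWellOrder (K → Bool) R]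
    (hquad : ∀ a b c d, d ≠ a → d ≠ b → d ≠ c → M a b c → M a b d → M a c d → M b c d → False)
    (htrip : ∀ m a b c, M a b c → G m a b → G m a c → G m b c → False)
    {S : Finset (ℕ × (K → Bool))} (hS : S.card = 5)
    (hE : ∀ s ⊆ S, s.card = 4 → E4 R M G s) : False := by
  obtain ⟨p₀, hp₀, hmin⟩ := S.exists_min_image (fun p => p.1) (by
    rw [← Finset.card_pos]; omega)
  set F := S.filter (fun p => p.1 = p₀.1) with hF
  have hp₀F : p₀ ∈ F := Finset.mem_filter.mpr ⟨hp₀, rfl⟩
  have key : ∀ q ∈ S, q ≠ p₀ → 3 ≤ (F.erase q).card := by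
    intro q hq hqp
    obtain ⟨n, hn, hn2⟩ := low_block (hE (S.erase q) (Finset.erase_subset _ _)
      (by rw [Finset.card_erase_of_mem hq, hS]))
    have h1 : n ≤ p₀.1 := hn2 p₀ (Finset.mem_erase.mpr ⟨hqp.symm, hp₀⟩)
    have h2 : ((S.erase q).filter (fun p => p.1 = n)).Nonempty := by
      rw [← Finset.card_pos]; omega
    obtain ⟨v, hv⟩ := h2
    rw [Finset.mem_filter] at hv
    have h3 := hmin v (Finset.mem_of_mem_erase hv.1)
    have h4 : n = p₀.1 := by omega
    rw [h4] at hn
    refine hn.trans (Finset.card_le_card ?_)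
    intro w hw
    rw [Finset.mem_filter, Finset.mem_erase] at hw
    exact Finset.mem_erase.mpr ⟨hw.1.1, Finset.mem_filter.mpr ⟨hw.1.2, hw.2⟩⟩
  have hF4 : 4 ≤ F.card := by
    obtain ⟨q, hq, hqp⟩ := Finset.exists_mem_ne (by omega : 1 < S.card) p₀
    have h1 := key q hq hqp
    have h2 : 3 ≤ F.card := h1.trans (Finset.card_le_card (Finset.erase_subset _ _))
    obtain ⟨q', hq', hqp'⟩ := Finset.exists_mem_ne (by omega : 1 < F.card) p₀
    have h3 := key q' (Finset.mem_of_mem_filter q' hq') hqp'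
    rw [Finset.card_erase_of_mem hq'] at h3
    omega
  have hF5 : F.card ≤ 5 := hS ▸ Finset.card_le_card (Finset.filter_subset _ _)
  rcases hF5.lt_or_eq with hlt | heq
  · -- one point in a higher block
    have hFc : F.card = 4 := by omega
    have hex : ∃ η ∈ S, η ∉ F := by
      by_contra hc
      push Not at hc
      have : S.card ≤ F.card := Finset.card_le_card hc
      omega
    obtain ⟨η, hη, hηF⟩ := hex
    have hηb : p₀.1 < η.1 := by
      have h1 := hmin η hη
      have h2 : η.1 ≠ p₀.1 := fun h => hηF (Finset.mem_filter.mpr ⟨hη, h⟩)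
      omega
    have hblock : ∀ p ∈ F, p.1 = p₀.1 := fun p hp => (Finset.mem_filter.mp hp).2
    have hFS : F ⊆ S := Finset.filter_subset _ _
    have hT : ∀ T ⊆ F, T.card = 3 → T3 R (G η.1) T := by
      intro T hTF hTc
      have hηT : η ∉ T := fun h => hηF (hTF h)
      refine eta_edge (M := M) (n := p₀.1) (fun p hp => hblock p (hTF hp)) ?_ hηb
        (hE (insert η T) ?_ (by rw [Finset.card_insert_of_notMem hηT, hTc]))
      · rw [← Finset.card_pos]; omega
      · intro v hv
        rw [Finset.mem_insert] at hv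
        rcases hv with rfl | hv
        · exact hη
        · exact hFS (hTF hv)
    obtain ⟨d₁, d₂, d₃, _, _, m1, m2, m3, m4, _⟩ :=
      four_points (inblock hblock (hE F hFS hFc)) hT
    exact htrip η.1 d₁ d₂ d₃ m1 m2 m3 m4
  · have hFS : F = S := Finset.eq_of_subset_of_card_le (Finset.filter_subset _ _) (by omega)
    have hN : ∀ p ∈ S, p.1 = p₀.1 := fun p hp => by
      rw [← hFS] at hp
      exact (Finset.mem_filter.mp hp).2
    exact no_quint_block hquad hN hS fun s hs hsc =>
      inblock (fun p hp => hN p (hs hp)) (hE s hs hsc)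

end

/-- the branches, with another well-order -/
def Br (I : Type) : Type := I → Bool

noncomputable instance (I : Type) : LinearOrder (Br I) :=
  linearOrderOfSTO (WellOrderingRel : Br I → Br I → Prop)

instance (I : Type) : WellFoundedLT (Br I) :=
  ⟨(inferInstance : IsWellOrder (Br I) WellOrderingRel).wf⟩

variable {I : Type} [LinearOrder I]
variable {r : (I → Bool) → (I → Bool) → Prop}

theorem M.distinct [IsWellOrder (I → Bool) r] {a b c : I → Bool} (h : M r a b c) :
    a ≠ b ∧ a ≠ c ∧ b ≠ c := by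
  have key : ∀ a b c : I → Bool, Mid r a b c → a ≠ b ∧ a ≠ c ∧ b ≠ c := by
    rintro a b c ⟨_, ⟨g1, g2⟩ | ⟨g1, g2⟩⟩
    · refine ⟨?_, ?_, ?_⟩
      · rintro rfl; exact irrefl_of r _ g1
      · rintro rfl; exact irrefl_of r _ g2
      · rintro rfl; exact asymm_of r g1 g2
    · refine ⟨?_, ?_, ?_⟩
      · rintro rfl; exact irrefl_of r _ g2
      · rintro rfl; exact irrefl_of r _ g1
      · rintro rfl; exact asymm_of r g1 g2
  rcases h with h | h | h
  · exact key _ _ _ h
  · have := key _ _ _ h
    exact ⟨this.1.symm, this.2.2, this.2.1⟩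
  · have := key _ _ _ h
    exact ⟨this.2.2, this.1.symm, this.2.1.symm⟩

theorem exists_aleph_nat {c : Cardinal.{0}} (h : c < ℵ_ (ω : Ordinal.{0})) :
    ∃ j : ℕ, c ≤ ℵ_ (j : Ordinal.{0}) := by
  rw [aleph_limit isSuccLimit_omega0] at h
  obtain ⟨⟨o, ho⟩, hlt⟩ := exists_lt_of_lt_ciSup' h
  obtain ⟨j, rfl⟩ := lt_omega0.mp ho
  exact ⟨j, hlt.le⟩

/-- **Independent sets of the quadruple system are small.** -/
theorem indep4_small [WellFoundedLT I] [IsWellOrder (I → Bool) r]
    {R : (Br I → Bool) → (Br I → Bool) → Prop} [IsWellOrder (Br I → Bool) R] {B : I → Set ℕ}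
    (hB : Good B) (J : ℕ → Set I) (hJ : ∀ n : ℕ, #(J n) = ℵ_ (n : Ordinal))
    (H : Set (ℕ × (Br I → Bool)))
    (hH : ∀ p ∈ H, ∀ x : Br I, ¬ (∀ t ∉ J p.1, x t = false) → p.2 x = false)
    (hI : ∀ s : Finset (ℕ × (Br I → Bool)), ↑s ⊆ H → s.card = 4 →
      ¬ E4 R (fun a b c : Br I => M r a b c) (fun m (a b : Br I) => G r B m a b) s) :
    #H < ℵ_ ω := by
  set X : ℕ → Set (Br I → Bool) := fun n => {x | (n, x) ∈ H} with hX
  have hcr : ∀ n, NoCross R (X n) := by
    intro n a ha b hb c hc d hd t h1 h2 h3 ⟨r1, r2, r3⟩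
    have nab : a ≠ b := by rintro rfl; exact asymm_of R r1 r2
    have nac : a ≠ c := by rintro rfl; exact irrefl_of R _ r1
    have nad : a ≠ d := by rintro rfl; exact asymm_of R (trans_of R r1 r2) r3
    have nbc : b ≠ c := by rintro rfl; exact irrefl_of R _ r2
    have nbd : b ≠ d := by rintro rfl; exact irrefl_of R _ r3
    have ncd : c ≠ d := by rintro rfl; exact asymm_of R r2 r3
    refine hI {(n, a), (n, b), (n, c), (n, d)} ?_ ?_ (Or.inr (Or.inl
      ⟨(n, a), (n, b), (n, c), (n, d), rfl, rfl, rfl, rfl, t, h1, h2, h3, r1, r2, r3⟩))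
    · intro v hv
      simp only [Finset.coe_insert, Finset.coe_singleton, Set.mem_insert_iff,
        Set.mem_singleton_iff] at hv
      rcases hv with rfl | rfl | rfl | rfl <;> assumption
    · refine Finset.card_eq_four.mpr ⟨(n, a), (n, b), (n, c), (n, d), ?_, ?_, ?_, ?_, ?_, ?_, rfl⟩
      all_goals
        intro h
        have := congrArg Prod.snd h
        simp only at this
        contradiction
  -- the comb
  have hcomb : ∀ (n j : ℕ), ℵ_ ((j + 1 : ℕ) : Ordinal.{0}) ≤ #(X n) →
      ∃ D : Set (I → Bool), ℵ_ ((j + 1 : ℕ) : Ordinal.{0}) ≤ #D ∧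
        (∀ x ∈ D, ∀ t ∉ J n, x t = false) ∧
        (∀ a ∈ D, ∀ b ∈ D, ∀ c ∈ D, ¬ M r a b c) ∧
        (∀ m, (X m).Nonempty → n < m → ∀ a ∈ D, ∀ b ∈ D, ¬ G r B m a b) := by
    intro n j hj
    have hreg : (ℵ_ ((j + 1 : ℕ) : Ordinal.{0})).IsRegular := by
      rw [Nat.cast_add, Nat.cast_one]
      exact isRegular_aleph_add_one _
    obtain ⟨D, D₁, y, hD₁D, hD₁, hyX, hyD, hsucc⟩ := comb (R := R) hreg hj (hcr n)
    refine ⟨D₁, hD₁, ?_, ?_, ?_⟩
    · intro x hx t ht
      obtain ⟨d', hd', hlt⟩ := hsucc x hx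
      by_contra hc
      have hns : ¬ (∀ t ∉ J n, (x : Br I) t = false) := fun h => hc (h t ht)
      have h1 : y x x = false := hH (n, y x) (hyX x (hD₁D hx)) x hns
      have h2 : y d' x = false := hH (n, y d') (hyX d' hd') x hns
      exact (hyD x (hD₁D hx) d' hd' hlt).1.2 (h1.trans h2.symm)
    · have sorted : ∀ a ∈ D₁, ∀ b ∈ D₁, ∀ c ∈ D₁, (a : Br I) < b → (b : Br I) < c →
          ¬ M r a b c := by
        intro a ha b hb c hc hab hbc hM
        obtain ⟨d, hd, hcd⟩ := hsucc c hc
        have A := hD₁D ha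
        have Bm := hD₁D hb
        have C := hD₁D hc
        have fab := hyD a A b Bm hab
        have fac := hyD a A c C (hab.trans hbc)
        have fad := hyD a A d hd ((hab.trans hbc).trans hcd)
        have fbc := hyD b Bm c C hbc
        have fbd := hyD b Bm d hd (hbc.trans hcd)
        have fcd := hyD c C d hd hcd
        refine hI {(n, y a), (n, y b), (n, y c), (n, y d)} ?_ ?_ (Or.inl
          ⟨(n, y a), (n, y b), (n, y c), (n, y d), rfl, rfl, rfl, rfl, a, b, c, fab.1, fac.1,
            fad.1, fbc.1, fbd.1, fcd.1, hM, fab.2, fac.2, fad.2, fbc.2, fbd.2⟩)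
        · intro v hv
          simp only [Finset.coe_insert, Finset.coe_singleton, Set.mem_insert_iff,
            Set.mem_singleton_iff] at hv
          rcases hv with rfl | rfl | rfl | rfl
          · exact hyX a A
          · exact hyX b Bm
          · exact hyX c C
          · exact hyX d hd
        · exact Finset.card_eq_four.mpr ⟨(n, y a), (n, y b), (n, y c), (n, y d),
            ne_of_fd (t := a) fab.1, ne_of_fd (t := a) fac.1, ne_of_fd (t := a) fad.1,
            ne_of_fd (t := b) fbc.1, ne_of_fd (t := b) fbd.1, ne_of_fd (t := c) fcd.1, rfl⟩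
      intro a ha b hb c hc hM
      have hd := hM.distinct
      rcases @lt_or_gt_of_ne (Br I) _ a b hd.1 with h1 | h1 <;>
        rcases @lt_or_gt_of_ne (Br I) _ a c hd.2.1 with h2 | h2 <;>
        rcases @lt_or_gt_of_ne (Br I) _ b c hd.2.2 with h3 | h3
      · exact sorted a ha b hb c hc h1 h3 hM
      · exact sorted a ha c hc b hb h2 h3 hM.swap23
      · exact absurd (h1.trans h3) (not_lt.mpr h2.le)
      · exact sorted c hc a ha b hb h2 h1 hM.swap23.swap12
      · exact sorted b hb a ha c hc h1 h2 hM.swap12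
      · exact absurd (h2.trans h3) (not_lt.mpr h1.le)
      · exact sorted b hb c hc a ha h3 h2 hM.swap12.swap23
      · exact sorted c hc b hb a ha h3 h1 hM.swap12.swap23.swap12
    · rintro m ⟨ζ, hζ⟩ hnm
      have sorted : ∀ a ∈ D₁, ∀ b ∈ D₁, (a : Br I) < b → ¬ G r B m a b := by
        intro a ha b hb hab hG
        obtain ⟨d, hd, hbd⟩ := hsucc b hb
        have A := hD₁D ha
        have Bm := hD₁D hb
        have fab := hyD a A b Bm hab
        have fad := hyD a A d hd (hab.trans hbd)
        have fbd := hyD b Bm d hd hbd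
        refine hI {(n, y a), (n, y b), (n, y d), (m, ζ)} ?_ ?_ (Or.inr (Or.inr
          ⟨(n, y a), (n, y b), (n, y d), (m, ζ), rfl, rfl, rfl, hnm, a, b, fab.1, fad.1,
            fbd.1, hG, fab.2, fad.2⟩))
        · intro v hv
          simp only [Finset.coe_insert, Finset.coe_singleton, Set.mem_insert_iff,
            Set.mem_singleton_iff] at hv
          rcases hv with rfl | rfl | rfl | rfl
          · exact hyX a A
          · exact hyX b Bm
          · exact hyX d hd
          · exact hζ
        · have hnm' : n ≠ m := hnm.ne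
          refine Finset.card_eq_four.mpr ⟨(n, y a), (n, y b), (n, y d), (m, ζ),
            ne_of_fd (t := a) fab.1, ne_of_fd (t := a) fad.1, ?_,
            ne_of_fd (t := b) fbd.1, ?_, ?_, rfl⟩
          all_goals
            intro h
            exact hnm' (congrArg Prod.fst h)
      intro a ha b hb hG
      have hne : a ≠ b := by
        rcases hG with ⟨_, t, ht, _⟩ | ⟨_, t, ht, _⟩ <;> exact ht.ne
      rcases @lt_or_gt_of_ne (Br I) _ a b hne with h1 | h1
      · exact sorted a ha b hb h1 hG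
      · exact sorted b hb a ha h1 hG.symm
  have hle : ∀ (n j : ℕ), ¬ ℵ_ ((j + 1 : ℕ) : Ordinal.{0}) ≤ #(X n) →
      #(X n) ≤ ℵ_ (j : Ordinal.{0}) := by
    intro n j h
    rw [not_le] at h
    rw [Nat.cast_add, Nat.cast_one, ← succ_aleph] at h
    exact Order.lt_succ_iff.mp h
  have hlev : ∀ (n : ℕ) (D : Set (I → Bool)), (∀ x ∈ D, ∀ t ∉ J n, x t = false) →
      lev D ⊆ J n := by
    rintro n D hD t ⟨x, hx, y, hy, hxy⟩
    by_contra hc
    exact hxy.2 ((hD x hx t hc).trans (hD y hy t hc).symm)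
  by_cases hA : {n | (X n).Nonempty}.Infinite
  · set A := {n | (X n).Nonempty} with hAdef
    set T := {t | (A ∩ B t).Finite ∨ (A \ B t).Finite} with hT
    have hTlt : max #T ℵ₀ < ℵ_ (ω : Ordinal.{0}) := max_lt (hB A hA) aleph0_lt_omega
    obtain ⟨j, hj⟩ := exists_aleph_nat hTlt
    have hbd : ∀ n, #(X n) ≤ ℵ_ (j : Ordinal.{0}) := by
      intro n
      apply hle n j
      intro hc
      obtain ⟨D, hD, hDJ, hDM, hDG⟩ := hcomb n j hc
      have h1 : #D ≤ max #T ℵ₀ := by
        refine (block_bound (r := r) hDM).trans (max_le_max ?_ le_rfl)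
        apply mk_le_mk_of_subset
        intro t ht
        exact nonsplit (r := r) (n := n) (fun m hm hnm a ha b hb => hDG m hm hnm a ha b hb) ht
      have h2 : ℵ_ ((j + 1 : ℕ) : Ordinal.{0}) ≤ ℵ_ (j : Ordinal.{0}) := hD.trans (h1.trans hj)
      rw [aleph_le_aleph] at h2
      have : j + 1 ≤ j := by exact_mod_cast h2
      omega
    exact (card_sigma_bound H (aleph0_le_aleph _) hbd).trans_lt (aleph_lt_omega j)
  · rw [Set.not_infinite] at hA
    obtain ⟨N, hN⟩ := hA.bddAbove
    have hbd : ∀ n, #(X n) ≤ ℵ_ (N : Ordinal) := by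
      intro n
      by_cases hn : (X n).Nonempty
      · have hnN : n ≤ N := hN hn
        apply hle n N
        intro hc
        obtain ⟨D, hD, hDJ, hDM, -⟩ := hcomb n N hc
        have h1 : #D ≤ ℵ_ (N : Ordinal.{0}) := by
          refine (block_bound (r := r) hDM).trans (max_le ?_ (aleph0_le_aleph _))
          refine (mk_le_mk_of_subset (hlev n D hDJ)).trans ?_
          rw [hJ n]
          exact aleph_le_aleph.mpr (by exact_mod_cast hnN)
        have h2 : ℵ_ ((N + 1 : ℕ) : Ordinal.{0}) ≤ ℵ_ (N : Ordinal.{0}) := hD.trans h1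
        rw [aleph_le_aleph] at h2
        have : N + 1 ≤ N := by exact_mod_cast h2
        omega
      · rw [Set.not_nonempty_iff_eq_empty] at hn
        rw [hn]
        simp
    exact (card_sigma_bound H (aleph0_le_aleph _) hbd).trans_lt (aleph_lt_omega N)

end Pool.Agent.Helper96.Split
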