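import Mathlib

/-!
# A calculus for computable functions and r.e. predicates of an environment

Environments are lists of naturals; `gt v i` is the `i`-th variable. `Cf f` says that `f` is a
computable function of the environment, `Cp P` that `P` is a decidable (computable) predicate and
`Rp P` that `P` is recursively enumerable. Bounded quantifiers push the bound variable in front of
the environment.
-/

set_option autoImplicit false

namespace Pool.Agent.Helper96.Calc

open Classical

/-- The `i`-th variable. -/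
abbrev gt (v : List ℕ) (i : ℕ) : ℕ := v.getD i 0

/-- Computable functions of an environment. -/
def Cf (f : List ℕ → ℕ) : Prop := Computable f

/-- Computable predicates of an environment. -/
def Cp (P : List ℕ → Prop) : Prop := Cf fun v => if P v then 1 else 0

/-- Recursively enumerable predicates of an environment. -/
def Rp (P : List ℕ → Prop) : Prop := ∃ Q : List ℕ → Prop, Cp Q ∧ ∀ v, P v ↔ ∃ s, Q (s :: v)

namespace Cf

variable {f g h : List ℕ → ℕ}

theorem congr (hf : Cf f) (e : ∀ v, f v = g v) : Cf g := by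
  have : f = g := funext e
  rwa [← this]

theorem get (hf : Cf f) : Cf fun v => gt v (f v) :=
  (Primrec.list_getD 0).to_comp.comp Computable.id hf

theorem var (i : ℕ) : Cf fun v => gt v i :=
  (Primrec.list_getD 0).to_comp.comp Computable.id (Computable.const i)

theorem const (c : ℕ) : Cf fun _ => c := Computable.const c

theorem length : Cf fun v => v.length := Computable.list_length

theorem app {F : ℕ → ℕ} (hF : Computable F) (hf : Cf f) : Cf fun v => F (f v) := hF.comp hf

theorem app2 {F : ℕ → ℕ → ℕ} (hF : Computable₂ F) (hf : Cf f) (hg : Cf g) :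
    Cf fun v => F (f v) (g v) := hF.comp hf hg

theorem add (hf : Cf f) (hg : Cf g) : Cf fun v => f v + g v :=
  Primrec.nat_add.to_comp.comp hf hg

theorem sub (hf : Cf f) (hg : Cf g) : Cf fun v => f v - g v :=
  Primrec.nat_sub.to_comp.comp hf hg

theorem mul (hf : Cf f) (hg : Cf g) : Cf fun v => f v * g v :=
  Primrec.nat_mul.to_comp.comp hf hg

theorem div (hf : Cf f) (hg : Cf g) : Cf fun v => f v / g v :=
  Primrec.nat_div.to_comp.comp hf hg

theorem mod (hf : Cf f) (hg : Cf g) : Cf fun v => f v % g v :=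
  Primrec.nat_mod.to_comp.comp hf hg

theorem unpair1 (hf : Cf f) : Cf fun v => (f v).unpair.1 :=
  (Computable.fst.comp Computable.unpair).comp hf

theorem unpair2 (hf : Cf f) : Cf fun v => (f v).unpair.2 :=
  (Computable.snd.comp Computable.unpair).comp hf

theorem pair (hf : Cf f) (hg : Cf g) : Cf fun v => Nat.pair (f v) (g v) :=
  Primrec₂.natPair.to_comp.comp hf hg

/-- Composition with a computable transformation of the environment. -/
theorem comp {G : List ℕ → List ℕ} (hf : Cf f) (hG : Computable G) : Cf fun v => f (G v) :=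
  Computable.comp hf hG

theorem sum (hf : Cf f) (hg : Cf g) :
    Cf fun v => ∑ i ∈ Finset.range (f v), g (i :: v) := by
  have h1 : Computable₂ fun (v : List ℕ) (p : ℕ × ℕ) => p.2 + g (p.1 :: v) :=
    Primrec.nat_add.to_comp.comp (Computable.snd.comp Computable.snd)
      (Computable.comp hg (Computable.list_cons.comp (Computable.fst.comp Computable.snd)
        Computable.fst))
  have h2 := Computable.nat_rec (f := f) (g := fun _ => 0) (h := fun (v : List ℕ) (p : ℕ × ℕ) =>
    p.2 + g (p.1 :: v)) hf (Computable.const 0) h1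
  refine Computable.of_eq h2 fun v => ?_
  induction f v with
  | zero => rfl
  | succ n ih =>
    simp only
    rw [Finset.sum_range_succ, ← ih]

theorem cons {G : List ℕ → List ℕ} (hf : Cf f) (hG : Computable G) :
    Computable fun v => f v :: G v :=
  Computable.list_cons.comp hf hG

theorem nil : Computable fun _ : List ℕ => ([] : List ℕ) := Computable.const []

theorem sub1 {F : ℕ → ℕ} (hF : Cf fun v => F (gt v 0)) (hf : Cf f) : Cf fun v => F (f v) :=
  comp hF (cons hf nil)

theorem sub2 {F : ℕ → ℕ → ℕ} (hF : Cf fun v => F (gt v 0) (gt v 1)) (hf : Cf f) (hg : Cf g) :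
    Cf fun v => F (f v) (g v) :=
  comp hF (cons hf (cons hg nil))

theorem sub3 {F : ℕ → ℕ → ℕ → ℕ} (hF : Cf fun v => F (gt v 0) (gt v 1) (gt v 2)) (hf : Cf f)
    (hg : Cf g) (hh : Cf h) : Cf fun v => F (f v) (g v) (h v) :=
  comp hF (cons hf (cons hg (cons hh nil)))

end Cf

namespace Cp

variable {f g h : List ℕ → ℕ} {P Q : List ℕ → Prop}

theorem congr (hP : Cp P) (e : ∀ v, P v ↔ Q v) : Cp Q :=
  Cf.congr hP fun v => by simp only [e v]

theorem of_ne_zero (hf : Cf f) : Cp fun v => f v ≠ 0 := by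
  refine Cf.congr ((Cf.const 1).sub ((Cf.const 1).sub hf)) fun v => ?_
  split_ifs with h0 <;> omega

theorem const (p : Prop) : Cp fun _ => p := by
  by_cases h : p
  · exact Cf.congr (Cf.const 1) fun v => by simp [h]
  · exact Cf.congr (Cf.const 0) fun v => by simp [h]

theorem not (hP : Cp P) : Cp fun v => ¬ P v := by
  refine Cf.congr ((Cf.const 1).sub hP) fun v => ?_
  by_cases hp : P v <;> simp [hp]

theorem and (hP : Cp P) (hQ : Cp Q) : Cp fun v => P v ∧ Q v := by
  refine Cf.congr (Cf.mul hP hQ) fun v => ?_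
  by_cases hp : P v <;> by_cases hq : Q v <;> simp [hp, hq]

theorem or (hP : Cp P) (hQ : Cp Q) : Cp fun v => P v ∨ Q v :=
  (hP.not.and hQ.not).not.congr fun v => by tauto

theorem imp (hP : Cp P) (hQ : Cp Q) : Cp fun v => P v → Q v :=
  (hP.not.or hQ).congr fun v => by tauto

theorem lt (hf : Cf f) (hg : Cf g) : Cp fun v => f v < g v :=
  (of_ne_zero (hg.sub hf)).congr fun v => by omega

theorem le (hf : Cf f) (hg : Cf g) : Cp fun v => f v ≤ g v :=
  (lt hg hf).not.congr fun v => by omega

theorem eq (hf : Cf f) (hg : Cf g) : Cp fun v => f v = g v :=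
  ((le hf hg).and (le hg hf)).congr fun v => by omega

theorem ne (hf : Cf f) (hg : Cf g) : Cp fun v => f v ≠ g v := (eq hf hg).not

theorem ex (hf : Cf f) (hP : Cp P) : Cp fun v => ∃ i < f v, P (i :: v) := by
  refine (of_ne_zero (Cf.sum hf hP)).congr fun v => ?_
  rw [Ne, Finset.sum_eq_zero_iff]
  constructor
  · intro h
    push Not at h
    obtain ⟨i, hi, h⟩ := h
    refine ⟨i, Finset.mem_range.1 hi, ?_⟩
    by_contra hn
    rw [if_neg hn] at h
    exact h rfl
  · rintro ⟨i, hi, h⟩ hall
    have := hall i (Finset.mem_range.2 hi)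
    rw [if_pos h] at this
    exact one_ne_zero this

theorem all (hf : Cf f) (hP : Cp P) : Cp fun v => ∀ i < f v, P (i :: v) :=
  (ex hf hP.not).not.congr fun v => by push Not; rfl

theorem comp {G : List ℕ → List ℕ} (hP : Cp P) (hG : Computable G) : Cp fun v => P (G v) :=
  Cf.comp hP hG

theorem sub1 {F : ℕ → Prop} (hF : Cp fun v => F (gt v 0)) (hf : Cf f) : Cp fun v => F (f v) :=
  comp hF (Cf.cons hf Cf.nil)

theorem sub2 {F : ℕ → ℕ → Prop} (hF : Cp fun v => F (gt v 0) (gt v 1)) (hf : Cf f) (hg : Cf g) :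
    Cp fun v => F (f v) (g v) :=
  comp hF (Cf.cons hf (Cf.cons hg Cf.nil))

theorem sub3 {F : ℕ → ℕ → ℕ → Prop} (hF : Cp fun v => F (gt v 0) (gt v 1) (gt v 2)) (hf : Cf f)
    (hg : Cf g) (hh : Cf h) : Cp fun v => F (f v) (g v) (h v) :=
  comp hF (Cf.cons hf (Cf.cons hg (Cf.cons hh Cf.nil)))

end Cp

namespace Cf

variable {f g : List ℕ → ℕ} {P : List ℕ → Prop}

theorem ite (hP : Cp P) (hf : Cf f) (hg : Cf g) : Cf fun v => if P v then f v else g v := by
  refine ((mul hP hf).add (mul hP.not hg)).congr fun v => ?_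
  by_cases h : P v <;> simp [h]

theorem two_pow (hf : Cf f) : Cf fun v => 2 ^ f v := by
  have h1 : Computable fun n : ℕ => 2 ^ n := by
    have h2 := Computable.nat_rec (f := fun n : ℕ => n) (g := fun _ => 1)
      (h := fun (_ : ℕ) (p : ℕ × ℕ) => p.2 + p.2) Computable.id (Computable.const 1)
      (Primrec.nat_add.to_comp.comp (Computable.snd.comp Computable.snd)
        (Computable.snd.comp Computable.snd))
    refine h2.of_eq fun n => ?_
    induction n with
    | zero => rfl
    | succ n ih =>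
      simp only at ih ⊢
      rw [ih, pow_succ]
      ring
  exact app h1 hf

/-- The least `i < N` with `P i`, or `N`. -/
noncomputable def least (N : ℕ) (P : ℕ → Prop) : ℕ :=
  ∑ i ∈ Finset.range N, if (∀ j < i + 1, ¬ P j) then 1 else 0

theorem least_spec (N : ℕ) (P : ℕ → Prop) :
    least N P ≤ N ∧ (∀ j < least N P, ¬ P j) ∧ (least N P < N → P (least N P)) := by
  unfold least
  induction N with
  | zero => simp
  | succ N ih =>
    rw [Finset.sum_range_succ]
    set S := ∑ i ∈ Finset.range N, if (∀ j < i + 1, ¬ P j) then 1 else 0 with hS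
    obtain ⟨h1, h2, h3⟩ := ih
    by_cases hall : ∀ j < N + 1, ¬ P j
    · have hSN : S = N := by
        by_contra hne
        exact hall S (by omega) (h3 (by omega))
      rw [if_pos hall, hSN]
      refine ⟨le_rfl, hall, fun h => absurd h (lt_irrefl _)⟩
    · rw [if_neg hall, Nat.add_zero]
      refine ⟨by omega, h2, fun _ => ?_⟩
      rcases Nat.lt_or_ge S N with h | h
      · exact h3 h
      · have hSN : S = N := by omega
        rw [hSN]
        by_contra hn
        apply hall
        intro j hj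
        rcases Nat.lt_or_ge j N with h' | h'
        · exact h2 j (by omega)
        · have : j = N := by omega
          rw [this]; exact hn

theorem least_eq {N n : ℕ} {P : ℕ → Prop} (hn : n ≤ N) (h1 : ∀ j < n, ¬ P j)
    (h2 : n < N → P n) : least N P = n := by
  obtain ⟨h3, h4, h5⟩ := least_spec N P
  rcases lt_trichotomy (least N P) n with h | h | h
  · exact absurd (h5 (by omega)) (h1 _ h)
  · exact h
  · exact absurd (h2 (by omega)) (h4 _ h)

theorem leastCf (hf : Cf f) (hP : Cp P) : Cf fun v => least (f v) fun i => P (i :: v) := by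
  have h1 : Cp fun v => ∀ j < gt v 0 + 1, ¬ P (j :: v.tail) := by
    have h2 : Cp fun v => ¬ P (gt v 0 :: (v.tail).tail) := by
      refine Cp.not (Cp.comp hP (cons (var 0) ?_))
      exact (Primrec.list_tail.comp Primrec.list_tail).to_comp
    exact Cp.all ((var 0).add (const 1)) h2
  refine (sum hf h1).congr fun v => ?_
  unfold least
  apply Finset.sum_congr rfl
  intro i _
  by_cases h : ∀ j < i + 1, ¬ P (j :: v)
  · rw [if_pos h, if_pos (show ∀ j < gt (i :: v) 0 + 1, ¬ P (j :: (i :: v).tail) from h)]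
  · rw [if_neg h, if_neg (show ¬ ∀ j < gt (i :: v) 0 + 1, ¬ P (j :: (i :: v).tail) from h)]

theorem log2 (hf : Cf f) : Cf fun v => Nat.log 2 (f v) := by
  have h1 : Cf fun v => least (gt v 0) fun i => gt v 0 < 2 ^ (i + 1) := by
    have h2 : Cp fun v => gt v 1 < 2 ^ (gt v 0 + 1) :=
      Cp.lt (var 1) (two_pow ((var 0).add (const 1)))
    exact leastCf (var 0) h2
  have h3 : Cf fun v => Nat.log 2 (gt v 0) := by
    refine h1.congr fun v => ?_
    set n := gt v 0
    apply least_eq
    · exact Nat.log_le_self 2 n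
    · intro j hj hlt
      rcases Nat.eq_zero_or_pos n with h0 | hpos
      · rw [h0] at hj; simp at hj
      · have : 2 ^ (j + 1) ≤ 2 ^ Nat.log 2 n := Nat.pow_le_pow_right (by norm_num) hj
        have := Nat.pow_log_le_self 2 hpos.ne'
        omega
    · intro _
      exact Nat.lt_pow_succ_log_self (by norm_num) n
  exact sub1 (F := fun n => Nat.log 2 n) h3 hf

end Cf

namespace Rp

variable {f g : List ℕ → ℕ} {P Q : List ℕ → Prop}

theorem congr (hP : Rp P) (e : ∀ v, P v ↔ Q v) : Rp Q := by
  have : P = Q := funext fun v => propext (e v)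
  rwa [← this]

theorem of_cp (hP : Cp P) : Rp P :=
  ⟨fun v => P v.tail, hP.comp Primrec.list_tail.to_comp, fun v => by simp⟩

theorem or (hP : Rp P) (hQ : Rp Q) : Rp fun v => P v ∨ Q v := by
  obtain ⟨P', hP', eP⟩ := hP
  obtain ⟨Q', hQ', eQ⟩ := hQ
  refine ⟨_, hP'.or hQ', fun v => ?_⟩
  change P v ∨ Q v ↔ _
  rw [eP, eQ, ← exists_or]

theorem and (hP : Rp P) (hQ : Rp Q) : Rp fun v => P v ∧ Q v := by
  obtain ⟨P', hP', eP⟩ := hP
  obtain ⟨Q', hQ', eQ⟩ := hQ
  have ht : Computable fun v : List ℕ => v.tail := Primrec.list_tail.to_comp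
  refine ⟨fun v => P' ((gt v 0).unpair.1 :: v.tail) ∧ Q' ((gt v 0).unpair.2 :: v.tail),
    (hP'.comp (Cf.cons (Cf.var 0).unpair1 ht)).and (hQ'.comp (Cf.cons (Cf.var 0).unpair2 ht)),
    fun v => ?_⟩
  change P v ∧ Q v ↔ _
  rw [eP, eQ]
  constructor
  · rintro ⟨⟨a, ha⟩, ⟨b, hb⟩⟩
    refine ⟨Nat.pair a b, ?_⟩
    simpa using ⟨ha, hb⟩
  · rintro ⟨s, h1, h2⟩
    exact ⟨⟨_, h1⟩, ⟨_, h2⟩⟩

/-- Unbounded existential quantification. -/
theorem ex (hP : Rp P) : Rp fun v => ∃ i, P (i :: v) := by
  obtain ⟨P', hP', eP⟩ := hP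
  have ht : Computable fun v : List ℕ => v.tail := Primrec.list_tail.to_comp
  refine ⟨fun v => P' ((gt v 0).unpair.1 :: (gt v 0).unpair.2 :: v.tail),
    hP'.comp (Cf.cons (Cf.var 0).unpair1 (Cf.cons (Cf.var 0).unpair2 ht)), fun v => ?_⟩
  constructor
  · rintro ⟨i, hi⟩
    rw [eP] at hi
    obtain ⟨s, hs⟩ := hi
    refine ⟨Nat.pair s i, ?_⟩
    simpa using hs
  · rintro ⟨s, hs⟩
    exact ⟨_, (eP _).2 ⟨_, hs⟩⟩

theorem comp {G : List ℕ → List ℕ} (hP : Rp P) (hG : Computable G) : Rp fun v => P (G v) := by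
  obtain ⟨P', hP', eP⟩ := hP
  have ht : Computable fun v : List ℕ => v.tail := Primrec.list_tail.to_comp
  refine ⟨fun v => P' (gt v 0 :: G v.tail), hP'.comp (Cf.cons (Cf.var 0) (hG.comp ht)),
    fun v => ?_⟩
  change P (G v) ↔ _
  rw [eP]
  rfl

theorem sub1 {F : ℕ → Prop} (hF : Rp fun v => F (gt v 0)) (hf : Cf f) : Rp fun v => F (f v) :=
  comp hF (Cf.cons hf Cf.nil)

/-- From the calculus to Mathlib's notion. -/
theorem rePred {α : Type} [Primcodable α] {G : α → List ℕ} (hP : Rp P) (hG : Computable G) :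
    REPred fun a => P (G a) := by
  obtain ⟨P', hP', eP⟩ := hP
  have h1 : Computable fun p : α × ℕ => decide (P' (p.2 :: G p.1)) := by
    have h2 : Computable fun p : α × ℕ => (if P' (p.2 :: G p.1) then 1 else 0 : ℕ) :=
      Computable.comp hP' (Computable.list_cons.comp Computable.snd (hG.comp Computable.fst))
    have h3 : Computable fun n : ℕ => decide (n = 1) :=
      (Primrec.eq.comp Primrec.id (Primrec.const 1)).decide.to_comp
    refine (h3.comp h2).of_eq fun p => ?_
    by_cases h : P' (p.2 :: G p.1) <;> simp [h]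
  have h4 : Partrec fun a => Nat.rfind fun s => Part.some (decide (P' (s :: G a))) :=
    Partrec.rfind (p := fun a s => Part.some (decide (P' (s :: G a)))) h1.partrec
  refine h4.dom_re.of_eq fun a => ?_
  rw [eP]
  constructor
  · intro h
    obtain ⟨n, hn, -⟩ := Nat.rfind_dom.1 h
    exact ⟨n, by simpa using hn⟩
  · rintro ⟨s, hs⟩
    refine Nat.rfind_dom.2 ⟨s, by simpa using hs, fun {m} _ => trivial⟩

end Rp

/-! ### Codes -/

open Nat.Partrec

/-- `x` is enumerated within `s` steps in the domain of the `e`-th partial recursive function. -/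
def enumBy (e s x : ℕ) : Prop := ((Denumerable.ofNat Code e).evaln s x).isSome = true

theorem enumBy_mono {e s s' x : ℕ} (h : s ≤ s') (hx : enumBy e s x) : enumBy e s' x := by
  unfold enumBy at hx ⊢
  obtain ⟨y, hy⟩ := Option.isSome_iff_exists.1 hx
  have : y ∈ (Denumerable.ofNat Code e).evaln s' x := Code.evaln_mono h hy
  rw [this]
  rfl

theorem exists_enumBy {e x : ℕ} :
    (∃ s, enumBy e s x) ↔ ((Denumerable.ofNat Code e).eval x).Dom := by
  rw [Part.dom_iff_mem]
  constructor
  · rintro ⟨s, hs⟩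
    obtain ⟨y, hy⟩ := Option.isSome_iff_exists.1 hs
    exact ⟨y, Code.evaln_sound hy⟩
  · rintro ⟨y, hy⟩
    obtain ⟨s, hs⟩ := Code.evaln_complete.1 hy
    exact ⟨s, Option.isSome_iff_exists.2 ⟨y, hs⟩⟩

theorem cp_enumBy {f g h : List ℕ → ℕ} (hf : Cf f) (hg : Cf g) (hh : Cf h) :
    Cp fun v => enumBy (f v) (g v) (h v) := by
  have h1 : Computable fun v : List ℕ =>
      ((Denumerable.ofNat Code (f v)).evaln (g v) (h v)).isSome :=
    Primrec.option_isSome.to_comp.comp (Code.primrec_evaln.to_comp.comp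
      ((Computable.pair hg ((Computable.ofNat Code).comp hf)).pair hh))
  have h2 : Computable fun v : List ℕ =>
      cond ((Denumerable.ofNat Code (f v)).evaln (g v) (h v)).isSome 1 0 :=
    Computable.cond h1 (Computable.const 1) (Computable.const 0)
  refine Computable.of_eq h2 fun v => ?_
  unfold enumBy
  by_cases h3 : ((Denumerable.ofNat Code (f v)).evaln (g v) (h v)).isSome = true
  · rw [if_pos h3, h3]
    rfl
  · rw [if_neg h3, Bool.eq_false_of_not_eq_true h3]
    rfl

end Pool.Agent.Helper96.Calc
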