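import Mathlib

/-!
# A small structured language on registers holding bit strings, and its compilation to `FinTM2`

Registers are stacks of Booleans.  `Exec c s t s'` says that the command `c`, started in the store
`s`, terminates in the store `s'` after exactly `t` steps of the compiled machine.
-/

set_option autoImplicit false
set_option backward.isDefEq.respectTransparency false

namespace Pool.Agent.Helper96

open Function (update)

/-- Register contents. -/
abbrev Store := ℕ → List Bool

/-- Commands. -/
inductive Cmd : Type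
  | skip : Cmd
  | push : ℕ → Bool → Cmd
  | pop : ℕ → Cmd
  | seq : Cmd → Cmd → Cmd
  | case : ℕ → Cmd → Cmd → Cmd → Cmd
  | loop : ℕ → Cmd → Cmd

/-- Timed big-step semantics. -/
inductive Exec : Cmd → Store → ℕ → Store → Prop
  | skip (s : Store) : Exec .skip s 0 s
  | push (r : ℕ) (b : Bool) (s : Store) : Exec (.push r b) s 1 (update s r (b :: s r))
  | pop (r : ℕ) (s : Store) : Exec (.pop r) s 1 (update s r (s r).tail)
  | seq {c₁ c₂ : Cmd} {s s₁ s₂ : Store} {t₁ t₂ : ℕ} :
      Exec c₁ s t₁ s₁ → Exec c₂ s₁ t₂ s₂ → Exec (.seq c₁ c₂) s (t₁ + t₂) s₂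
  | caseE {r : ℕ} {cE cT cF : Cmd} {s s' : Store} {t : ℕ} :
      (s r).head? = none → Exec cE s t s' → Exec (.case r cE cT cF) s (t + 2) s'
  | caseT {r : ℕ} {cE cT cF : Cmd} {s s' : Store} {t : ℕ} :
      (s r).head? = some true → Exec cT s t s' → Exec (.case r cE cT cF) s (t + 2) s'
  | caseF {r : ℕ} {cE cT cF : Cmd} {s s' : Store} {t : ℕ} :
      (s r).head? = some false → Exec cF s t s' → Exec (.case r cE cT cF) s (t + 2) s'
  | loopE {r : ℕ} {c : Cmd} {s : Store} : (s r).head? = none → Exec (.loop r c) s 1 s
  | loopN {r : ℕ} {c : Cmd} {s s₁ s₂ : Store} {t₁ t₂ : ℕ} :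
      (s r).head? ≠ none → Exec c s t₁ s₁ → Exec (.loop r c) s₁ t₂ s₂ →
      Exec (.loop r c) s (t₁ + t₂ + 2) s₂

/-- Machine instructions with absolute jumps. -/
inductive Instr : Type
  | push : ℕ → Bool → Instr
  | pop : ℕ → Instr
  | jmp : ℕ → Instr
  | tst : ℕ → ℕ → ℕ → ℕ → Instr

/-- Length of the code of a command. -/
def Cmd.len : Cmd → ℕ
  | .skip => 0
  | .push _ _ => 1
  | .pop _ => 1
  | .seq c₁ c₂ => c₁.len + c₂.len
  | .case _ cE cT cF => cE.len + cT.len + cF.len + 4
  | .loop _ c => c.len + 2

/-- Code of a command placed at offset `o`. -/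
def Cmd.code : Cmd → ℕ → List Instr
  | .skip, _ => []
  | .push r b, _ => [.push r b]
  | .pop r, _ => [.pop r]
  | .seq c₁ c₂, o => c₁.code o ++ c₂.code (o + c₁.len)
  | .case r cE cT cF, o =>
      .tst r (o + 1) (o + 2 + cE.len) (o + 3 + cE.len + cT.len) ::
        (cE.code (o + 1) ++ .jmp (o + 4 + cE.len + cT.len + cF.len) ::
        (cT.code (o + 2 + cE.len) ++ .jmp (o + 4 + cE.len + cT.len + cF.len) ::
        (cF.code (o + 3 + cE.len + cT.len) ++
          [.jmp (o + 4 + cE.len + cT.len + cF.len)])))
  | .loop r c, o =>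
      .tst r (o + 2 + c.len) (o + 1) (o + 1) :: (c.code (o + 1) ++ [.jmp o])

theorem Cmd.length_code (c : Cmd) : ∀ o, (c.code o).length = c.len := by
  induction c with
  | skip => intro o; rfl
  | push r b => intro o; rfl
  | pop r => intro o; rfl
  | seq c₁ c₂ h₁ h₂ => intro o; simp [Cmd.code, Cmd.len, h₁, h₂]
  | case r cE cT cF hE hT hF =>
    intro o
    simp only [Cmd.code, Cmd.len, List.length_cons, List.length_append, hE, hT, hF,
      List.length_nil]
    omega
  | loop r c h =>
    intro o
    simp only [Cmd.code, Cmd.len, List.length_cons, List.length_append, h, List.length_nil]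

/-- Registers occurring in a command are below `N`. -/
def Cmd.regsLt (N : ℕ) : Cmd → Prop
  | .skip => True
  | .push r _ => r < N
  | .pop r => r < N
  | .seq c₁ c₂ => c₁.regsLt N ∧ c₂.regsLt N
  | .case r cE cT cF => r < N ∧ cE.regsLt N ∧ cT.regsLt N ∧ cF.regsLt N
  | .loop r c => r < N ∧ c.regsLt N

theorem Cmd.regsLt_mono {N N' : ℕ} (h : N ≤ N') : ∀ c : Cmd, c.regsLt N → c.regsLt N' := by
  intro c
  induction c with
  | skip => intro _; trivial
  | push r b => intro hr; exact lt_of_lt_of_le hr h
  | pop r => intro hr; exact lt_of_lt_of_le hr h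
  | seq c₁ c₂ h₁ h₂ => rintro ⟨a, b⟩; exact ⟨h₁ a, h₂ b⟩
  | case r cE cT cF hE hT hF =>
    rintro ⟨a, b, c, d⟩
    exact ⟨lt_of_lt_of_le a h, hE b, hT c, hF d⟩
  | loop r c hc => rintro ⟨a, b⟩; exact ⟨lt_of_lt_of_le a h, hc b⟩

theorem Cmd.exists_regsLt (c : Cmd) : ∃ N, c.regsLt N := by
  induction c with
  | skip => exact ⟨0, trivial⟩
  | push r b => exact ⟨r + 1, Nat.lt_succ_self r⟩
  | pop r => exact ⟨r + 1, Nat.lt_succ_self r⟩
  | seq c₁ c₂ h₁ h₂ =>
    obtain ⟨N₁, h₁⟩ := h₁
    obtain ⟨N₂, h₂⟩ := h₂
    exact ⟨max N₁ N₂, Cmd.regsLt_mono (le_max_left _ _) _ h₁,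
      Cmd.regsLt_mono (le_max_right _ _) _ h₂⟩
  | case r cE cT cF hE hT hF =>
    obtain ⟨N₁, h₁⟩ := hE
    obtain ⟨N₂, h₂⟩ := hT
    obtain ⟨N₃, h₃⟩ := hF
    refine ⟨max (r + 1) (max N₁ (max N₂ N₃)), ?_, Cmd.regsLt_mono ?_ _ h₁,
      Cmd.regsLt_mono ?_ _ h₂, Cmd.regsLt_mono ?_ _ h₃⟩
    · exact lt_of_lt_of_le (Nat.lt_succ_self r) (le_max_left _ _)
    · simp
    · simp
    · simp
  | loop r c h =>
    obtain ⟨N, h⟩ := h
    exact ⟨max (r + 1) N, lt_of_lt_of_le (Nat.lt_succ_self r) (le_max_left _ _),
      Cmd.regsLt_mono (le_max_right _ _) _ h⟩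

/-! ### The machine -/

section Machine

open Turing Turing.TM2

variable (Γ₀ : Type) (N : ℕ) (P : List Instr)

/-- Stack alphabets: the input stack `none` has alphabet `Γ₀`, the registers have alphabet
`Bool`. -/
def Alph : Option (Fin (N + 1)) → Type
  | none => Γ₀
  | some _ => Bool

/-- The statement executed at an instruction. -/
def instrStmt : Option Instr → ℕ →
    TM2.Stmt (Alph Γ₀ N) (Option (Fin (P.length + 1))) (Option Γ₀ × Option Bool)
  | some (.push r b), pc =>
      .push (some (Fin.ofNat (N + 1) r)) (fun _ => (b : Bool))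
        (.goto fun _ => some (Fin.ofNat (P.length + 1) (pc + 1)))
  | some (.pop r), pc =>
      .pop (some (Fin.ofNat (N + 1) r)) (fun v _ => v)
        (.goto fun _ => some (Fin.ofNat (P.length + 1) (pc + 1)))
  | some (.jmp l), _ => .goto fun _ => some (Fin.ofNat (P.length + 1) l)
  | some (.tst r lE lT lF), _ =>
      .peek (some (Fin.ofNat (N + 1) r)) (fun _ (h : Option Bool) => (none, h))
        (.goto fun v => some (Fin.ofNat (P.length + 1)
          (match v.2 with | none => lE | some true => lT | some false => lF)))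
  | none, _ => .load (fun _ => (none, none)) .halt

/-- The statement executed while reading the input. -/
def readStmt (tag : Γ₀ → Bool × Bool) :
    TM2.Stmt (Alph Γ₀ N) (Option (Fin (P.length + 1))) (Option Γ₀ × Option Bool) :=
  .pop none (fun _ (g : Option Γ₀) => (g, none))
    (.branch (fun v => v.1.isSome)
      (.branch (fun v => (v.1.map fun g => (tag g).1).getD false)
        (.push (some (Fin.ofNat (N + 1) 1)) (fun v => (v.1.map fun g => (tag g).2).getD false)
          (.goto fun _ => none))
        (.push (some (Fin.ofNat (N + 1) 0)) (fun v => (v.1.map fun g => (tag g).2).getD false)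
          (.goto fun _ => none)))
      (.goto fun _ => some 0))

/-- The compiled machine: it first distributes its input over the registers `0` and `1`
(reversing), then runs the program `P`, with output register `out`. -/
def machine [Fintype Γ₀] (tag : Γ₀ → Bool × Bool) (out : ℕ) : FinTM2 where
  K := Option (Fin (N + 1))
  k₀ := none
  k₁ := some (Fin.ofNat (N + 1) out)
  Γ := Alph Γ₀ N
  Λ := Option (Fin (P.length + 1))
  main := none
  σ := Option Γ₀ × Option Bool
  initialState := (none, none)
  Γk₀Fin := inferInstanceAs (Fintype Γ₀)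
  m
    | none => readStmt Γ₀ N P tag
    | some pc => instrStmt Γ₀ N P P[pc.val]? pc.val

/-- Running exactly `n` steps. -/
def Steps {α : Type} (f : α → Option α) (n : ℕ) (a b : α) : Prop :=
  (flip bind f)^[n] (some a) = some b

theorem Steps.zero {α : Type} (f : α → Option α) (a : α) : Steps f 0 a a := rfl

theorem Steps.single {α : Type} {f : α → Option α} {a b : α} (h : f a = some b) :
    Steps f 1 a b := by
  simpa [Steps, flip] using h

theorem Steps.trans {α : Type} {f : α → Option α} {n m : ℕ} {a b c : α} (h₁ : Steps f n a b)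
    (h₂ : Steps f m b c) : Steps f (n + m) a c := by
  unfold Steps at *
  rw [Nat.add_comm, Function.iterate_add_apply, h₁, h₂]

/-- The machine configuration corresponding to a store. -/
def mkStk (inp : List Γ₀) (s : Store) : ∀ k, List (Alph Γ₀ N k)
  | none => inp
  | some r => s r.val

variable {Γ₀ N P}

theorem mkStk_update (inp : List Γ₀) (s : Store) (r : ℕ) (hr : r < N + 1) (l : List Bool) :
    Function.update (mkStk Γ₀ N inp s) (some (Fin.ofNat (N + 1) r)) l =
      mkStk Γ₀ N inp (update s r l) := by
  have hval : (Fin.ofNat (N + 1) r).val = r := Nat.mod_eq_of_lt hr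
  funext k
  cases k with
  | none =>
    rw [Function.update_of_ne (by simp)]
    rfl
  | some r' =>
    by_cases h : r' = Fin.ofNat (N + 1) r
    · subst h
      rw [Function.update_self]
      simp only [mkStk]
      rw [hval, Function.update_self]
    · rw [Function.update_of_ne (by simpa using h)]
      simp only [mkStk]
      rw [Function.update_of_ne]
      intro h'
      apply h
      apply Fin.ext
      rw [hval]
      exact h'

theorem mkStk_apply (inp : List Γ₀) (s : Store) (r : ℕ) (hr : r < N + 1) :
    mkStk Γ₀ N inp s (some (Fin.ofNat (N + 1) r)) = s r := by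
  have hval : (Fin.ofNat (N + 1) r).val = r := Nat.mod_eq_of_lt hr
  simp only [mkStk]
  rw [hval]

/-- Configuration at program point `pc` with store `s`. -/
def cfg [Fintype Γ₀] (tag : Γ₀ → Bool × Bool) (out : ℕ) (pc : ℕ) (v : Option Γ₀ × Option Bool)
    (s : Store) : (machine Γ₀ N P tag out).Cfg :=
  ⟨some (some (Fin.ofNat (P.length + 1) pc)), v, mkStk Γ₀ N [] s⟩

section Run

variable [Fintype Γ₀] (tag : Γ₀ → Bool × Bool) (out : ℕ)

theorem step_push (pc : ℕ) (v : Option Γ₀ × Option Bool) (s : Store) (r : ℕ) (b : Bool)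
    (hpc : P[pc]? = some (.push r b)) (hr : r < N + 1) :
    (machine Γ₀ N P tag out).step (cfg tag out pc v s) =
      some (cfg tag out (pc + 1) v (update s r (b :: s r))) := by
  have hlt : pc < P.length := by
    by_contra h
    rw [List.getElem?_eq_none (by omega)] at hpc
    cases hpc
  have hval : (Fin.ofNat (P.length + 1) pc).val = pc := Nat.mod_eq_of_lt (by omega)
  unfold cfg
  simp only [FinTM2.step, machine, TM2.step, hval, hpc, instrStmt, TM2.stepAux]
  rw [mkStk_apply _ _ _ hr, mkStk_update _ _ _ hr]

theorem step_pop (pc : ℕ) (v : Option Γ₀ × Option Bool) (s : Store) (r : ℕ)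
    (hpc : P[pc]? = some (.pop r)) (hr : r < N + 1) :
    (machine Γ₀ N P tag out).step (cfg tag out pc v s) =
      some (cfg tag out (pc + 1) v (update s r (s r).tail)) := by
  have hlt : pc < P.length := by
    by_contra h
    rw [List.getElem?_eq_none (by omega)] at hpc
    cases hpc
  have hval : (Fin.ofNat (P.length + 1) pc).val = pc := Nat.mod_eq_of_lt (by omega)
  unfold cfg
  simp only [FinTM2.step, machine, TM2.step, hval, hpc, instrStmt, TM2.stepAux]
  rw [mkStk_apply _ _ _ hr, mkStk_update _ _ _ hr]

theorem step_jmp (pc : ℕ) (v : Option Γ₀ × Option Bool) (s : Store) (l : ℕ)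
    (hpc : P[pc]? = some (.jmp l)) :
    (machine Γ₀ N P tag out).step (cfg tag out pc v s) =
      some (cfg tag out l v s) := by
  have hlt : pc < P.length := by
    by_contra h
    rw [List.getElem?_eq_none (by omega)] at hpc
    cases hpc
  have hval : (Fin.ofNat (P.length + 1) pc).val = pc := Nat.mod_eq_of_lt (by omega)
  unfold cfg
  simp only [FinTM2.step, machine, TM2.step, hval, hpc, instrStmt, TM2.stepAux]

theorem step_tst (pc : ℕ) (v : Option Γ₀ × Option Bool) (s : Store) (r lE lT lF : ℕ)
    (hpc : P[pc]? = some (.tst r lE lT lF)) (hr : r < N + 1) :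
    (machine Γ₀ N P tag out).step (cfg tag out pc v s) =
      some (cfg tag out (match (s r).head? with | none => lE | some true => lT | some false => lF)
        (none, (s r).head?) s) := by
  have hlt : pc < P.length := by
    by_contra h
    rw [List.getElem?_eq_none (by omega)] at hpc
    cases hpc
  have hval : (Fin.ofNat (P.length + 1) pc).val = pc := Nat.mod_eq_of_lt (by omega)
  unfold cfg
  simp only [FinTM2.step, machine, TM2.step, hval, hpc, instrStmt, TM2.stepAux]
  rw [mkStk_apply _ _ _ hr]

/-- The code `seg` sits in `P` at offset `o`. -/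
def CodeAt (P : List Instr) (o : ℕ) (seg : List Instr) : Prop :=
  ∀ i < seg.length, P[o + i]? = seg[i]?

theorem CodeAt.left {P : List Instr} {o : ℕ} {a b : List Instr} (h : CodeAt P o (a ++ b)) :
    CodeAt P o a := by
  intro i hi
  rw [h i (by simp; omega), List.getElem?_append_left hi]

theorem CodeAt.right {P : List Instr} {o o' : ℕ} {a b : List Instr} (h : CodeAt P o (a ++ b))
    (ho : o' = o + a.length) : CodeAt P o' b := by
  subst ho
  intro i hi
  rw [Nat.add_assoc, h (a.length + i) (by simp; omega),
    List.getElem?_append_right (by omega)]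
  congr 1
  omega

theorem CodeAt.head {P : List Instr} {o : ℕ} {a : Instr} {l : List Instr}
    (h : CodeAt P o (a :: l)) : P[o]? = some a := by
  have := h 0 (by simp)
  simpa using this

theorem CodeAt.tail {P : List Instr} {o : ℕ} {a : Instr} {l : List Instr}
    (h : CodeAt P o (a :: l)) : CodeAt P (o + 1) l := by
  have : CodeAt P o ([a] ++ l) := h
  exact this.right rfl

/-- Correctness of the compilation. -/
theorem exec_steps {c : Cmd} {s s' : Store} {t : ℕ} (h : Exec c s t s') :
    ∀ (o : ℕ), c.regsLt (N + 1) → CodeAt P o (c.code o) → ∀ v, ∃ v',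
      Steps (machine Γ₀ N P tag out).step t (cfg tag out o v s)
        (cfg tag out (o + c.len) v' s') := by
  induction h with
  | skip s => intro o _ _ v; exact ⟨v, Steps.zero _ _⟩
  | push r b s =>
    intro o hb hc v
    exact ⟨v, Steps.single (step_push tag out o v s r b hc.head hb)⟩
  | pop r s =>
    intro o hb hc v
    exact ⟨v, Steps.single (step_pop tag out o v s r hc.head hb)⟩
  | @seq c₁ c₂ s s₁ s₂ t₁ t₂ _ _ ih₁ ih₂ =>
    intro o hb hc v
    obtain ⟨v₁, h₁⟩ := ih₁ o hb.1 hc.left v
    obtain ⟨v₂, h₂⟩ := ih₂ (o + c₁.len) hb.2 (hc.right (by rw [Cmd.length_code])) v₁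
    refine ⟨v₂, ?_⟩
    have := h₁.trans h₂
    rwa [Nat.add_assoc] at this
  | @caseE r cE cT cF s s' t hr _ ih =>
    intro o hb hc v
    have h1 := step_tst tag out o v s _ _ _ _ hc.head hb.1
    rw [hr] at h1
    obtain ⟨v', h2⟩ := ih (o + 1) hb.2.1 hc.tail.left (none, none)
    have hc3 := (hc.tail.right (o' := o + 1 + cE.len) (by rw [Cmd.length_code])).head
    have h3 := step_jmp (N := N) tag out _ v' s' _ hc3
    refine ⟨v', ?_⟩
    have := ((Steps.single h1).trans h2).trans (Steps.single h3)
    have e1 : 1 + t + 1 = t + 2 := by omega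
    have e2 : o + 4 + cE.len + cT.len + cF.len = o + (Cmd.case r cE cT cF).len := by
      simp only [Cmd.len]; omega
    rw [e1, e2] at this
    exact this
  | @caseT r cE cT cF s s' t hr _ ih =>
    intro o hb hc v
    have h1 := step_tst tag out o v s _ _ _ _ hc.head hb.1
    rw [hr] at h1
    have hc2 := (hc.tail.right (o' := o + 1 + cE.len) (by rw [Cmd.length_code])).tail
    have e0 : o + 1 + cE.len + 1 = o + 2 + cE.len := by omega
    rw [e0] at hc2
    obtain ⟨v', h2⟩ := ih (o + 2 + cE.len) hb.2.2.1 hc2.left (none, some true)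
    have hc3 := (hc2.right (o' := o + 2 + cE.len + cT.len) (by rw [Cmd.length_code])).head
    have h3 := step_jmp (N := N) tag out _ v' s' _ hc3
    refine ⟨v', ?_⟩
    have := ((Steps.single h1).trans h2).trans (Steps.single h3)
    have e1 : 1 + t + 1 = t + 2 := by omega
    have e2 : o + 4 + cE.len + cT.len + cF.len = o + (Cmd.case r cE cT cF).len := by
      simp only [Cmd.len]; omega
    rw [e1, e2] at this
    exact this
  | @caseF r cE cT cF s s' t hr _ ih =>
    intro o hb hc v
    have h1 := step_tst tag out o v s _ _ _ _ hc.head hb.1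
    rw [hr] at h1
    have hc2 := (hc.tail.right (o' := o + 1 + cE.len) (by rw [Cmd.length_code])).tail
    have e0 : o + 1 + cE.len + 1 = o + 2 + cE.len := by omega
    rw [e0] at hc2
    have hc4 := (hc2.right (o' := o + 2 + cE.len + cT.len) (by rw [Cmd.length_code])).tail
    have e3 : o + 2 + cE.len + cT.len + 1 = o + 3 + cE.len + cT.len := by omega
    rw [e3] at hc4
    obtain ⟨v', h2⟩ := ih (o + 3 + cE.len + cT.len) hb.2.2.2 hc4.left (none, some false)
    have hc3 := (hc4.right (o' := o + 3 + cE.len + cT.len + cF.len)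
      (by rw [Cmd.length_code])).head
    have h3 := step_jmp (N := N) tag out _ v' s' _ hc3
    refine ⟨v', ?_⟩
    have := ((Steps.single h1).trans h2).trans (Steps.single h3)
    have e1 : 1 + t + 1 = t + 2 := by omega
    have e2 : o + 4 + cE.len + cT.len + cF.len = o + (Cmd.case r cE cT cF).len := by
      simp only [Cmd.len]; omega
    rw [e1, e2] at this
    exact this
  | @loopE r c s hr =>
    intro o hb hc v
    have h1 := step_tst tag out o v s _ _ _ _ hc.head hb.1
    rw [hr] at h1
    refine ⟨(none, none), ?_⟩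
    have e2 : o + 2 + c.len = o + (Cmd.loop r c).len := by
      simp only [Cmd.len]; omega
    rw [← e2]
    exact Steps.single h1
  | @loopN r c s s₁ s₂ t₁ t₂ hr _ _ ih₁ ih₂ =>
    intro o hb hc v
    have h1 := step_tst tag out o v s _ _ _ _ hc.head hb.1
    have h1' : (machine Γ₀ N P tag out).step (cfg tag out o v s) =
        some (cfg tag out (o + 1) (none, (s r).head?) s) := by
      rw [h1]
      rcases hh : (s r).head? with _ | b
      · exact absurd hh hr
      · cases b <;> rfl
    obtain ⟨v₁, h2⟩ := ih₁ (o + 1) hb.2 hc.tail.left (none, (s r).head?)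
    have hc3 := (hc.tail.right (o' := o + 1 + c.len) (by rw [Cmd.length_code])).head
    have h3 := step_jmp (N := N) tag out _ v₁ s₁ _ hc3
    obtain ⟨v₂, h4⟩ := ih₂ o hb hc v₁
    refine ⟨v₂, ?_⟩
    have := (((Steps.single h1').trans h2).trans (Steps.single h3)).trans h4
    have e1 : 1 + t₁ + 1 + t₂ = t₁ + t₂ + 2 := by omega
    rw [e1] at this
    exact this

/-- The strings distributed to registers `0` and `1`. -/
def proj (tag : Γ₀ → Bool × Bool) (i : Bool) (inp : List Γ₀) : List Bool :=
  inp.filterMap fun g => if (tag g).1 = i then some (tag g).2 else none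

/-- Reading phase. -/
theorem read_steps (hN : 1 < N + 1) (inp : List Γ₀) : ∀ (s : Store) (v), ∃ v',
    Steps (machine Γ₀ N P tag out).step (inp.length + 1)
      (⟨some none, v, mkStk Γ₀ N inp s⟩ : (machine Γ₀ N P tag out).Cfg)
      (cfg tag out 0 v' (update (update s 0 ((proj tag false inp).reverse ++ s 0)) 1
        ((proj tag true inp).reverse ++ s 1))) := by
  have hinp : ∀ (l l' : List Γ₀) (s : Store),
      Function.update (mkStk Γ₀ N l s) none l' = mkStk Γ₀ N l' s := by
    intro l l' s
    funext k
    cases k with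
    | none => rw [Function.update_self]; rfl
    | some r => rw [Function.update_of_ne (by simp)]; rfl
  induction inp with
  | nil =>
    intro s v
    refine ⟨(none, none), Steps.single ?_⟩
    simp only [FinTM2.step, machine, TM2.step, readStmt, TM2.stepAux, cfg]
    have h1 : (update (update s 0 ((proj tag false ([] : List Γ₀)).reverse ++ s 0)) 1
        ((proj tag true ([] : List Γ₀)).reverse ++ s 1)) = s := by
      simp [proj]
    rw [h1]
    have h2 : (mkStk Γ₀ N [] s none).tail = ([] : List Γ₀) := rfl
    have h3 : (mkStk Γ₀ N [] s none).head? = (none : Option Γ₀) := rfl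
    rw [h2, h3, hinp]
    rfl
  | cons g inp ih =>
    intro s v
    rcases hg : tag g with ⟨i, b⟩
    cases i with
    | false =>
      obtain ⟨v', hv'⟩ := ih (update s 0 (b :: s 0)) (some g, none)
      refine ⟨v', ?_⟩
      have hstep : (machine Γ₀ N P tag out).step
          (⟨some none, v, mkStk Γ₀ N (g :: inp) s⟩ : (machine Γ₀ N P tag out).Cfg) =
          some (⟨some none, (some g, none), mkStk Γ₀ N inp (update s 0 (b :: s 0))⟩ :
            (machine Γ₀ N P tag out).Cfg) := by
        simp only [FinTM2.step, machine, TM2.step, readStmt, TM2.stepAux]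
        have h2 : (mkStk Γ₀ N (g :: inp) s none).tail = inp := rfl
        have h3 : (mkStk Γ₀ N (g :: inp) s none).head? = some g := rfl
        rw [h2, h3, hinp]
        simp only [Option.isSome_some, Option.map_some, Option.getD_some, hg, cond_true,
          cond_false]
        rw [mkStk_apply _ _ _ (by omega), mkStk_update _ _ _ (by omega)]
      have := (Steps.single hstep).trans hv'
      rw [Nat.add_comm 1] at this
      have e : (update (update (update s 0 (b :: s 0)) 0
          ((proj tag false inp).reverse ++ (update s 0 (b :: s 0)) 0)) 1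
          ((proj tag true inp).reverse ++ (update s 0 (b :: s 0)) 1)) =
          (update (update s 0 ((proj tag false (g :: inp)).reverse ++ s 0)) 1
            ((proj tag true (g :: inp)).reverse ++ s 1)) := by
        simp [proj, hg]
      rw [e] at this
      exact this
    | true =>
      obtain ⟨v', hv'⟩ := ih (update s 1 (b :: s 1)) (some g, none)
      refine ⟨v', ?_⟩
      have hstep : (machine Γ₀ N P tag out).step
          (⟨some none, v, mkStk Γ₀ N (g :: inp) s⟩ : (machine Γ₀ N P tag out).Cfg) =
          some (⟨some none, (some g, none), mkStk Γ₀ N inp (update s 1 (b :: s 1))⟩ :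
            (machine Γ₀ N P tag out).Cfg) := by
        simp only [FinTM2.step, machine, TM2.step, readStmt, TM2.stepAux]
        have h2 : (mkStk Γ₀ N (g :: inp) s none).tail = inp := rfl
        have h3 : (mkStk Γ₀ N (g :: inp) s none).head? = some g := rfl
        rw [h2, h3, hinp]
        simp only [Option.isSome_some, Option.map_some, Option.getD_some, hg, cond_true]
        rw [mkStk_apply _ _ _ (by omega), mkStk_update _ _ _ (by omega)]
      have := (Steps.single hstep).trans hv'
      rw [Nat.add_comm 1] at this
      have e : (update (update (update s 1 (b :: s 1)) 0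
          ((proj tag false inp).reverse ++ (update s 1 (b :: s 1)) 0)) 1
          ((proj tag true inp).reverse ++ (update s 1 (b :: s 1)) 1)) =
          (update (update s 0 ((proj tag false (g :: inp)).reverse ++ s 0)) 1
            ((proj tag true (g :: inp)).reverse ++ s 1)) := by
        funext r
        by_cases h1 : r = 1
        · subst h1; simp [proj, hg]
        · by_cases h0 : r = 0
          · subst h0; simp [proj, hg]
          · simp [h0, h1]
      rw [e] at this
      exact this

end Run

end Machine

end Pool.Agent.Helper96
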