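import Pool.Agent.Helper96.Cmd

/-!
# Polynomial-time computability and commands
-/

set_option autoImplicit false
set_option backward.isDefEq.respectTransparency false

namespace Pool.Agent.Helper96

open Function (update)
open Turing Turing.TM2

/-- `f` is computable in polynomial time (with respect to the encodings `ea`, `eb`) by a Turing
machine in the sense of Mathlib (`Turing.TM2ComputableInPolyTime`, a multi-stack machine), all of
whose stack alphabets are finite. -/
def PolyTime {α β αΓ βΓ : Type} (ea : α → List αΓ) (eb : β → List βΓ) (f : α → β) : Prop :=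
  ∃ M : TM2ComputableInPolyTime ea eb f, ∀ k, Finite (M.tm.Γ k)

/-- Initial store of the compiled program: the two input strings, reversed. -/
def initStore (X₀ X₁ : List Bool) : Store :=
  update (update (fun _ => []) 0 X₀.reverse) 1 X₁.reverse

section

variable {Γ₀ : Type} [Fintype Γ₀] {N : ℕ} (tag : Γ₀ → Bool × Bool) (out : ℕ)

theorem initList_eq (P : List Instr) (inp : List Γ₀) :
    initList (machine Γ₀ N P tag out) inp =
      (⟨some none, (none, none), mkStk Γ₀ N inp (fun _ => [])⟩ :
        (machine Γ₀ N P tag out).Cfg) := by
  unfold initList
  congr 1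
  funext k
  cases k with
  | none => rfl
  | some r => rfl

theorem haltList_eq (P : List Instr) (hout : out < N + 1) (l : List Bool) :
    haltList (machine Γ₀ N P tag out) l =
      (⟨none, (none, none), mkStk Γ₀ N [] (update (fun _ => []) out l)⟩ :
        (machine Γ₀ N P tag out).Cfg) := by
  have hval : (Fin.ofNat (N + 1) out).val = out := Nat.mod_eq_of_lt hout
  unfold haltList
  congr 1
  funext k
  cases k with
  | none =>
    rw [dif_neg (by
      change ¬ (none : Option (Fin (N + 1))) = some (Fin.ofNat (N + 1) out)
      simp)]
    rfl
  | some r =>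
    by_cases h : r = Fin.ofNat (N + 1) out
    · subst h
      refine (dif_pos rfl).trans ?_
      simp only [mkStk, hval, Function.update_self]
      rfl
    · rw [dif_neg (by
        change ¬ (some r : Option (Fin (N + 1))) = some (Fin.ofNat (N + 1) out)
        simpa using h)]
      simp only [mkStk]
      rw [Function.update_of_ne]
      intro h'
      apply h
      apply Fin.ext
      rw [hval]
      exact h'

theorem outputs_of_exec (c : Cmd) (hc : c.regsLt (N + 1)) (hout : out < N + 1) (hN : 1 < N + 1)
    (inp : List Γ₀) (res : List Bool) (t : ℕ)
    (h : Exec c (initStore (proj tag false inp) (proj tag true inp)) t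
      (update (fun _ => []) out res)) :
    Steps (machine Γ₀ N (c.code 0) tag out).step (inp.length + 1 + t + 1)
      (initList (machine Γ₀ N (c.code 0) tag out) inp)
      (haltList (machine Γ₀ N (c.code 0) tag out) res) := by
  obtain ⟨v₁, h₁⟩ := read_steps (P := c.code 0) tag out hN inp (fun _ => []) (none, none)
  have e : (update (update (fun _ => []) 0 ((proj tag false inp).reverse ++ [])) 1
      ((proj tag true inp).reverse ++ []) : Store) =
      initStore (proj tag false inp) (proj tag true inp) := by
    simp [initStore]
  rw [e] at h₁
  have hcode : CodeAt (c.code 0) 0 (c.code 0) := by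
    intro i _
    rw [Nat.zero_add]
  obtain ⟨v₂, h₂⟩ := exec_steps (N := N) (P := c.code 0) tag out h 0 hc hcode v₁
  rw [initList_eq, haltList_eq _ _ _ hout]
  refine (h₁.trans h₂).trans (Steps.single ?_)
  have hlen : (c.code 0).length = c.len := c.length_code 0
  unfold cfg
  have hval : (Fin.ofNat ((c.code 0).length + 1) (0 + c.len)).val = (c.code 0).length := by
    rw [Fin.val_ofNat, Nat.zero_add, ← hlen]
    exact Nat.mod_eq_of_lt (Nat.lt_succ_self _)
  have hnone : (c.code 0)[(Fin.ofNat ((c.code 0).length + 1) (0 + c.len)).val]? = none := by
    rw [hval]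
    exact List.getElem?_eq_none le_rfl
  simp only [FinTM2.step, machine, TM2.step, hnone, instrStmt, TM2.stepAux]

end

/-- If a command computes `f` within polynomially many steps, then `f` is polynomial-time
computable. -/
theorem polyTime_of_exec {α β Γ₀ : Type} [Fintype Γ₀] (tag : Γ₀ → Bool × Bool)
    (ea : α → List Γ₀) (eb : β → List Bool) (f : α → β) (c : Cmd) (out : ℕ) (T : Polynomial ℕ)
    (h : ∀ a, ∃ t ≤ T.eval (ea a).length,
      Exec c (initStore (proj tag false (ea a)) (proj tag true (ea a))) t
        (update (fun _ => []) out (eb (f a)))) : PolyTime ea eb f := by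
  obtain ⟨N₀, hN₀⟩ := c.exists_regsLt
  let N := max N₀ (out + 2)
  have hc : c.regsLt (N + 1) := Cmd.regsLt_mono (by omega) _ hN₀
  have hout : out < N + 1 := by omega
  have hN : 1 < N + 1 := by omega
  refine ⟨{
    tm := machine Γ₀ N (c.code 0) tag out
    inputAlphabet := Equiv.refl _
    outputAlphabet := Equiv.refl _
    time := T + Polynomial.X + 2
    outputsFun := fun a => ?_ }, ?_⟩
  · have hex := h a
    have hs := outputs_of_exec tag out c hc hout hN (ea a) (eb (f a)) _
      (Classical.choose_spec hex).2
    have h1 : List.map (Equiv.refl Γ₀).invFun (ea a) = ea a := by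
      change List.map id (ea a) = ea a
      simp
    have h2 : List.map (Equiv.refl Bool).invFun (eb (f a)) = eb (f a) := by
      change List.map id (eb (f a)) = eb (f a)
      simp
    refine ⟨⟨(ea a).length + 1 + Classical.choose hex + 1, ?_⟩, ?_⟩
    · have h3 := hs
      unfold Steps at h3
      change _ = Option.map (haltList (machine Γ₀ N (c.code 0) tag out))
        (some (List.map (Equiv.refl Bool).invFun (eb (f a))))
      rw [h2]
      change (flip bind _)^[_] (some (initList (machine Γ₀ N (c.code 0) tag out)
        (List.map (Equiv.refl Γ₀).invFun (ea a)))) = _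
      rw [h1]
      exact h3
    · have h4 := (Classical.choose_spec hex).1
      simp only [Polynomial.eval_add, Polynomial.eval_X, Polynomial.eval_ofNat]
      change (ea a).length + 1 + Classical.choose hex + 1 ≤ _
      omega
  · intro k
    change Finite (Alph Γ₀ N k)
    cases k with
    | none => exact inferInstanceAs (Finite Γ₀)
    | some r => exact inferInstanceAs (Finite Bool)

end Pool.Agent.Helper96
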