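import Pool.Agent.Helper96.Sim
import Pool.Agent.Helper96.PolyTime

/-!
# Parsimonious Cook-Levin: witnesses of a machine correspond to good initial rows
-/

set_option autoImplicit false
set_option backward.isDefEq.respectTransparency false
set_option linter.unusedSectionVars false

namespace Pool.Agent.Helper96

open Turing Turing.TM2

/-- Encoding of a pair of strings over the two-track alphabet `Bool ⊕ Bool`. -/
def pairEnc (z : List Bool × List Bool) : List (Bool ⊕ Bool) :=
  z.1.map Sum.inl ++ z.2.map Sum.inr

theorem length_pairEnc (z : List Bool × List Bool) :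
    (pairEnc z).length = z.1.length + z.2.length := by
  simp [pairEnc]

theorem getElem?_pairEnc_left (x y : List Bool) (j : ℕ) (hj : j < x.length) :
    (pairEnc (x, y))[j]? = (x[j]?).map Sum.inl := by
  unfold pairEnc
  rw [List.getElem?_append_left (by simpa using hj), List.getElem?_map]

theorem getElem?_pairEnc_right (x y : List Bool) (j : ℕ) (hj : x.length ≤ j) :
    (pairEnc (x, y))[j]? = (y[j - x.length]?).map Sum.inr := by
  unfold pairEnc
  rw [List.getElem?_append_right (by simpa using hj), List.getElem?_map, List.length_map]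

section

variable {tm : FinTM2} (e₀ : tm.Γ tm.k₀ ≃ Bool ⊕ Bool) (e₁ : tm.Γ tm.k₁ ≃ Bool)

theorem main_reach (tm : FinTM2) : tm.m tm.main ∈ Reach tm := Or.inr ⟨_, TM2.stmts₁_self⟩

/-- The cell at position `j` of an initial configuration with input symbol `o` there. -/
noncomputable def inCell (tm : FinTM2) (o : Option (tm.Γ tm.k₀)) (j : ℕ) : Cell tm :=
  (if j = 0 then some (⟨tm.m tm.main, main_reach tm⟩, tm.initialState) else none,
    Function.update (fun _ => none) tm.k₀ o)

/-- The cellular computation attached to a machine, an input `x` and a witness length `p`. -/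
noncomputable def machCA (x : List Bool) (p : ℕ) : CA (Cell tm) where
  F := cellRule
  blank := blankCell
  I j a := (∃ b, x[j]? = some b ∧ a = inCell tm (some (e₀.symm (Sum.inl b))) j) ∨
    (x.length ≤ j ∧ j < x.length + p ∧ ∃ b, a = inCell tm (some (e₀.symm (Sum.inr b))) j) ∨
    (x.length + p ≤ j ∧ a = inCell tm none j)
  Acc a := a.2 tm.k₁ = some (e₁.symm true)

/-- The initial atomic configuration. -/
noncomputable def cfg₀ (x y : List Bool) : ACfg tm :=
  toA (initList tm ((pairEnc (x, y)).map e₀.symm))

theorem cfg₀_reach (x y : List Bool) : (cfg₀ e₀ x y).1.1 ∈ Reach tm := main_reach tm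

theorem cfg₀_stk (x y : List Bool) (k : tm.K) (j : ℕ) :
    ((cfg₀ e₀ x y).2 k)[j]? =
      Function.update (fun _ => none) tm.k₀ (((pairEnc (x, y)).map e₀.symm)[j]?) k := by
  change (dite (k = tm.k₀) (fun h => _) (fun _ => []) : List (tm.Γ k))[j]? = _
  by_cases hk : k = tm.k₀
  · subst hk
    rw [Function.update_self]
    rw [dif_pos rfl]
    rfl
  · rw [Function.update_of_ne hk, dif_neg hk]
    rfl

theorem cellOf_cfg₀ (x y : List Bool) (j : ℕ) :
    cellOf (cfg₀ e₀ x y) j = inCell tm (((pairEnc (x, y)).map e₀.symm)[j]?) j := by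
  unfold cellOf inCell
  congr 1
  · by_cases hj : j = 0
    · rw [dif_pos ⟨hj, cfg₀_reach e₀ x y⟩, if_pos hj]
      rfl
    · rw [dif_neg (fun h => hj h.1), if_neg hj]
  · funext k
    exact cfg₀_stk e₀ x y k j

theorem cfg₀_length (x y : List Bool) (k : tm.K) :
    ((cfg₀ e₀ x y).2 k).length ≤ x.length + y.length := by
  by_contra h
  push Not at h
  have h1 := cfg₀_stk e₀ x y k (x.length + y.length)
  rw [List.getElem?_eq_getElem h] at h1
  by_cases hk : k = tm.k₀
  · subst hk
    rw [Function.update_self, List.getElem?_eq_none (by simp [length_pairEnc])] at h1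
    cases h1
  · rw [Function.update_of_ne hk] at h1
    cases h1

theorem inCell_inj {o o' : Option (tm.Γ tm.k₀)} {j : ℕ} (h : inCell tm o j = inCell tm o' j) :
    o = o' := by
  have := congrFun (congrArg Prod.snd h) tm.k₀
  simpa [inCell] using this

theorem inCell_none (j : ℕ) (hj : j ≠ 0) : inCell tm none j = blankCell := by
  unfold inCell blankCell
  rw [if_neg hj]
  congr 1
  funext k
  by_cases hk : k = tm.k₀
  · subst hk; rw [Function.update_self]
  · rw [Function.update_of_ne hk]

theorem ext_cellOf (x y : List Bool) (p T S : ℕ) (hy : y.length = p)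
    (hS : x.length + p + T + 2 ≤ S) :
    (machCA e₀ e₁ x p).ext (fun j : Fin S => cellOf (cfg₀ e₀ x y) j.val) =
      cellOf (cfg₀ e₀ x y) := by
  funext j
  unfold CA.ext
  by_cases hj : j < S
  · rw [dif_pos hj]
  · rw [dif_neg hj, cellOf_cfg₀, List.getElem?_eq_none (by simp [length_pairEnc]; omega)]
    exact (inCell_none _ (by omega)).symm

/-- Initial rows coming from witnesses satisfy the conditions on the initial row except possibly
acceptance, which is equivalent to acceptance by the machine. -/
theorem goodRow_iff (x y : List Bool) (p T S : ℕ) (hy : y.length = p)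
    (hS : x.length + p + T + 2 ≤ S) (r : Bool)
    (hout : aStep^[T] (cfg₀ e₀ x y) = toA (haltList tm [e₁.symm r])) :
    GoodRow (machCA e₀ e₁ x p) T S (fun j : Fin S => cellOf (cfg₀ e₀ x y) j.val) ↔
      r = true := by
  have hrow := row_cellOf (machCA e₀ e₁ x p) rfl rfl (cfg₀ e₀ x y) (cfg₀_reach e₀ x y) S T
    (by omega) (fun k => by have := cfg₀_length e₀ x y k; omega) T le_rfl
  have hacc : (machCA e₀ e₁ x p).Acc ((machCA e₀ e₁ x p).row S
      ((machCA e₀ e₁ x p).ext (fun j : Fin S => cellOf (cfg₀ e₀ x y) j.val)) T 0) ↔
      r = true := by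
    rw [ext_cellOf e₀ e₁ x y p T S hy hS, hrow, hout]
    unfold machCA
    change ((toA (haltList tm [e₁.symm r])).2 tm.k₁)[0]? = some (e₁.symm true) ↔ _
    have : ((toA (haltList tm [e₁.symm r])).2 tm.k₁)[0]? = some (e₁.symm r) := by
      have h1 : (toA (haltList tm [e₁.symm r])).2 tm.k₁ = [e₁.symm r] := by
        change (dite (tm.k₁ = tm.k₁) (fun h => _) (fun _ => []) : List (tm.Γ tm.k₁)) = _
        rw [dif_pos rfl]
        rfl
      rw [h1]
      rfl
    rw [this]
    simp
  constructor
  · intro h
    exact hacc.1 h.2.2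
  · intro hr
    refine ⟨?_, ?_, hacc.2 hr⟩
    · intro j
      change (∃ b, x[j.val]? = some b ∧ cellOf (cfg₀ e₀ x y) j.val = _) ∨
        (_ ∧ _ ∧ ∃ b, cellOf (cfg₀ e₀ x y) j.val = _) ∨ (_ ∧ cellOf (cfg₀ e₀ x y) j.val = _)
      rw [cellOf_cfg₀]
      by_cases h1 : j.val < x.length
      · left
        refine ⟨x[j.val], List.getElem?_eq_getElem h1, ?_⟩
        rw [List.getElem?_map, getElem?_pairEnc_left x y _ h1, List.getElem?_eq_getElem h1]
        rfl
      · right
        by_cases h2 : j.val < x.length + p
        · left
          have h3 : j.val - x.length < y.length := by omega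
          refine ⟨by omega, h2, y[j.val - x.length], ?_⟩
          rw [List.getElem?_map, getElem?_pairEnc_right x y _ (by omega),
            List.getElem?_eq_getElem h3]
          rfl
        · right
          refine ⟨by omega, ?_⟩
          rw [List.getElem?_eq_none (by simp [length_pairEnc]; omega)]
    · intro j hj
      change cellOf (cfg₀ e₀ x y) j.val = blankCell
      rw [cellOf_cfg₀, List.getElem?_eq_none (by simp [length_pairEnc]; omega)]
      exact inCell_none _ (by omega)

/-- **Counting witnesses.** -/
theorem card_goodRow (x : List Bool) (p T S : ℕ) (hS : x.length + p + T + 2 ≤ S)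
    (R : List Bool → Bool)
    (hout : ∀ y : List Bool, y.length = p →
      aStep^[T] (cfg₀ e₀ x y) = toA (haltList tm [e₁.symm (R y)])) :
    Nat.card {c : Fin S → Cell tm // GoodRow (machCA e₀ e₁ x p) T S c} =
      Nat.card {y : List Bool // y.length = p ∧ R y = true} := by
  symm
  refine Nat.card_congr (Equiv.ofBijective (fun y => ⟨fun j : Fin S =>
    cellOf (cfg₀ e₀ x y.1) j.val, (goodRow_iff e₀ e₁ x y.1 p T S y.2.1 hS _
      (hout y.1 y.2.1)).2 y.2.2⟩) ⟨?_, ?_⟩)
  · rintro ⟨y, hy, hy'⟩ ⟨z, hz, hz'⟩ h
    apply Subtype.ext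
    apply List.ext_getElem?
    intro i
    by_cases hi : i < p
    · have h1 := congrFun (congrArg Subtype.val h) ⟨x.length + i, by omega⟩
      simp only [cellOf_cfg₀] at h1
      have h2 := inCell_inj h1
      rw [List.getElem?_map, List.getElem?_map, getElem?_pairEnc_right x y _ (by omega),
        getElem?_pairEnc_right x z _ (by omega), Nat.add_sub_cancel_left, Option.map_map,
        Option.map_map] at h2
      have hinj : Function.Injective (e₀.symm ∘ Sum.inr : Bool → tm.Γ tm.k₀) :=
        e₀.symm.injective.comp Sum.inr_injective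
      exact Option.map_injective hinj h2
    · change y[i]? = z[i]?
      rw [List.getElem?_eq_none (by omega), List.getElem?_eq_none (by omega)]
  · rintro ⟨c, hc⟩
    -- reconstruct the witness
    have hw : ∀ i : Fin p, ∃ b, c ⟨x.length + i.val, by omega⟩ =
        inCell tm (some (e₀.symm (Sum.inr b))) (x.length + i.val) := by
      intro i
      have h1 := hc.1 ⟨x.length + i.val, by omega⟩
      rcases h1 with ⟨b, hb, -⟩ | ⟨-, -, b, hb⟩ | ⟨h2, -⟩
      · rw [List.getElem?_eq_none (by simp)] at hb
        cases hb
      · exact ⟨b, hb⟩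
      · simp only at h2; omega
    choose w hw using hw
    let y : List Bool := List.ofFn w
    have hy : y.length = p := by simp [y]
    have hcy : c = fun j : Fin S => cellOf (cfg₀ e₀ x y) j.val := by
      funext j
      rw [cellOf_cfg₀]
      by_cases h1 : j.val < x.length
      · rw [List.getElem?_map, getElem?_pairEnc_left x y _ h1, List.getElem?_eq_getElem h1]
        rcases hc.1 j with ⟨b, hb, hcj⟩ | ⟨h2, -, -⟩ | ⟨h2, -⟩
        · rw [List.getElem?_eq_getElem h1] at hb
          rw [hcj]
          cases hb
          rfl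
        · omega
        · omega
      · by_cases h2 : j.val < x.length + p
        · have h3 : j.val - x.length < y.length := by omega
          rw [List.getElem?_map, getElem?_pairEnc_right x y _ (by omega),
            List.getElem?_eq_getElem h3]
          have h4 := hw ⟨j.val - x.length, by omega⟩
          have h5 : (⟨x.length + (j.val - x.length), by omega⟩ : Fin S) = j :=
            Fin.ext (by simp only; omega)
          rw [h5] at h4
          rw [h4]
          have h6 : x.length + (j.val - x.length) = j.val := by omega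
          simp only [h6]
          simp [y]
        · rw [List.getElem?_eq_none (by simp [length_pairEnc]; omega)]
          rcases hc.1 j with ⟨b, hb, -⟩ | ⟨-, h3, -⟩ | ⟨-, hcj⟩
          · rw [List.getElem?_eq_none (by omega)] at hb
            cases hb
          · omega
          · exact hcj
    have hR : R y = true := by
      have h7 : GoodRow (machCA e₀ e₁ x p) T S (fun j : Fin S => cellOf (cfg₀ e₀ x y) j.val) := by
        rw [← hcy]; exact hc
      exact (goodRow_iff e₀ e₁ x y p T S hy hS _ (hout y hy)).1 h7
    exact ⟨⟨y, hy, hR⟩, Subtype.ext hcy.symm⟩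

end

end Pool.Agent.Helper96
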