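import Pool.Agent.Helper96.Gen

/-!
# Functions and predicates definable by expressions: closure properties
-/

set_option autoImplicit false

namespace Pool.Agent.Helper96

/-- Inputs: two strings. -/
abbrev Inp := Bool → List Bool

/-- Renaming of variables. -/
def Exp.rename : Exp → (ℕ → ℕ) → Exp
  | .var i, ρ => .var (ρ i)
  | .const c, _ => .const c
  | .add a b, ρ => .add (a.rename ρ) (b.rename ρ)
  | .sub a b, ρ => .sub (a.rename ρ) (b.rename ρ)
  | .len i, _ => .len i
  | .bit i a, ρ => .bit i (a.rename ρ)
  | .sum a b, ρ => .sum (a.rename ρ) (b.rename (cons 0 fun n => ρ n + 1))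

theorem Exp.eval_rename (X : Inp) (e : Exp) : ∀ (ρ : ℕ → ℕ) (v : ℕ → ℕ),
    (e.rename ρ).eval X v = e.eval X (fun i => v (ρ i)) := by
  induction e with
  | var i => intro ρ v; rfl
  | const c => intro ρ v; rfl
  | add a b ha hb => intro ρ v; simp only [Exp.rename, Exp.eval, ha, hb]
  | sub a b ha hb => intro ρ v; simp only [Exp.rename, Exp.eval, ha, hb]
  | len i => intro ρ v; rfl
  | bit i a ha => intro ρ v; simp only [Exp.rename, Exp.eval, ha]
  | sum a b ha hb =>
    intro ρ v
    simp only [Exp.rename, Exp.eval, ha, hb]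
    apply Finset.sum_congr rfl
    intro i _
    congr 1
    funext n
    cases n <;> rfl

/-- Substitution of expressions for variables. -/
def Exp.subst : Exp → (ℕ → Exp) → Exp
  | .var i, σ => σ i
  | .const c, _ => .const c
  | .add a b, σ => .add (a.subst σ) (b.subst σ)
  | .sub a b, σ => .sub (a.subst σ) (b.subst σ)
  | .len i, _ => .len i
  | .bit i a, σ => .bit i (a.subst σ)
  | .sum a b, σ => .sum (a.subst σ) (b.subst (fun n => match n with
      | 0 => .var 0
      | n + 1 => (σ n).rename Nat.succ))

theorem Exp.eval_subst (X : Inp) (e : Exp) : ∀ (σ : ℕ → Exp) (v : ℕ → ℕ),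
    (e.subst σ).eval X v = e.eval X (fun i => (σ i).eval X v) := by
  induction e with
  | var i => intro σ v; rfl
  | const c => intro σ v; rfl
  | add a b ha hb => intro σ v; simp only [Exp.subst, Exp.eval, ha, hb]
  | sub a b ha hb => intro σ v; simp only [Exp.subst, Exp.eval, ha, hb]
  | len i => intro σ v; rfl
  | bit i a ha => intro σ v; simp only [Exp.subst, Exp.eval, ha]
  | sum a b ha hb =>
    intro σ v
    simp only [Exp.subst, Exp.eval, ha, hb]
    apply Finset.sum_congr rfl
    intro i _
    congr 1
    funext n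
    cases n with
    | zero => rfl
    | succ n =>
      simp only [cons_succ, Exp.eval_rename]

/-- A number-valued function of the inputs and an environment is definable. -/
def Def (f : Inp → (ℕ → ℕ) → ℕ) : Prop := ∃ e : Exp, ∀ X v, e.eval X v = f X v

open Classical in
/-- A predicate of the inputs and an environment is definable. -/
def DefP (P : Inp → (ℕ → ℕ) → Prop) : Prop := Def fun X v => if P X v then 1 else 0

namespace Def

variable {f g : Inp → (ℕ → ℕ) → ℕ} {P Q : Inp → (ℕ → ℕ) → Prop}

theorem congr (h : Def f) (e : ∀ X v, f X v = g X v) : Def g := by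
  obtain ⟨x, hx⟩ := h
  exact ⟨x, fun X v => (hx X v).trans (e X v)⟩

theorem var (i : ℕ) : Def fun _ v => v i := ⟨.var i, fun _ _ => rfl⟩

theorem const (c : ℕ) : Def fun _ _ => c := ⟨.const c, fun _ _ => rfl⟩

theorem len (i : Bool) : Def fun X _ => (X i).length := ⟨.len i, fun _ _ => rfl⟩

theorem add (hf : Def f) (hg : Def g) : Def fun X v => f X v + g X v := by
  obtain ⟨a, ha⟩ := hf
  obtain ⟨b, hb⟩ := hg
  exact ⟨.add a b, fun X v => by simp only [Exp.eval, ha, hb]⟩

theorem sub (hf : Def f) (hg : Def g) : Def fun X v => f X v - g X v := by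
  obtain ⟨a, ha⟩ := hf
  obtain ⟨b, hb⟩ := hg
  exact ⟨.sub a b, fun X v => by simp only [Exp.eval, ha, hb]⟩

theorem sum (hf : Def f) (hg : Def g) :
    Def fun X v => ∑ i ∈ Finset.range (f X v), g X (cons i v) := by
  obtain ⟨a, ha⟩ := hf
  obtain ⟨b, hb⟩ := hg
  exact ⟨.sum a b, fun X v => by simp only [Exp.eval, ha, hb]⟩

theorem subst {g : ℕ → Inp → (ℕ → ℕ) → ℕ} (hf : Def f) (hg : ∀ i, Def (g i)) :
    Def fun X v => f X (fun i => g i X v) := by
  obtain ⟨a, ha⟩ := hf
  choose b hb using hg
  exact ⟨a.subst b, fun X v => by simp only [Exp.eval_subst, ha, hb]⟩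

theorem rename (hf : Def f) (ρ : ℕ → ℕ) : Def fun X v => f X (fun i => v (ρ i)) := by
  obtain ⟨a, ha⟩ := hf
  exact ⟨a.rename ρ, fun X v => by simp only [Exp.eval_rename, ha]⟩

theorem mul (hf : Def f) (hg : Def g) : Def fun X v => f X v * g X v := by
  refine (sum hf (hg.rename Nat.succ)).congr fun X v => ?_
  simp [Finset.sum_const]

theorem pow (hf : Def f) (n : ℕ) : Def fun X v => f X v ^ n := by
  induction n with
  | zero => exact (const 1).congr fun X v => by simp
  | succ n ih => exact (ih.mul hf).congr fun X v => by rw [pow_succ]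

theorem poly (hf : Def f) (p : Polynomial ℕ) : Def fun X v => p.eval (f X v) := by
  induction p using Polynomial.induction_on' with
  | add p q hp hq => exact (hp.add hq).congr fun X v => by simp
  | monomial n a => exact ((const a).mul (hf.pow n)).congr fun X v => by simp

/-- Substituting for the first variable. -/
theorem comp1 {F : Inp → ℕ → ℕ} (hF : Def fun X v => F X (v 0)) (hf : Def f) :
    Def fun X v => F X (f X v) :=
  subst (g := fun _ => f) hF fun _ => hf

/-- Substituting for the first two variables. -/
theorem comp2 {F : Inp → ℕ → ℕ → ℕ} (hF : Def fun X v => F X (v 0) (v 1)) (hf : Def f)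
    (hg : Def g) : Def fun X v => F X (f X v) (g X v) :=
  subst (g := fun i => match i with | 0 => f | _ => g) hF fun i => match i with
    | 0 => hf
    | _ + 1 => hg

end Def

namespace DefP

variable {f g : Inp → (ℕ → ℕ) → ℕ} {P Q : Inp → (ℕ → ℕ) → Prop}

open Classical in
theorem congr (h : DefP P) (e : ∀ X v, P X v ↔ Q X v) : DefP Q :=
  Def.congr h fun X v => by simp only [e X v]

/-- From a number-valued function to its non-vanishing. -/
theorem of_ne_zero (h : Def f) : DefP fun X v => f X v ≠ 0 := by
  refine Def.congr ((Def.const 1).sub ((Def.const 1).sub h)) fun X v => ?_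
  split_ifs with h0 <;> omega

theorem const (p : Prop) : DefP fun _ _ => p := by
  by_cases h : p
  · exact Def.congr (Def.const 1) fun X v => by simp [h]
  · exact Def.congr (Def.const 0) fun X v => by simp [h]

theorem not (h : DefP P) : DefP fun X v => ¬ P X v := by
  refine Def.congr ((Def.const 1).sub h) fun X v => ?_
  by_cases hp : P X v <;> simp [hp]

theorem and (hP : DefP P) (hQ : DefP Q) : DefP fun X v => P X v ∧ Q X v := by
  refine Def.congr (Def.mul hP hQ) fun X v => ?_
  by_cases hp : P X v <;> by_cases hq : Q X v <;> simp [hp, hq]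

theorem or (hP : DefP P) (hQ : DefP Q) : DefP fun X v => P X v ∨ Q X v :=
  (hP.not.and hQ.not).not.congr fun X v => by tauto

theorem imp (hP : DefP P) (hQ : DefP Q) : DefP fun X v => P X v → Q X v :=
  (hP.not.or hQ).congr fun X v => by tauto

theorem iff (hP : DefP P) (hQ : DefP Q) : DefP fun X v => P X v ↔ Q X v :=
  ((hP.imp hQ).and (hQ.imp hP)).congr fun X v => by tauto

theorem lt (hf : Def f) (hg : Def g) : DefP fun X v => f X v < g X v :=
  (of_ne_zero (hg.sub hf)).congr fun X v => by omega

theorem le (hf : Def f) (hg : Def g) : DefP fun X v => f X v ≤ g X v :=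
  (lt hg hf).not.congr fun X v => by omega

theorem eq (hf : Def f) (hg : Def g) : DefP fun X v => f X v = g X v :=
  ((le hf hg).and (le hg hf)).congr fun X v => by omega

theorem bit (i : Bool) (hf : Def f) : DefP fun X v => (X i)[f X v]? = some true := by
  obtain ⟨a, ha⟩ := hf
  refine ⟨.bit i a, fun X v => ?_⟩
  simp only [Exp.eval, ha]
  split_ifs <;> rfl

theorem subst {g : ℕ → Inp → (ℕ → ℕ) → ℕ} (hP : DefP P) (hg : ∀ i, Def (g i)) :
    DefP fun X v => P X (fun i => g i X v) :=
  Def.subst (g := g) hP hg

theorem rename (hP : DefP P) (ρ : ℕ → ℕ) : DefP fun X v => P X (fun i => v (ρ i)) :=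
  Def.rename hP ρ

open Classical in
theorem ex (hf : Def f) (hP : DefP P) : DefP fun X v => ∃ i < f X v, P X (cons i v) := by
  refine (of_ne_zero (Def.sum hf hP)).congr fun X v => ?_
  rw [Ne, Finset.sum_eq_zero_iff]
  constructor
  · intro h
    push Not at h
    obtain ⟨i, hi, h⟩ := h
    refine ⟨i, Finset.mem_range.1 hi, ?_⟩
    by_contra hn
    rw [if_neg hn] at h
    exact h rfl
  · rintro ⟨i, hi, h⟩ hall
    have := hall i (Finset.mem_range.2 hi)
    rw [if_pos h] at this
    exact one_ne_zero this

theorem all (hf : Def f) (hP : DefP P) : DefP fun X v => ∀ i < f X v, P X (cons i v) :=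
  (ex hf hP.not).not.congr fun X v => by push Not; rfl

theorem comp1 {F : Inp → ℕ → Prop} (hF : DefP fun X v => F X (v 0)) (hf : Def f) :
    DefP fun X v => F X (f X v) :=
  subst (g := fun _ => f) hF fun _ => hf

theorem comp2 {F : Inp → ℕ → ℕ → Prop} (hF : DefP fun X v => F X (v 0) (v 1)) (hf : Def f)
    (hg : Def g) : DefP fun X v => F X (f X v) (g X v) :=
  subst (g := fun i => match i with | 0 => f | _ => g) hF fun i => match i with
    | 0 => hf
    | _ + 1 => hg

/-- Finite disjunctions. -/
theorem exists_finite {ι : Type} [Finite ι] {R : ι → Inp → (ℕ → ℕ) → Prop}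
    (h : ∀ i, DefP (R i)) : DefP fun X v => ∃ i, R i X v := by
  classical
  have := Fintype.ofFinite ι
  have key : ∀ s : Finset ι, DefP fun X v => ∃ i ∈ s, R i X v := by
    intro s
    induction s using Finset.induction_on with
    | empty => exact (const False).congr fun X v => by simp
    | insert a s _ ih =>
      exact ((h a).or ih).congr fun X v => by simp
  exact (key Finset.univ).congr fun X v => by simp

/-- Finite conjunctions. -/
theorem forall_finite {ι : Type} [Finite ι] {R : ι → Inp → (ℕ → ℕ) → Prop}
    (h : ∀ i, DefP (R i)) : DefP fun X v => ∀ i, R i X v :=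
  (exists_finite fun i => (h i).not).not.congr fun X v => by push Not; rfl

end DefP

namespace Def

variable {f g : Inp → (ℕ → ℕ) → ℕ} {P Q : Inp → (ℕ → ℕ) → Prop}

open Classical in
theorem ite (hP : DefP P) (hf : Def f) (hg : Def g) :
    Def fun X v => if P X v then f X v else g X v := by
  refine ((mul hP hf).add (mul hP.not hg)).congr fun X v => ?_
  by_cases h : P X v <;> simp [h]

theorem div (hf : Def f) (hg : Def g) : Def fun X v => f X v / g X v := by
  have h1 : DefP fun X v => (v 0 + 1) * g X (fun i => v (i + 1)) ≤ f X (fun i => v (i + 1)) :=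
    DefP.le (((var 0).add (const 1)).mul (hg.rename Nat.succ)) (hf.rename Nat.succ)
  have h2 : DefP fun X v => 0 < g X v := DefP.lt (const 0) hg
  refine (mul h2 (sum hf h1)).congr fun X v => ?_
  rcases Nat.eq_zero_or_pos (g X v) with h0 | hpos
  · simp [h0]
  · have h3 : ∀ i, (fun j => cons i v (j + 1)) = v := fun i => rfl
    simp only [hpos, if_true, one_mul, cons_zero, h3]
    rw [Finset.sum_boole]
    have h4 : (Finset.range (f X v)).filter (fun i => (i + 1) * g X v ≤ f X v) =
        Finset.range (f X v / g X v) := by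
      ext i
      rw [Finset.mem_filter, Finset.mem_range, Finset.mem_range]
      constructor
      · rintro ⟨_, h⟩
        exact Nat.lt_of_succ_le ((Nat.le_div_iff_mul_le hpos).2 h)
      · intro h
        have h5 : (i + 1) * g X v ≤ f X v := (Nat.le_div_iff_mul_le hpos).1 (Nat.succ_le_of_lt h)
        refine ⟨?_, h5⟩
        nlinarith
    rw [h4]
    simp

theorem mod (hf : Def f) (hg : Def g) : Def fun X v => f X v % g X v :=
  (hf.sub (hg.mul (hf.div hg))).congr fun X v => by
    have := Nat.div_add_mod (f X v) (g X v)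
    omega

end Def

end Pool.Agent.Helper96
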