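import Pool.Agent.Helper96.CookLevin
import Pool.Agent.Helper96.Def

/-!
# Parsimonious Cook-Levin theorem, in definable numeric form
-/

set_option autoImplicit false
set_option backward.isDefEq.respectTransparency false
set_option linter.unusedSectionVars false

namespace Pool.Agent.Helper96

open Turing Turing.TM2

/-- Encoding of a truth value by a string of length one. -/
def encBool (b : Bool) : List Bool := [b]

theorem defP_bit (i b : Bool) {f : Inp → (ℕ → ℕ) → ℕ} (hf : Def f) :
    DefP fun X v => (X i)[f X v]? = some b := by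
  cases b with
  | true => exact DefP.bit i hf
  | false =>
    refine ((DefP.lt hf (Def.len i)).and (DefP.bit i hf).not).congr fun X v => ?_
    constructor
    · rintro ⟨h1, h2⟩
      rw [List.getElem?_eq_getElem h1] at h2 ⊢
      simpa using h2
    · intro h
      obtain ⟨h1, h2⟩ := List.getElem?_eq_some_iff.1 h
      refine ⟨h1, ?_⟩
      rw [h]
      simp

section

variable {tm : FinTM2} (e₀ : tm.Γ tm.k₀ ≃ Bool ⊕ Bool) (e₁ : tm.Γ tm.k₁ ≃ Bool)

theorem inCell_eq_one (o : Option (tm.Γ tm.k₀)) (j : ℕ) (hj : j ≠ 0) :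
    inCell tm o j = inCell tm o 1 := by
  unfold inCell
  rw [if_neg hj, if_neg one_ne_zero]

theorem defP_eq_inCell (a : Cell tm) (o : Option (tm.Γ tm.k₀)) {f : Inp → (ℕ → ℕ) → ℕ}
    (hf : Def f) : DefP fun X v => a = inCell tm o (f X v) := by
  refine (((DefP.eq hf (Def.const 0)).and (DefP.const (a = inCell tm o 0))).or
    ((DefP.eq hf (Def.const 0)).not.and (DefP.const (a = inCell tm o 1)))).congr fun X v => ?_
  by_cases h : f X v = 0
  · simp [h]
  · simp [h, inCell_eq_one o _ h]

theorem defP_I (p : Polynomial ℕ) (a : Cell tm) {f : Inp → (ℕ → ℕ) → ℕ} (hf : Def f) :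
    DefP fun X v => (machCA e₀ e₁ (X false) (p.eval (X false).length)).I (f X v) a := by
  have hlen : Def fun X _ => (X false).length := Def.len false
  have hlp : Def fun X _ => (X false).length + p.eval (X false).length :=
    hlen.add (Def.poly hlen p)
  refine DefP.or ?_ (DefP.or ?_ ?_)
  · exact DefP.exists_finite fun b => (defP_bit false b hf).and (defP_eq_inCell a _ hf)
  · exact (DefP.le hlen hf).and ((DefP.lt hf hlp).and
      (DefP.exists_finite fun b => defP_eq_inCell a _ hf))
  · exact (DefP.le hlp hf).and (defP_eq_inCell a _ hf)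

/-- Definability of membership of literals in clauses of the tableau. -/
theorem defP_tmemN (p : Polynomial ℕ) (T S : Inp → (ℕ → ℕ) → ℕ) (hT : Def T) (hS : Def S)
    (a : Cell tm) (κ : Kind (Cell tm)) {τ j b τ' j' : Inp → (ℕ → ℕ) → ℕ}
    (hτ : Def τ) (hj : Def j) (hb : Def b) (hτ' : Def τ') (hj' : Def j') :
    DefP fun X v => tmemN (machCA e₀ e₁ (X false) (p.eval (X false).length)) (T X v) (S X v)
      (τ X v) (j X v) a (decide (b X v = 1)) (τ' X v) (j' X v) κ := by
  have hbf : DefP fun X v => decide (b X v = 1) = false :=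
    (DefP.eq hb (Def.const 1)).not.congr fun X v => by simp
  have hbt : DefP fun X v => decide (b X v = 1) = true :=
    (DefP.eq hb (Def.const 1)).congr fun X v => by simp
  have h1 := Def.const 1
  have h0 := Def.const 0
  cases κ with
  | pair a' => exact (DefP.eq hτ hτ').and ((DefP.eq hj hj').and (DefP.const _))
  | amo a₁ a₂ =>
    exact (DefP.const _).or (hbf.and ((DefP.eq hτ hτ').and ((DefP.eq hj hj').and
      ((DefP.const _).or (DefP.const _)))))
  | init =>
    exact (DefP.eq hτ' h0).not.or (hbt.and ((DefP.eq hτ hτ').and ((DefP.eq hj hj').and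
      (defP_I e₀ e₁ p a hj))))
  | trans l c r z =>
    refine ((DefP.le (hτ'.add h1) hT).and (DefP.lt (hj'.add h1) hS)).not.or (DefP.or
      (hbf.and ((DefP.eq hτ hτ').and (DefP.or ?_ (DefP.or ?_ (DefP.or ?_ ?_)))))
      (hbt.and ((DefP.eq hτ (hτ'.add h1)).and ((DefP.eq hj hj').and
        (DefP.const (a = cellRule l c r z))))))
    · exact (DefP.eq hj (hj'.sub h1)).and (DefP.const _)
    · exact (DefP.eq hj hj').and (DefP.const _)
    · exact (DefP.eq hj (hj'.add h1)).and (DefP.const _)
    · exact (DefP.eq hj h0).and (DefP.const _)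
  | bound =>
    exact (DefP.eq (hj'.add h1) hS).not.or (hbt.and ((DefP.eq hτ hτ').and
      ((DefP.eq hj hj').and (DefP.const (a = blankCell)))))
  | final =>
    exact ((DefP.eq hτ' hT).and (DefP.eq hj' h0)).not.or (hbt.and ((DefP.eq hτ hτ').and
      ((DefP.eq hj hj').and (DefP.const (a.2 tm.k₁ = some (e₁.symm true))))))

end

/-- Numbering of triples. -/
def tripleEquiv {A : Type} {w : ℕ} (e : A ≃ Fin w) (T S : ℕ) :
    Fin T × Fin S × A ≃ Fin (T * S * w) :=
  ((Equiv.prodAssoc _ _ _).symm.trans (Equiv.prodCongr finProdFinEquiv e)).trans finProdFinEquiv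

theorem tripleEquiv_val {A : Type} {w : ℕ} (e : A ≃ Fin w) (T S : ℕ) (x : Fin T × Fin S × A) :
    (tripleEquiv e T S x).val = (e x.2.2).val + w * (x.2.1.val + S * x.1.val) := rfl

theorem tripleEquiv_mod {A : Type} {w : ℕ} (e : A ≃ Fin w) (T S : ℕ) (x : Fin T × Fin S × A) :
    (tripleEquiv e T S x).val % w = (e x.2.2).val := by
  rw [tripleEquiv_val, Nat.add_mul_mod_self_left, Nat.mod_eq_of_lt (e x.2.2).2]

theorem tripleEquiv_div {A : Type} {w : ℕ} (e : A ≃ Fin w) (T S : ℕ) (x : Fin T × Fin S × A) :
    (tripleEquiv e T S x).val / w = x.2.1.val + S * x.1.val := by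
  have hw : 0 < w := (e x.2.2).pos
  rw [tripleEquiv_val, Nat.add_mul_div_left _ _ hw, Nat.div_eq_of_lt (e x.2.2).2, Nat.zero_add]

theorem tripleEquiv_mid {A : Type} {w : ℕ} (e : A ≃ Fin w) (T S : ℕ) (x : Fin T × Fin S × A) :
    (tripleEquiv e T S x).val / w % S = x.2.1.val := by
  rw [tripleEquiv_div, Nat.add_mul_mod_self_left, Nat.mod_eq_of_lt x.2.1.2]

theorem tripleEquiv_fst {A : Type} {w : ℕ} (e : A ≃ Fin w) (T S : ℕ) (x : Fin T × Fin S × A) :
    (tripleEquiv e T S x).val / w / S = x.1.val := by
  have hS : 0 < S := x.2.1.pos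
  rw [tripleEquiv_div, Nat.add_mul_div_left _ _ hS, Nat.div_eq_of_lt x.2.1.2, Nat.zero_add]

/-- **Cook-Levin theorem** (parsimonious, uniform version). For every polynomial-time relation `R`
and polynomial `p` there are definable numbers `n` of variables and `m` of clauses, and a definable
relation `lit X i s j` (the literal of variable `i` with sign `s`, where `1` is positive and `0`
negative, occurs in clause `j`) such that the number of witnesses of length `p |x|` of `x` is the
number of satisfying assignments. Moreover each variable has a clause containing no other variable.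
-/
theorem cook_levin (p : Polynomial ℕ) (R : List Bool × List Bool → Bool)
    (hR : PolyTime pairEnc encBool R) :
    ∃ (n m : Inp → ℕ) (lit : Inp → ℕ → ℕ → ℕ → Prop),
      Def (fun X _ => n X) ∧ Def (fun X _ => m X) ∧
      DefP (fun X v => lit X (v 0) (v 1) (v 2)) ∧ (∀ X, 0 < m X) ∧
      (∀ X, ∀ i < n X, ∃ j < m X, ∀ i' s', i' < n X → lit X i' s' j → i' = i) ∧
      ∀ X, Nat.card {y : List Bool // y.length = p.eval (X false).length ∧
          R (X false, y) = true} =
        Nat.card {α : Fin (n X) → Bool // ∀ j < m X, ∃ i : Fin (n X),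
          lit X i.val (if α i = true then 1 else 0) j} := by
  classical
  obtain ⟨M, hM⟩ := hR
  obtain ⟨D, hD⟩ := exists_depth_bound (tm := M.tm)
  have hfin : Finite (Cell M.tm) := finite_cell hM
  obtain ⟨w, ⟨eA⟩⟩ := Finite.exists_equiv_fin (Cell M.tm)
  obtain ⟨c, ⟨eK⟩⟩ := Finite.exists_equiv_fin (Kind (Cell M.tm))
  let e₀ : M.tm.Γ M.tm.k₀ ≃ Bool ⊕ Bool := M.inputAlphabet
  let e₁ : M.tm.Γ M.tm.k₁ ≃ Bool := M.outputAlphabet
  let T : Inp → ℕ := fun X =>
    D * M.time.eval ((X false).length + p.eval (X false).length)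
  let S : Inp → ℕ := fun X => (X false).length + p.eval (X false).length + T X + 2
  have hlen : Def fun X _ => (X false).length := Def.len false
  have hlp : Def fun X _ => (X false).length + p.eval (X false).length :=
    hlen.add (Def.poly hlen p)
  have hT : Def fun X _ => T X := (Def.const D).mul (Def.poly hlp M.time)
  have hS : Def fun X _ => S X := (hlp.add hT).add (Def.const 2)
  let ca : Inp → CA (Cell M.tm) := fun X => machCA e₀ e₁ (X false) (p.eval (X false).length)
  let n : Inp → ℕ := fun X => (T X + 1) * S X * w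
  let m : Inp → ℕ := fun X => (T X + 1) * S X * c
  have hTS : Def fun X _ => (T X + 1) * S X := (hT.add (Def.const 1)).mul hS
  let lit : Inp → ℕ → ℕ → ℕ → Prop := fun X i s r => ∃ a : Cell M.tm, ∃ κ : Kind (Cell M.tm),
    i % w = (eA a).val ∧ r % c = (eK κ).val ∧
      tmemN (ca X) (T X) (S X) (i / w / S X) (i / w % S X) a (decide (s = 1))
        (r / c / S X) (r / c % S X) κ
  have hw : 0 < w := (eA blankCell).pos
  have hc : 0 < c := (eK .init).pos
  have hSpos : ∀ X, 0 < S X := fun X => by simp only [S]; omega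
  have hlit : ∀ X (x : Fin (T X + 1) × Fin (S X) × Cell M.tm) (s : ℕ)
      (y : Fin (T X + 1) × Fin (S X) × Kind (Cell M.tm)),
      lit X (tripleEquiv eA _ _ x).val s (tripleEquiv eK _ _ y).val ↔
        tmem (ca X) (T X) (S X) (x, decide (s = 1)) y := by
    intro X x s y
    simp only [lit]
    rw [tripleEquiv_mod, tripleEquiv_mod, tripleEquiv_mid, tripleEquiv_mid, tripleEquiv_fst,
      tripleEquiv_fst]
    constructor
    · rintro ⟨a, κ, h1, h2, h3⟩
      have h4 : x.2.2 = a := eA.injective (Fin.ext h1)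
      have h5 : y.2.2 = κ := eK.injective (Fin.ext h2)
      subst h4 h5
      exact h3
    · intro h
      exact ⟨_, _, rfl, rfl, h⟩
  refine ⟨n, m, lit, hTS.mul (Def.const w), hTS.mul (Def.const c), ?_, ?_, ?_, ?_⟩
  · refine DefP.exists_finite fun a => DefP.exists_finite fun κ => ?_
    have hv0 := Def.var 0
    have hv1 := Def.var 1
    have hv2 := Def.var 2
    refine (DefP.eq (hv0.mod (Def.const w)) (Def.const _)).and
      ((DefP.eq (hv2.mod (Def.const c)) (Def.const _)).and ?_)
    exact defP_tmemN e₀ e₁ p (fun X _ => T X) (fun X _ => S X) hT hS a κ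
      ((hv0.div (Def.const w)).div hS) ((hv0.div (Def.const w)).mod hS) hv1
      ((hv2.div (Def.const c)).div hS) ((hv2.div (Def.const c)).mod hS)
  · intro X
    exact Nat.mul_pos (Nat.mul_pos (Nat.succ_pos _) (hSpos X)) hc
  · intro X i hi
    obtain ⟨x, hx⟩ := (tripleEquiv eA (T X + 1) (S X)).surjective ⟨i, hi⟩
    have hx' : (tripleEquiv eA _ _ x).val = i := congrArg Fin.val hx
    refine ⟨(tripleEquiv eK _ _ ((x.1, x.2.1, Kind.pair x.2.2) :
      Fin (T X + 1) × Fin (S X) × Kind (Cell M.tm))).val, Fin.isLt _, ?_⟩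
    intro i' s' hi' hlit'
    obtain ⟨x', hx1⟩ := (tripleEquiv eA (T X + 1) (S X)).surjective ⟨i', hi'⟩
    have hx1' : (tripleEquiv eA _ _ x').val = i' := congrArg Fin.val hx1
    rw [← hx1', hlit] at hlit'
    obtain ⟨h1, h2, h3⟩ := hlit'
    rw [← hx', ← hx1']
    congr 2
    obtain ⟨a, b, d⟩ := x
    obtain ⟨a', b', d'⟩ := x'
    simp only at h1 h2 h3
    have h4 : a' = a := Fin.ext h1
    have h5 : b' = b := Fin.ext h2
    rw [h4, h5, h3]
  · intro X
    have hout : ∀ y : List Bool, y.length = p.eval (X false).length →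
        aStep^[T X] (cfg₀ e₀ (X false) y) =
          toA (haltList M.tm [e₁.symm (R (X false, y))]) := by
      intro y hy
      have h1 := M.outputsFun (X false, y)
      refine outputs_sim hD h1 ?_
      rw [length_pairEnc]
      simp only [hy]
      exact le_rfl
    rw [← card_goodRow e₀ e₁ (X false) (p.eval (X false).length) (T X) (S X) le_rfl
      (fun y => R (X false, y)) hout, ← card_tableau (ca X) (T X) (S X) (hSpos X)]
    refine Nat.card_congr (Equiv.subtypeEquiv
      (Equiv.arrowCongr (tripleEquiv eA (T X + 1) (S X)) (Equiv.refl Bool)) ?_)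
    intro α
    constructor
    · intro h j hj
      obtain ⟨y, hy⟩ := (tripleEquiv eK (T X + 1) (S X)).surjective ⟨j, hj⟩
      have hy' : (tripleEquiv eK _ _ y).val = j := congrArg Fin.val hy
      obtain ⟨⟨x, b⟩, hm, hα⟩ := h y
      refine ⟨tripleEquiv eA _ _ x, ?_⟩
      rw [← hy', hlit]
      have h2 : (Equiv.arrowCongr (tripleEquiv eA (T X + 1) (S X)) (Equiv.refl Bool)) α
          (tripleEquiv eA _ _ x) = α x := by
        simp [Equiv.arrowCongr]
      rw [h2]
      simp only at hα
      rw [hα]
      cases b <;> exact hm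
    · intro h y
      obtain ⟨i, hi⟩ := h (tripleEquiv eK _ _ y).val (Fin.isLt _)
      obtain ⟨x, rfl⟩ := (tripleEquiv eA (T X + 1) (S X)).surjective i
      rw [hlit] at hi
      have h2 : (Equiv.arrowCongr (tripleEquiv eA (T X + 1) (S X)) (Equiv.refl Bool)) α
          (tripleEquiv eA _ _ x) = α x := by
        simp [Equiv.arrowCongr]
      rw [h2] at hi
      refine ⟨(x, α x), ?_, rfl⟩
      cases hα : α x with
      | true => simpa [hα] using hi
      | false => simpa [hα] using hi

end Pool.Agent.Helper96
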