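import Mathlib

/-!
# Counting order-preserving self-maps of the poset attached to a CNF formula

Given a finite set `V` of variables, a finite set `C` of clauses and a membership relation between
literals `V × Bool` and clauses, we build a poset whose number of order-preserving self-maps
encodes the number of satisfying assignments in a block of its binary digits.
-/

set_option autoImplicit false
set_option linter.unusedSectionVars false
set_option linter.unusedSimpArgs false

namespace Pool.Agent.Helper96

open Finset

section Defs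

variable (V C : Type) (s k t : ℕ)

/-- Literals. -/
abbrev Lit := V × Bool

/-- The elements of the poset except the bottom and the free elements: the points `a = inl false`
and `b = inl true`, the literals, `s` pendant elements for each literal, `k` copies of each
clause. -/
abbrev Base := Bool ⊕ (Lit V ⊕ ((Lit V × Fin s) ⊕ (C × Fin k)))

/-- The poset: a bottom `none`, the base elements, and `t` free elements. -/
abbrev QQ := Option (Base V C s k ⊕ Fin t)

variable {V C s k t}

/-- The strict order on base elements. -/
def ltB (mem : Lit V → C → Prop) : Base V C s k → Base V C s k → Prop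
  | .inl false, .inl true => True
  | .inr (.inl _), .inl true => True
  | .inr (.inl ℓ), .inr (.inr (.inl p)) => ℓ = p.1
  | .inr (.inl ℓ), .inr (.inr (.inr q)) => mem ℓ q.1
  | _, _ => False

/-- The order. -/
def leQ (mem : Lit V → C → Prop) : QQ V C s k t → QQ V C s k t → Prop
  | none, _ => True
  | some (.inl x), some (.inl y) => x = y ∨ ltB mem x y
  | some (.inr i), some (.inr j) => i = j
  | _, _ => False

/-- Order-preserving self-maps. -/
def MonoQ (mem : Lit V → C → Prop) (f : QQ V C s k t → QQ V C s k t) : Prop :=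
  ∀ x y, leQ mem x y → leQ mem (f x) (f y)

theorem leQ_refl (mem : Lit V → C → Prop) (x : QQ V C s k t) : leQ mem x x := by
  rcases x with _ | (x | i)
  · trivial
  · exact Or.inl rfl
  · rfl

/-- Maps of the base into the part above `v`. -/
def HomAbove (mem : Lit V → C → Prop) (v : QQ V C s k t) (g : Base V C s k → QQ V C s k t) :
    Prop :=
  (∀ x, leQ mem v (g x)) ∧ ∀ x y, ltB mem x y → leQ mem (g x) (g y)

/-- An order-preserving self-map is the same as the image `v` of the bottom, a map of the base
into the part above `v`, and arbitrary images above `v` of the free elements. -/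
def monoEquiv (mem : Lit V → C → Prop) :
    {f : QQ V C s k t → QQ V C s k t // MonoQ mem f} ≃
      Σ v : QQ V C s k t, {g : Base V C s k → QQ V C s k t // HomAbove mem v g} ×
        (Fin t → {y : QQ V C s k t // leQ mem v y}) where
  toFun f := ⟨f.1 none, ⟨fun x => f.1 (some (.inl x)), fun x => f.2 _ _ trivial,
      fun x y h => f.2 _ _ (Or.inr h)⟩, fun i => ⟨f.1 (some (.inr i)), f.2 _ _ trivial⟩⟩
  invFun p := ⟨fun x => match x with
      | none => p.1
      | some (.inl x) => p.2.1.1 x
      | some (.inr i) => (p.2.2 i).1, by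
    rintro (_ | (x | i)) (_ | (y | j)) h
    · exact leQ_refl _ _
    · exact p.2.1.2.1 y
    · exact (p.2.2 j).2
    · exact h.elim
    · rcases h with h | h
      · rw [h]; exact leQ_refl _ _
      · exact p.2.1.2.2 x y h
    · exact h.elim
    · exact h.elim
    · exact h.elim
    · have : i = j := h
      rw [this]; exact leQ_refl _ _⟩
  left_inv f := by
    apply Subtype.ext
    funext x
    rcases x with _ | (x | i) <;> rfl
  right_inv p := by
    obtain ⟨v, ⟨g, hg⟩, u⟩ := p
    rfl

end Defs

section Count

variable {V C : Type} {s k t : ℕ} [Fintype V] [Fintype C] [DecidableEq V]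
variable (mem : Lit V → C → Prop)

theorem card_mono :
    Nat.card {f : QQ V C s k t → QQ V C s k t // MonoQ mem f} =
      ∑ v : QQ V C s k t, Nat.card {g : Base V C s k → QQ V C s k t // HomAbove mem v g} *
        Nat.card {y : QQ V C s k t // leQ mem v y} ^ t := by
  classical
  have hfin : ∀ v : QQ V C s k t, Finite ({g : Base V C s k → QQ V C s k t // HomAbove mem v g} ×
      (Fin t → {y : QQ V C s k t // leQ mem v y})) := fun v => inferInstance
  rw [Nat.card_congr (monoEquiv mem), Nat.card_sigma]
  apply Finset.sum_congr rfl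
  intro v _
  rw [Nat.card_prod, Nat.card_fun, Nat.card_eq_fintype_card (α := Fin t), Fintype.card_fin]

/-- Maximal elements contribute `1`. -/
theorem term_maximal (v : QQ V C s k t) (hv : ∀ y, leQ mem v y → y = v) :
    Nat.card {g : Base V C s k → QQ V C s k t // HomAbove mem v g} *
        Nat.card {y : QQ V C s k t // leQ mem v y} ^ t = 1 := by
  have h1 : Nat.card {y : QQ V C s k t // leQ mem v y} = 1 := by
    rw [Nat.card_eq_one_iff_unique]
    refine ⟨⟨fun a b => Subtype.ext ((hv _ a.2).trans (hv _ b.2).symm)⟩, ⟨⟨v, leQ_refl _ _⟩⟩⟩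
  have h2 : Nat.card {g : Base V C s k → QQ V C s k t // HomAbove mem v g} = 1 := by
    rw [Nat.card_eq_one_iff_unique]
    refine ⟨⟨fun a b => Subtype.ext (funext fun x =>
      (hv _ (a.2.1 x)).trans (hv _ (b.2.1 x)).symm)⟩,
      ⟨⟨fun _ => v, fun _ => leQ_refl _ _, fun _ _ _ => leQ_refl _ _⟩⟩⟩
  rw [h1, h2]; simp

/-- Number of elements above a literal. -/
theorem card_above_lit (hs : s % 4 = 2) (hk : 4 ∣ k) (ℓ : Lit V) :
    4 ∣ Nat.card {y : QQ V C s k t // leQ mem (some (.inl (.inr (.inl ℓ)))) y} := by
  classical
  have h : Nat.card {y : QQ V C s k t // leQ mem (some (.inl (.inr (.inl ℓ)))) y} =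
      1 + (1 + (s + k * (Finset.univ.filter fun c => mem ℓ c).card)) := by
    rw [Nat.card_eq_fintype_card, Fintype.card_subtype, Finset.card_filter,
      Fintype.sum_option, Fintype.sum_sum_type, Fintype.sum_sum_type, Fintype.sum_sum_type,
      Fintype.sum_sum_type]
    have e0 : (if leQ mem (some (.inl (.inr (.inl ℓ))) : QQ V C s k t) none then 1 else 0) = 0 :=
      if_neg id
    have e1 : ∑ x : Bool, (if leQ mem (some (.inl (.inr (.inl ℓ))) : QQ V C s k t)
        (some (.inl (.inl x))) then 1 else 0) = 1 := by
      rw [Fintype.sum_bool]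
      have h1 : leQ mem (some (.inl (.inr (.inl ℓ))) : QQ V C s k t) (some (.inl (.inl true))) :=
        Or.inr trivial
      have h2 : ¬ leQ mem (some (.inl (.inr (.inl ℓ))) : QQ V C s k t)
          (some (.inl (.inl false))) := by
        rintro (h | h)
        · cases h
        · exact h
      rw [if_pos h1, if_neg h2]
    have e2 : ∑ x : Lit V, (if leQ mem (some (.inl (.inr (.inl ℓ))) : QQ V C s k t)
        (some (.inl (.inr (.inl x)))) then 1 else 0) = 1 := by
      have : ∀ x : Lit V, (if leQ mem (some (.inl (.inr (.inl ℓ))) : QQ V C s k t)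
          (some (.inl (.inr (.inl x)))) then 1 else 0) = if ℓ = x then 1 else 0 := by
        intro x
        apply if_congr _ rfl rfl
        constructor
        · rintro (h | h)
          · simpa using h
          · exact h.elim
        · rintro rfl; exact Or.inl rfl
      simp only [this]
      simp
    have e3 : ∑ x : Lit V × Fin s, (if leQ mem (some (.inl (.inr (.inl ℓ))) : QQ V C s k t)
        (some (.inl (.inr (.inr (.inl x))))) then 1 else 0) = s := by
      have : ∀ x : Lit V × Fin s, (if leQ mem (some (.inl (.inr (.inl ℓ))) : QQ V C s k t)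
          (some (.inl (.inr (.inr (.inl x))))) then 1 else 0) = if ℓ = x.1 then 1 else 0 := by
        intro x
        apply if_congr _ rfl rfl
        constructor
        · rintro (h | h)
          · cases h
          · exact h
        · intro h; exact Or.inr h
      simp only [this]
      rw [Fintype.sum_prod_type, Finset.sum_eq_single ℓ]
      · simp
      · intro ℓ' _ hne
        simp [hne.symm]
      · intro h
        exact absurd (Finset.mem_univ _) h
    have e4 : ∑ x : C × Fin k, (if leQ mem (some (.inl (.inr (.inl ℓ))) : QQ V C s k t)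
        (some (.inl (.inr (.inr (.inr x))))) then 1 else 0) =
        k * (Finset.univ.filter fun c => mem ℓ c).card := by
      have : ∀ x : C × Fin k, (if leQ mem (some (.inl (.inr (.inl ℓ))) : QQ V C s k t)
          (some (.inl (.inr (.inr (.inr x))))) then 1 else 0) = if mem ℓ x.1 then 1 else 0 := by
        intro x
        apply if_congr _ rfl rfl
        constructor
        · rintro (h | h)
          · cases h
          · exact h
        · intro h; exact Or.inr h
      simp only [this]
      rw [Fintype.sum_prod_type, Finset.card_filter, Finset.mul_sum]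
      apply Finset.sum_congr rfl
      intro c _
      by_cases hm : mem ℓ c <;> simp [hm]
    have e5 : ∑ x : Fin t, (if leQ mem (some (.inl (.inr (.inl ℓ))) : QQ V C s k t)
        (some (.inr x)) then 1 else 0) = 0 := by
      apply Finset.sum_eq_zero
      intro x _
      exact if_neg id
    rw [e0, e1, e2, e3, e4, e5]
    ring
  rw [h]
  obtain ⟨k', rfl⟩ := hk
  rw [Nat.dvd_iff_mod_eq_zero, Nat.mul_assoc]
  omega

/-- The weighted number of order-preserving maps of the base into the two-element chain. -/
theorem card_above_a :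
    Nat.card {y : QQ V C s k t // leQ mem (some (.inl (.inl false))) y} = 2 := by
  classical
  have e : {y : QQ V C s k t // leQ mem (some (.inl (.inl false))) y} ≃ Bool :=
    { toFun := fun y => match y with
        | ⟨some (.inl (.inl b)), _⟩ => b
        | _ => false
      invFun := fun b => ⟨some (.inl (.inl b)), by
        cases b
        · exact Or.inl rfl
        · exact Or.inr trivial⟩
      left_inv := by
        rintro ⟨_ | ((b | (x | (x | x))) | i), h⟩
        · exact h.elim
        · rfl
        · rcases h with h | h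
          · cases h
          · exact h.elim
        · rcases h with h | h
          · cases h
          · exact h.elim
        · rcases h with h | h
          · cases h
          · exact h.elim
        · exact h.elim
      right_inv := fun b => rfl }
  rw [Nat.card_congr e]
  simp

/-- Order-preserving maps of the base to `Bool`. -/
def HomBool (g : Base V C s k → Bool) : Prop := ∀ x y, ltB mem x y → g x ≤ g y

theorem card_homAbove_a :
    Nat.card {g : Base V C s k → QQ V C s k t // HomAbove mem (some (.inl (.inl false))) g} =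
      Nat.card {g : Base V C s k → Bool // HomBool mem g} := by
  classical
  have hform : ∀ y : QQ V C s k t, leQ mem (some (.inl (.inl false))) y →
      y = some (.inl (.inl (decide (y = some (.inl (.inl true)))))) := by
    rintro (_ | ((b | (x | (x | x))) | i)) h
    · exact h.elim
    · cases b <;> simp
    · rcases h with h | h
      · cases h
      · exact h.elim
    · rcases h with h | h
      · cases h
      · exact h.elim
    · rcases h with h | h
      · cases h
      · exact h.elim
    · exact h.elim
  have hle : ∀ b b' : Bool, leQ mem (some (.inl (.inl b)) : QQ V C s k t)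
      (some (.inl (.inl b'))) ↔ b ≤ b' := by
    intro b b'
    cases b <;> cases b' <;> simp [leQ, ltB]
  refine Nat.card_congr
    { toFun := fun g => ⟨fun x => decide (g.1 x = some (.inl (.inl true))), ?_⟩
      invFun := fun g => ⟨fun x => some (.inl (.inl (g.1 x))), ?_, ?_⟩
      left_inv := ?_
      right_inv := ?_ }
  · intro x y hxy
    have := g.2.2 x y hxy
    rw [hform _ (g.2.1 x), hform _ (g.2.1 y), hle] at this
    exact this
  · intro x
    rw [hle]
    exact Bool.false_le _
  · intro x y hxy
    rw [hle]
    exact g.2 x y hxy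
  · intro g
    apply Subtype.ext
    funext x
    exact (hform _ (g.2.1 x)).symm
  · intro g
    apply Subtype.ext
    funext x
    change decide ((some (.inl (.inl (g.1 x))) : QQ V C s k t) = some (.inl (.inl true))) = g.1 x
    cases g.1 x <;> simp

/-- Splitting an order-preserving map of the base to `Bool` along its values on the literals. -/
def homBoolEquiv :
    {g : Base V C s k → Bool // HomBool mem g} ≃
      Σ h : Lit V → Bool, {ab : Bool × Bool // ab.1 ≤ ab.2 ∧ ∀ ℓ, h ℓ ≤ ab.2} ×
        ((∀ x : Lit V × Fin s, {b : Bool // h x.1 ≤ b}) ×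
          (∀ x : C × Fin k, {b : Bool // ∀ ℓ, mem ℓ x.1 → h ℓ ≤ b})) where
  toFun g := ⟨fun ℓ => g.1 (.inr (.inl ℓ)),
    ⟨(g.1 (.inl false), g.1 (.inl true)), g.2 _ _ trivial, fun ℓ => g.2 _ _ trivial⟩,
    fun x => ⟨g.1 (.inr (.inr (.inl x))), g.2 (.inr (.inl x.1)) (.inr (.inr (.inl x))) rfl⟩,
    fun x => ⟨g.1 (.inr (.inr (.inr x))), fun ℓ hℓ =>
      g.2 (.inr (.inl ℓ)) (.inr (.inr (.inr x))) hℓ⟩⟩
  invFun p := ⟨fun x => match x with
      | .inl false => p.2.1.1.1
      | .inl true => p.2.1.1.2
      | .inr (.inl ℓ) => p.1 ℓ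
      | .inr (.inr (.inl x)) => (p.2.2.1 x).1
      | .inr (.inr (.inr x)) => (p.2.2.2 x).1, by
    rintro ((_ | _) | (x | (x | x))) ((_ | _) | (y | (y | y))) h <;> try exact h.elim
    · exact p.2.1.2.1
    · exact p.2.1.2.2 x
    · have : x = y.1 := h
      subst this
      exact (p.2.2.1 y).2
    · exact (p.2.2.2 y).2 x h⟩
  left_inv g := by
    apply Subtype.ext
    funext x
    rcases x with (_ | _) | (x | (x | x)) <;> rfl
  right_inv p := by
    obtain ⟨h, ⟨⟨a, b⟩, hab⟩, p, q⟩ := p
    rfl

/-- Number of false literals. -/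
noncomputable def zf (h : Lit V → Bool) : ℕ := (Finset.univ.filter fun ℓ => h ℓ = false).card

open Classical in
/-- Number of violated clauses. -/
noncomputable def uf (h : Lit V → Bool) : ℕ :=
  (Finset.univ.filter fun c : C => ∀ ℓ, mem ℓ c → h ℓ = false).card

open Classical in
/-- The weight of a map of the literals. -/
noncomputable def wt (s k : ℕ) (h : Lit V → Bool) : ℕ :=
  (if ∃ ℓ, h ℓ = true then 2 else 3) * (2 ^ (s * zf h) * 2 ^ (k * uf mem h))

theorem card_homBool :
    Nat.card {g : Base V C s k → Bool // HomBool mem g} = ∑ h : Lit V → Bool, wt mem s k h := by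
  classical
  rw [Nat.card_congr (homBoolEquiv mem), Nat.card_sigma]
  apply Finset.sum_congr rfl
  intro h _
  rw [Nat.card_prod, Nat.card_prod, Nat.card_pi, Nat.card_pi]
  unfold wt
  have hb : ∀ b : Bool, Nat.card {b' : Bool // b ≤ b'} = if b = false then 2 else 1 := by
    intro b
    rw [Nat.card_eq_fintype_card]
    cases b <;> rfl
  congr 1
  · by_cases hex : ∃ ℓ, h ℓ = true
    · rw [if_pos hex, Nat.card_eq_fintype_card, Fintype.card_subtype]
      have : (Finset.univ.filter fun ab : Bool × Bool => ab.1 ≤ ab.2 ∧ ∀ ℓ, h ℓ ≤ ab.2) =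
          {(false, true), (true, true)} := by
        ext ⟨a, b⟩
        obtain ⟨ℓ, hℓ⟩ := hex
        simp only [Finset.mem_filter, Finset.mem_univ, true_and, Finset.mem_insert,
          Finset.mem_singleton, Prod.mk.injEq]
        constructor
        · rintro ⟨_, h2⟩
          have := h2 ℓ
          rw [hℓ] at this
          have hb : b = true := by
            cases b
            · exact absurd this (by decide)
            · rfl
          subst hb
          cases a <;> simp
        · rintro (⟨rfl, rfl⟩ | ⟨rfl, rfl⟩)
          · exact ⟨by simp, fun ℓ => Bool.le_true _⟩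
          · exact ⟨by simp, fun ℓ => Bool.le_true _⟩
      rw [this]
      rfl
    · rw [if_neg hex, Nat.card_eq_fintype_card, Fintype.card_subtype]
      push Not at hex
      have : (Finset.univ.filter fun ab : Bool × Bool => ab.1 ≤ ab.2 ∧ ∀ ℓ, h ℓ ≤ ab.2) =
          {(false, false), (false, true), (true, true)} := by
        ext ⟨a, b⟩
        simp only [Finset.mem_filter, Finset.mem_univ, true_and, Finset.mem_insert,
          Finset.mem_singleton, Prod.mk.injEq]
        have h2 : ∀ ℓ, h ℓ ≤ b := by
          intro ℓ
          rw [Bool.eq_false_of_not_eq_true (hex ℓ)]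
          exact Bool.false_le _
        cases a <;> cases b <;> simp [h2]
      rw [this]
      rfl
  congr 1
  · rw [Fintype.prod_prod_type]
    simp only [hb]
    rw [Finset.prod_congr rfl (fun ℓ _ => by
      rw [Finset.prod_const, Finset.card_univ, Fintype.card_fin])]
    rw [Finset.prod_pow, Finset.prod_ite]
    simp only [Finset.prod_const, one_pow, mul_one]
    rw [← pow_mul, mul_comm, zf]
  · have hq : ∀ x : C, Nat.card {b : Bool // ∀ ℓ, mem ℓ x → h ℓ ≤ b} =
        if (∀ ℓ, mem ℓ x → h ℓ = false) then 2 else 1 := by
      intro x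
      by_cases hx : ∀ ℓ, mem ℓ x → h ℓ = false
      · rw [if_pos hx, Nat.card_eq_fintype_card, Fintype.card_subtype]
        have : (Finset.univ.filter fun b : Bool => ∀ ℓ, mem ℓ x → h ℓ ≤ b) = Finset.univ := by
          ext b
          simp only [Finset.mem_filter, Finset.mem_univ, true_and, iff_true]
          intro ℓ hℓ
          rw [hx ℓ hℓ]
          exact Bool.false_le _
        rw [this]
        rfl
      · rw [if_neg hx, Nat.card_eq_fintype_card, Fintype.card_subtype]
        have : (Finset.univ.filter fun b : Bool => ∀ ℓ, mem ℓ x → h ℓ ≤ b) = {true} := by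
          ext b
          simp only [Finset.mem_filter, Finset.mem_univ, true_and, Finset.mem_singleton]
          push Not at hx
          obtain ⟨ℓ, hℓ, hℓ'⟩ := hx
          constructor
          · intro hb
            have h3 := hb ℓ hℓ
            cases b
            · exact absurd h3 (by
                rw [Bool.eq_true_of_not_eq_false hℓ']
                decide)
            · rfl
          · rintro rfl
            exact fun ℓ _ => Bool.le_true _
        rw [this]
        rfl
    rw [Fintype.prod_prod_type]
    simp only [hq]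
    rw [Finset.prod_congr rfl (fun ℓ _ => by
      rw [Finset.prod_const, Finset.card_univ, Fintype.card_fin])]
    rw [Finset.prod_pow, Finset.prod_ite]
    simp only [Finset.prod_const, one_pow, mul_one]
    rw [← pow_mul, mul_comm, uf]

/-! ### Satisfying assignments -/

/-- The assignment `α` satisfies every clause. -/
def Sat (α : V → Bool) : Prop := ∀ c, ∃ ℓ, mem ℓ c ∧ α ℓ.1 = ℓ.2

theorem zf_eq (h : Lit V → Bool) :
    zf h = ∑ v : V, ((if h (v, true) = false then 1 else 0) +
      (if h (v, false) = false then 1 else 0)) := by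
  unfold zf
  rw [Finset.card_filter, Fintype.sum_prod_type]
  apply Finset.sum_congr rfl
  intro v _
  rw [Fintype.sum_bool]

theorem uf_eq_zero_iff (h : Lit V → Bool) :
    uf mem h = 0 ↔ ∀ c, ∃ ℓ, mem ℓ c ∧ h ℓ = true := by
  classical
  unfold uf
  rw [Finset.card_eq_zero, Finset.filter_eq_empty_iff]
  constructor
  · intro hall c
    have := hall (Finset.mem_univ c)
    push Not at this
    obtain ⟨ℓ, h1, h2⟩ := this
    exact ⟨ℓ, h1, Bool.eq_true_of_not_eq_false h2⟩
  · intro hall c _ hc
    obtain ⟨ℓ, h1, h2⟩ := hall c
    rw [hc ℓ h1] at h2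
    cases h2

variable {mem}

theorem one_true (hpair : ∀ v : V, ∃ c : C, ∀ ℓ, mem ℓ c → ℓ.1 = v) {h : Lit V → Bool}
    (hu : uf mem h = 0) (v : V) : h (v, true) = true ∨ h (v, false) = true := by
  obtain ⟨c, hc⟩ := hpair v
  obtain ⟨⟨v', b⟩, h1, h2⟩ := (uf_eq_zero_iff mem h).1 hu c
  have : v' = v := hc _ h1
  subst this
  cases b
  · exact Or.inr h2
  · exact Or.inl h2

theorem summand_le (hpair : ∀ v : V, ∃ c : C, ∀ ℓ, mem ℓ c → ℓ.1 = v) {h : Lit V → Bool}
    (hu : uf mem h = 0) (v : V) : ((if h (v, true) = false then 1 else 0) +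
      (if h (v, false) = false then 1 else 0)) ≤ 1 := by
  rcases one_true hpair hu v with h1 | h1
  · rw [h1]; simp; split_ifs <;> simp
  · rw [h1]; simp; split_ifs <;> simp

theorem zf_le (hpair : ∀ v : V, ∃ c : C, ∀ ℓ, mem ℓ c → ℓ.1 = v) {h : Lit V → Bool}
    (hu : uf mem h = 0) : zf h ≤ Fintype.card V := by
  rw [zf_eq]
  calc _ ≤ ∑ v : V, 1 := Finset.sum_le_sum fun v _ => summand_le hpair hu v
    _ = _ := by simp

/-- Satisfying assignments correspond to maps of the literals with no violated clause and exactly
`|V|` false literals. -/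
theorem card_sat (hpair : ∀ v : V, ∃ c : C, ∀ ℓ, mem ℓ c → ℓ.1 = v) :
    Nat.card {h : Lit V → Bool // uf mem h = 0 ∧ zf h = Fintype.card V} =
      Nat.card {α : V → Bool // Sat mem α} := by
  classical
  have hone : ∀ h : Lit V → Bool, uf mem h = 0 → zf h = Fintype.card V → ∀ v,
      h (v, false) = !h (v, true) := by
    intro h hu hz v
    rw [zf_eq] at hz
    have h1 : ∑ v : V, ((if h (v, true) = false then 1 else 0) +
      (if h (v, false) = false then 1 else 0)) = ∑ v : V, 1 := by
      rw [hz]; simp
    rw [Finset.sum_eq_sum_iff_of_le (fun v _ => summand_le hpair hu v)] at h1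
    have h2 := h1 v (Finset.mem_univ v)
    cases h3 : h (v, true) <;> cases h4 : h (v, false) <;> simp [h3, h4] at h2 ⊢
  refine Nat.card_congr
    { toFun := fun h => ⟨fun v => h.1 (v, true), ?_⟩
      invFun := fun α => ⟨fun ℓ => decide (α.1 ℓ.1 = ℓ.2), ?_, ?_⟩
      left_inv := ?_
      right_inv := ?_ }
  · intro c
    obtain ⟨⟨v, b⟩, h1, h2⟩ := (uf_eq_zero_iff mem h.1).1 h.2.1 c
    refine ⟨(v, b), h1, ?_⟩
    cases b
    · have := hone h.1 h.2.1 h.2.2 v
      rw [h2] at this
      simpa using this.symm
    · exact h2
  · rw [uf_eq_zero_iff]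
    intro c
    obtain ⟨ℓ, h1, h2⟩ := α.2 c
    exact ⟨ℓ, h1, by simpa using h2⟩
  · rw [zf_eq]
    have : ∀ v : V, ((if decide (α.1 v = true) = false then 1 else 0) +
        (if decide (α.1 v = false) = false then 1 else 0)) = 1 := by
      intro v
      cases α.1 v <;> simp
    rw [Finset.sum_congr rfl (fun v _ => this v)]
    simp
  · intro h
    apply Subtype.ext
    funext ⟨v, b⟩
    have := hone h.1 h.2.1 h.2.2 v
    cases b
    · change decide (h.1 (v, true) = false) = h.1 (v, false)
      rw [this]
      cases h.1 (v, true) <;> rfl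
    · change decide (h.1 (v, true) = true) = h.1 (v, true)
      cases h.1 (v, true) <;> rfl
  · intro α
    apply Subtype.ext
    funext v
    change decide (α.1 v = true) = α.1 v
    cases α.1 v <;> rfl

theorem card_sat_le : Nat.card {α : V → Bool // Sat mem α} ≤ 2 ^ Fintype.card V := by
  classical
  calc Nat.card {α : V → Bool // Sat mem α} ≤ Nat.card (V → Bool) :=
        Nat.card_le_card_of_injective _ Subtype.val_injective
    _ = _ := by simp

theorem digits [Nonempty C] (hpair : ∀ v : V, ∃ c : C, ∀ ℓ, mem ℓ c → ℓ.1 = v)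
    (hs : 2 * Fintype.card V < s) :
    ∃ low high, ∑ h : Lit V → Bool, wt mem s k h =
      2 ^ (s * Fintype.card V + 1) * Nat.card {α : V → Bool // Sat mem α} + low + 2 ^ k * high ∧
      low < 2 ^ (s * Fintype.card V + 1) := by
  classical
  set n := Fintype.card V with hn
  have hw2 : ∀ h : Lit V → Bool, uf mem h = 0 → wt mem s k h = 2 * 2 ^ (s * zf h) := by
    intro h hu
    obtain ⟨c⟩ := ‹Nonempty C›
    obtain ⟨ℓ, _, h2⟩ := (uf_eq_zero_iff mem h).1 hu c
    unfold wt
    rw [if_pos ⟨ℓ, h2⟩, hu]
    simp
  -- splitting the sum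
  have hsplit := Finset.sum_filter_add_sum_filter_not (Finset.univ : Finset (Lit V → Bool))
    (fun h => uf mem h = 0) (wt mem s k)
  have hsplit2 := Finset.sum_filter_add_sum_filter_not
    ((Finset.univ : Finset (Lit V → Bool)).filter fun h => uf mem h = 0)
    (fun h => zf h = n) (wt mem s k)
  rw [Finset.filter_filter, Finset.filter_filter] at hsplit2
  have hA : ∑ h ∈ (Finset.univ : Finset (Lit V → Bool)).filter
      (fun h => uf mem h = 0 ∧ zf h = n), wt mem s k h =
      2 ^ (s * n + 1) * Nat.card {α : V → Bool // Sat mem α} := by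
    have hall : ∀ h ∈ (Finset.univ : Finset (Lit V → Bool)).filter
        (fun h => uf mem h = 0 ∧ zf h = n), wt mem s k h = 2 * 2 ^ (s * n) := by
      intro h hh
      rw [Finset.mem_filter] at hh
      rw [hw2 h hh.2.1, hh.2.2]
    rw [Finset.sum_congr rfl hall]
    rw [Finset.sum_const, smul_eq_mul, ← card_sat hpair, ← hn]
    rw [Nat.card_eq_fintype_card, Fintype.card_subtype]
    rw [pow_succ]
    ring
  have hdvd : 2 ^ k ∣ ∑ h ∈ (Finset.univ : Finset (Lit V → Bool)).filter
      (fun h => ¬ uf mem h = 0), wt mem s k h := by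
    apply Finset.dvd_sum
    intro h hh
    rw [Finset.mem_filter] at hh
    obtain ⟨m, hm⟩ := Nat.exists_eq_succ_of_ne_zero hh.2
    unfold wt
    rw [hm]
    refine Dvd.dvd.mul_left (Dvd.dvd.mul_left ?_ _) _
    rw [Nat.mul_succ]
    exact pow_dvd_pow 2 (Nat.le_add_left _ _)
  obtain ⟨high, hhigh⟩ := hdvd
  refine ⟨∑ h ∈ (Finset.univ : Finset (Lit V → Bool)).filter
      (fun h => uf mem h = 0 ∧ ¬ zf h = n), wt mem s k h, high, ?_, ?_⟩
  · rw [← hsplit, ← hsplit2, hA, hhigh]
  · rcases Nat.eq_zero_or_pos n with h0 | hpos
    · have hempty : (Finset.univ : Finset (Lit V → Bool)).filter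
          (fun h => uf mem h = 0 ∧ ¬ zf h = n) = ∅ := by
        rw [Finset.filter_eq_empty_iff]
        rintro h _ ⟨hu, hz⟩
        have := zf_le hpair hu
        omega
      rw [hempty, Finset.sum_empty]
      positivity
    · calc ∑ h ∈ (Finset.univ : Finset (Lit V → Bool)).filter
            (fun h => uf mem h = 0 ∧ ¬ zf h = n), wt mem s k h
          ≤ ∑ h ∈ (Finset.univ : Finset (Lit V → Bool)).filter
            (fun h => uf mem h = 0 ∧ ¬ zf h = n), 2 * 2 ^ (s * (n - 1)) := by
            apply Finset.sum_le_sum
            intro h hh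
            rw [Finset.mem_filter] at hh
            rw [hw2 h hh.2.1]
            have := zf_le hpair hh.2.1
            have h3 : zf h ≤ n - 1 := by omega
            exact Nat.mul_le_mul_left _ (Nat.pow_le_pow_right (by norm_num)
              (Nat.mul_le_mul_left _ h3))
        _ ≤ ∑ h : Lit V → Bool, 2 * 2 ^ (s * (n - 1)) :=
            Finset.sum_le_sum_of_subset (Finset.filter_subset _ _)
        _ = 2 ^ (2 * n) * (2 * 2 ^ (s * (n - 1))) := by
            rw [Finset.sum_const, smul_eq_mul, Finset.card_univ, Fintype.card_fun,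
              Fintype.card_prod, Fintype.card_bool, ← hn, Nat.mul_comm n 2]
        _ = 2 ^ (2 * n + 1 + s * (n - 1)) := by
            rw [pow_add, pow_succ]; ring
        _ < 2 ^ (s * n + 1) := by
            apply Nat.pow_lt_pow_right (by norm_num)
            obtain ⟨m, hm⟩ : ∃ m, n = m + 1 := ⟨n - 1, by omega⟩
            have h5 : s * n = s * (n - 1) + s := by
              rw [hm, Nat.add_sub_cancel, Nat.mul_add, Nat.mul_one]
            omega

theorem arith (t s n k M S low high E : ℕ) (hM : M < 2 ^ t) (hlow : low < 2 ^ (s * n + 1))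
    (hS : S < 2 ^ (s - 1)) (hk : s * n + s ≤ k) (ht : s * n + s ≤ t) (hs : 1 ≤ s) :
    ((M + 2 ^ t * (2 ^ (s * n + 1) * S + low + 2 ^ k * high) + 4 ^ t * E) /
      2 ^ (t + s * n + 1)) % 2 ^ (s - 1) = S := by
  obtain ⟨k', hk'⟩ := Nat.exists_eq_add_of_le hk
  obtain ⟨t', ht'⟩ := Nat.exists_eq_add_of_le ht
  have e1 : (2 : ℕ) ^ k = 2 ^ (s * n + 1) * 2 ^ (s - 1) * 2 ^ k' := by
    rw [← pow_add, ← pow_add]
    congr 1
    omega
  have e2 : (2 : ℕ) ^ t = 2 ^ (s * n + 1) * 2 ^ (s - 1) * 2 ^ t' := by
    rw [← pow_add, ← pow_add]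
    congr 1
    omega
  have e3 : (4 : ℕ) ^ t = 2 ^ t * 2 ^ t := by
    rw [← mul_pow]; norm_num
  have e4 : (2 : ℕ) ^ (t + s * n + 1) = 2 ^ t * 2 ^ (s * n + 1) := by
    rw [← pow_add]; congr 1
  have e5 : M + 2 ^ t * (2 ^ (s * n + 1) * S + low + 2 ^ k * high) + 4 ^ t * E =
      M + 2 ^ t * (low + 2 ^ (s * n + 1) * (S + 2 ^ (s - 1) * (2 ^ k' * high + 2 ^ t' * E))) := by
    rw [e3, e1]
    have : 2 ^ t * 2 ^ t * E = 2 ^ t * (2 ^ (s * n + 1) * 2 ^ (s - 1) * 2 ^ t') * E := by
      rw [← e2]
    rw [this]
    ring
  rw [e5, e4, ← Nat.div_div_eq_div_mul, Nat.add_mul_div_left _ _ (by positivity),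
    Nat.div_eq_of_lt hM, Nat.zero_add, Nat.add_mul_div_left _ _ (by positivity),
    Nat.div_eq_of_lt hlow, Nat.zero_add, Nat.add_mul_mod_self_left, Nat.mod_eq_of_lt hS]

variable (mem)

theorem card_mono_eq (hs : s % 4 = 2) (hk : 4 ∣ k) (hQ : 4 ∣ Fintype.card (QQ V C s k t)) :
    ∃ E, Nat.card {f : QQ V C s k t → QQ V C s k t // MonoQ mem f} =
      (1 + 2 * Fintype.card V * s + Fintype.card C * k + t) +
        2 ^ t * (∑ h : Lit V → Bool, wt mem s k h) + 4 ^ t * E := by
  classical
  rw [card_mono]
  rw [Fintype.sum_option, Fintype.sum_sum_type, Fintype.sum_sum_type, Fintype.sum_sum_type,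
    Fintype.sum_sum_type]
  -- bottom
  have hbot : Nat.card {y : QQ V C s k t // leQ mem none y} = Fintype.card (QQ V C s k t) := by
    rw [Nat.card_eq_fintype_card, Fintype.card_subtype]
    have : (Finset.univ.filter fun y : QQ V C s k t => leQ mem none y) = Finset.univ := by
      ext y
      exact ⟨fun _ => Finset.mem_univ y, fun _ => Finset.mem_filter.2 ⟨Finset.mem_univ y, trivial⟩⟩
    rw [this, Finset.card_univ]
  obtain ⟨q, hq⟩ := hQ
  have h4 : ∀ m, 4 ∣ m → ∃ m', m ^ t = 4 ^ t * m' := by
    rintro m ⟨m', rfl⟩
    exact ⟨m' ^ t, by rw [mul_pow]⟩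
  rw [hbot, hq]
  have hA : ∑ x : Bool, Nat.card {g : Base V C s k → QQ V C s k t //
      HomAbove mem (some (.inl (.inl x))) g} *
      Nat.card {y : QQ V C s k t // leQ mem (some (.inl (.inl x))) y} ^ t =
      1 + 2 ^ t * ∑ h : Lit V → Bool, wt mem s k h := by
    rw [Fintype.sum_bool, card_above_a, card_homAbove_a, card_homBool,
      term_maximal mem (some (.inl (.inl true)))]
    · ring
    · rintro (_ | ((b | (x | (x | x))) | i)) h
      · exact h.elim
      · rcases h with h | h
        · rw [← h]
        · cases b <;> exact h.elim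
      · rcases h with h | h
        · cases h
        · exact h.elim
      · rcases h with h | h
        · cases h
        · exact h.elim
      · rcases h with h | h
        · cases h
        · exact h.elim
      · exact h.elim
  have hP : ∑ x : Lit V × Fin s, Nat.card {g : Base V C s k → QQ V C s k t //
      HomAbove mem (some (.inl (.inr (.inr (.inl x))))) g} *
      Nat.card {y : QQ V C s k t // leQ mem (some (.inl (.inr (.inr (.inl x))))) y} ^ t =
      2 * Fintype.card V * s := by
    rw [Finset.sum_congr rfl (fun x _ => term_maximal mem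
      (some (.inl (.inr (.inr (.inl x)))) : QQ V C s k t) (by
        rintro (_ | ((b | (y | (y | y))) | i)) h
        · exact h.elim
        · rcases h with h | h
          · cases h
          · cases b <;> exact h.elim
        · rcases h with h | h
          · cases h
          · exact h.elim
        · rcases h with h | h
          · rw [← h]
          · exact h.elim
        · rcases h with h | h
          · cases h
          · exact h.elim
        · exact h.elim))]
    rw [Finset.sum_const, Finset.card_univ, Fintype.card_prod, Fintype.card_prod,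
      Fintype.card_bool, Fintype.card_fin, smul_eq_mul]
    ring
  have hC : ∑ x : C × Fin k, Nat.card {g : Base V C s k → QQ V C s k t //
      HomAbove mem (some (.inl (.inr (.inr (.inr x))))) g} *
      Nat.card {y : QQ V C s k t // leQ mem (some (.inl (.inr (.inr (.inr x))))) y} ^ t =
      Fintype.card C * k := by
    rw [Finset.sum_congr rfl (fun x _ => term_maximal mem
      (some (.inl (.inr (.inr (.inr x)))) : QQ V C s k t) (by
        rintro (_ | ((b | (y | (y | y))) | i)) h
        · exact h.elim
        · rcases h with h | h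
          · cases h
          · cases b <;> exact h.elim
        · rcases h with h | h
          · cases h
          · exact h.elim
        · rcases h with h | h
          · cases h
          · exact h.elim
        · rcases h with h | h
          · rw [← h]
          · exact h.elim
        · exact h.elim))]
    rw [Finset.sum_const, Finset.card_univ, Fintype.card_prod, Fintype.card_fin, smul_eq_mul]
    ring
  have hF : ∑ x : Fin t, Nat.card {g : Base V C s k → QQ V C s k t //
      HomAbove mem (some (.inr x)) g} *
      Nat.card {y : QQ V C s k t // leQ mem (some (.inr x)) y} ^ t = t := by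
    rw [Finset.sum_congr rfl (fun x _ => term_maximal mem (some (.inr x) : QQ V C s k t) (by
        rintro (_ | (y | i)) h
        · exact h.elim
        · exact h.elim
        · have : x = i := h
          rw [this]))]
    rw [Finset.sum_const, Finset.card_univ, Fintype.card_fin, smul_eq_mul, mul_one]
  have hL : ∃ EL, ∑ x : Lit V, Nat.card {g : Base V C s k → QQ V C s k t //
      HomAbove mem (some (.inl (.inr (.inl x)))) g} *
      Nat.card {y : QQ V C s k t // leQ mem (some (.inl (.inr (.inl x)))) y} ^ t = 4 ^ t * EL := by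
    apply Finset.dvd_sum
    intro x _
    obtain ⟨m', hm'⟩ := h4 _ (card_above_lit (t := t) mem hs hk x)
    rw [hm']
    exact Dvd.dvd.mul_left (Dvd.intro _ rfl) _
  obtain ⟨EL, hEL⟩ := hL
  rw [hA, hP, hC, hF, hEL, mul_pow]
  refine ⟨Nat.card {g : Base V C s k → QQ V C s k t // HomAbove mem none g} * q ^ t + EL, ?_⟩
  ring

variable {mem}

/-- **The number of satisfying assignments is a block of binary digits of the number of
order-preserving self-maps.** -/
theorem extract [Nonempty C] (hpair : ∀ v : V, ∃ c : C, ∀ ℓ, mem ℓ c → ℓ.1 = v)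
    (hs : s % 4 = 2) (hk : 4 ∣ k) (hQ : 4 ∣ Fintype.card (QQ V C s k t))
    (hs2 : 2 * Fintype.card V + 1 < s) (hk2 : s * Fintype.card V + s ≤ k)
    (ht2 : s * Fintype.card V + s ≤ t)
    (hM : 1 + 2 * Fintype.card V * s + Fintype.card C * k + t < 2 ^ t) :
    (Nat.card {f : QQ V C s k t → QQ V C s k t // MonoQ mem f} /
      2 ^ (t + s * Fintype.card V + 1)) % 2 ^ (s - 1) =
        Nat.card {α : V → Bool // Sat mem α} := by
  obtain ⟨E, hE⟩ := card_mono_eq (t := t) mem hs hk hQ
  obtain ⟨low, high, h1, h2⟩ := digits (s := s) (k := k) hpair (by omega)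
  rw [hE, h1]
  apply arith _ _ _ _ _ _ _ _ _ hM h2 _ hk2 ht2 (by omega)
  calc Nat.card {α : V → Bool // Sat mem α} ≤ 2 ^ Fintype.card V := card_sat_le
    _ < 2 ^ (s - 1) := Nat.pow_lt_pow_right (by norm_num) (by omega)

end Count

end Pool.Agent.Helper96
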