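import Pool.Agent.Helper96.NatBits

/-!
# The problem COUNT-END and its membership in #P
-/

set_option autoImplicit false

namespace Pool.Agent.Helper96

open Classical

/-- A finite partially ordered set with underlying set `Fin n`. -/
structure FinPoset where
  /-- the number of elements -/
  n : ℕ
  /-- the partial order -/
  po : PartialOrder (Fin n)

/-- The `n × n` 0/1 matrix of the order relation, in row-major order. -/
noncomputable def FinPoset.encode (P : FinPoset) : List Bool :=
  List.ofFn fun z : Fin (P.n * P.n) => decide (P.po.le z.divNat z.modNat)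

/-- The number of order-preserving self-maps. -/
noncomputable def FinPoset.endCount (P : FinPoset) : ℕ :=
  letI := P.po
  Nat.card (Fin P.n →o Fin P.n)

/-- **COUNT-END**: the input is (the matrix of) a finite poset, the output the number of its
order-preserving self-maps; strings which do not encode a poset are mapped to `0`. -/
noncomputable def countEnd (x : List Bool) : ℕ :=
  if h : ∃ P : FinPoset, P.encode = x then h.choose.endCount else 0

/-- Entry `(i, j)` of the `n × n` matrix `x` is `1`. -/
def relS (n : ℕ) (x : List Bool) (i j : ℕ) : Prop := x[i * n + j]? = some true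

theorem bool_list_ext {a b : List Bool} (hl : a.length = b.length)
    (h : ∀ i < a.length, (a[i]? = some true ↔ b[i]? = some true)) : a = b := by
  apply List.ext_getElem? 
  intro i
  by_cases hi : i < a.length
  · have hi' : i < b.length := hl ▸ hi
    have := h i hi
    rw [List.getElem?_eq_getElem hi, List.getElem?_eq_getElem hi'] at this ⊢
    cases ha : a[i] <;> cases hb : b[i] <;> simp_all
  · rw [List.getElem?_eq_none (by omega), List.getElem?_eq_none (by omega)]

theorem index_lt {n i j : ℕ} (hi : i < n) (hj : j < n) : i * n + j < n * n := by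
  have : (i + 1) * n ≤ n * n := Nat.mul_le_mul_right n hi
  rw [Nat.add_mul] at this
  omega

theorem index_div {n i j : ℕ} (hj : j < n) : (i * n + j) / n = i := by
  rw [Nat.mul_comm, Nat.mul_add_div (by omega), Nat.div_eq_of_lt hj, Nat.add_zero]

theorem index_mod {n i j : ℕ} (hj : j < n) : (i * n + j) % n = j := by
  rw [Nat.mul_comm, Nat.mul_add_mod, Nat.mod_eq_of_lt hj]

theorem index_eq {n z : ℕ} : z / n * n + z % n = z := by
  have := Nat.div_add_mod z n
  rw [Nat.mul_comm] at this
  exact this

theorem length_encode (P : FinPoset) : P.encode.length = P.n * P.n := by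
  simp [FinPoset.encode]

theorem relS_encode (P : FinPoset) (i j : Fin P.n) :
    relS P.n P.encode i.val j.val ↔ P.po.le i j := by
  unfold relS FinPoset.encode
  have hz : i.val * P.n + j.val < P.n * P.n := index_lt i.2 j.2
  rw [List.getElem?_ofFn, dif_pos hz]
  have h1 : (⟨i.val * P.n + j.val, hz⟩ : Fin (P.n * P.n)).divNat = i :=
    Fin.ext (index_div j.2)
  have h2 : (⟨i.val * P.n + j.val, hz⟩ : Fin (P.n * P.n)).modNat = j :=
    Fin.ext (index_mod j.2)
  rw [h1, h2]
  simp

/-- The string `x` is the matrix of a partial order on `Fin n`. -/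
structure IsPos (n : ℕ) (x : List Bool) : Prop where
  length : n * n = x.length
  refl : ∀ i < n, relS n x i i
  antisymm : ∀ i < n, ∀ j < n, relS n x i j → relS n x j i → i = j
  trans : ∀ i < n, ∀ j < n, ∀ l < n, relS n x i j → relS n x j l → relS n x i l

theorem isPos_encode (P : FinPoset) : IsPos P.n P.encode where
  length := (length_encode P).symm
  refl i hi := (relS_encode P ⟨i, hi⟩ ⟨i, hi⟩).2 (P.po.le_refl _)
  antisymm i hi j hj h1 h2 := by
    have h3 := (relS_encode P ⟨i, hi⟩ ⟨j, hj⟩).1 h1
    have h4 := (relS_encode P ⟨j, hj⟩ ⟨i, hi⟩).1 h2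
    exact congrArg Fin.val (P.po.le_antisymm _ _ h3 h4)
  trans i hi j hj l hl h1 h2 := by
    have h3 := (relS_encode P ⟨i, hi⟩ ⟨j, hj⟩).1 h1
    have h4 := (relS_encode P ⟨j, hj⟩ ⟨l, hl⟩).1 h2
    exact (relS_encode P ⟨i, hi⟩ ⟨l, hl⟩).2 (P.po.le_trans _ _ _ h3 h4)

/-- The poset encoded by a string. -/
def IsPos.toFinPoset {n : ℕ} {x : List Bool} (h : IsPos n x) : FinPoset where
  n := n
  po :=
    { le := fun i j => relS n x i.val j.val
      lt := fun i j => relS n x i.val j.val ∧ ¬ relS n x j.val i.val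
      lt_iff_le_not_ge := fun _ _ => Iff.rfl
      le_refl := fun i => h.refl i.val i.2
      le_trans := fun i j l h1 h2 => h.trans i.val i.2 j.val j.2 l.val l.2 h1 h2
      le_antisymm := fun i j h1 h2 => Fin.ext (h.antisymm i.val i.2 j.val j.2 h1 h2) }

theorem IsPos.encode_toFinPoset {n : ℕ} {x : List Bool} (h : IsPos n x) :
    h.toFinPoset.encode = x := by
  apply bool_list_ext
  · rw [length_encode]; exact h.length
  · intro z hz
    rw [length_encode] at hz
    have hz' : z < n * n := hz
    have hn : 0 < n := Nat.pos_of_ne_zero (by rintro rfl; simp at hz')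
    have h1 : z / n < n := Nat.div_lt_of_lt_mul hz'
    have h2 : z % n < n := Nat.mod_lt _ hn
    have h3 := relS_encode h.toFinPoset ⟨z / n, h1⟩ ⟨z % n, h2⟩
    unfold relS at h3
    have h4 : (z / n) * n + z % n = z := index_eq
    change h.toFinPoset.encode[(z / n) * n + z % n]? = some true ↔
      x[(z / n) * n + z % n]? = some true at h3
    rw [h4] at h3
    exact h3

theorem sq_inj {a b : ℕ} (h : a * a = b * b) : a = b :=
  (Nat.mul_self_inj).1 h

theorem encode_injective {P Q : FinPoset} (h : P.encode = Q.encode) : P = Q := by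
  have hn : P.n = Q.n := sq_inj (by rw [← length_encode, ← length_encode, h])
  obtain ⟨n, po⟩ := P
  obtain ⟨n', po'⟩ := Q
  simp only at hn
  subst hn
  congr 1
  apply PartialOrder.ext
  intro i j
  have h1 := relS_encode ⟨n, po⟩ i j
  have h2 := relS_encode ⟨n, po'⟩ i j
  rw [h] at h1
  exact h1.symm.trans h2

theorem countEnd_encode (P : FinPoset) : countEnd P.encode = P.endCount := by
  have h : ∃ Q : FinPoset, Q.encode = P.encode := ⟨P, rfl⟩
  unfold countEnd
  rw [dif_pos h, encode_injective h.choose_spec]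

theorem endCount_eq (P : FinPoset) : P.endCount =
    Nat.card {f : Fin P.n → Fin P.n // ∀ i j, relS P.n P.encode i.val j.val →
      relS P.n P.encode (f i).val (f j).val} := by
  unfold FinPoset.endCount
  let _ := P.po
  refine Nat.card_congr ⟨fun f => ⟨f, fun i j h => ?_⟩, fun f => ⟨f.1, fun i j h => ?_⟩,
    fun f => rfl, fun f => rfl⟩
  · rw [relS_encode] at h ⊢
    exact f.monotone h
  · have h1 := (relS_encode P i j).2 h
    exact (relS_encode P _ _).1 (f.2 i j h1)

/-- The string `y` is the matrix of (the graph of) an order-preserving self-map. -/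
structure IsWit (n : ℕ) (x y : List Bool) : Prop where
  fn : ∀ i < n, ∃ j < n, relS n y i j ∧ ∀ j' < n, relS n y i j' → j' = j
  mono : ∀ i < n, ∀ j < n, ∀ i' < n, ∀ j' < n, relS n x i j → relS n y i i' → relS n y j j' →
    relS n x i' j'

/-- The matrix of a map. -/
noncomputable def graphStr (n : ℕ) (f : Fin n → Fin n) : List Bool :=
  bits (n * n) fun z => ∃ i j : Fin n, z = i.val * n + j.val ∧ f i = j

theorem relS_graphStr (n : ℕ) (f : Fin n → Fin n) (i j : Fin n) :
    relS n (graphStr n f) i.val j.val ↔ f i = j := by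
  unfold relS graphStr
  rw [getElem?_bits]
  constructor
  · rintro ⟨-, i', j', h1, h2⟩
    have h3 : i = i' := Fin.ext (by
      rw [← index_div (n := n) (i := i.val) j.2, h1, index_div j'.2])
    have h4 : j = j' := Fin.ext (by
      rw [← index_mod (n := n) (i := i.val) j.2, h1, index_mod j'.2])
    rw [h3, h4, h2]
  · intro h
    exact ⟨index_lt i.2 j.2, i, j, rfl, h⟩

theorem card_wit (n : ℕ) (x : List Bool) (hx : n * n = x.length) :
    Nat.card {f : Fin n → Fin n // ∀ i j, relS n x i.val j.val →
      relS n x (f i).val (f j).val} =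
    Nat.card {y : List Bool // y.length = x.length ∧ IsWit n x y} := by
  refine Nat.card_congr (Equiv.ofBijective (fun f => ⟨graphStr n f.1, ?_, ?_, ?_⟩) ⟨?_, ?_⟩)
  · rw [graphStr, length_bits, hx]
  · intro i hi
    refine ⟨(f.1 ⟨i, hi⟩).val, Fin.isLt _, (relS_graphStr n f.1 ⟨i, hi⟩ _).2 rfl, ?_⟩
    intro j' hj' h
    have := (relS_graphStr n f.1 ⟨i, hi⟩ ⟨j', hj'⟩).1 h
    rw [this]
  · intro i hi j hj i' hi' j' hj' h1 h2 h3
    have h4 := (relS_graphStr n f.1 ⟨i, hi⟩ ⟨i', hi'⟩).1 h2
    have h5 := (relS_graphStr n f.1 ⟨j, hj⟩ ⟨j', hj'⟩).1 h3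
    have h6 := f.2 ⟨i, hi⟩ ⟨j, hj⟩ h1
    rw [h4, h5] at h6
    exact h6
  · intro f g h
    apply Subtype.ext
    funext i
    have h1 : graphStr n f.1 = graphStr n g.1 := congrArg Subtype.val h
    have h2 := (relS_graphStr n f.1 i (f.1 i)).2 rfl
    rw [h1] at h2
    exact ((relS_graphStr n g.1 i (f.1 i)).1 h2).symm
  · rintro ⟨y, hy, hfn, hmono⟩
    have hfn' : ∀ i : Fin n, ∃ j : Fin n, relS n y i.val j.val ∧
        ∀ j' : Fin n, relS n y i.val j'.val → j' = j := by
      intro i
      obtain ⟨j, hj, h1, h2⟩ := hfn i.val i.2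
      exact ⟨⟨j, hj⟩, h1, fun j' h => Fin.ext (h2 j'.val j'.2 h)⟩
    choose f hf1 hf2 using hfn'
    refine ⟨⟨f, fun i j h => hmono _ i.2 _ j.2 _ (f i).2 _ (f j).2 h (hf1 i) (hf1 j)⟩, ?_⟩
    apply Subtype.ext
    change graphStr n f = y
    apply bool_list_ext
    · rw [graphStr, length_bits, hy, hx]
    · intro z hz
      have hz' : z < n * n := by rwa [graphStr, length_bits] at hz
      have hn : 0 < n := Nat.pos_of_ne_zero (by rintro rfl; simp at hz')
      have h1 : z / n < n := Nat.div_lt_of_lt_mul hz'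
      have h2 : z % n < n := Nat.mod_lt _ hn
      have h3 := relS_graphStr n f ⟨z / n, h1⟩ ⟨z % n, h2⟩
      unfold relS at h3
      have h4 : (z / n) * n + z % n = z := index_eq
      simp only [h4] at h3
      rw [h3]
      constructor
      · intro h
        have h5 := hf1 ⟨z / n, h1⟩
        rw [h] at h5
        unfold relS at h5
        simp only [h4] at h5
        exact h5
      · intro h
        refine (hf2 ⟨z / n, h1⟩ ⟨z % n, h2⟩ ?_).symm
        unfold relS
        simp only [h4]
        exact h

/-- The witness predicate of COUNT-END. -/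
def endPred (X : Inp) : Prop := ∃ n < (X false).length + 1, n * n = (X false).length ∧
  (∀ i < n, relS n (X false) i i) ∧
  (∀ i < n, ∀ j < n, relS n (X false) i j → relS n (X false) j i → i = j) ∧
  (∀ i < n, ∀ j < n, ∀ l < n, relS n (X false) i j → relS n (X false) j l →
    relS n (X false) i l) ∧
  (∀ i < n, ∃ j < n, relS n (X true) i j ∧ ∀ j' < n, relS n (X true) i j' → j' = j) ∧
  (∀ i < n, ∀ j < n, ∀ i' < n, ∀ j' < n, relS n (X false) i j → relS n (X true) i i' →
    relS n (X true) j j' → relS n (X false) i' j')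

theorem defP_rel (c : Bool) (a i j : ℕ) : DefP fun X v => relS (v a) (X c) (v i) (v j) :=
  DefP.bit c (((Def.var i).mul (Def.var a)).add (Def.var j))

theorem defP_endPred : DefP fun X _ => endPred X := by
  have hlen : Def fun X _ => (X false).length := Def.len false
  have v0 := Def.var 0
  have h1 := DefP.eq (v0.mul v0) hlen
  have h2 := DefP.all (Def.var 0) (defP_rel false 1 0 0)
  have h3 := DefP.all (Def.var 0) (DefP.all (Def.var 1) ((defP_rel false 2 1 0).imp
      ((defP_rel false 2 0 1).imp (DefP.eq (Def.var 1) (Def.var 0)))))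
  have h4 := DefP.all (Def.var 0) (DefP.all (Def.var 1) (DefP.all (Def.var 2)
      ((defP_rel false 3 2 1).imp ((defP_rel false 3 1 0).imp (defP_rel false 3 2 0)))))
  have h5 := DefP.all (Def.var 0) (DefP.ex (Def.var 1) ((defP_rel true 2 1 0).and
      (DefP.all (Def.var 2) ((defP_rel true 3 2 0).imp (DefP.eq (Def.var 0) (Def.var 1))))))
  have h6 := DefP.all (Def.var 0) (DefP.all (Def.var 1) (DefP.all (Def.var 2)
      (DefP.all (Def.var 3) ((defP_rel false 4 3 2).imp ((defP_rel true 4 3 1).imp
        ((defP_rel true 4 2 0).imp (defP_rel false 4 1 0)))))))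
  exact (DefP.ex (hlen.add (Def.const 1)) (h1.and (h2.and (h3.and (h4.and (h5.and h6)))))).congr
    fun X v => Iff.rfl

theorem endPred_iff {n : ℕ} {x y : List Bool} (hn : n * n = x.length) :
    endPred (inp2 x y) ↔ IsPos n x ∧ IsWit n x y := by
  unfold endPred
  simp only [inp2_false, inp2_true]
  constructor
  · rintro ⟨n', -, h1, h2, h3, h4, h5, h6⟩
    have : n' = n := sq_inj (h1.trans hn.symm)
    subst this
    exact ⟨⟨h1, h2, h3, h4⟩, ⟨h5, h6⟩⟩
  · rintro ⟨⟨h1, h2, h3, h4⟩, ⟨h5, h6⟩⟩
    refine ⟨n, ?_, h1, h2, h3, h4, h5, h6⟩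
    have : n ≤ n * n := Nat.le_mul_self n
    omega

/-- **COUNT-END is in #P.** -/
theorem countEnd_mem : InSharpP countEnd := by
  refine inSharpP_of_defP Polynomial.X defP_endPred fun x => ?_
  simp only [Polynomial.eval_X]
  by_cases h : ∃ P : FinPoset, P.encode = x
  · obtain ⟨P, rfl⟩ := h
    rw [countEnd_encode, endCount_eq, card_wit P.n P.encode (length_encode P).symm]
    refine Nat.card_congr (Equiv.subtypeEquivRight fun y => ?_)
    rw [endPred_iff (length_encode P).symm]
    exact ⟨fun h => ⟨h.1, isPos_encode P, h.2⟩, fun h => ⟨h.1, h.2.2⟩⟩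
  · unfold countEnd
    rw [dif_neg h]
    symm
    rw [Nat.card_eq_zero]
    left
    constructor
    rintro ⟨y, -, n, hn, h1, h2, h3, h4, -⟩
    exact h ⟨_, (IsPos.encode_toFinPoset (⟨h1, h2, h3, h4⟩ : IsPos n x))⟩

end Pool.Agent.Helper96
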