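import Pool.Agent.Helper96.Complexity

/-!
# Numeric layout of the poset attached to a CNF
-/

set_option autoImplicit false
set_option linter.unusedSectionVars false

namespace Pool.Agent.Helper96

section

variable (n m s k t : ℕ)

/-- Numbering of literals. -/
def litEquiv : Lit (Fin n) ≃ Fin (n * 2) :=
  (Equiv.prodCongr (Equiv.refl _) finTwoEquiv.symm).trans finProdFinEquiv

/-- Numbering of the base. -/
def baseEquiv : Base (Fin n) (Fin m) s k ≃ Fin (2 + (n * 2 + (n * 2 * s + m * k))) :=
  (Equiv.sumCongr finTwoEquiv.symm ((Equiv.sumCongr (litEquiv n)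
    ((Equiv.sumCongr ((Equiv.prodCongr (litEquiv n) (Equiv.refl (Fin s))).trans finProdFinEquiv)
      (finProdFinEquiv (m := m) (n := k))).trans finSumFinEquiv)).trans finSumFinEquiv)).trans
    finSumFinEquiv

/-- Number of elements. -/
def size : ℕ := 3 + n * 2 + n * 2 * s + m * k + t

/-- Numbering of the poset. -/
def posEquiv : QQ (Fin n) (Fin m) s k t ≃ Fin (size n m s k t) :=
  (Equiv.optionCongr ((Equiv.sumCongr (baseEquiv n m s k) (Equiv.refl (Fin t))).trans
    finSumFinEquiv)).trans ((finSuccEquiv _).symm.trans (finCongr (by unfold size; ring)))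

/-- Numeric value of a sign. -/
def sg (b : Bool) : ℕ := if b = true then 1 else 0

theorem sg_lt (b : Bool) : sg b < 2 := by cases b <;> simp [sg]

theorem litEquiv_val (i : Fin n) (b : Bool) : (litEquiv n (i, b)).val = sg b + 2 * i.val := by
  cases b <;> rfl

theorem pos_none : (posEquiv n m s k t none).val = 0 := rfl

theorem pos_bool (b : Bool) : (posEquiv n m s k t (some (.inl (.inl b)))).val = 1 + sg b := by
  cases b <;> rfl

theorem pos_lit (i : Fin n) (b : Bool) :
    (posEquiv n m s k t (some (.inl (.inr (.inl (i, b)))))).val = 3 + (sg b + 2 * i.val) := by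
  have h : (posEquiv n m s k t (some (.inl (.inr (.inl (i, b)))))).val =
    (2 + (litEquiv n (i, b)).val) + 1 := rfl
  rw [h, litEquiv_val]
  omega

theorem pos_pend (i : Fin n) (b : Bool) (j : Fin s) :
    (posEquiv n m s k t (some (.inl (.inr (.inr (.inl ((i, b), j))))))).val =
      3 + n * 2 + (j.val + s * (sg b + 2 * i.val)) := by
  have h : (posEquiv n m s k t (some (.inl (.inr (.inr (.inl ((i, b), j))))))).val =
    (2 + (n * 2 + (j.val + s * (litEquiv n (i, b)).val))) + 1 := rfl
  rw [h, litEquiv_val]
  omega

theorem pos_clause (r : Fin m) (j : Fin k) :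
    (posEquiv n m s k t (some (.inl (.inr (.inr (.inr (r, j))))))).val =
      3 + n * 2 + n * 2 * s + (j.val + k * r.val) := by
  have h : (posEquiv n m s k t (some (.inl (.inr (.inr (.inr (r, j))))))).val =
    (2 + (n * 2 + (n * 2 * s + (j.val + k * r.val)))) + 1 := rfl
  rw [h]
  omega

theorem pos_free (j : Fin t) :
    (posEquiv n m s k t (some (.inr j))).val = 3 + n * 2 + n * 2 * s + m * k + j.val := by
  have h : (posEquiv n m s k t (some (.inr j))).val =
    (2 + (n * 2 + (n * 2 * s + m * k)) + j.val) + 1 := rfl
  rw [h]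
  omega

variable (lit : ℕ → ℕ → ℕ → Prop)

/-- The order relation, numerically. -/
def leN (x y : ℕ) : Prop :=
  x = 0 ∨ x = y ∨ (x = 1 ∧ y = 2) ∨
  ((3 ≤ x ∧ x < 3 + n * 2) ∧ (y = 2 ∨
    ((3 + n * 2 ≤ y ∧ y < 3 + n * 2 + n * 2 * s) ∧ (y - (3 + n * 2)) / s = x - 3) ∨
    ((3 + n * 2 + n * 2 * s ≤ y ∧ y < 3 + n * 2 + n * 2 * s + m * k) ∧
      lit ((x - 3) / 2) ((x - 3) % 2) ((y - (3 + n * 2 + n * 2 * s)) / k))))

/-- Membership of literals in clauses from the numeric relation. -/
def memL (ℓ : Lit (Fin n)) (c : Fin m) : Prop := lit ℓ.1.val (sg ℓ.2) c.val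

theorem pend_lt {n s : ℕ} (i : Fin n) (b : Bool) (j : Fin s) :
    j.val + s * (sg b + 2 * i.val) < n * 2 * s := by
  have h1 := sg_lt b
  have h2 := i.2
  have h3 := j.2
  have h4 : s * (sg b + 2 * i.val) + s ≤ n * 2 * s := by
    have : sg b + 2 * i.val + 1 ≤ n * 2 := by omega
    calc s * (sg b + 2 * i.val) + s = (sg b + 2 * i.val + 1) * s := by ring
      _ ≤ n * 2 * s := Nat.mul_le_mul_right _ this
  omega

theorem clause_lt {m k : ℕ} (r : Fin m) (j : Fin k) : j.val + k * r.val < m * k := by
  have h3 := j.2
  have h4 : k * r.val + k ≤ m * k := by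
    have : r.val + 1 ≤ m := r.2
    calc k * r.val + k = (r.val + 1) * k := by ring
      _ ≤ m * k := Nat.mul_le_mul_right _ this
  omega

theorem leN_pos (x y : QQ (Fin n) (Fin m) s k t) :
    leN n m s k lit (posEquiv n m s k t x).val (posEquiv n m s k t y).val ↔
      leQ (memL n m lit) x y := by
  by_cases hxy : x = y
  · subst hxy
    exact ⟨fun _ => leQ_refl _ _, fun _ => Or.inr (Or.inl rfl)⟩
  have hne : (posEquiv n m s k t x).val ≠ (posEquiv n m s k t y).val := by
    intro h
    exact hxy ((posEquiv n m s k t).injective (Fin.ext h))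
  rcases x with _ | ((b | (⟨i, b⟩ | (⟨⟨i, b⟩, j⟩ | ⟨r, j⟩))) | j)
  · exact ⟨fun _ => trivial, fun _ => Or.inl (pos_none n m s k t)⟩
  · -- x = a or b
    have hx : ∀ y', leN n m s k lit (1 + sg b) y' ↔ (1 + sg b = y') ∨ (b = false ∧ y' = 2) := by
      intro y'
      have h1 := sg_lt b
      unfold leN
      constructor
      · rintro (h | h | ⟨h, h'⟩ | ⟨⟨h, h'⟩, -⟩)
        · omega
        · exact Or.inl h
        · right
          refine ⟨?_, h'⟩
          cases b with
          | false => rfl
          | true => simp [sg] at h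
        · omega
      · rintro (h | ⟨h, h'⟩)
        · exact Or.inr (Or.inl h)
        · subst h
          exact Or.inr (Or.inr (Or.inl ⟨rfl, h'⟩))
    rw [pos_bool] at hne ⊢
    rw [hx]
    simp only [hne, false_or]
    rcases y with _ | ((b' | (⟨i', b'⟩ | (⟨⟨i', b'⟩, j'⟩ | ⟨r', j'⟩))) | j')
    · rw [pos_none]
      constructor
      · rintro ⟨_, h⟩; omega
      · intro h; exact h.elim
    · rw [pos_bool]
      cases b <;> cases b' <;> simp [sg, leQ, ltB] at hxy ⊢
    · rw [pos_lit]
      constructor
      · rintro ⟨_, h⟩; omega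
      · rintro (h | h)
        · cases h
        · cases b <;> exact h.elim
    · rw [pos_pend]
      constructor
      · rintro ⟨_, h⟩; omega
      · rintro (h | h)
        · cases h
        · cases b <;> exact h.elim
    · rw [pos_clause]
      constructor
      · rintro ⟨_, h⟩; omega
      · rintro (h | h)
        · cases h
        · cases b <;> exact h.elim
    · rw [pos_free]
      constructor
      · rintro ⟨_, h⟩; omega
      · intro h; exact h.elim
  · -- x is a literal
    rw [pos_lit] at hne ⊢
    have h1 := sg_lt b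
    have h2 := i.2
    have hx : ∀ y', leN n m s k lit (3 + (sg b + 2 * i.val)) y' ↔
        (3 + (sg b + 2 * i.val) = y') ∨ y' = 2 ∨
        ((3 + n * 2 ≤ y' ∧ y' < 3 + n * 2 + n * 2 * s) ∧
          (y' - (3 + n * 2)) / s = sg b + 2 * i.val) ∨
        ((3 + n * 2 + n * 2 * s ≤ y' ∧ y' < 3 + n * 2 + n * 2 * s + m * k) ∧
          lit i.val (sg b) ((y' - (3 + n * 2 + n * 2 * s)) / k)) := by
      intro y'
      unfold leN
      have e1 : 3 + (sg b + 2 * i.val) - 3 = sg b + 2 * i.val := by omega
      have e2 : (sg b + 2 * i.val) / 2 = i.val := by omega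
      have e3 : (sg b + 2 * i.val) % 2 = sg b := by omega
      rw [e1, e2, e3]
      constructor
      · rintro (h | h | ⟨h, -⟩ | ⟨-, h⟩)
        · omega
        · exact Or.inl h
        · omega
        · exact Or.inr h
      · rintro (h | h)
        · exact Or.inr (Or.inl h)
        · exact Or.inr (Or.inr (Or.inr ⟨⟨by omega, by omega⟩, h⟩))
    rw [hx]
    simp only [hne, false_or]
    rcases y with _ | ((b' | (⟨i', b'⟩ | (⟨⟨i', b'⟩, j'⟩ | ⟨r', j'⟩))) | j')
    · rw [pos_none]
      constructor
      · rintro (h | ⟨⟨h, -⟩, -⟩ | ⟨⟨h, -⟩, -⟩) <;> omega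
      · intro h; exact h.elim
    · rw [pos_bool]
      have h3 := sg_lt b'
      cases b' with
      | false =>
        constructor
        · simp only [sg]
          rintro (h | ⟨⟨h, -⟩, -⟩ | ⟨⟨h, -⟩, -⟩)
          · simp at h
          · simp at h; omega
          · simp at h; omega
        · rintro (h | h)
          · cases h
          · exact h.elim
      | true =>
        constructor
        · intro _; exact Or.inr trivial
        · intro _; left; simp [sg]
    · rw [pos_lit]
      have h3 := sg_lt b'
      have h4 := i'.2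
      constructor
      · rintro (h | ⟨⟨h, -⟩, -⟩ | ⟨⟨h, -⟩, -⟩) <;> omega
      · rintro (h | h)
        · exact absurd (congrArg (fun z => some (Sum.inl z)) h) hxy
        · exact h.elim
    · rw [pos_pend]
      have h3 := pend_lt i' b' j'
      have h5 : (3 + n * 2 + (j'.val + s * (sg b' + 2 * i'.val)) - (3 + n * 2)) / s =
          sg b' + 2 * i'.val := by
        have hs : 0 < s := j'.pos
        rw [Nat.add_sub_cancel_left, Nat.add_mul_div_left _ _ hs, Nat.div_eq_of_lt j'.2,
          Nat.zero_add]
      constructor
      · rintro (h | ⟨-, h⟩ | ⟨⟨h, -⟩, -⟩)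
        · omega
        · right
          rw [h5] at h
          change (i, b) = (i', b')
          have h6 := sg_lt b'
          have h7 : sg b' = sg b := by omega
          have h8 : i = i' := Fin.ext (by omega)
          have h9 : b = b' := by cases b <;> cases b' <;> simp_all [sg]
          rw [h8, h9]
        · omega
      · rintro (h | h)
        · cases h
        · have h' : (i, b) = (i', b') := h
          cases h'
          right; left
          exact ⟨⟨by omega, by omega⟩, h5⟩
    · rw [pos_clause]
      have h3 := clause_lt r' j'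
      have h5 : (3 + n * 2 + n * 2 * s + (j'.val + k * r'.val) - (3 + n * 2 + n * 2 * s)) / k =
          r'.val := by
        have hk : 0 < k := j'.pos
        rw [Nat.add_sub_cancel_left, Nat.add_mul_div_left _ _ hk, Nat.div_eq_of_lt j'.2,
          Nat.zero_add]
      rw [h5]
      constructor
      · rintro (h | ⟨⟨-, h⟩, -⟩ | ⟨-, h⟩)
        · omega
        · omega
        · exact Or.inr h
      · rintro (h | h)
        · cases h
        · exact Or.inr (Or.inr ⟨⟨by omega, by omega⟩, h⟩)
    · rw [pos_free]
      constructor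
      · rintro (h | ⟨⟨-, h⟩, -⟩ | ⟨⟨-, h⟩, -⟩) <;> omega
      · intro h; exact h.elim
  · -- x is a pendant element
    rw [pos_pend] at hne ⊢
    have hx : ∀ y', leN n m s k lit (3 + n * 2 + (j.val + s * (sg b + 2 * i.val))) y' →
        (3 + n * 2 + (j.val + s * (sg b + 2 * i.val)) = y') := by
      intro y'
      unfold leN
      rintro (h | h | ⟨h, -⟩ | ⟨⟨-, h⟩, -⟩)
      · omega
      · exact h
      · omega
      · omega
    constructor
    · intro h; exact absurd (hx _ h) hne
    · intro h
      exfalso
      rcases y with _ | (y | j')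
      · exact h
      · rcases h with h | h
        · exact hxy (congrArg (fun z => some (Sum.inl z)) h)
        · exact h
      · exact h
  · -- x is a clause copy
    rw [pos_clause] at hne ⊢
    have hx : ∀ y', leN n m s k lit (3 + n * 2 + n * 2 * s + (j.val + k * r.val)) y' →
        (3 + n * 2 + n * 2 * s + (j.val + k * r.val) = y') := by
      intro y'
      unfold leN
      rintro (h | h | ⟨h, -⟩ | ⟨⟨-, h⟩, -⟩)
      · omega
      · exact h
      · omega
      · omega
    constructor
    · intro h; exact absurd (hx _ h) hne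
    · intro h
      exfalso
      rcases y with _ | (y | j')
      · exact h
      · rcases h with h | h
        · exact hxy (congrArg (fun z => some (Sum.inl z)) h)
        · exact h
      · exact h
  · -- x is free
    rw [pos_free] at hne ⊢
    have hx : ∀ y', leN n m s k lit (3 + n * 2 + n * 2 * s + m * k + j.val) y' →
        (3 + n * 2 + n * 2 * s + m * k + j.val = y') := by
      intro y'
      unfold leN
      rintro (h | h | ⟨h, -⟩ | ⟨⟨-, h⟩, -⟩)
      · omega
      · exact h
      · omega
      · omega
    constructor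
    · intro h; exact absurd (hx _ h) hne
    · intro h
      exfalso
      rcases y with _ | (y | j')
      · exact h
      · exact h
      · exact hxy (congrArg (fun z => some (Sum.inr z)) h)

/-- Transfer of the number of order-preserving self-maps. -/
theorem card_monoN :
    Nat.card {f : Fin (size n m s k t) → Fin (size n m s k t) //
      ∀ x y, leN n m s k lit x.val y.val → leN n m s k lit (f x).val (f y).val} =
    Nat.card {f : QQ (Fin n) (Fin m) s k t → QQ (Fin n) (Fin m) s k t //
      MonoQ (memL n m lit) f} := by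
  symm
  refine Nat.card_congr (Equiv.subtypeEquiv
    (Equiv.arrowCongr (posEquiv n m s k t) (posEquiv n m s k t)) ?_)
  intro f
  have hf : ∀ x, (Equiv.arrowCongr (posEquiv n m s k t) (posEquiv n m s k t)) f
      (posEquiv n m s k t x) = posEquiv n m s k t (f x) := by
    intro x
    simp [Equiv.arrowCongr]
  constructor
  · intro h x y hxy
    obtain ⟨x, rfl⟩ := (posEquiv n m s k t).surjective x
    obtain ⟨y, rfl⟩ := (posEquiv n m s k t).surjective y
    rw [hf, hf, leN_pos]
    exact h x y ((leN_pos n m s k t lit x y).1 hxy)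
  · intro h x y hxy
    have := h _ _ ((leN_pos n m s k t lit x y).2 hxy)
    rw [hf, hf, leN_pos] at this
    exact this

theorem leQ_antisymm {V C : Type} {s k t : ℕ} (mem : Lit V → C → Prop) {x y : QQ V C s k t}
    (h1 : leQ mem x y) (h2 : leQ mem y x) : x = y := by
  rcases x with _ | (x | i) <;> rcases y with _ | (y | j)
  · rfl
  · exact h2.elim
  · exact h2.elim
  · exact h1.elim
  · rcases h1 with h1 | h1
    · rw [h1]
    · rcases h2 with h2 | h2
      · rw [h2]
      · exfalso
        rcases x with (_ | _) | (_ | (_ | _)) <;> rcases y with (_ | _) | (_ | (_ | _)) <;>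
          first
          | exact h1
          | exact h2
  · exact h1.elim
  · exact h1.elim
  · exact h1.elim
  · have : i = j := h1
    rw [this]

theorem leQ_trans {V C : Type} {s k t : ℕ} (mem : Lit V → C → Prop) {x y z : QQ V C s k t}
    (h1 : leQ mem x y) (h2 : leQ mem y z) : leQ mem x z := by
  rcases x with _ | (x | i)
  · trivial
  · rcases y with _ | (y | j)
    · exact h1.elim
    · rcases z with _ | (z | l)
      · exact h2.elim
      · rcases h1 with h1 | h1
        · rw [h1]; exact h2
        · rcases h2 with h2 | h2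
          · rw [← h2]; exact Or.inr h1
          · exfalso
            rcases x with (_ | _) | (_ | (_ | _)) <;> rcases y with (_ | _) | (_ | (_ | _)) <;>
              first
              | exact h1
              | exact h2
      · exact h2.elim
    · exact h1.elim
  · rcases y with _ | (y | j)
    · exact h1.elim
    · exact h1.elim
    · have : i = j := h1
      rw [this]; exact h2

end

/-- Definability of the order relation. -/
theorem defP_leN {n m s k : Inp → ℕ} {lit : Inp → ℕ → ℕ → ℕ → Prop}
    (hn : Def fun X _ => n X) (hm : Def fun X _ => m X) (hs : Def fun X _ => s X)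
    (hk : Def fun X _ => k X) (hlit : DefP fun X v => lit X (v 0) (v 1) (v 2))
    {x y : Inp → (ℕ → ℕ) → ℕ} (hx : Def x) (hy : Def y) :
    DefP fun X v => leN (n X) (m X) (s X) (k X) (lit X) (x X v) (y X v) := by
  have c0 := Def.const 0
  have c1 := Def.const 1
  have c2 := Def.const 2
  have c3 := Def.const 3
  have p1 : Def fun X _ => 3 + n X * 2 := c3.add (hn.mul c2)
  have p2 : Def fun X _ => 3 + n X * 2 + n X * 2 * s X := p1.add ((hn.mul c2).mul hs)
  have p3 : Def fun X _ => 3 + n X * 2 + n X * 2 * s X + m X * k X := p2.add (hm.mul hk)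
  have hl : DefP fun X v => lit X ((x X v - 3) / 2) ((x X v - 3) % 2)
      ((y X v - (3 + n X * 2 + n X * 2 * s X)) / k X) :=
    DefP.subst (g := fun i => match i with
      | 0 => fun X v => (x X v - 3) / 2
      | 1 => fun X v => (x X v - 3) % 2
      | _ => fun X v => (y X v - (3 + n X * 2 + n X * 2 * s X)) / k X) hlit
      (fun i => match i with
        | 0 => (hx.sub c3).div c2
        | 1 => (hx.sub c3).mod c2
        | _ + 2 => (hy.sub p2).div hk)
  exact (DefP.eq hx c0).or ((DefP.eq hx hy).or (((DefP.eq hx c1).and (DefP.eq hy c2)).or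
    (((DefP.le c3 hx).and (DefP.lt hx p1)).and ((DefP.eq hy c2).or
      ((((DefP.le p1 hy).and (DefP.lt hy p2)).and (DefP.eq ((hy.sub p1).div hs) (hx.sub c3))).or
        (((DefP.le p2 hy).and (DefP.lt hy p3)).and hl))))))

end Pool.Agent.Helper96
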