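import Pool.Agent.Helper96.CountEnd
import Pool.Agent.Helper96.Layout

/-!
# #P-hardness of COUNT-END
-/

set_option autoImplicit false

namespace Pool.Agent.Helper96

open Classical

/-- Forgetting the second input string. -/
def Exp.first : Exp → Exp
  | .var i => .var i
  | .const c => .const c
  | .add a b => .add a.first b.first
  | .sub a b => .sub a.first b.first
  | .len true => .const 0
  | .len false => .len false
  | .bit true _ => .const 0
  | .bit false a => .bit false a.first
  | .sum a b => .sum a.first b.first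

theorem Exp.eval_first (X : Inp) (e : Exp) : ∀ v, e.first.eval X v = e.eval (inp1 (X false)) v := by
  induction e with
  | var i => intro v; rfl
  | const c => intro v; rfl
  | add a b ha hb => intro v; simp only [Exp.first, Exp.eval, ha, hb]
  | sub a b ha hb => intro v; simp only [Exp.first, Exp.eval, ha, hb]
  | len i => intro v; cases i <;> rfl
  | bit i a ha =>
    intro v
    cases i with
    | false =>
      simp only [Exp.first, Exp.eval, ha, inp1_false]
      rfl
    | true => simp [Exp.first, Exp.eval]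
  | sum a b ha hb => intro v; simp only [Exp.first, Exp.eval, ha, hb]

theorem Def.first {f : Inp → (ℕ → ℕ) → ℕ} (h : Def f) :
    Def fun X v => f (inp1 (X false)) v := by
  obtain ⟨e, he⟩ := h
  exact ⟨e.first, fun X v => by rw [Exp.eval_first, he]⟩

/-- Parameters of the poset. -/
def sP (n : ℕ) : ℕ := 4 * n + 2

/-- Number of copies of each clause. -/
def kP (n : ℕ) : ℕ := 4 * (sP n * (n + 1))

/-- Number of free elements. -/
def tP (n m : ℕ) : ℕ := 1 + n * 2 + 4 * (n * 2 * sP n + m * kP n + kP n + 1)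

/-- Total number of elements. -/
def sizeP (n m : ℕ) : ℕ := size n m (sP n) (kP n) (tP n m)

theorem two_mul_lt_two_pow {t : ℕ} (h : 3 ≤ t) : 2 * t < 2 ^ t := by
  induction t, h using Nat.le_induction with
  | base => norm_num
  | succ t ht ih => rw [pow_succ]; omega

theorem card_QQ (n m s k t : ℕ) : Fintype.card (QQ (Fin n) (Fin m) s k t) = size n m s k t := by
  rw [Fintype.card_congr (posEquiv n m s k t), Fintype.card_fin]

section

variable (n m : ℕ) (lit : ℕ → ℕ → ℕ → Prop)

/-- The matrix of the poset. -/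
noncomputable def posetStr : List Bool :=
  bits (sizeP n m * sizeP n m) fun z =>
    leN n m (sP n) (kP n) lit (z / sizeP n m) (z % sizeP n m)

theorem relS_posetStr {i j : ℕ} (hi : i < sizeP n m) (hj : j < sizeP n m) :
    relS (sizeP n m) (posetStr n m lit) i j ↔ leN n m (sP n) (kP n) lit i j := by
  unfold relS posetStr
  rw [getElem?_bits, index_div hj, index_mod hj]
  exact ⟨fun h => h.2, fun h => ⟨index_lt hi hj, h⟩⟩

theorem leN_iff {i j : ℕ} (hi : i < sizeP n m) (hj : j < sizeP n m) :
    ∃ x y : QQ (Fin n) (Fin m) (sP n) (kP n) (tP n m),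
      (posEquiv _ _ _ _ _ x).val = i ∧ (posEquiv _ _ _ _ _ y).val = j ∧
      (leN n m (sP n) (kP n) lit i j ↔ leQ (memL n m lit) x y) := by
  obtain ⟨x, hx⟩ := (posEquiv n m (sP n) (kP n) (tP n m)).surjective ⟨i, hi⟩
  obtain ⟨y, hy⟩ := (posEquiv n m (sP n) (kP n) (tP n m)).surjective ⟨j, hj⟩
  have h1 : (posEquiv n m (sP n) (kP n) (tP n m) x).val = i := congrArg Fin.val hx
  have h2 : (posEquiv n m (sP n) (kP n) (tP n m) y).val = j := congrArg Fin.val hy
  refine ⟨x, y, h1, h2, ?_⟩
  rw [← h1, ← h2]
  exact leN_pos n m (sP n) (kP n) (tP n m) lit x y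

theorem isPos_posetStr : IsPos (sizeP n m) (posetStr n m lit) where
  length := by rw [posetStr, length_bits]
  refl i hi := by
    rw [relS_posetStr n m lit hi hi]
    exact Or.inr (Or.inl rfl)
  antisymm i hi j hj h1 h2 := by
    rw [relS_posetStr n m lit hi hj] at h1
    rw [relS_posetStr n m lit hj hi] at h2
    obtain ⟨x, hx⟩ := (posEquiv n m (sP n) (kP n) (tP n m)).surjective ⟨i, hi⟩
    obtain ⟨y, hy⟩ := (posEquiv n m (sP n) (kP n) (tP n m)).surjective ⟨j, hj⟩
    have e1 : (posEquiv n m (sP n) (kP n) (tP n m) x).val = i := congrArg Fin.val hx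
    have e2 : (posEquiv n m (sP n) (kP n) (tP n m) y).val = j := congrArg Fin.val hy
    rw [← e1, ← e2, leN_pos] at h1 h2
    rw [← e1, ← e2, leQ_antisymm _ h1 h2]
  trans i hi j hj l hl h1 h2 := by
    rw [relS_posetStr n m lit hi hj] at h1
    rw [relS_posetStr n m lit hj hl] at h2
    rw [relS_posetStr n m lit hi hl]
    obtain ⟨x, hx⟩ := (posEquiv n m (sP n) (kP n) (tP n m)).surjective ⟨i, hi⟩
    obtain ⟨y, hy⟩ := (posEquiv n m (sP n) (kP n) (tP n m)).surjective ⟨j, hj⟩
    obtain ⟨z, hz⟩ := (posEquiv n m (sP n) (kP n) (tP n m)).surjective ⟨l, hl⟩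
    have e1 : (posEquiv n m (sP n) (kP n) (tP n m) x).val = i := congrArg Fin.val hx
    have e2 : (posEquiv n m (sP n) (kP n) (tP n m) y).val = j := congrArg Fin.val hy
    have e3 : (posEquiv n m (sP n) (kP n) (tP n m) z).val = l := congrArg Fin.val hz
    rw [← e1, ← e2, leN_pos] at h1
    rw [← e2, ← e3, leN_pos] at h2
    rw [← e1, ← e3, leN_pos]
    exact leQ_trans _ h1 h2

theorem countEnd_posetStr : countEnd (posetStr n m lit) =
    Nat.card {f : QQ (Fin n) (Fin m) (sP n) (kP n) (tP n m) →
      QQ (Fin n) (Fin m) (sP n) (kP n) (tP n m) // MonoQ (memL n m lit) f} := by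
  have h := isPos_posetStr n m lit
  rw [← card_monoN, ← h.encode_toFinPoset, countEnd_encode, endCount_eq, h.encode_toFinPoset]
  change Nat.card {f : Fin (sizeP n m) → Fin (sizeP n m) // ∀ i j,
    relS (sizeP n m) (posetStr n m lit) i.val j.val →
      relS (sizeP n m) (posetStr n m lit) (f i).val (f j).val} = _
  refine Nat.card_congr (Equiv.subtypeEquivRight fun f => ?_)
  constructor
  · intro h i j hij
    have := h i j ((relS_posetStr n m lit i.2 j.2).2 hij)
    exact (relS_posetStr n m lit (f i).2 (f j).2).1 this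
  · intro h i j hij
    have := h i j ((relS_posetStr n m lit i.2 j.2).1 hij)
    exact (relS_posetStr n m lit (f i).2 (f j).2).2 this

/-- The number of satisfying assignments from the number of order-preserving self-maps. -/
theorem extractN (hm : 0 < m)
    (hpair : ∀ i < n, ∃ j < m, ∀ i' s', i' < n → lit i' s' j → i' = i) :
    (countEnd (posetStr n m lit) / 2 ^ (tP n m + sP n * n + 1)) % 2 ^ (sP n - 1) =
      Nat.card {α : Fin n → Bool // ∀ j < m, ∃ i : Fin n,
        lit i.val (if α i = true then 1 else 0) j} := by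
  rw [countEnd_posetStr]
  have hne : Nonempty (Fin m) := ⟨⟨0, hm⟩⟩
  have hk : sP n * n + sP n ≤ kP n := by
    unfold kP
    have : sP n * n + sP n = sP n * (n + 1) := by ring
    omega
  have key := extract (V := Fin n) (C := Fin m) (s := sP n) (k := kP n) (t := tP n m)
    (mem := memL n m lit)
    (by
      intro v
      obtain ⟨j, hj, h⟩ := hpair v.val v.2
      exact ⟨⟨j, hj⟩, fun ℓ hℓ => Fin.ext (h ℓ.1.val (sg ℓ.2) ℓ.1.2 hℓ)⟩)
    (by unfold sP; omega) (by unfold kP; exact Dvd.intro _ rfl)
    (by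
      rw [card_QQ]
      unfold size tP
      have h1 : 3 + n * 2 + n * 2 * sP n + m * kP n +
          (1 + n * 2 + 4 * (n * 2 * sP n + m * kP n + kP n + 1)) =
          4 * (1 + n + n * (2 * n + 1) + m * (sP n * (n + 1)) +
            (n * 2 * sP n + m * kP n + kP n + 1)) := by
        unfold kP sP
        ring
      rw [h1]
      exact Dvd.intro _ rfl)
    (by rw [Fintype.card_fin]; unfold sP; omega)
    (by rw [Fintype.card_fin]; exact hk)
    (by rw [Fintype.card_fin]; unfold tP; omega)
    (by
      rw [Fintype.card_fin, Fintype.card_fin]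
      have h2 : 3 ≤ tP n m := by unfold tP; omega
      have h3 := two_mul_lt_two_pow h2
      have h4 : 1 + 2 * n * sP n + m * kP n ≤ tP n m := by
        have : 2 * n * sP n = n * 2 * sP n := by ring
        unfold tP; omega
      omega)
  rw [Fintype.card_fin] at key
  rw [key]
  refine Nat.card_congr (Equiv.subtypeEquivRight fun α => ?_)
  constructor
  · intro h j hj
    obtain ⟨⟨i, b⟩, h1, h2⟩ := h ⟨j, hj⟩
    refine ⟨i, ?_⟩
    simp only at h2
    rw [h2]
    exact h1
  · intro h c
    obtain ⟨i, hi⟩ := h c.val c.2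
    exact ⟨(i, α i), hi, rfl⟩

end

/-- One-query polynomial-time reductions between counting functions: `f x` is computed in
polynomial time from `x` and the single value `g (q x)`, where `q` is polynomial-time computable.
This is a special case of polynomial-time Turing reductions. Strings are over `{0, 1}` and numbers
are written in binary. -/
def OneQueryReduces (f g : List Bool → ℕ) : Prop :=
  ∃ (q : List Bool → List Bool) (r : List Bool × ℕ → ℕ),
    PolyTime id id q ∧ PolyTime pairNatEnc Computability.encodeNat r ∧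
      ∀ x, f x = r (x, g (q x))

/-- **COUNT-END is #P-hard.** -/
theorem countEnd_hard (f : List Bool → ℕ) (hf : InSharpP f) : OneQueryReduces f countEnd := by
  obtain ⟨p, R, hR, hf⟩ := hf
  obtain ⟨Φ, hΦ⟩ := cook_levin_data p R hR
  have hs : ∀ {a : Inp → (ℕ → ℕ) → ℕ}, Def a → Def fun X v => sP (a X v) := fun ha =>
    ((Def.const 4).mul ha).add (Def.const 2)
  have hk : ∀ {a : Inp → (ℕ → ℕ) → ℕ}, Def a → Def fun X v => kP (a X v) := fun ha =>
    (Def.const 4).mul ((hs ha).mul (ha.add (Def.const 1)))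
  have ht : ∀ {a b : Inp → (ℕ → ℕ) → ℕ}, Def a → Def b → Def fun X v => tP (a X v) (b X v) :=
    fun ha hb => ((Def.const 1).add (ha.mul (Def.const 2))).add ((Def.const 4).mul
      (((((ha.mul (Def.const 2)).mul (hs ha)).add (hb.mul (hk ha))).add (hk ha)).add
        (Def.const 1)))
  have hsize : Def fun X _ => sizeP (Φ.n X) (Φ.m X) :=
    (((((Def.const 3).add (Φ.def_n.mul (Def.const 2))).add
      ((Φ.def_n.mul (Def.const 2)).mul (hs Φ.def_n))).add (Φ.def_m.mul (hk Φ.def_n))).add
        (ht Φ.def_n Φ.def_m))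
  have hq : PolyTime id id (fun x : List Bool =>
      posetStr (Φ.n (inp1 x)) (Φ.m (inp1 x)) (Φ.lit (inp1 x))) := by
    refine polyTime_bits (len := fun X => sizeP (Φ.n X) (Φ.m X) * sizeP (Φ.n X) (Φ.m X))
      (b := fun X z => leN (Φ.n X) (Φ.m X) (sP (Φ.n X)) (kP (Φ.n X)) (Φ.lit X)
        (z / sizeP (Φ.n X) (Φ.m X)) (z % sizeP (Φ.n X) (Φ.m X))) (hsize.mul hsize) ?_
    exact defP_leN Φ.def_n Φ.def_m (hs (a := fun X _ => Φ.n X) Φ.def_n)
      (hk (a := fun X _ => Φ.n X) Φ.def_n) Φ.def_lit
      ((Def.var 0).div hsize) ((Def.var 0).mod hsize)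
  -- the output function
  let c : Inp → ℕ := fun X => tP (Φ.n X) (Φ.m X) + sP (Φ.n X) * Φ.n X + 1
  let d : Inp → ℕ := fun X => sP (Φ.n X) - 1
  have hc : Def fun X _ => c X :=
    ((ht Φ.def_n Φ.def_m).add ((hs Φ.def_n).mul Φ.def_n)).add (Def.const 1)
  have hd : Def fun X _ => d X := (hs Φ.def_n).sub (Def.const 1)
  have hr : PolyTime pairNatEnc Computability.encodeNat
      (fun z : List Bool × ℕ => (z.2 / 2 ^ c (inp1 z.1)) % 2 ^ d (inp1 z.1)) := by
    refine polyTime_num (len := fun X => d (inp1 (X false)))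
      (b := fun X i => (X true)[c (inp1 (X false)) + i]? = some true) hd.first
      (DefP.bit true (hc.first.add (Def.var 0))) ?_
    intro x e i
    simp only [inp2_false, inp2_true]
    rw [Nat.testBit_mod_two_pow, Nat.testBit_div_two_pow, getElem?_encodeNat]
    simp [Nat.add_comm]
  refine ⟨_, _, hq, hr, fun x => ?_⟩
  have h1 := extractN (Φ.n (inp1 x)) (Φ.m (inp1 x)) (Φ.lit (inp1 x)) (Φ.m_pos _) (Φ.pair _)
  simp only
  rw [hf x]
  have h2 := hΦ (inp1 x)
  simp only [inp1_false] at h2
  rw [h2]
  exact h1.symm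

end Pool.Agent.Helper96
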