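import Pool.Agent.Helper96.PolyTime

/-!
# An arithmetic expression language and its compilation to commands

Expressions denote natural numbers depending on two input strings `X false`, `X true` and an
environment.  Numbers are handled in unary, so every expression has a polynomially bounded value
and is evaluated in polynomial time.
-/

set_option autoImplicit false

namespace Pool.Agent.Helper96

open Function (update)
open List (replicate)

/-! ### Basic programs -/

theorem Exec.cast {c : Cmd} {s s₁ s₂ : Store} {t : ℕ} (h : Exec c s t s₁) (e : s₁ = s₂) :
    Exec c s t s₂ := e ▸ h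

theorem Exec.castT {c : Cmd} {s s₁ : Store} {t t' : ℕ} (h : Exec c s t s₁) (e : t = t') :
    Exec c s t' s₁ := e ▸ h

/-- The loop rule. -/
theorem exec_loop {r : ℕ} {c : Cmd} {T : ℕ} (I : ℕ → Store) (h0 : (I 0 r).head? = none) :
    ∀ n, (∀ k < n, (I (k + 1) r).head? ≠ none ∧ ∃ t ≤ T, Exec c (I (k + 1)) t (I k)) →
      ∃ t ≤ n * (T + 2) + 1, Exec (.loop r c) (I n) t (I 0) := by
  intro n
  induction n with
  | zero => intro _; exact ⟨1, by omega, Exec.loopE h0⟩
  | succ n ih =>
    intro h
    obtain ⟨t₂, ht₂, h₂⟩ := ih (fun k hk => h k (by omega))
    obtain ⟨hne, t₁, ht₁, h₁⟩ := h n (by omega)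
    refine ⟨t₁ + t₂ + 2, ?_, Exec.loopN hne h₁ h₂⟩
    rw [Nat.add_mul]
    omega

/-- Move the contents of `a` onto `b` (reversing). -/
def moveB (a b : ℕ) : Cmd :=
  .loop a (.case a .skip (.seq (.pop a) (.push b true)) (.seq (.pop a) (.push b false)))

theorem exec_moveB {a b : ℕ} (hab : a ≠ b) : ∀ (l : List Bool) (s : Store), s a = l →
    Exec (moveB a b) s (6 * l.length + 1) (update (update s a []) b (l.reverse ++ s b)) := by
  intro l
  induction l with
  | nil =>
    intro s hs
    refine (Exec.loopE (by rw [hs]; rfl)).cast ?_
    funext r
    by_cases h1 : r = b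
    · subst h1; simp
    · by_cases h2 : r = a
      · subst h2; simp [h1, hs]
      · simp [h1, h2]
  | cons x l ih =>
    intro s hs
    have ih' := ih (update (update s a l) b (x :: s b)) (by simp [hab])
    have hbody : Exec (.case a .skip (.seq (.pop a) (.push b true))
        (.seq (.pop a) (.push b false))) s 4 (update (update s a l) b (x :: s b)) := by
      cases x with
      | true =>
        refine Exec.caseT (by rw [hs]; rfl) (t := 2) ?_
        refine (Exec.seq (Exec.pop a s) (Exec.push b true _)).cast ?_
        simp [hs, hab.symm]
      | false =>
        refine Exec.caseF (by rw [hs]; rfl) (t := 2) ?_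
        refine (Exec.seq (Exec.pop a s) (Exec.push b false _)).cast ?_
        simp [hs, hab.symm]
    have h := Exec.loopN (r := a) (by rw [hs]; simp) hbody ih'
    refine (h.castT ?_).cast ?_
    · simp only [List.length_cons]; omega
    · funext r
      by_cases h1 : r = b
      · subst h1; simp
      · by_cases h2 : r = a
        · subst h2; simp [h1]
        · simp [h1, h2]

/-- Move the contents of `t` back onto `a`, pushing a `true` on `b` for each element. -/
def backLen (t a b : ℕ) : Cmd :=
  .loop t (.case t .skip (.seq (.pop t) (.seq (.push a true) (.push b true)))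
    (.seq (.pop t) (.seq (.push a false) (.push b true))))

theorem exec_backLen {t a b : ℕ} (hta : t ≠ a) (htb : t ≠ b) (hab : a ≠ b) :
    ∀ (l : List Bool) (s : Store), s t = l →
    Exec (backLen t a b) s (7 * l.length + 1)
      (update (update (update s t []) a (l.reverse ++ s a)) b
        (replicate l.length true ++ s b)) := by
  intro l
  induction l with
  | nil =>
    intro s hs
    refine (Exec.loopE (by rw [hs]; rfl)).cast ?_
    funext r
    by_cases h1 : r = b
    · subst h1; simp
    · by_cases h2 : r = a
      · subst h2; simp [h1]
      · by_cases h3 : r = t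
        · subst h3; simp [h1, h2, hs]
        · simp [h1, h2, h3]
  | cons x l ih =>
    intro s hs
    have ih' := ih (update (update (update s t l) a (x :: s a)) b (true :: s b))
      (by simp [hta, htb])
    have hbody : Exec (.case t .skip (.seq (.pop t) (.seq (.push a true) (.push b true)))
        (.seq (.pop t) (.seq (.push a false) (.push b true)))) s 5
        (update (update (update s t l) a (x :: s a)) b (true :: s b)) := by
      cases x with
      | true =>
        refine Exec.caseT (by rw [hs]; rfl) (t := 3) ?_
        refine ((Exec.seq (Exec.pop t s) (Exec.seq (Exec.push a true _)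
          (Exec.push b true _)))).cast ?_
        simp [hs, hta.symm, htb.symm, hab.symm]
      | false =>
        refine Exec.caseF (by rw [hs]; rfl) (t := 3) ?_
        refine ((Exec.seq (Exec.pop t s) (Exec.seq (Exec.push a false _)
          (Exec.push b true _)))).cast ?_
        simp [hs, hta.symm, htb.symm, hab.symm]
    have h := Exec.loopN (r := t) (by rw [hs]; simp) hbody ih'
    refine (h.castT ?_).cast ?_
    · simp only [List.length_cons]; omega
    · funext r
      by_cases h1 : r = b
      · subst h1
        simp [List.replicate_succ', List.append_assoc]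
      · by_cases h2 : r = a
        · subst h2; simp [h1]
        · by_cases h3 : r = t
          · subst h3; simp [h1, h2]
          · simp [h1, h2, h3]

/-- Push the length of `a` (in unary) on `b`, with temporary register `t`. -/
def lenTo (a b t : ℕ) : Cmd := .seq (moveB a t) (backLen t a b)

theorem exec_lenTo {a b t : ℕ} (hta : t ≠ a) (htb : t ≠ b) (hab : a ≠ b) (s : Store)
    (ht : s t = []) :
    Exec (lenTo a b t) s (13 * (s a).length + 2)
      (update s b (replicate (s a).length true ++ s b)) := by
  have e1 := exec_moveB hta.symm (s a) s rfl
  have e2 := exec_backLen hta htb hab (s a).reverse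
    (update (update s a []) t ((s a).reverse ++ s t)) (by simp [ht])
  refine ((Exec.seq e1 e2).castT ?_).cast ?_
  · simp only [List.length_reverse]; omega
  · funext r
    by_cases h1 : r = b
    · subst h1; simp [htb.symm, hab.symm]
    · by_cases h2 : r = a
      · subst h2; simp [h1, hta.symm]
      · by_cases h3 : r = t
        · subst h3; simp [h1, h2, ht]
        · simp [h1, h2, h3]

/-- Pop as many elements from `a` as there are on `b`, emptying `b`. -/
def subLoop (a b : ℕ) : Cmd := .loop b (.seq (.pop b) (.pop a))

theorem exec_subLoop {a b : ℕ} (hab : a ≠ b) : ∀ (l : List Bool) (s : Store), s b = l →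
    Exec (subLoop a b) s (4 * l.length + 1)
      (update (update s b []) a ((s a).drop l.length)) := by
  intro l
  induction l with
  | nil =>
    intro s hs
    refine (Exec.loopE (by rw [hs]; rfl)).cast ?_
    funext r
    by_cases h1 : r = a
    · subst h1; simp
    · by_cases h2 : r = b
      · subst h2; simp [h1, hs]
      · simp [h1, h2]
  | cons x l ih =>
    intro s hs
    have ih' := ih (update (update s b l) a (s a).tail) (by simp [hab.symm])
    have hbody : Exec (.seq (.pop b) (.pop a)) s 2 (update (update s b l) a (s a).tail) := by
      refine (Exec.seq (Exec.pop b s) (Exec.pop a _)).cast ?_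
      simp [hs, hab]
    have h := Exec.loopN (r := b) (by rw [hs]; simp) hbody ih'
    refine (h.castT ?_).cast ?_
    · simp only [List.length_cons]; omega
    · funext r
      by_cases h1 : r = a
      · subst h1; simp
      · by_cases h2 : r = b
        · subst h2; simp [h1]
        · simp [h1, h2]

/-- Move as many elements from `x` to `t` as there are on `b`, emptying `b`. -/
def skipLoop (b x t : ℕ) : Cmd :=
  .loop b (.seq (.pop b) (.case x .skip (.seq (.pop x) (.push t true))
    (.seq (.pop x) (.push t false))))

theorem exec_skipLoop {b x t : ℕ} (hbx : b ≠ x) (hbt : b ≠ t) (hxt : x ≠ t) :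
    ∀ (l : List Bool) (s : Store), s b = l → ∃ T ≤ 7 * l.length + 1,
    Exec (skipLoop b x t) s T
      (update (update (update s b []) x ((s x).drop l.length)) t
        (((s x).take l.length).reverse ++ s t)) := by
  intro l
  induction l with
  | nil =>
    intro s hs
    refine ⟨1, by simp, (Exec.loopE (by rw [hs]; rfl)).cast ?_⟩
    funext r
    by_cases h1 : r = t
    · subst h1; simp
    · by_cases h2 : r = x
      · subst h2; simp [h1]
      · by_cases h3 : r = b
        · subst h3; simp [h1, h2, hs]
        · simp [h1, h2, h3]
  | cons y l ih =>
    intro s hs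
    obtain ⟨T, hT, ih'⟩ := ih (update (update (update s b l) x ((s x).drop 1)) t
      (((s x).take 1).reverse ++ s t)) (by simp [hbx, hbt])
    have hbody : ∃ T' ≤ 5, Exec (.seq (.pop b) (.case x .skip (.seq (.pop x) (.push t true))
        (.seq (.pop x) (.push t false)))) s T'
        (update (update (update s b l) x ((s x).drop 1)) t
          (((s x).take 1).reverse ++ s t)) := by
      rcases hx : s x with _ | ⟨z, m⟩
      · refine ⟨3, by omega, (Exec.seq (Exec.pop b s) (Exec.caseE (t := 0) ?_
          (Exec.skip _))).cast ?_⟩
        · simp [hbx.symm, hx]
        · funext r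
          by_cases h1 : r = t
          · subst h1; simp [hbt.symm]
          · by_cases h2 : r = x
            · subst h2; simp [h1, hbx.symm, hx]
            · simp [h1, h2, hs]
      · cases z with
        | true =>
          refine ⟨5, le_rfl, (Exec.seq (Exec.pop b s) (Exec.caseT (t := 2) ?_
            (Exec.seq (Exec.pop x _) (Exec.push t true _)))).cast ?_⟩
          · simp [hbx.symm, hx]
          · simp [hbx.symm, hbt.symm, hxt.symm, hx, hs]
        | false =>
          refine ⟨5, le_rfl, (Exec.seq (Exec.pop b s) (Exec.caseF (t := 2) ?_
            (Exec.seq (Exec.pop x _) (Exec.push t false _)))).cast ?_⟩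
          · simp [hbx.symm, hx]
          · simp [hbx.symm, hbt.symm, hxt.symm, hx, hs]
    obtain ⟨T', hT', hbody⟩ := hbody
    have h := Exec.loopN (r := b) (by rw [hs]; simp) hbody ih'
    refine ⟨_, ?_, h.cast ?_⟩
    · simp only [List.length_cons]; omega
    · funext r
      by_cases h1 : r = t
      · subst h1
        simp only [Function.update_self, List.length_cons]
        rw [Function.update_of_ne hxt, Function.update_self, ← List.append_assoc]
        congr 1
        rw [← List.reverse_append]
        congr 1
        rw [Nat.add_comm, List.take_add]
      · by_cases h2 : r = x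
        · subst h2; simp [h1]
        · by_cases h3 : r = b
          · subst h3; simp [h1, h2]
          · simp [h1, h2, h3]

/-- Empty the register `r`. -/
def clear (r : ℕ) : Cmd := .loop r (.pop r)

theorem exec_clear {r : ℕ} : ∀ (l : List Bool) (s : Store), s r = l →
    Exec (clear r) s (3 * l.length + 1) (update s r []) := by
  intro l
  induction l with
  | nil =>
    intro s hs
    refine (Exec.loopE (by rw [hs]; rfl)).cast ?_
    rw [← hs, Function.update_eq_self]
  | cons x l ih =>
    intro s hs
    have ih' := ih (update s r l) (by simp)
    have hbody : Exec (.pop r) s 1 (update s r l) := by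
      refine (Exec.pop r s).cast ?_
      rw [hs]; rfl
    have h := Exec.loopN (r := r) (by rw [hs]; simp) hbody ih'
    refine (h.castT ?_).cast ?_
    · simp only [List.length_cons]; omega
    · simp

/-- Push `n` times `true` on `r`. -/
def pushN (r : ℕ) : ℕ → Cmd
  | 0 => .skip
  | n + 1 => .seq (pushN r n) (.push r true)

theorem exec_pushN (r : ℕ) : ∀ (n : ℕ) (s : Store),
    Exec (pushN r n) s n (update s r (replicate n true ++ s r)) := by
  intro n
  induction n with
  | zero =>
    intro s
    refine (Exec.skip s).cast ?_
    simp
  | succ n ih =>
    intro s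
    refine (Exec.seq (ih s) (Exec.push r true _)).cast ?_
    simp [List.replicate_succ]

/-! ### Expressions -/

/-- Arithmetic expressions; variables are de Bruijn indices. -/
inductive Exp : Type
  | var : ℕ → Exp
  | const : ℕ → Exp
  | add : Exp → Exp → Exp
  | sub : Exp → Exp → Exp
  | len : Bool → Exp
  | bit : Bool → Exp → Exp
  | sum : Exp → Exp → Exp

/-- Extend an environment. -/
def cons (i : ℕ) (v : ℕ → ℕ) : ℕ → ℕ
  | 0 => i
  | n + 1 => v n

@[simp] theorem cons_zero (i : ℕ) (v : ℕ → ℕ) : cons i v 0 = i := rfl

@[simp] theorem cons_succ (i : ℕ) (v : ℕ → ℕ) (n : ℕ) : cons i v (n + 1) = v n := rfl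

/-- The value of an expression. -/
def Exp.eval (X : Bool → List Bool) : Exp → (ℕ → ℕ) → ℕ
  | .var i, v => v i
  | .const c, _ => c
  | .add a b, v => a.eval X v + b.eval X v
  | .sub a b, v => a.eval X v - b.eval X v
  | .len i, _ => (X i).length
  | .bit i a, v => if (X i)[a.eval X v]? = some true then 1 else 0
  | .sum a b, v => ∑ i ∈ Finset.range (a.eval X v), b.eval X (cons i v)

/-- Values are polynomially bounded. -/
theorem Exp.eval_le (e : Exp) : ∃ P : Polynomial ℕ, ∀ (N : ℕ) (X : Bool → List Bool) (v : ℕ → ℕ),
    (∀ i, (X i).length ≤ N) → (∀ i, v i ≤ N) → e.eval X v ≤ P.eval N := by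
  induction e with
  | var i => exact ⟨Polynomial.X, fun N X v _ hv => by simpa [Exp.eval] using hv i⟩
  | const c => exact ⟨Polynomial.C c, fun N X v _ _ => by simp [Exp.eval]⟩
  | add a b ha hb =>
    obtain ⟨P, hP⟩ := ha
    obtain ⟨Q, hQ⟩ := hb
    refine ⟨P + Q, fun N X v hX hv => ?_⟩
    simp only [Exp.eval, Polynomial.eval_add]
    exact add_le_add (hP N X v hX hv) (hQ N X v hX hv)
  | sub a b ha hb =>
    obtain ⟨P, hP⟩ := ha
    refine ⟨P, fun N X v hX hv => ?_⟩
    simp only [Exp.eval]
    exact (Nat.sub_le _ _).trans (hP N X v hX hv)
  | len i => exact ⟨Polynomial.X, fun N X v hX _ => by simpa [Exp.eval] using hX i⟩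
  | bit i a ha =>
    refine ⟨1, fun N X v hX hv => ?_⟩
    simp only [Exp.eval, Polynomial.eval_one]
    split_ifs <;> simp
  | sum a b ha hb =>
    obtain ⟨P, hP⟩ := ha
    obtain ⟨Q, hQ⟩ := hb
    refine ⟨P * Q.comp (Polynomial.X + P), fun N X v hX hv => ?_⟩
    simp only [Exp.eval, Polynomial.eval_mul, Polynomial.eval_comp, Polynomial.eval_add,
      Polynomial.eval_X]
    have hA := hP N X v hX hv
    calc ∑ i ∈ Finset.range (a.eval X v), b.eval X (cons i v)
        ≤ ∑ i ∈ Finset.range (a.eval X v), Q.eval (N + P.eval N) := by
          apply Finset.sum_le_sum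
          intro i hi
          rw [Finset.mem_range] at hi
          apply hQ
          · intro j; exact (hX j).trans (Nat.le_add_right _ _)
          · intro j
            cases j with
            | zero => rw [cons_zero]; omega
            | succ j => rw [cons_succ]; exact (hv j).trans (Nat.le_add_right _ _)
      _ = a.eval X v * Q.eval (N + P.eval N) := by simp
      _ ≤ _ := Nat.mul_le_mul_right _ hA

/-- The register holding an input string. -/
def xreg : Bool → ℕ
  | false => 2
  | true => 3

/-- Compilation of expressions; `ρ` assigns registers to variables, `base` is the result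
register, and all registers from `base` on are free. -/
def Exp.comp : Exp → (ℕ → ℕ) → ℕ → Cmd
  | .var i, ρ, base => lenTo (ρ i) base (base + 1)
  | .const c, _, base => pushN base c
  | .add a b, ρ, base => .seq (a.comp ρ base) (.seq (b.comp ρ (base + 1)) (moveB (base + 1) base))
  | .sub a b, ρ, base => .seq (a.comp ρ base) (.seq (b.comp ρ (base + 1)) (subLoop base (base + 1)))
  | .len i, _, base => lenTo (xreg i) base (base + 1)
  | .bit i a, ρ, base =>
      .seq (a.comp ρ base) (.seq (skipLoop base (xreg i) (base + 1))
        (.seq (.case (xreg i) .skip (.push base true) .skip) (moveB (base + 1) (xreg i))))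
  | .sum a b, ρ, base =>
      .seq (a.comp ρ base)
        (.seq (.loop base (.seq (.pop base)
          (.seq (b.comp (cons base ρ) (base + 2)) (moveB (base + 2) (base + 1)))))
          (moveB (base + 1) base))

/-- Correctness and polynomial running time of compiled expressions. -/
theorem Exp.comp_exec (e : Exp) : ∃ T : Polynomial ℕ, ∀ (N : ℕ) (X : Bool → List Bool)
    (v : ℕ → ℕ), (∀ i, (X i).length ≤ N) → (∀ i, v i ≤ N) →
    ∀ (ρ : ℕ → ℕ) (base : ℕ) (s : Store), (∀ i, ρ i < base) → (∀ i, xreg i < base) →
      (∀ i, s (ρ i) = replicate (v i) true) → (∀ i, s (xreg i) = X i) →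
      (∀ r, base ≤ r → s r = []) →
      ∃ t ≤ T.eval N, Exec (e.comp ρ base) s t
        (update s base (replicate (e.eval X v) true)) := by
  induction e with
  | var i =>
    refine ⟨13 * Polynomial.X + 2, fun N X v hX hv ρ base s hρ hx hs hsX hfree => ?_⟩
    have h := exec_lenTo (a := ρ i) (b := base) (t := base + 1)
      (by have := hρ i; omega) (by omega) (by have := hρ i; omega) s (hfree _ (by omega))
    refine ⟨_, ?_, h.cast ?_⟩
    · rw [hs i, List.length_replicate]
      simp only [Polynomial.eval_add, Polynomial.eval_mul, Polynomial.eval_X,
        Polynomial.eval_ofNat]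
      have := hv i
      omega
    · rw [hs i, List.length_replicate, hfree base le_rfl, List.append_nil]
      rfl
  | const c =>
    refine ⟨Polynomial.C c, fun N X v hX hv ρ base s hρ hx hs hsX hfree => ?_⟩
    refine ⟨c, by simp, (exec_pushN base c s).cast ?_⟩
    rw [hfree base le_rfl, List.append_nil]
    rfl
  | add a b ha hb =>
    obtain ⟨T₁, h₁⟩ := ha
    obtain ⟨T₂, h₂⟩ := hb
    obtain ⟨P, hP⟩ := b.eval_le
    refine ⟨T₁ + T₂ + 6 * P + 1, fun N X v hX hv ρ base s hρ hx hs hsX hfree => ?_⟩
    obtain ⟨t₁, ht₁, e₁⟩ := h₁ N X v hX hv ρ base s hρ hx hs hsX hfree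
    obtain ⟨t₂, ht₂, e₂⟩ := h₂ N X v hX hv ρ (base + 1)
      (update s base (replicate (a.eval X v) true))
      (fun i => by have := hρ i; omega) (fun i => by have := hx i; omega)
      (fun i => by rw [Function.update_of_ne (by have := hρ i; omega)]; exact hs i)
      (fun i => by rw [Function.update_of_ne (by have := hx i; omega)]; exact hsX i)
      (fun r hr => by rw [Function.update_of_ne (by omega)]; exact hfree r (by omega))
    have e₃ := exec_moveB (a := base + 1) (b := base) (by omega)
      (replicate (b.eval X v) true)
      (update (update s base (replicate (a.eval X v) true)) (base + 1)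
        (replicate (b.eval X v) true)) (by simp)
    refine ⟨_, ?_, (Exec.seq e₁ (Exec.seq e₂ e₃)).cast ?_⟩
    · simp only [Polynomial.eval_add, Polynomial.eval_mul, Polynomial.eval_one,
        Polynomial.eval_ofNat, List.length_replicate]
      have := hP N X v hX hv
      omega
    · funext r
      by_cases h1 : r = base
      · subst h1
        simp [Exp.eval, Nat.add_comm]
      · by_cases h2 : r = base + 1
        · subst h2
          simp [hfree (base + 1) (by omega)]
        · simp [h1, h2]
  | sub a b ha hb =>
    obtain ⟨T₁, h₁⟩ := ha
    obtain ⟨T₂, h₂⟩ := hb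
    obtain ⟨P, hP⟩ := b.eval_le
    refine ⟨T₁ + T₂ + 4 * P + 1, fun N X v hX hv ρ base s hρ hx hs hsX hfree => ?_⟩
    obtain ⟨t₁, ht₁, e₁⟩ := h₁ N X v hX hv ρ base s hρ hx hs hsX hfree
    obtain ⟨t₂, ht₂, e₂⟩ := h₂ N X v hX hv ρ (base + 1)
      (update s base (replicate (a.eval X v) true))
      (fun i => by have := hρ i; omega) (fun i => by have := hx i; omega)
      (fun i => by rw [Function.update_of_ne (by have := hρ i; omega)]; exact hs i)
      (fun i => by rw [Function.update_of_ne (by have := hx i; omega)]; exact hsX i)
      (fun r hr => by rw [Function.update_of_ne (by omega)]; exact hfree r (by omega))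
    have e₃ := exec_subLoop (a := base) (b := base + 1) (by omega)
      (replicate (b.eval X v) true)
      (update (update s base (replicate (a.eval X v) true)) (base + 1)
        (replicate (b.eval X v) true)) (by simp)
    refine ⟨_, ?_, (Exec.seq e₁ (Exec.seq e₂ e₃)).cast ?_⟩
    · simp only [Polynomial.eval_add, Polynomial.eval_mul, Polynomial.eval_one,
        Polynomial.eval_ofNat, List.length_replicate]
      have := hP N X v hX hv
      omega
    · funext r
      by_cases h1 : r = base
      · subst h1
        simp [Exp.eval]
      · by_cases h2 : r = base + 1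
        · subst h2
          simp [hfree (base + 1) (by omega)]
        · simp [h1, h2]
  | len i =>
    refine ⟨13 * Polynomial.X + 2, fun N X v hX hv ρ base s hρ hx hs hsX hfree => ?_⟩
    have h := exec_lenTo (a := xreg i) (b := base) (t := base + 1)
      (by have := hx i; omega) (by omega) (by have := hx i; omega) s (hfree _ (by omega))
    refine ⟨_, ?_, h.cast ?_⟩
    · rw [hsX i]
      simp only [Polynomial.eval_add, Polynomial.eval_mul, Polynomial.eval_X,
        Polynomial.eval_ofNat]
      have := hX i
      omega
    · rw [hsX i, hfree base le_rfl, List.append_nil]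
      rfl
  | bit i a ha =>
    obtain ⟨T₁, h₁⟩ := ha
    obtain ⟨P, hP⟩ := a.eval_le
    refine ⟨T₁ + 7 * P + 6 * Polynomial.X + 5,
      fun N X v hX hv ρ base s hρ hx hs hsX hfree => ?_⟩
    obtain ⟨t₁, ht₁, e₁⟩ := h₁ N X v hX hv ρ base s hρ hx hs hsX hfree
    have hxi := hx i
    have hXi := hX i
    have hsXi := hsX i
    set n := a.eval X v with hn
    obtain ⟨t₂, ht₂, e₂⟩ := exec_skipLoop (b := base) (x := xreg i) (t := base + 1)
      (by omega) (by omega) (by omega) (replicate n true)
      (update s base (replicate n true)) (by simp)
    rw [List.length_replicate] at e₂ ht₂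
    set s₂ : Store := update (update (update (update s base (replicate n true)) base [])
      (xreg i) (((update s base (replicate n true)) (xreg i)).drop n)) (base + 1)
      ((((update s base (replicate n true)) (xreg i)).take n).reverse ++
        (update s base (replicate n true)) (base + 1)) with hs₂
    have hA : (update s base (replicate n true)) (xreg i) = X i := by
      rw [Function.update_of_ne (by omega)]; exact hsXi
    have hB : (update s base (replicate n true)) (base + 1) = [] := by
      rw [Function.update_of_ne (by omega)]; exact hfree _ (by omega)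
    rw [hA, hB, List.append_nil] at hs₂
    have hs₂x : s₂ (xreg i) = (X i).drop n := by
      rw [hs₂, Function.update_of_ne (by omega), Function.update_self]
    have hs₂b : s₂ base = [] := by
      rw [hs₂, Function.update_of_ne (by omega), Function.update_of_ne (by omega),
        Function.update_self]
    have hs₂t : s₂ (base + 1) = ((X i).take n).reverse := by
      rw [hs₂, Function.update_self]
    have hhead : ((X i).drop n).head? = (X i)[n]? := List.head?_drop
    have hcase : ∃ T' ≤ 3, Exec (.case (xreg i) .skip (.push base true) .skip) s₂ T'
        (update s₂ base (replicate (if (X i)[n]? = some true then 1 else 0) true)) := by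
      rcases hh : (X i)[n]? with _ | z
      · refine ⟨2, by omega, (Exec.caseE (t := 0) (by rw [hs₂x, hhead, hh]) (Exec.skip _)).cast ?_⟩
        funext r
        by_cases h1 : r = base
        · subst h1; simp [hs₂b]
        · simp [h1]
      · cases z with
        | true =>
          refine ⟨3, by omega, (Exec.caseT (t := 1) (by rw [hs₂x, hhead, hh])
            (Exec.push base true _)).cast ?_⟩
          funext r
          by_cases h1 : r = base
          · subst h1; simp [hs₂b]
          · simp [h1]
        | false =>
          refine ⟨2, by omega, (Exec.caseF (t := 0) (by rw [hs₂x, hhead, hh])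
            (Exec.skip _)).cast ?_⟩
          funext r
          by_cases h1 : r = base
          · subst h1; simp [hs₂b]
          · simp [h1]
    obtain ⟨t₃, ht₃, e₃⟩ := hcase
    have e₄ := exec_moveB (a := base + 1) (b := xreg i) (by omega) ((X i).take n).reverse
      (update s₂ base (replicate (if (X i)[n]? = some true then 1 else 0) true))
      (by rw [Function.update_of_ne (by omega)]; exact hs₂t)
    refine ⟨_, ?_, (Exec.seq e₁ (Exec.seq e₂ (Exec.seq e₃ e₄))).cast ?_⟩
    · simp only [Polynomial.eval_add, Polynomial.eval_mul, Polynomial.eval_X,
        Polynomial.eval_ofNat, List.length_reverse, List.length_take]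
      have := hP N X v hX hv
      omega
    · funext r
      by_cases h1 : r = base
      · subst h1
        rw [Function.update_of_ne (by omega), Function.update_of_ne (by omega),
          Function.update_self, Function.update_self]
        rfl
      · by_cases h2 : r = xreg i
        · subst h2
          rw [Function.update_self, Function.update_of_ne h1, hs₂x, Function.update_of_ne h1,
            hsXi, List.reverse_reverse, List.take_append_drop]
        · by_cases h3 : r = base + 1
          · subst h3
            rw [Function.update_of_ne h2, Function.update_self, Function.update_of_ne h1,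
              hfree _ (by omega)]
          · rw [Function.update_of_ne h2, Function.update_of_ne h3, Function.update_of_ne h1,
              Function.update_of_ne h1, hs₂, Function.update_of_ne h3, Function.update_of_ne h2,
              Function.update_of_ne h1, Function.update_of_ne h1]
  | sum a b ha hb =>
    obtain ⟨T₁, h₁⟩ := ha
    obtain ⟨T₂, h₂⟩ := hb
    obtain ⟨P, hP⟩ := a.eval_le
    obtain ⟨Q, hQ⟩ := b.eval_le
    obtain ⟨R, hR⟩ := (Exp.sum a b).eval_le
    refine ⟨T₁ + (P * (1 + T₂.comp (Polynomial.X + P) +
      (6 * Q.comp (Polynomial.X + P) + 1) + 2) + 1) + (6 * R + 1),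
      fun N X v hX hv ρ base s hρ hx hs hsX hfree => ?_⟩
    obtain ⟨t₁, ht₁, e₁⟩ := h₁ N X v hX hv ρ base s hρ hx hs hsX hfree
    set n := a.eval X v with hn
    have hnP : n ≤ P.eval N := hP N X v hX hv
    -- loop invariant
    let I : ℕ → Store := fun k => update (update s base (replicate k true)) (base + 1)
      (replicate (∑ i ∈ Finset.Ico k n, b.eval X (cons i v)) true)
    have hI0 : (I 0 base).head? = none := by
      simp [I]
    obtain ⟨t₂, ht₂, e₂⟩ := exec_loop (r := base)
      (c := .seq (.pop base)
        (.seq (b.comp (cons base ρ) (base + 2)) (moveB (base + 2) (base + 1))))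
      (T := 1 + (T₂.eval (N + P.eval N) + (6 * Q.eval (N + P.eval N) + 1))) I hI0 n (by
        intro k hk
        refine ⟨by simp [I, List.replicate_succ], ?_⟩
        have hX' : ∀ i, (X i).length ≤ N + P.eval N := fun i => (hX i).trans (by omega)
        have hv' : ∀ i, cons k v i ≤ N + P.eval N := by
          intro i
          cases i with
          | zero => rw [cons_zero]; omega
          | succ i => rw [cons_succ]; exact (hv i).trans (by omega)
        let s₁ : Store := update (update s base (replicate k true)) (base + 1)
          (replicate (∑ i ∈ Finset.Ico (k + 1) n, b.eval X (cons i v)) true)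
        have e1 : Exec (.pop base) (I (k + 1)) 1 s₁ := by
          refine (Exec.pop base _).cast ?_
          funext r
          by_cases h1 : r = base
          · subst h1; simp [I, s₁, List.replicate_succ]
          · simp [I, s₁, h1]
            by_cases h2 : r = base + 1
            · subst h2; simp
            · simp [h1, h2]
        obtain ⟨t, ht, e2⟩ := h₂ (N + P.eval N) X (cons k v) hX' hv' (cons base ρ) (base + 2) s₁
          (by
            intro i
            cases i with
            | zero => rw [cons_zero]; omega
            | succ i => rw [cons_succ]; have := hρ i; omega)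
          (fun i => by have := hx i; omega)
          (by
            intro i
            cases i with
            | zero =>
              rw [cons_zero, cons_zero]
              simp [s₁]
            | succ i =>
              rw [cons_succ, cons_succ]
              have := hρ i
              simp only [s₁]
              rw [Function.update_of_ne (by omega), Function.update_of_ne (by omega)]
              exact hs i)
          (by
            intro i
            have := hx i
            simp only [s₁]
            rw [Function.update_of_ne (by omega), Function.update_of_ne (by omega)]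
            exact hsX i)
          (by
            intro r hr
            simp only [s₁]
            rw [Function.update_of_ne (by omega), Function.update_of_ne (by omega)]
            exact hfree r (by omega))
        have e3 := exec_moveB (a := base + 2) (b := base + 1) (by omega)
          (replicate (b.eval X (cons k v)) true)
          (update s₁ (base + 2) (replicate (b.eval X (cons k v)) true)) (by simp)
        refine ⟨_, ?_, (Exec.seq e1 (Exec.seq e2 e3)).cast ?_⟩
        · have := hQ (N + P.eval N) X (cons k v) hX' hv'
          rw [List.length_replicate]
          omega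
        · funext r
          by_cases h1 : r = base + 1
          · subst h1
            simp only [Function.update_self, I, s₁, List.reverse_replicate]
            rw [Function.update_of_ne (by omega), Function.update_self,
              List.replicate_append_replicate]
            congr 1
            rw [Finset.sum_eq_sum_Ico_succ_bot hk]
          · by_cases h2 : r = base + 2
            · subst h2
              simp [I, hfree (base + 2) (by omega)]
            · simp [I, s₁, h1, h2])
    have hIn : I n = update s base (replicate n true) := by
      simp only [I, Finset.Ico_self, Finset.sum_empty, List.replicate_zero]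
      funext r
      by_cases h1 : r = base + 1
      · subst h1; simp [hfree (base + 1) (by omega)]
      · simp [h1]
    rw [hIn] at e₂
    have hval : (Exp.sum a b).eval X v = ∑ i ∈ Finset.Ico 0 n, b.eval X (cons i v) := by
      simp [Exp.eval, hn]
    have e₃ := exec_moveB (a := base + 1) (b := base) (by omega)
      (replicate ((Exp.sum a b).eval X v) true) (I 0) (by
        rw [hval]
        simp [I])
    refine ⟨_, ?_, (Exec.seq e₁ (Exec.seq e₂ e₃)).cast ?_⟩
    · simp only [Polynomial.eval_add, Polynomial.eval_mul, Polynomial.eval_one,
        Polynomial.eval_comp, Polynomial.eval_X, Polynomial.eval_ofNat, List.length_replicate]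
      have h5 := hR N X v hX hv
      have h6 : n * (1 + (T₂.eval (N + P.eval N) + (6 * Q.eval (N + P.eval N) + 1)) + 2) ≤
          P.eval N * (1 + T₂.eval (N + P.eval N) + (6 * Q.eval (N + P.eval N) + 1) + 2) := by
        rw [← Nat.add_assoc]
        exact Nat.mul_le_mul_right _ hnP
      omega
    · funext r
      by_cases h1 : r = base
      · subst h1
        simp [I]
      · by_cases h2 : r = base + 1
        · subst h2
          simp [I, hfree (base + 1) (by omega)]
        · simp [I, h1, h2]

end Pool.Agent.Helper96
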