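import Pool.Agent.Helper96.Exp

/-!
# Functions whose output bits are given by expressions are polynomial-time computable
-/

set_option autoImplicit false

namespace Pool.Agent.Helper96

open Function (update)
open List (replicate)

/-- The zero environment. -/
def env0 : ℕ → ℕ := fun _ => 0

/-- The output described by a length expression `L`, a filter `E` and a bit expression `B`: the
list of the truth values `B i ≠ 0` for `i < L` with `E i ≠ 0`, in increasing order of `i`. -/
def genOut (L E B : Exp) (X : Bool → List Bool) : List Bool :=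
  ((List.range (L.eval X env0)).filter (fun i => decide (E.eval X (cons i env0) ≠ 0))).map
    (fun i => decide (B.eval X (cons i env0) ≠ 0))

/-- Body of the main loop. -/
def genBody (E B : Exp) : Cmd :=
  .seq (.pop 6) (.seq (E.comp (cons 6 fun _ => 5) 7)
    (.case 7 .skip
      (.seq (clear 7) (.seq (B.comp (cons 6 fun _ => 5) 7)
        (.case 7 (.push 4 false) (.seq (clear 7) (.push 4 true)) .skip)))
      .skip))

/-- The program. -/
def genCmd (L E B : Exp) : Cmd :=
  .seq (moveB 0 2) (.seq (moveB 1 3) (.seq (L.comp (fun _ => 5) 6)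
    (.seq (.loop 6 (genBody E B)) (.seq (clear 2) (clear 3)))))

/-- The store during the main loop. -/
def genStore (X : Bool → List Bool) (k : ℕ) (o : List Bool) : Store := fun r =>
  if r = 2 then X false else if r = 3 then X true else if r = 4 then o else
    if r = 6 then replicate k true else []

theorem exec_genBody (E B : Exp) : ∃ T : Polynomial ℕ, ∀ (N : ℕ) (X : Bool → List Bool),
    (∀ i, (X i).length ≤ N) → ∀ (k : ℕ) (o : List Bool), k ≤ N →
    ∃ t ≤ T.eval N, Exec (genBody E B) (genStore X (k + 1) o) t
      (genStore X k (if E.eval X (cons k env0) ≠ 0 then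
        decide (B.eval X (cons k env0) ≠ 0) :: o else o)) := by
  obtain ⟨T₁, h₁⟩ := E.comp_exec
  obtain ⟨T₂, h₂⟩ := B.comp_exec
  obtain ⟨P₁, hP₁⟩ := E.eval_le
  obtain ⟨P₂, hP₂⟩ := B.eval_le
  refine ⟨1 + T₁ + T₂ + (3 * P₁ + 1) + (3 * P₂ + 1) + 8, fun N X hX k o hk => ?_⟩
  have hv : ∀ i, cons k env0 i ≤ N := by
    intro i
    cases i with
    | zero => exact hk
    | succ i => exact Nat.zero_le _
  have hxreg : ∀ i, xreg i < 7 := by
    intro i; cases i <;> simp [xreg]
  have hρ : ∀ i, cons 6 (fun _ => 5) i < 7 := by
    intro i
    cases i with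
    | zero => rw [cons_zero]; omega
    | succ i => rw [cons_succ]; omega
  have e1 : Exec (.pop 6) (genStore X (k + 1) o) 1 (genStore X k o) := by
    refine (Exec.pop 6 _).cast ?_
    funext r
    by_cases h6 : r = 6
    · subst h6; simp [genStore, List.replicate_succ]
    · simp [genStore, h6]
  have hs : ∀ i, genStore X k o (cons 6 (fun _ => 5) i) = replicate (cons k env0 i) true := by
    intro i
    cases i with
    | zero => simp [genStore]
    | succ i => simp [genStore, env0]
  have hsX : ∀ i, genStore X k o (xreg i) = X i := by
    intro i; cases i <;> simp [genStore, xreg]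
  have hfree : ∀ r, 7 ≤ r → genStore X k o r = [] := by
    intro r hr
    unfold genStore
    rw [if_neg (by omega), if_neg (by omega), if_neg (by omega), if_neg (by omega)]
  obtain ⟨t₂, ht₂, e2⟩ := h₁ N X (cons k env0) hX hv (cons 6 fun _ => 5) 7 (genStore X k o)
    hρ hxreg hs hsX hfree
  have hle₁ := hP₁ N X (cons k env0) hX hv
  have hle₂ := hP₂ N X (cons k env0) hX hv
  rcases Nat.eq_zero_or_pos (E.eval X (cons k env0)) with h0 | hpos
  · rw [h0] at e2
    rw [if_neg (by simp [h0])]
    have e3 : Exec (.case 7 .skip (.seq (clear 7) (.seq (B.comp (cons 6 fun _ => 5) 7)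
        (.case 7 (.push 4 false) (.seq (clear 7) (.push 4 true)) .skip))) .skip)
        (update (genStore X k o) 7 (replicate 0 true)) (0 + 2) (genStore X k o) := by
      refine (Exec.caseE (by simp) (Exec.skip _)).cast ?_
      funext r
      by_cases h7 : r = 7
      · subst h7; simp [hfree 7 le_rfl]
      · simp [h7]
    refine ⟨_, ?_, Exec.seq e1 (Exec.seq e2 e3)⟩
    simp only [Polynomial.eval_add, Polynomial.eval_mul, Polynomial.eval_one,
      Polynomial.eval_ofNat]
    omega
  · obtain ⟨m, hm⟩ : ∃ m, E.eval X (cons k env0) = m + 1 := ⟨_, (Nat.succ_pred hpos.ne').symm⟩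
    rw [if_pos hpos.ne']
    have hc1 := exec_clear (r := 7) (replicate (E.eval X (cons k env0)) true)
      (update (genStore X k o) 7 (replicate (E.eval X (cons k env0)) true)) (by simp)
    have hupd : (update (update (genStore X k o) 7
        (replicate (E.eval X (cons k env0)) true)) 7 [] : Store) = genStore X k o := by
      funext r
      by_cases h7 : r = 7
      · subst h7; simp [hfree 7 le_rfl]
      · simp [h7]
    rw [hupd] at hc1
    obtain ⟨t₄, ht₄, e4⟩ := h₂ N X (cons k env0) hX hv (cons 6 fun _ => 5) 7 (genStore X k o)
      hρ hxreg hs hsX hfree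
    have e5 : ∃ t ≤ (3 * B.eval X (cons k env0) + 1) + 3,
        Exec (.case 7 (.push 4 false) (.seq (clear 7) (.push 4 true)) .skip)
        (update (genStore X k o) 7 (replicate (B.eval X (cons k env0)) true)) t
        (genStore X k (decide (B.eval X (cons k env0) ≠ 0) :: o)) := by
      rcases Nat.eq_zero_or_pos (B.eval X (cons k env0)) with h0 | hpos
      · rw [h0]
        refine ⟨1 + 2, by omega, (Exec.caseE (by simp) (Exec.push 4 false _)).cast ?_⟩
        funext r
        by_cases h4 : r = 4
        · subst h4; simp [genStore]
        · by_cases h7 : r = 7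
          · subst h7; simp [genStore]
          · simp [genStore, h4, h7]
      · obtain ⟨m', hm'⟩ : ∃ m', B.eval X (cons k env0) = m' + 1 :=
          ⟨_, (Nat.succ_pred hpos.ne').symm⟩
        have hc2 := exec_clear (r := 7) (replicate (B.eval X (cons k env0)) true)
          (update (genStore X k o) 7 (replicate (B.eval X (cons k env0)) true)) (by simp)
        refine ⟨_, ?_, (Exec.caseT ?_ (Exec.seq hc2 (Exec.push 4 true _))).cast ?_⟩
        · rw [List.length_replicate]
        · rw [Function.update_self, hm', List.replicate_succ]; rfl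
        · funext r
          by_cases h4 : r = 4
          · subst h4; simp [genStore, hpos.ne']
          · by_cases h7 : r = 7
            · subst h7; simp [genStore]
            · simp [genStore, h4, h7]
    obtain ⟨t₅, ht₅, e5⟩ := e5
    have e6 : Exec (.case 7 .skip (.seq (clear 7) (.seq (B.comp (cons 6 fun _ => 5) 7)
        (.case 7 (.push 4 false) (.seq (clear 7) (.push 4 true)) .skip))) .skip)
        (update (genStore X k o) 7 (replicate (E.eval X (cons k env0)) true))
        ((3 * (replicate (E.eval X (cons k env0)) true).length + 1) + (t₄ + t₅) + 2)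
        (genStore X k (decide (B.eval X (cons k env0) ≠ 0) :: o)) := by
      refine Exec.caseT ?_ (Exec.seq hc1 (Exec.seq e4 e5))
      rw [Function.update_self, hm, List.replicate_succ]; rfl
    refine ⟨_, ?_, Exec.seq e1 (Exec.seq e2 e6)⟩
    rw [List.length_replicate]
    simp only [Polynomial.eval_add, Polynomial.eval_mul, Polynomial.eval_one,
      Polynomial.eval_ofNat]
    omega

theorem exec_genCmd (L E B : Exp) : ∃ T : Polynomial ℕ, ∀ (N : ℕ) (X : Bool → List Bool),
    (∀ i, (X i).length ≤ N) →
    ∃ t ≤ T.eval N, Exec (genCmd L E B) (initStore (X false) (X true)) t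
      (update (fun _ => []) 4 (genOut L E B X)) := by
  obtain ⟨T₁, h₁⟩ := L.comp_exec
  obtain ⟨P, hP⟩ := L.eval_le
  obtain ⟨T₂, h₂⟩ := exec_genBody E B
  refine ⟨(6 * Polynomial.X + 1) + (6 * Polynomial.X + 1) + T₁ +
    (P * (T₂.comp (Polynomial.X + P) + 2) + 1) + (3 * Polynomial.X + 1) +
    (3 * Polynomial.X + 1), fun N X hX => ?_⟩
  have hxreg : ∀ i, xreg i < 6 := by
    intro i; cases i <;> simp [xreg]
  -- moving the inputs
  have e1 := exec_moveB (a := 0) (b := 2) (by omega) (X false).reverse
    (initStore (X false) (X true)) (by simp [initStore])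
  have e2 := exec_moveB (a := 1) (b := 3) (by omega) (X true).reverse
    (update (update (initStore (X false) (X true)) 0 []) 2
      ((X false).reverse.reverse ++ (initStore (X false) (X true)) 2)) (by simp [initStore])
  have hs0 : (update (update (update (update (initStore (X false) (X true)) 0 []) 2
      ((X false).reverse.reverse ++ (initStore (X false) (X true)) 2)) 1 []) 3
      ((X true).reverse.reverse ++ (update (update (initStore (X false) (X true)) 0 []) 2
      ((X false).reverse.reverse ++ (initStore (X false) (X true)) 2)) 3) : Store) =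
      genStore X 0 [] := by
    funext r
    by_cases r3 : r = 3
    · subst r3; simp [genStore, initStore]
    · by_cases r1 : r = 1
      · subst r1; simp [genStore]
      · by_cases r2 : r = 2
        · subst r2; simp [genStore, initStore]
        · by_cases r0 : r = 0
          · subst r0; simp [genStore]
          · simp [genStore, initStore, r0, r1, r2, r3]
  rw [hs0] at e2
  obtain ⟨t₃, ht₃, e3⟩ := h₁ N X env0 hX (fun _ => Nat.zero_le _) (fun _ => 5) 6
    (genStore X 0 []) (fun _ => by omega) hxreg (fun _ => by simp [genStore, env0])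
    (fun i => by cases i <;> simp [genStore, xreg])
    (fun r hr => by
      unfold genStore
      rw [if_neg (by omega), if_neg (by omega), if_neg (by omega)]
      simp)
  set n := L.eval X env0 with hn
  have hnP : n ≤ P.eval N := hP N X env0 hX (fun _ => Nat.zero_le _)
  have hs1 : (update (genStore X 0 []) 6 (replicate n true) : Store) = genStore X n [] := by
    funext r
    by_cases h6 : r = 6
    · subst h6; simp [genStore]
    · simp [genStore, h6]
  rw [hs1] at e3
  let out : ℕ → List Bool := fun k =>
    ((List.range' k (n - k)).filter (fun i => decide (E.eval X (cons i env0) ≠ 0))).map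
      (fun i => decide (B.eval X (cons i env0) ≠ 0))
  have hout : ∀ k < n, out k = if E.eval X (cons k env0) ≠ 0 then
      decide (B.eval X (cons k env0) ≠ 0) :: out (k + 1) else out (k + 1) := by
    intro k hk
    have h1 : n - k = (n - (k + 1)) + 1 := by omega
    simp only [out]
    rw [h1, List.range'_succ, List.filter_cons]
    by_cases hE : E.eval X (cons k env0) ≠ 0
    · simp [hE]
    · simp [hE]
  have hX' : ∀ i, (X i).length ≤ N + P.eval N := fun i => (hX i).trans (by omega)
  obtain ⟨t₄, ht₄, e4⟩ := exec_loop (r := 6) (c := genBody E B) (T := T₂.eval (N + P.eval N))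
    (fun k => genStore X k (out k)) (by simp [genStore]) n (by
      intro k hk
      refine ⟨by simp [genStore, List.replicate_succ], ?_⟩
      obtain ⟨t, ht, e⟩ := h₂ (N + P.eval N) X hX' k (out (k + 1)) (by omega)
      rw [← hout k hk] at e
      exact ⟨t, ht, e⟩)
  have houtn : out n = [] := by simp [out]
  simp only [houtn] at e4
  have e5 := exec_clear (r := 2) (X false) (genStore X 0 (out 0)) (by simp [genStore])
  have e6 := exec_clear (r := 3) (X true) (update (genStore X 0 (out 0)) 2 [])
    (by simp [genStore])
  refine ⟨_, ?_, (Exec.seq e1 (Exec.seq e2 (Exec.seq e3 (Exec.seq e4 (Exec.seq e5 e6))))).cast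
    ?_⟩
  · simp only [Polynomial.eval_add, Polynomial.eval_mul, Polynomial.eval_one,
      Polynomial.eval_ofNat, Polynomial.eval_X, Polynomial.eval_comp, List.length_reverse]
    have h5 := hX false
    have h6 := hX true
    have h7 : n * (T₂.eval (N + P.eval N) + 2) ≤ P.eval N * (T₂.eval (N + P.eval N) + 2) :=
      Nat.mul_le_mul_right _ hnP
    omega
  · have h0 : out 0 = genOut L E B X := by
      simp only [out, genOut, Nat.sub_zero, List.range_eq_range', ← hn]
    funext r
    by_cases r3 : r = 3
    · subst r3; simp
    · by_cases r2 : r = 2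
      · subst r2; simp
      · by_cases r4 : r = 4
        · subst r4; simp [genStore, h0]
        · simp [genStore, r2, r3, r4]

/-- Functions whose output is described by expressions are polynomial-time computable. -/
theorem polyTime_gen {α β Γ₀ : Type} [Fintype Γ₀] (tag : Γ₀ → Bool × Bool)
    (ea : α → List Γ₀) (eb : β → List Bool) (f : α → β) (L E B : Exp)
    (h : ∀ a, eb (f a) = genOut L E B (fun i => proj tag i (ea a))) : PolyTime ea eb f := by
  obtain ⟨T, hT⟩ := exec_genCmd L E B
  refine polyTime_of_exec tag ea eb f (genCmd L E B) 4 T fun a => ?_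
  rw [h a]
  exact hT (ea a).length (fun i => proj tag i (ea a)) (fun i => List.length_filterMap_le _ _)

end Pool.Agent.Helper96
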