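import Pool.Agent.Helper96.Calc

/-!
# Generic reducibility: dyadic densities and assembly of an enumeration operator
-/

set_option autoImplicit false

namespace Pool.Agent.Helper96.Igusa

open Filter Calc

/-- Number of elements of `C` in the dyadic interval `[2^t, 2^(t+1))`. -/
noncomputable def cnt (C : Set ℕ) (t : ℕ) : ℕ := (C ∩ Set.Ico (2 ^ t) (2 ^ (t + 1))).ncard

/-- Density zero, in dyadic form. -/
def Z0 (C : Set ℕ) : Prop := ∀ n : ℕ, ∃ T, ∀ t ≥ T, (n + 1) * cnt C t ≤ 2 ^ t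

theorem cnt_mono {C D : Set ℕ} (h : C ⊆ D) (t : ℕ) : cnt C t ≤ cnt D t :=
  Set.ncard_le_ncard (Set.inter_subset_inter_left _ h) ((Set.finite_Ico _ _).inter_of_right _)

theorem cnt_le (C : Set ℕ) (t : ℕ) : cnt C t ≤ 2 ^ t := by
  have h : cnt C t ≤ (Set.Ico (2 ^ t) (2 ^ (t + 1))).ncard :=
    Set.ncard_le_ncard Set.inter_subset_right (Set.finite_Ico _ _)
  rw [Set.ncard_eq_toFinset_card', Set.toFinset_Ico, Nat.card_Ico, pow_succ] at h
  omega

theorem Z0.mono {C D : Set ℕ} (hD : Z0 D) (h : C ⊆ D) : Z0 C := by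
  intro n
  obtain ⟨T, hT⟩ := hD n
  exact ⟨T, fun t ht => (Nat.mul_le_mul_left _ (cnt_mono h t)).trans (hT t ht)⟩

theorem cnt_union_le (C D : Set ℕ) (t : ℕ) : cnt (C ∪ D) t ≤ cnt C t + cnt D t := by
  unfold cnt
  rw [Set.union_inter_distrib_right]
  exact Set.ncard_union_le _ _

theorem Z0.union {C D : Set ℕ} (hC : Z0 C) (hD : Z0 D) : Z0 (C ∪ D) := by
  intro n
  obtain ⟨T₁, h₁⟩ := hC (2 * n + 1)
  obtain ⟨T₂, h₂⟩ := hD (2 * n + 1)
  refine ⟨max T₁ T₂, fun t ht => ?_⟩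
  have h3 := h₁ t ((le_max_left _ _).trans ht)
  have h4 := h₂ t ((le_max_right _ _).trans ht)
  have h5 := cnt_union_le C D t
  nlinarith

theorem ncard_Iio_compl (S : Set ℕ) (m : ℕ) :
    (S ∩ Set.Iio m).ncard + (Sᶜ ∩ Set.Iio m).ncard = m := by
  have h1 : Disjoint (S ∩ Set.Iio m) (Sᶜ ∩ Set.Iio m) := by
    rw [Set.disjoint_left]
    rintro x ⟨hx, -⟩ ⟨hx', -⟩
    exact hx' hx
  rw [← Set.ncard_union_eq h1 ((Set.finite_Iio m).inter_of_right _)
    ((Set.finite_Iio m).inter_of_right _), ← Set.union_inter_distrib_right,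
    Set.union_compl_self, Set.univ_inter, Set.ncard_eq_toFinset_card']
  simp

theorem ncard_Iio_succ (C : Set ℕ) (t : ℕ) :
    (C ∩ Set.Iio (2 ^ (t + 1))).ncard = (C ∩ Set.Iio (2 ^ t)).ncard + cnt C t := by
  have h1 : Disjoint (C ∩ Set.Iio (2 ^ t)) (C ∩ Set.Ico (2 ^ t) (2 ^ (t + 1))) := by
    rw [Set.disjoint_left]
    rintro x ⟨-, hx⟩ ⟨-, hx', -⟩
    exact absurd hx (not_lt.2 hx')
  unfold cnt
  rw [← Set.ncard_union_eq h1 ((Set.finite_Iio _).inter_of_right _)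
    ((Set.finite_Ico _ _).inter_of_right _), ← Set.inter_union_distrib_left]
  congr 2
  ext x
  simp only [Set.mem_Iio, Set.mem_union, Set.mem_Ico]
  have : 2 ^ t < 2 ^ (t + 1) := Nat.pow_lt_pow_right (by norm_num) (Nat.lt_succ_self t)
  omega

/-- A set has asymptotic density `1` iff its complement has dyadic density `0`. -/
theorem dens_iff (S : Set ℕ) :
    Tendsto (fun m : ℕ => (((S ∩ Set.Iio m).ncard : ℝ) / (m : ℝ))) atTop (nhds 1) ↔ Z0 Sᶜ := by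
  constructor
  · intro h n
    have hε : (0 : ℝ) < 1 / (2 * (n + 1)) := by positivity
    have h1 := (h.eventually (lt_mem_nhds (show (1 : ℝ) - 1 / (2 * (n + 1)) < 1 by linarith)))
    obtain ⟨M, hM⟩ := eventually_atTop.1 h1
    refine ⟨M, fun t ht => ?_⟩
    have hm : M ≤ 2 ^ (t + 1) := ht.trans ((Nat.lt_two_pow_self (n := t)).le.trans
      (Nat.pow_le_pow_right (by norm_num) (Nat.le_succ t)))
    have h2 := hM _ hm
    have h3 := ncard_Iio_compl S (2 ^ (t + 1))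
    have h4 := ncard_Iio_succ Sᶜ t
    have hpos : (0 : ℝ) < ((2 ^ (t + 1) : ℕ) : ℝ) := by positivity
    rw [lt_div_iff₀ hpos] at h2
    have h5 : (cnt Sᶜ t : ℝ) ≤ ((Sᶜ ∩ Set.Iio (2 ^ (t + 1))).ncard : ℝ) := by
      exact_mod_cast (by omega : cnt Sᶜ t ≤ (Sᶜ ∩ Set.Iio (2 ^ (t + 1))).ncard)
    have h6 : ((S ∩ Set.Iio (2 ^ (t + 1))).ncard : ℝ) + ((Sᶜ ∩ Set.Iio (2 ^ (t + 1))).ncard : ℝ)
        = ((2 ^ (t + 1) : ℕ) : ℝ) := by exact_mod_cast h3
    have h7 : (cnt Sᶜ t : ℝ) < 1 / (2 * (n + 1)) * ((2 ^ (t + 1) : ℕ) : ℝ) := by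
      have : (1 - 1 / (2 * ((n : ℝ) + 1))) * ((2 ^ (t + 1) : ℕ) : ℝ) =
        ((2 ^ (t + 1) : ℕ) : ℝ) - 1 / (2 * (n + 1)) * ((2 ^ (t + 1) : ℕ) : ℝ) := by ring
      rw [this] at h2
      linarith
    have h8 : (1 : ℝ) / (2 * (n + 1)) * ((2 ^ (t + 1) : ℕ) : ℝ) = (2 ^ t : ℕ) / (n + 1) := by
      push_cast
      rw [pow_succ]
      field_simp
    rw [h8, lt_div_iff₀ (by positivity)] at h7
    have h9 : ((n + 1) * cnt Sᶜ t : ℕ) < (2 ^ t : ℕ) := by
      have : (((n + 1) * cnt Sᶜ t : ℕ) : ℝ) < ((2 ^ t : ℕ) : ℝ) := by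
        push_cast
        push_cast at h7
        linarith
      exact_mod_cast this
    exact h9.le
  · intro h
    rw [Metric.tendsto_atTop]
    intro ε hε
    obtain ⟨n, hn⟩ := exists_nat_gt (4 / ε)
    obtain ⟨T, hT⟩ := h n
    have key : ∀ t ≥ T, (n + 1) * (Sᶜ ∩ Set.Iio (2 ^ t)).ncard ≤ (n + 1) * 2 ^ T + 2 ^ t := by
      intro t ht
      induction t, ht using Nat.le_induction with
      | base =>
        have h1 : (Sᶜ ∩ Set.Iio (2 ^ T)).ncard ≤ 2 ^ T := by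
          have := ncard_Iio_compl S (2 ^ T)
          omega
        have := Nat.mul_le_mul_left (n + 1) h1
        omega
      | succ t ht ih =>
        rw [ncard_Iio_succ, Nat.mul_add]
        have h1 := hT t ht
        rw [pow_succ]
        omega
    refine ⟨(n + 1) * 2 ^ T + 1, fun m hm => ?_⟩
    have hm0 : 0 < m := by omega
    have hmR : (0 : ℝ) < m := by exact_mod_cast hm0
    set t := Nat.log 2 m with htdef
    have ht1 : 2 ^ t ≤ m := Nat.pow_log_le_self 2 hm0.ne'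
    have ht2 : m < 2 ^ (t + 1) := Nat.lt_pow_succ_log_self (by norm_num) m
    have htT : T ≤ t := by
      by_contra hlt
      have : 2 ^ (t + 1) ≤ 2 ^ T := Nat.pow_le_pow_right (by norm_num) (by omega)
      have h2 : 2 ^ T ≤ (n + 1) * 2 ^ T := Nat.le_mul_of_pos_left _ (Nat.succ_pos n)
      omega
    have h1 := key (t + 1) (by omega)
    have h2 : (Sᶜ ∩ Set.Iio m).ncard ≤ (Sᶜ ∩ Set.Iio (2 ^ (t + 1))).ncard :=
      Set.ncard_le_ncard (Set.inter_subset_inter_right _ (Set.Iio_subset_Iio ht2.le))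
        ((Set.finite_Iio _).inter_of_right _)
    have h3 : (n + 1) * (Sᶜ ∩ Set.Iio m).ncard ≤ 3 * m := by
      have h9 := Nat.mul_le_mul_left (n + 1) h2
      have hp : 2 ^ (t + 1) = 2 * 2 ^ t := by rw [pow_succ]; ring
      omega
    have h4 := ncard_Iio_compl S m
    have h5 : ((S ∩ Set.Iio m).ncard : ℝ) + ((Sᶜ ∩ Set.Iio m).ncard : ℝ) = m := by
      exact_mod_cast h4
    have h6 : ((n : ℝ) + 1) * ((Sᶜ ∩ Set.Iio m).ncard : ℝ) ≤ 3 * m := by exact_mod_cast h3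
    have h7 : ((S ∩ Set.Iio m).ncard : ℝ) / m - 1 = -(((Sᶜ ∩ Set.Iio m).ncard : ℝ) / m) := by
      field_simp
      linarith
    rw [Real.dist_eq, h7, abs_neg, abs_of_nonneg (by positivity), div_lt_iff₀ hmR]
    have hnε : 4 < ε * (n + 1) := by
      rw [div_lt_iff₀ hε] at hn
      nlinarith
    have hn1 : (0 : ℝ) < n + 1 := by positivity
    have h8 : ((Sᶜ ∩ Set.Iio m).ncard : ℝ) ≤ 3 * m / (n + 1) := by
      rw [le_div_iff₀ hn1]
      linarith
    refine lt_of_le_of_lt h8 ?_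
    rw [div_lt_iff₀ hn1]
    nlinarith

/-- The graph of (the characteristic function of) `A`. -/
def graph (A : Set ℕ) : Set ℕ :=
  {z | ∃ n j : ℕ, z = Nat.pair n j ∧ ((j = 1 ∧ n ∈ A) ∨ (j = 0 ∧ n ∉ A))}

/-- The domain of a description. -/
def domX (X : Set ℕ) : Set ℕ := {n | ∃ j : ℕ, Nat.pair n j ∈ X}

/-- `X` is a generic description of `A`. -/
def Desc (A X : Set ℕ) : Prop := X ⊆ graph A ∧ Z0 (domX X)ᶜ

theorem mem_graph {A : Set ℕ} {n j : ℕ} :
    Nat.pair n j ∈ graph A ↔ (j = 1 ∧ n ∈ A) ∨ (j = 0 ∧ n ∉ A) := by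
  constructor
  · rintro ⟨n', j', h, h'⟩
    have h1 := Nat.pair_eq_pair.1 h
    rw [h1.1, h1.2]
    exact h'
  · intro h
    exact ⟨n, j, rfl, h⟩

theorem domX_graph (A : Set ℕ) : domX (graph A) = Set.univ := by
  ext n
  simp only [domX, Set.mem_ofPred_eq, Set.mem_univ, iff_true]
  by_cases h : n ∈ A
  · exact ⟨1, mem_graph.2 (Or.inl ⟨rfl, h⟩)⟩
  · exact ⟨0, mem_graph.2 (Or.inr ⟨rfl, h⟩)⟩

theorem cnt_empty (t : ℕ) : cnt ∅ t = 0 := by simp [cnt]

theorem desc_graph (A : Set ℕ) : Desc A (graph A) := by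
  refine ⟨subset_rfl, ?_⟩
  rw [domX_graph, Set.compl_univ]
  intro n
  exact ⟨0, fun t _ => by rw [cnt_empty]; simp⟩

/-- The output of the operator given by outright enumerations `R0` and one-element axioms `R1`. -/
def out (R0 : ℕ → Prop) (R1 : ℕ → ℕ → ℕ → Prop) (X : Set ℕ) : Set ℕ :=
  {x | R0 x ∨ ∃ m b, Nat.pair m b ∈ X ∧ R1 x m b}

theorem out_mono {R0 : ℕ → Prop} {R1 : ℕ → ℕ → ℕ → Prop} {X Y : Set ℕ} (h : X ⊆ Y) :
    out R0 R1 X ⊆ out R0 R1 Y := by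
  rintro x (hx | ⟨m, b, h1, h2⟩)
  · exact Or.inl hx
  · exact Or.inr ⟨m, b, h h1, h2⟩

/-- The conclusion of the theorem. -/
def Concl (A : Set ℕ) : Prop :=
  ∃ B : Set ℕ,
    (∃ W : ℕ × List ℕ → Prop, REPred W ∧
      ∀ X : Set ℕ,
        ((∀ x ∈ X, ∃ n j : ℕ, x = Nat.pair n j ∧ ((j = 1 ∧ n ∈ A) ∨ (j = 0 ∧ n ∉ A))) ∧
          Tendsto (fun m : ℕ =>
            ((({n : ℕ | ∃ j : ℕ, Nat.pair n j ∈ X} ∩ Set.Iio m).ncard : ℝ) / (m : ℝ)))
            atTop (nhds 1)) →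
        ((∀ x ∈ {y : ℕ | ∃ l : List ℕ, (∀ z ∈ l, z ∈ X) ∧ W (y, l)},
            ∃ n j : ℕ, x = Nat.pair n j ∧ ((j = 1 ∧ n ∈ B) ∨ (j = 0 ∧ n ∉ B))) ∧
          Tendsto (fun m : ℕ =>
            ((({n : ℕ | ∃ j : ℕ, Nat.pair n j ∈
                {y : ℕ | ∃ l : List ℕ, (∀ z ∈ l, z ∈ X) ∧ W (y, l)}} ∩ Set.Iio m).ncard : ℝ)
              / (m : ℝ)))
            atTop (nhds 1))) ∧
    (¬ ∃ φ : ℕ →. Bool, Partrec φ ∧
      (∀ n : ℕ, ∀ b ∈ φ n, (b = true ↔ n ∈ B)) ∧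
      Tendsto (fun m : ℕ => ((({n : ℕ | (φ n).Dom} ∩ Set.Iio m).ncard : ℝ) / (m : ℝ)))
        atTop (nhds 1)) ∧
    Tendsto (fun m : ℕ => (((B ∩ Set.Iio m).ncard : ℝ) / (m : ℝ))) atTop (nhds 1)

/-- Assembly of the operator. -/
theorem assemble (A : Set ℕ) (R0 : ℕ → Prop) (R1 : ℕ → ℕ → ℕ → Prop)
    (h0 : Rp fun v => R0 (gt v 0)) (h1 : Rp fun v => R1 (gt v 0) (gt v 1) (gt v 2))
    (hd : ∀ X, Desc A X → Z0 (out R0 R1 X)ᶜ)
    (hv : ∀ e, (∀ x s, enumBy e s x → x ∈ out R0 R1 (graph A)) →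
      ¬ Z0 {x | ∃ s, enumBy e s x}ᶜ) : Concl A := by
  -- the operator
  let W : ℕ × List ℕ → Prop := fun p => p.1.unpair.2 = 1 ∧
    (R0 p.1.unpair.1 ∨ (p.2.length ≠ 0 ∧
      R1 p.1.unpair.1 (gt p.2 0).unpair.1 (gt p.2 0).unpair.2))
  have hW : REPred W := by
    have hz : Cf fun v => gt v 1 := Cf.var 1
    have hx : Cf fun v => (gt v 0).unpair.1 := (Cf.var 0).unpair1
    have e1 : Rp fun v => (gt v 0).unpair.2 = 1 :=
      Rp.of_cp (Cp.eq (Cf.var 0).unpair2 (Cf.const 1))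
    have e2 : Rp fun v => R0 (gt v 0).unpair.1 := Rp.sub1 (F := R0) h0 hx
    have e3 : Rp fun v : List ℕ => v.length - 1 ≠ 0 :=
      Rp.of_cp (Cp.of_ne_zero (Cf.length.sub (Cf.const 1)))
    have e4 : Rp fun v => R1 (gt v 0).unpair.1 (gt v 1).unpair.1 (gt v 1).unpair.2 :=
      Rp.comp h1 (Cf.cons hx (Cf.cons hz.unpair1 (Cf.cons hz.unpair2 Cf.nil)))
    have e5 := (e1.and (e2.or (e3.and e4))).rePred (G := fun p : ℕ × List ℕ => p.1 :: p.2)
      (Computable.list_cons.comp Computable.fst Computable.snd)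
    exact e5.of_eq fun p => Iff.rfl
  have hWout : ∀ X : Set ℕ, ∀ y, (∃ l : List ℕ, (∀ z ∈ l, z ∈ X) ∧ W (y, l)) ↔
      y.unpair.2 = 1 ∧ y.unpair.1 ∈ out R0 R1 X := by
    intro X y
    constructor
    · rintro ⟨l, hl, hy, h | ⟨hlen, h⟩⟩
      · exact ⟨hy, Or.inl h⟩
      · refine ⟨hy, Or.inr ⟨_, _, ?_, h⟩⟩
        rw [Nat.pair_unpair]
        apply hl
        simp only at hlen ⊢
        cases l with
        | nil => exact absurd rfl hlen
        | cons a l => simp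
    · rintro ⟨hy, h | ⟨m, b, hX, h⟩⟩
      · exact ⟨[], by simp, hy, Or.inl h⟩
      · refine ⟨[Nat.pair m b], by simpa using hX, hy, Or.inr ⟨by simp, ?_⟩⟩
        simpa using h
  refine ⟨out R0 R1 (graph A), ⟨W, hW, ?_⟩, ?_, ?_⟩
  · rintro X ⟨hX1, hX2⟩
    have hX : Desc A X := ⟨hX1, (dens_iff _).1 hX2⟩
    refine ⟨?_, ?_⟩
    · intro y hy
      rw [Set.mem_ofPred_eq, hWout] at hy
      refine ⟨y.unpair.1, 1, ?_, Or.inl ⟨rfl, out_mono hX.1 hy.2⟩⟩
      rw [← hy.1, Nat.pair_unpair]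
    · rw [dens_iff]
      refine (hd X hX).mono ?_
      intro x hx hx'
      apply hx
      refine ⟨1, ?_⟩
      rw [Set.mem_ofPred_eq, hWout]
      simpa using hx'
  · rintro ⟨φ, hφ, hφ1, hφ2⟩
    -- the set `{x | true ∈ φ x}` is the domain of a code
    let ψ : ℕ →. ℕ := fun x => (φ x).bind fun b => cond b (Part.some 0) Part.none
    have hψ : Partrec ψ := hφ.bind (Partrec.cond Computable.snd (Computable.const 0).partrec
      Partrec.none).to₂
    obtain ⟨c, hc⟩ := Nat.Partrec.Code.exists_code.1 (Partrec.nat_iff.1 hψ)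
    have hdom : ∀ x, (∃ s, enumBy (Encodable.encode c) s x) ↔ true ∈ φ x := by
      intro x
      rw [exists_enumBy, Denumerable.ofNat_encode, hc, Part.dom_iff_mem]
      simp only [ψ, Part.mem_bind_iff]
      constructor
      · rintro ⟨y, b, hb, hy⟩
        cases b with
        | true => exact hb
        | false => exact absurd hy (Part.notMem_none y)
      · intro h
        exact ⟨0, true, h, Part.mem_some 0⟩
    refine hv (Encodable.encode c) ?_ ?_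
    · intro x s hs
      have := (hdom x).1 ⟨s, hs⟩
      exact (hφ1 x true this).1 rfl
    · have h2 := (dens_iff _).1 hφ2
      have h3 := hd _ (desc_graph A)
      refine (h2.union h3).mono ?_
      intro x hx
      by_contra hn
      rw [Set.mem_union, not_or] at hn
      have h4 : (φ x).Dom := by
        by_contra h; exact hn.1 h
      have h5 : x ∈ out R0 R1 (graph A) := by
        by_contra h; exact hn.2 h
      apply hx
      rw [Set.mem_ofPred_eq, hdom]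
      have h6 := Part.get_mem h4
      have h7 := (hφ1 x _ h6).2 h5
      rw [h7] at h6
      exact h6
  · rw [dens_iff]
    exact hd _ (desc_graph A)

end Pool.Agent.Helper96.Igusa
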