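import Pool.Agent.Helper96.Igusa1

/-!
# The case of a set coarsely equal to a limit computable set
-/

set_option autoImplicit false
set_option linter.unusedSectionVars false

namespace Pool.Agent.Helper96.Igusa

open Filter Calc

/-- Fibres of the label map. -/
theorem cnt_label (D : Set ℕ) {k t : ℕ} (h : k ≤ t) :
    cnt {x | 2 ^ k + x % 2 ^ k ∈ D} t = 2 ^ (t - k) * cnt D k := by
  have hk : 0 < 2 ^ k := by positivity
  have ht : 2 ^ t = 2 ^ (t - k) * 2 ^ k := by rw [← pow_add]; congr 1; omega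
  have hmod : ∀ q r, (2 ^ t + q * 2 ^ k + r) % 2 ^ k = r % 2 ^ k := by
    intro q r
    rw [ht, ← Nat.add_mul, Nat.add_comm, Nat.add_mul_mod_self_right]
  have himg : ({x | 2 ^ k + x % 2 ^ k ∈ D} ∩ Set.Ico (2 ^ t) (2 ^ (t + 1)) : Set ℕ) =
      (fun p : ℕ × ℕ => 2 ^ t + p.2 * 2 ^ k + (p.1 - 2 ^ k)) ''
        ((D ∩ Set.Ico (2 ^ k) (2 ^ (k + 1))) ×ˢ Set.Iio (2 ^ (t - k))) := by
    ext x
    simp only [Set.mem_inter_iff, Set.mem_ofPred_eq, Set.mem_Ico, Set.mem_image, Set.mem_prod,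
      Set.mem_Iio, Prod.exists]
    constructor
    · rintro ⟨hD, h1, h2⟩
      refine ⟨2 ^ k + x % 2 ^ k, (x - 2 ^ t) / 2 ^ k, ⟨⟨hD, ?_, ?_⟩, ?_⟩, ?_⟩
      · omega
      · have := Nat.mod_lt x hk
        rw [pow_succ]; omega
      · apply Nat.div_lt_of_lt_mul
        rw [Nat.mul_comm, ← ht]
        rw [pow_succ] at h2
        omega
      · have h3 : x % 2 ^ k = (x - 2 ^ t) % 2 ^ k := by
          have : x = 2 ^ t + 0 * 2 ^ k + (x - 2 ^ t) := by omega
          conv_lhs => rw [this]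
          exact hmod 0 _
        rw [h3, Nat.add_sub_cancel_left]
        have := Nat.div_add_mod (x - 2 ^ t) (2 ^ k)
        rw [Nat.mul_comm] at this
        omega
    · rintro ⟨m, q, ⟨⟨hD, h1, h2⟩, hq⟩, rfl⟩
      have h3 : m - 2 ^ k < 2 ^ k := by rw [pow_succ] at h2; omega
      refine ⟨?_, by omega, ?_⟩
      · rw [hmod, Nat.mod_eq_of_lt h3]
        have : 2 ^ k + (m - 2 ^ k) = m := by omega
        rw [this]; exact hD
      · have h4 : q * 2 ^ k + 2 ^ k ≤ 2 ^ t := by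
          rw [ht]
          calc q * 2 ^ k + 2 ^ k = (q + 1) * 2 ^ k := by ring
            _ ≤ _ := Nat.mul_le_mul_right _ hq
        rw [pow_succ]
        omega
  have hinj : Set.InjOn (fun p : ℕ × ℕ => 2 ^ t + p.2 * 2 ^ k + (p.1 - 2 ^ k))
      ((D ∩ Set.Ico (2 ^ k) (2 ^ (k + 1))) ×ˢ Set.Iio (2 ^ (t - k))) := by
    rintro ⟨m, q⟩ ⟨⟨-, h1, h2⟩, -⟩ ⟨m', q'⟩ ⟨⟨-, h1', h2'⟩, -⟩ heq
    simp only at heq h1 h2 h1' h2'
    have h3 : m - 2 ^ k < 2 ^ k := by rw [pow_succ] at h2; omega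
    have h3' : m' - 2 ^ k < 2 ^ k := by rw [pow_succ] at h2'; omega
    have h4 : m - 2 ^ k = m' - 2 ^ k := by
      have := congrArg (· % 2 ^ k) heq
      simp only [hmod, Nat.mod_eq_of_lt h3, Nat.mod_eq_of_lt h3'] at this
      exact this
    have h5 : q * 2 ^ k = q' * 2 ^ k := by omega
    have h6 : q = q' := Nat.eq_of_mul_eq_mul_right hk h5
    rw [Prod.mk.injEq]
    exact ⟨by omega, h6⟩
  unfold cnt
  rw [himg, Set.ncard_image_of_injOn hinj, Set.ncard_prod, Nat.mul_comm]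
  congr 1
  rw [Set.ncard_eq_toFinset_card']
  simp

section

variable (G : ℕ → ℕ → ℕ)

/-- The approximation on the `k`-th dyadic interval changes between the stages `t` and `s`. -/
def ch (t s k : ℕ) : Prop :=
  ∃ r < s + 1, t < r ∧ ∃ m < 2 ^ (k + 1), 2 ^ k ≤ m ∧ G r m ≠ G t m

/-- The pair treated at time `t`. -/
def pp (t : ℕ) : ℕ := t.unpair.1

/-- The index of the r.e. set treated at time `t`. -/
def ee (t : ℕ) : ℕ := (pp t).unpair.1

/-- The dyadic interval treated at time `t`. -/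
def kk (t : ℕ) : ℕ := (pp t).unpair.2

theorem kk_le (t : ℕ) : kk t ≤ t := (Nat.unpair_right_le _).trans (Nat.unpair_left_le _)

/-- Time `t` is active. -/
def act (t : ℕ) : Prop := ee t ≤ kk t ∧ ∀ t' < t, pp t' = pp t → ch G t' t (kk t)

/-- The level of an element. -/
def lev (x : ℕ) : ℕ := Nat.log 2 x

/-- The label of an element. -/
def lab (x : ℕ) : ℕ := 2 ^ kk (lev x) + x % 2 ^ kk (lev x)

/-- The element has been enumerated before a change, by stage `s`. -/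
def riskyBy (x s : ℕ) : Prop :=
  ∃ r < s + 1, enumBy (ee (lev x)) r x ∧ ¬ ch G (lev x) r (kk (lev x))

/-- Risky elements. -/
def Risky (x : ℕ) : Prop := act G (lev x) ∧ ∃ s, riskyBy G x s

/-- Outright enumerations. -/
def R0 (x : ℕ) : Prop :=
  x = 0 ∨ ¬ act G (lev x) ∨ ∃ s, ch G (lev x) s (kk (lev x)) ∧ ¬ riskyBy G x s

/-- One-element axioms. -/
def R1 (x m b : ℕ) : Prop :=
  (m = lab x ∧ b = G (lev x) m) ∨
    ∃ x' < x, x' ≠ 0 ∧ ee (lev x') = ee (lev x) ∧ Risky G x' ∧ lab x' = m ∧ b ≠ G (lev x') m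

variable {G}

theorem ch_mono {t s s' k : ℕ} (h : s ≤ s') (hc : ch G t s k) : ch G t s' k := by
  obtain ⟨r, hr, h1⟩ := hc
  exact ⟨r, by omega, h1⟩

theorem not_R0_of_risky {x : ℕ} (hx : x ≠ 0) (h : Risky G x) : ¬ R0 G x := by
  rintro (h0 | h0 | ⟨s, hs, hns⟩)
  · exact hx h0
  · exact h0 h.1
  · obtain ⟨-, s', r, -, h1, h2⟩ := h
    apply hns
    refine ⟨r, ?_, h1, h2⟩
    by_contra hlt
    exact h2 (ch_mono (by omega) hs)

theorem risky_of_not_R0 {x : ℕ} (h : ¬ R0 G x) (hch : ∃ s, ch G (lev x) s (kk (lev x))) :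
    Risky G x := by
  unfold R0 at h
  push Not at h
  obtain ⟨s, hs⟩ := hch
  exact ⟨h.2.1, s, h.2.2 s hs⟩

theorem graph_unique {A : Set ℕ} {m b b' : ℕ} (h : Nat.pair m b ∈ graph A)
    (h' : Nat.pair m b' ∈ graph A) : b = b' := by
  rw [mem_graph] at h h'
  rcases h with ⟨h1, h2⟩ | ⟨h1, h2⟩ <;> rcases h' with ⟨h3, h4⟩ | ⟨h3, h4⟩
  · omega
  · exact absurd h2 h4
  · exact absurd h4 h2
  · omega

/-- No mistakes in a set contained in the output. -/
theorem no_mistake {A : Set ℕ} {e : ℕ}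
    (he : ∀ x s, enumBy e s x → x ∈ out (R0 G) (R1 G) (graph A)) :
    ∀ x, x ≠ 0 → ee (lev x) = e → Risky G x →
      Nat.pair (lab x) (G (lev x) (lab x)) ∈ graph A := by
  intro x
  induction x using Nat.strong_induction_on with
  | _ x ih =>
    intro hx hex hr
    obtain ⟨s, r, -, h1, h2⟩ := hr.2
    rw [hex] at h1
    rcases he x r h1 with h | ⟨m, b, hg, ⟨h3, h4⟩ | ⟨x', hlt, h3, h4, h5, h6, h7⟩⟩
    · exact absurd h (not_R0_of_risky hx hr)
    · rw [← h3, ← h4]; exact hg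
    · exfalso
      have h8 := ih x' hlt h3 (h4.trans hex) h5
      rw [h6] at h8
      exact h7 (graph_unique hg h8)

section Limit

variable {Z : ℕ → ℕ} (hZ : ∀ m, ∃ s₀, ∀ s ≥ s₀, G s m = Z m)
include hZ

theorem exists_stable (M : ℕ) : ∃ S, ∀ m < M, ∀ s ≥ S, G s m = Z m := by
  induction M with
  | zero => exact ⟨0, fun m hm => absurd hm (Nat.not_lt_zero m)⟩
  | succ M ih =>
    obtain ⟨S, hS⟩ := ih
    obtain ⟨s₀, hs₀⟩ := hZ M
    refine ⟨max S s₀, fun m hm s hs => ?_⟩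
    rcases Nat.lt_succ_iff_lt_or_eq.1 hm with h | h
    · exact hS m h s ((le_max_left _ _).trans hs)
    · rw [h]; exact hs₀ s ((le_max_right _ _).trans hs)

theorem not_ch_of_stable {k S : ℕ} (hS : ∀ m < 2 ^ (k + 1), ∀ s ≥ S, G s m = Z m) {t : ℕ}
    (ht : S ≤ t) (s : ℕ) : ¬ ch G t s k := by
  rintro ⟨r, -, htr, m, hm, -, hne⟩
  exact hne ((hS m hm r (by omega)).trans (hS m hm t ht).symm)

/-- Active times treat late intervals. -/
theorem act_large (K : ℕ) : ∃ T, ∀ t ≥ T, act G t → K ≤ kk t := by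
  obtain ⟨S, hS⟩ := exists_stable hZ (2 ^ K)
  refine ⟨(Finset.range K ×ˢ Finset.range K).sup
    (fun p => Nat.pair (Nat.pair p.1 p.2) S) + 1, fun t ht hact => ?_⟩
  by_contra hlt
  push Not at hlt
  have he : ee t < K := lt_of_le_of_lt hact.1 hlt
  have h1 : Nat.pair (Nat.pair (ee t) (kk t)) S ≤ (Finset.range K ×ˢ Finset.range K).sup
      (fun p => Nat.pair (Nat.pair p.1 p.2) S) :=
    Finset.le_sup (f := fun p : ℕ × ℕ => Nat.pair (Nat.pair p.1 p.2) S)
      (b := (ee t, kk t)) (Finset.mem_product.2 ⟨Finset.mem_range.2 he, Finset.mem_range.2 hlt⟩)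
  set t₁ := Nat.pair (Nat.pair (ee t) (kk t)) S with ht₁
  have h2 : pp t₁ = pp t := by
    rw [ht₁]
    unfold pp ee kk
    rw [Nat.unpair_pair, Nat.pair_unpair]
    rfl
  have h3 := hact.2 t₁ (by omega) h2
  have h4 : S ≤ t₁ := Nat.right_le_pair _ _
  refine not_ch_of_stable hZ (S := S) ?_ h4 t h3
  intro m hm s hs
  exact hS m (lt_of_lt_of_le hm (Nat.pow_le_pow_right (by norm_num) hlt)) s hs

/-- The last active time for a given pair. -/
theorem exists_final {e k : ℕ} (hek : e ≤ k) :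
    ∃ t, k ≤ t ∧ ee t = e ∧ kk t = k ∧ act G t ∧ ∀ s, ¬ ch G t s k := by
  classical
  obtain ⟨S, hS⟩ := exists_stable hZ (2 ^ (k + 1))
  have hex : ∃ t, pp t = Nat.pair e k ∧ ∀ s, ¬ ch G t s k := by
    refine ⟨Nat.pair (Nat.pair e k) S, by simp [pp], fun s => ?_⟩
    exact not_ch_of_stable hZ hS (Nat.right_le_pair _ _) s
  let t := Nat.find hex
  have ht : pp t = Nat.pair e k ∧ ∀ s, ¬ ch G t s k := Nat.find_spec hex
  have hmin : ∀ t' < t, ¬ (pp t' = Nat.pair e k ∧ ∀ s, ¬ ch G t' s k) :=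
    fun t' h => Nat.find_min hex h
  have he : ee t = e := by unfold ee; rw [ht.1, Nat.unpair_pair]
  have hk : kk t = k := by unfold kk; rw [ht.1, Nat.unpair_pair]
  refine ⟨t, ?_, he, hk, ⟨by rw [he, hk]; exact hek, ?_⟩, ht.2⟩
  · rw [← hk]; exact kk_le t
  · intro t' hlt hp
    rw [hk]
    by_contra hn
    apply hmin t' hlt
    refine ⟨hp.trans ht.1, fun s hs => ?_⟩
    obtain ⟨r, hr, htr, m, hm, hm', hne⟩ := hs
    have hr' : t < r := by
      by_contra hle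
      exact hn ⟨r, by omega, htr, m, hm, hm', hne⟩
    have h1 : G t m = G t' m := by
      by_contra hne'
      exact hn ⟨t, by omega, hlt, m, hm, hm', hne'⟩
    apply ht.2 r
    exact ⟨r, by omega, hr', m, hm, hm', by rw [h1]; exact hne⟩

theorem label_mem (x : ℕ) : lab x < 2 ^ (kk (lev x) + 1) ∧ 2 ^ kk (lev x) ≤ lab x := by
  unfold lab
  have := Nat.mod_lt x (show 0 < 2 ^ kk (lev x) by positivity)
  rw [pow_succ]
  omega

theorem lev_eq {x t : ℕ} (h : x ∈ Set.Ico (2 ^ t) (2 ^ (t + 1))) : lev x = t := by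
  unfold lev
  rw [Nat.log_eq_iff (Or.inr ⟨by norm_num, ?_⟩)]
  · exact ⟨h.1, h.2⟩
  · have : 0 < 2 ^ t := by positivity
    have := h.1
    omega

/-- The basic estimate. -/
theorem cnt_compl_out {A X : Set ℕ} (hX : X ⊆ graph A) {t : ℕ} (hact : act G t) :
    cnt (out (R0 G) (R1 G) X)ᶜ t ≤ 2 ^ (t - kk t) * cnt (domX X)ᶜ (kk t) +
      2 ^ (t - kk t) * cnt {m | Nat.pair m (Z m) ∉ graph A} (kk t) + 1 := by
  have hkt := kk_le t
  rw [← cnt_label _ hkt, ← cnt_label _ hkt]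
  set C₁ : Set ℕ := {x | 2 ^ kk t + x % 2 ^ kk t ∈ (domX X)ᶜ} with hC₁
  set C₂ : Set ℕ := {x | 2 ^ kk t + x % 2 ^ kk t ∈ {m | Nat.pair m (Z m) ∉ graph A}} with hC₂
  set B : Set ℕ := ((out (R0 G) (R1 G) X)ᶜ ∩ Set.Ico (2 ^ t) (2 ^ (t + 1))) \ (C₁ ∪ C₂) with hB
  have hBsub : B.Subsingleton := by
    have hmem : ∀ x ∈ B, Risky G x ∧ ∃ b, Nat.pair (lab x) b ∈ X ∧ b ≠ G (lev x) (lab x) := by
      rintro x ⟨⟨hout, hI⟩, hn⟩
      have hlev : lev x = t := lev_eq hZ hI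
      have hlab : lab x = 2 ^ kk t + x % 2 ^ kk t := by unfold lab; rw [hlev]
      rw [Set.mem_union, not_or] at hn
      have h1 : lab x ∈ domX X := by
        by_contra h
        apply hn.1
        rw [hC₁, Set.mem_ofPred_eq, ← hlab]
        exact h
      have h2 : Nat.pair (lab x) (Z (lab x)) ∈ graph A := by
        by_contra h
        apply hn.2
        rw [hC₂, Set.mem_ofPred_eq, ← hlab]
        exact h
      obtain ⟨b, hb⟩ := h1
      have hR0 : ¬ R0 G x := fun h => hout (Or.inl h)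
      have hne : b ≠ G (lev x) (lab x) := by
        intro h
        exact hout (Or.inr ⟨_, _, hb, Or.inl ⟨rfl, h⟩⟩)
      refine ⟨risky_of_not_R0 hR0 ?_, b, hb, hne⟩
      by_contra hns
      push Not at hns
      apply hne
      have h3 : b = Z (lab x) := graph_unique (hX hb) h2
      rw [h3]
      obtain ⟨s₀, hs₀⟩ := hZ (lab x)
      have h4 := hs₀ (max s₀ (lev x + 1)) (le_max_left _ _)
      rw [← h4]
      by_contra hne'
      have h5 := label_mem hZ x
      exact hns (max s₀ (lev x + 1)) ⟨max s₀ (lev x + 1), Nat.lt_succ_self _,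
        lt_of_lt_of_le (Nat.lt_succ_self _) (le_max_right _ _), lab x, h5.1, h5.2, hne'⟩
    have key : ∀ x ∈ B, ∀ y ∈ B, ¬ x < y := by
      intro x hx y hy hlt
      obtain ⟨hr, b, hb, hne⟩ := hmem x hx
      apply hy.1.1
      refine Or.inr ⟨_, _, hb, Or.inr ⟨x, hlt, ?_, ?_, hr, rfl, hne⟩⟩
      · have := hx.1.2.1
        have : 0 < 2 ^ t := by positivity
        omega
      · rw [lev_eq hZ hx.1.2, lev_eq hZ hy.1.2]
    intro x hx y hy
    rcases lt_trichotomy x y with h | h | h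
    · exact absurd h (key x hx y hy)
    · exact h
    · exact absurd h (key y hy x hx)
  have hcov : (out (R0 G) (R1 G) X)ᶜ ∩ Set.Ico (2 ^ t) (2 ^ (t + 1)) ⊆
      (C₁ ∩ Set.Ico (2 ^ t) (2 ^ (t + 1))) ∪ (C₂ ∩ Set.Ico (2 ^ t) (2 ^ (t + 1))) ∪ B := by
    intro x hx
    by_cases h1 : x ∈ C₁
    · exact Or.inl (Or.inl ⟨h1, hx.2⟩)
    · by_cases h2 : x ∈ C₂
      · exact Or.inl (Or.inr ⟨h2, hx.2⟩)
      · exact Or.inr ⟨hx, fun h => h.elim h1 h2⟩
  have hfinI : (Set.Ico (2 ^ t) (2 ^ (t + 1))).Finite := Set.finite_Ico _ _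
  have hBfin : B.Finite := hBsub.finite
  have hB1 : B.ncard ≤ 1 := by
    rw [Set.ncard_le_one hBfin]
    exact fun a ha b hb => hBsub ha hb
  calc cnt (out (R0 G) (R1 G) X)ᶜ t ≤ ((C₁ ∩ Set.Ico (2 ^ t) (2 ^ (t + 1))) ∪
        (C₂ ∩ Set.Ico (2 ^ t) (2 ^ (t + 1))) ∪ B).ncard :=
        Set.ncard_le_ncard hcov (((hfinI.inter_of_right _).union (hfinI.inter_of_right _)).union
          hBfin)
    _ ≤ ((C₁ ∩ Set.Ico (2 ^ t) (2 ^ (t + 1))) ∪
        (C₂ ∩ Set.Ico (2 ^ t) (2 ^ (t + 1)))).ncard + B.ncard := Set.ncard_union_le _ _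
    _ ≤ cnt C₁ t + cnt C₂ t + 1 := by
        have := Set.ncard_union_le (C₁ ∩ Set.Ico (2 ^ t) (2 ^ (t + 1)))
          (C₂ ∩ Set.Ico (2 ^ t) (2 ^ (t + 1)))
        unfold cnt
        omega

/-- The output has density one for every generic description. -/
theorem dens_out {A X : Set ℕ} (hA : Z0 {m | Nat.pair m (Z m) ∉ graph A}) (hX : Desc A X) :
    Z0 (out (R0 G) (R1 G) X)ᶜ := by
  intro n
  obtain ⟨K₁, hK₁⟩ := hX.2 (4 * n + 3)
  obtain ⟨K₂, hK₂⟩ := hA (4 * n + 3)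
  obtain ⟨T, hT⟩ := act_large hZ (max K₁ K₂)
  refine ⟨max T (4 * (n + 1)), fun t ht => ?_⟩
  by_cases hact : act G t
  · have hk := hT t ((le_max_left _ _).trans ht) hact
    have h1 := hK₁ (kk t) ((le_max_left _ _).trans hk)
    have h2 := hK₂ (kk t) ((le_max_right _ _).trans hk)
    have h3 := cnt_compl_out hZ hX.1 hact
    have h4 : 2 ^ t = 2 ^ (t - kk t) * 2 ^ kk t := by
      rw [← pow_add]; congr 1; have := kk_le t; omega
    have h5 : t < 2 ^ t := Nat.lt_two_pow_self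
    have h6 : 4 * (n + 1) ≤ t := (le_max_right _ _).trans ht
    set a := cnt (domX X)ᶜ (kk t)
    set b := cnt {m | Nat.pair m (Z m) ∉ graph A} (kk t)
    set c := 2 ^ (t - kk t)
    have h7 : (4 * n + 3 + 1) * (c * a) ≤ 2 ^ t := by
      rw [h4]
      calc (4 * n + 3 + 1) * (c * a) = c * ((4 * n + 3 + 1) * a) := by ring
        _ ≤ _ := Nat.mul_le_mul_left _ h1
    have h8 : (4 * n + 3 + 1) * (c * b) ≤ 2 ^ t := by
      rw [h4]
      calc (4 * n + 3 + 1) * (c * b) = c * ((4 * n + 3 + 1) * b) := by ring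
        _ ≤ _ := Nat.mul_le_mul_left _ h2
    have h9 := Nat.mul_le_mul_left (n + 1) h3
    nlinarith
  · have h0 : cnt (out (R0 G) (R1 G) X)ᶜ t = 0 := by
      unfold cnt
      rw [Set.ncard_eq_zero ((Set.finite_Ico _ _).inter_of_right _)]
      ext x
      simp only [Set.mem_inter_iff, Set.mem_compl_iff, Set.mem_empty_iff_false, iff_false,
        not_and]
      intro hx hI
      apply hx
      refine Or.inl (Or.inr (Or.inl ?_))
      rw [lev_eq hZ hI]
      exact hact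
    rw [h0, Nat.mul_zero]
    exact Nat.zero_le _

end Limit

end

end Pool.Agent.Helper96.Igusa
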