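import Pool.Agent.Helper96.Igusa2

/-!
# The case of a set coarsely equal to a limit computable set: conclusion
-/

set_option autoImplicit false
set_option linter.unusedSectionVars false

namespace Pool.Agent.Helper96.Igusa

open Filter Calc

/-- Generic computability. -/
def GC (A : Set ℕ) : Prop :=
  ∃ φ : ℕ →. Bool, Partrec φ ∧
    (∀ n : ℕ, ∀ b ∈ φ n, (b = true ↔ n ∈ A)) ∧
    Tendsto (fun m : ℕ => ((({n : ℕ | (φ n).Dom} ∩ Set.Iio m).ncard : ℝ) / (m : ℝ)))
      atTop (nhds 1)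

theorem cnt_le_of {C D : Set ℕ} {t : ℕ}
    (h : ∀ x ∈ Set.Ico (2 ^ t) (2 ^ (t + 1)), x ∈ C → x ∈ D) : cnt C t ≤ cnt D t :=
  Set.ncard_le_ncard (fun _ hx => ⟨h _ hx.2 hx.1, hx.2⟩) ((Set.finite_Ico _ _).inter_of_right _)

section

variable {G : ℕ → ℕ → ℕ} (hG : Cf fun v => G (gt v 0) (gt v 1))
include hG

theorem cp_ch : Cp fun v => ch G (gt v 0) (gt v 1) (gt v 2) := by
  have h := Cp.ex ((Cf.var 1).add (Cf.const 1)) ((Cp.lt (Cf.var 1) (Cf.var 0)).and
    (Cp.ex (Cf.two_pow ((Cf.var 3).add (Cf.const 1))) ((Cp.le (Cf.two_pow (Cf.var 4))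
      (Cf.var 0)).and (Cp.ne (Cf.sub2 (F := G) hG (Cf.var 1) (Cf.var 0))
        (Cf.sub2 (F := G) hG (Cf.var 2) (Cf.var 0))))))
  exact h.congr fun v => Iff.rfl

theorem cp_act : Cp fun v => act G (gt v 0) := by
  have h1 : Cp fun v => ee (gt v 0) ≤ kk (gt v 0) :=
    Cp.le (Cf.var 0).unpair1.unpair1 (Cf.var 0).unpair1.unpair2
  have h2 : Cp fun v => pp (gt v 0) = pp (gt v 1) :=
    Cp.eq (Cf.var 0).unpair1 (Cf.var 1).unpair1
  have h3 : Cp fun v => ch G (gt v 0) (gt v 1) (kk (gt v 1)) :=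
    Cp.sub3 (F := ch G) (cp_ch hG) (Cf.var 0) (Cf.var 1) (Cf.var 1).unpair1.unpair2
  have h := h1.and (Cp.all (Cf.var 0) (h2.imp h3))
  exact h.congr fun v => Iff.rfl

theorem cp_riskyBy : Cp fun v => riskyBy G (gt v 0) (gt v 1) := by
  have hx : Cf fun v => lev (gt v 1) := Cf.log2 (Cf.var 1)
  have h1 : Cp fun v => enumBy (ee (lev (gt v 1))) (gt v 0) (gt v 1) :=
    cp_enumBy hx.unpair1.unpair1 (Cf.var 0) (Cf.var 1)
  have h2 : Cp fun v => ch G (lev (gt v 1)) (gt v 0) (kk (lev (gt v 1))) :=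
    Cp.sub3 (F := ch G) (cp_ch hG) hx (Cf.var 0) hx.unpair1.unpair2
  have h := Cp.ex ((Cf.var 1).add (Cf.const 1)) (h1.and h2.not)
  exact h.congr fun v => Iff.rfl

theorem rp_R0 : Rp fun v => R0 G (gt v 0) := by
  have hx : Cf fun v => lev (gt v 0) := Cf.log2 (Cf.var 0)
  have hx1 : Cf fun v => lev (gt v 1) := Cf.log2 (Cf.var 1)
  have h1 : Rp fun v => gt v 0 = 0 := Rp.of_cp (Cp.eq (Cf.var 0) (Cf.const 0))
  have h2 : Rp fun v => ¬ act G (lev (gt v 0)) :=
    Rp.of_cp (Cp.sub1 (F := act G) (cp_act hG) hx).not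
  have h3 : Cp fun v => ch G (lev (gt v 1)) (gt v 0) (kk (lev (gt v 1))) :=
    Cp.sub3 (F := ch G) (cp_ch hG) hx1 (Cf.var 0) hx1.unpair1.unpair2
  have h4 : Cp fun v => ¬ riskyBy G (gt v 1) (gt v 0) :=
    (Cp.sub2 (F := riskyBy G) (cp_riskyBy hG) (Cf.var 1) (Cf.var 0)).not
  have h := h1.or (h2.or (Rp.ex (Rp.of_cp (h3.and h4))))
  exact h.congr fun v => Iff.rfl

theorem rp_Risky : Rp fun v => Risky G (gt v 0) := by
  have hx : Cf fun v => lev (gt v 0) := Cf.log2 (Cf.var 0)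
  have h1 : Rp fun v => act G (lev (gt v 0)) :=
    Rp.of_cp (Cp.sub1 (F := act G) (cp_act hG) hx)
  have h2 : Cp fun v => riskyBy G (gt v 1) (gt v 0) :=
    Cp.sub2 (F := riskyBy G) (cp_riskyBy hG) (Cf.var 1) (Cf.var 0)
  have h := h1.and (Rp.ex (Rp.of_cp h2))
  exact h.congr fun v => Iff.rfl

omit hG in
theorem cf_lab {f : List ℕ → ℕ} (hf : Cf f) : Cf fun v => lab (f v) := by
  have h1 : Cf fun v => kk (lev (f v)) := (Cf.log2 hf).unpair1.unpair2
  exact (Cf.two_pow h1).add (hf.mod (Cf.two_pow h1))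

theorem rp_R1 : Rp fun v => R1 G (gt v 0) (gt v 1) (gt v 2) := by
  have h1 : Cp fun v => gt v 1 = lab (gt v 0) := Cp.eq (Cf.var 1) (cf_lab (Cf.var 0))
  have h2 : Cp fun v => gt v 2 = G (lev (gt v 0)) (gt v 1) :=
    Cp.eq (Cf.var 2) (Cf.sub2 (F := G) hG (Cf.log2 (Cf.var 0)) (Cf.var 1))
  have h3 : Cp fun v => gt v 0 < gt v 1 := Cp.lt (Cf.var 0) (Cf.var 1)
  have h4 : Cp fun v => gt v 0 ≠ 0 := Cp.of_ne_zero (Cf.var 0)
  have h5 : Cp fun v => ee (lev (gt v 0)) = ee (lev (gt v 1)) :=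
    Cp.eq (Cf.log2 (Cf.var 0)).unpair1.unpair1 (Cf.log2 (Cf.var 1)).unpair1.unpair1
  have h6 : Cp fun v => lab (gt v 0) = gt v 2 := Cp.eq (cf_lab (Cf.var 0)) (Cf.var 2)
  have h7 : Cp fun v => gt v 3 ≠ G (lev (gt v 0)) (gt v 2) :=
    Cp.ne (Cf.var 3) (Cf.sub2 (F := G) hG (Cf.log2 (Cf.var 0)) (Cf.var 2))
  have h8 := Rp.ex ((Rp.of_cp h3).and ((Rp.of_cp h4).and ((Rp.of_cp h5).and
    ((rp_Risky hG).and ((Rp.of_cp h6).and (Rp.of_cp h7))))))
  have h := (Rp.of_cp (h1.and h2)).or h8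
  exact h.congr fun v => Iff.rfl

/-- The search predicate for the generic description read off from an r.e. set. -/
def test (G : ℕ → ℕ → ℕ) (e c m : ℕ) : Prop :=
  c.unpair.1 ≠ 0 ∧ ee (lev c.unpair.1) = e ∧ lab c.unpair.1 = m ∧ act G (lev c.unpair.1) ∧
    enumBy e c.unpair.2 c.unpair.1 ∧ ¬ ch G (lev c.unpair.1) c.unpair.2 (kk (lev c.unpair.1))

theorem cp_test (e : ℕ) : Cp fun v => test G e (gt v 0) (gt v 1) := by
  have hx : Cf fun v => (gt v 0).unpair.1 := (Cf.var 0).unpair1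
  have hs : Cf fun v => (gt v 0).unpair.2 := (Cf.var 0).unpair2
  have hl : Cf fun v => lev (gt v 0).unpair.1 := Cf.log2 hx
  have h1 : Cp fun v => (gt v 0).unpair.1 ≠ 0 := Cp.of_ne_zero hx
  have h2 : Cp fun v => ee (lev (gt v 0).unpair.1) = e :=
    Cp.eq hl.unpair1.unpair1 (Cf.const e)
  have h3 : Cp fun v => lab (gt v 0).unpair.1 = gt v 1 := Cp.eq (cf_lab hx) (Cf.var 1)
  have h4 : Cp fun v => act G (lev (gt v 0).unpair.1) := Cp.sub1 (F := act G) (cp_act hG) hl
  have h5 : Cp fun v => enumBy e (gt v 0).unpair.2 (gt v 0).unpair.1 :=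
    cp_enumBy (Cf.const e) hs hx
  have h6 : Cp fun v => ch G (lev (gt v 0).unpair.1) (gt v 0).unpair.2
      (kk (lev (gt v 0).unpair.1)) :=
    Cp.sub3 (F := ch G) (cp_ch hG) hl hs hl.unpair1.unpair2
  have h := h1.and (h2.and (h3.and (h4.and (h5.and h6.not))))
  exact h.congr fun v => Iff.rfl

open Classical in
/-- The partial function read off from an r.e. set. -/
noncomputable def psi (G : ℕ → ℕ → ℕ) (e : ℕ) : ℕ →. Bool := fun m =>
  (Nat.rfind fun c => Part.some (decide (test G e c m))).map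
    fun c => decide (G (lev c.unpair.1) m = 1)

theorem partrec_psi (e : ℕ) : Partrec (psi G e) := by
  classical
  have h1 : Computable fun p : ℕ × ℕ => decide (test G e p.2 p.1) := by
    have h2 : Computable fun p : ℕ × ℕ =>
        (if test G e (gt [p.2, p.1] 0) (gt [p.2, p.1] 1) then 1 else 0 : ℕ) :=
      Computable.comp (cp_test hG e) (Computable.list_cons.comp Computable.snd
        (Computable.list_cons.comp Computable.fst (Computable.const [])))
    have h3 : Computable fun n : ℕ => decide (n = 1) :=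
      (Primrec.eq.comp Primrec.id (Primrec.const 1)).decide.to_comp
    refine (h3.comp h2).of_eq fun p => ?_
    change decide ((if test G e p.2 p.1 then 1 else 0) = 1) = _
    by_cases h : test G e p.2 p.1 <;> simp [h]
  have h4 : Computable fun p : ℕ × ℕ => decide (G (lev p.2.unpair.1) p.1 = 1) := by
    have h5 : Cf fun v => G (lev (gt v 0).unpair.1) (gt v 1) :=
      Cf.sub2 (F := G) hG (Cf.log2 (Cf.var 0).unpair1) (Cf.var 1)
    have h6 : Computable fun p : ℕ × ℕ => G (lev (gt [p.2, p.1] 0).unpair.1) (gt [p.2, p.1] 1) :=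
      Computable.comp h5 (Computable.list_cons.comp Computable.snd
        (Computable.list_cons.comp Computable.fst (Computable.const [])))
    have h3 : Computable fun n : ℕ => decide (n = 1) :=
      (Primrec.eq.comp Primrec.id (Primrec.const 1)).decide.to_comp
    exact (h3.comp h6).of_eq fun p => by congr
  have h7 : Partrec fun m => Nat.rfind fun c => Part.some (decide (test G e c m)) :=
    Partrec.rfind (p := fun m c => Part.some (decide (test G e c m))) h1.partrec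
  have h8 : Computable₂ fun m c : ℕ => decide (G (lev c.unpair.1) m = 1) := h4
  exact (h7.map h8).of_eq fun m => rfl

omit hG in
theorem psi_dom {e m : ℕ} : (psi G e m).Dom ↔ ∃ c, test G e c m := by
  classical
  unfold psi
  change (Nat.rfind fun c => Part.some (decide (test G e c m))).Dom ↔ _
  constructor
  · intro h
    obtain ⟨n, hn, -⟩ := Nat.rfind_dom.1 h
    exact ⟨n, by simpa using hn⟩
  · rintro ⟨s, hs⟩
    exact Nat.rfind_dom.2 ⟨s, by simpa using hs, fun {m} _ => trivial⟩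

/-- **Case of a set which is coarsely equal to a limit computable set.** -/
theorem case_b {A : Set ℕ} (hA : ¬ GC A) {Z : ℕ → ℕ} (hZ : ∀ m, ∃ s₀, ∀ s ≥ s₀, G s m = Z m)
    (hclose : Z0 {m | Nat.pair m (Z m) ∉ graph A}) : Concl A := by
  classical
  refine assemble A (R0 G) (R1 G) (rp_R0 hG) (rp_R1 hG) (fun X hX => dens_out hZ hclose hX) ?_
  intro e he hdense
  apply hA
  refine ⟨psi G e, partrec_psi hG e, ?_, ?_⟩
  · intro m b hb
    unfold psi at hb
    rw [Part.mem_map_iff] at hb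
    obtain ⟨c, hc, rfl⟩ := hb
    have hc' : test G e c m := by
      have := Nat.rfind_spec hc
      simpa using this
    obtain ⟨h1, h2, h3, h4, h5, h6⟩ := hc'
    have hr : Risky G c.unpair.1 :=
      ⟨h4, c.unpair.2, c.unpair.2, Nat.lt_succ_self _, by rw [h2]; exact h5, h6⟩
    have h7 := no_mistake he _ h1 h2 hr
    rw [h3, mem_graph] at h7
    rw [decide_eq_true_eq]
    rcases h7 with ⟨h8, h9⟩ | ⟨h8, h9⟩
    · exact ⟨fun _ => h9, fun _ => h8⟩
    · refine ⟨fun h => ?_, fun h => absurd h h9⟩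
      rw [h8] at h
      exact absurd h zero_ne_one
  · rw [dens_iff]
    intro n
    obtain ⟨T, hT⟩ := hdense n
    refine ⟨max T e, fun k hk => ?_⟩
    obtain ⟨t, hkt, he', hk', hact, hnch⟩ := exists_final hZ ((le_max_right T e).trans hk)
    have h1 := hT t (((le_max_left T e).trans hk).trans hkt)
    have h2 : 2 ^ (t - k) * cnt {m | (psi G e m).Dom}ᶜ k ≤ cnt {x | ∃ s, enumBy e s x}ᶜ t := by
      rw [← cnt_label _ hkt]
      apply cnt_le_of
      intro x hx hx' hs
      obtain ⟨s, hs⟩ := hs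
      apply hx'
      have hlev : lev x = t := lev_eq hZ hx
      rw [Set.mem_ofPred_eq, psi_dom]
      refine ⟨Nat.pair x s, ?_⟩
      unfold test
      rw [Nat.unpair_pair]
      refine ⟨?_, by simp only [hlev, he'], ?_, by simp only [hlev]; exact hact, hs, ?_⟩
      · have := hx.1
        have : 0 < 2 ^ t := by positivity
        simp only
        omega
      · unfold lab; simp only [hlev, hk']
      · simp only [hlev, hk']; exact hnch s
    have h3 : 2 ^ t = 2 ^ (t - k) * 2 ^ k := by rw [← pow_add]; congr 1; omega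
    have hpos : 0 < 2 ^ (t - k) := by positivity
    refine Nat.le_of_mul_le_mul_left (?_ : 2 ^ (t - k) * _ ≤ 2 ^ (t - k) * _) hpos
    calc 2 ^ (t - k) * ((n + 1) * cnt {m | (psi G e m).Dom}ᶜ k)
        = (n + 1) * (2 ^ (t - k) * cnt {m | (psi G e m).Dom}ᶜ k) := by ring
      _ ≤ (n + 1) * cnt {x | ∃ s, enumBy e s x}ᶜ t := Nat.mul_le_mul_left _ h2
      _ ≤ 2 ^ t := h1
      _ = _ := h3

end

end Pool.Agent.Helper96.Igusa
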