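import Pool.Agent.Helper96.Igusa3

/-!
# The case of a set which is not coarsely equal to a limit computable set
-/

set_option autoImplicit false
set_option linter.unusedSectionVars false

namespace Pool.Agent.Helper96.Igusa

open Filter Calc

/-! ### The sequence of leftmost paths -/

/-- The length treated at time `t`. -/
def ln (t : ℕ) : ℕ := t.unpair.1

theorem ln_le (t : ℕ) : ln t ≤ t := Nat.unpair_left_le _

/-- Activity with respect to a sequence `z` of (codes of) strings. -/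
def actS (z : ℕ → ℕ) (t : ℕ) : Prop :=
  z t < 2 ^ t ∧ ∀ t' < t, ln t' = ln t → z t' / 2 ^ (t' - ln t) ≠ z t / 2 ^ (t - ln t)

/-- The `e`-th r.e. set has met column `e` of the `t`-th dyadic interval by stage `s`. -/
def hit (e s t : ℕ) : Prop :=
  ∃ x < 2 ^ (t + 1), 2 ^ t ≤ x ∧ x % 2 ^ (e + 1) = 2 ^ e ∧ enumBy e s x

/-- The string of length `t` with code `n` has no forbidden prefix at stage `t`. -/
def aliveS (z : ℕ → ℕ) (e t n : ℕ) : Prop :=
  ∀ t' < t, actS z t' → hit e t t' → n / 2 ^ (t - ln t') ≠ z t' / 2 ^ (t' - ln t')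

/-- The recursion step in terms of the environment `e :: t :: z (t - 1) :: ... :: z 0`. -/
noncomputable def stepF (v : List ℕ) : ℕ :=
  Cf.least (2 ^ gt v 1)
    (fun n => aliveS (fun i => gt v (2 + (gt v 1 - 1 - i))) (gt v 0) (gt v 1) n)

/-- History. -/
noncomputable def hist (e t : ℕ) : List ℕ :=
  Nat.rec [] (fun y ih => stepF (e :: y :: ih) :: ih) t

/-- The code of the leftmost string of length `t` alive at stage `t`, or `2 ^ t`. -/
noncomputable def zz (e t : ℕ) : ℕ := stepF (e :: t :: hist e t)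

theorem hist_succ (e t : ℕ) : hist e (t + 1) = zz e t :: hist e t := rfl

theorem hist_get (e : ℕ) : ∀ t i, i < t → gt (hist e t) (t - 1 - i) = zz e i := by
  intro t
  induction t with
  | zero => intro i hi; omega
  | succ t ih =>
    intro i hi
    rw [hist_succ]
    rcases Nat.lt_succ_iff_lt_or_eq.1 hi with h | h
    · have h1 : t + 1 - 1 - i = (t - 1 - i) + 1 := by omega
      rw [h1]
      change gt (hist e t) (t - 1 - i) = _
      exact ih i h
    · subst h
      have h1 : i + 1 - 1 - i = 0 := by omega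
      rw [h1]
      rfl

theorem actS_congr {z z' : ℕ → ℕ} {t : ℕ} (h : ∀ i ≤ t, z i = z' i) : actS z t ↔ actS z' t := by
  unfold actS
  rw [h t le_rfl]
  refine and_congr Iff.rfl ?_
  refine forall₂_congr fun t' ht' => ?_
  rw [h t' ht'.le]

theorem aliveS_congr {z z' : ℕ → ℕ} {e t n : ℕ} (h : ∀ i < t, z i = z' i) :
    aliveS z e t n ↔ aliveS z' e t n := by
  unfold aliveS
  refine forall₂_congr fun t' ht' => ?_
  rw [actS_congr (z := z) (z' := z') fun i hi => h i (by omega), h t' ht']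

theorem zz_eq (e t : ℕ) : zz e t = Cf.least (2 ^ t) (aliveS (zz e) e t) := by
  have h1 : zz e t = Cf.least (2 ^ t)
    (fun n => aliveS (fun i => gt (e :: t :: hist e t) (2 + (t - 1 - i))) e t n) := rfl
  rw [h1]
  congr 1
  funext n
  apply propext
  apply aliveS_congr
  intro i hi
  have h2 : 2 + (t - 1 - i) = (t - 1 - i) + 1 + 1 := by omega
  rw [h2]
  exact hist_get e t i hi

/-! ### Computability -/

theorem cp_hit : Cp fun v => hit (gt v 0) (gt v 1) (gt v 2) := by
  have h1 : Cp fun v => 2 ^ gt v 3 ≤ gt v 0 := Cp.le (Cf.two_pow (Cf.var 3)) (Cf.var 0)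
  have h2 : Cp fun v => gt v 0 % 2 ^ (gt v 1 + 1) = 2 ^ gt v 1 :=
    Cp.eq ((Cf.var 0).mod (Cf.two_pow ((Cf.var 1).add (Cf.const 1)))) (Cf.two_pow (Cf.var 1))
  have h3 : Cp fun v => enumBy (gt v 1) (gt v 2) (gt v 0) :=
    cp_enumBy (Cf.var 1) (Cf.var 2) (Cf.var 0)
  have h := Cp.ex (Cf.two_pow ((Cf.var 2).add (Cf.const 1))) (h1.and (h2.and h3))
  exact h.congr fun v => Iff.rfl

theorem cf_ln {f : List ℕ → ℕ} (hf : Cf f) : Cf fun v => ln (f v) := hf.unpair1

theorem cf_stepF : Cf stepF := by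
  -- environments: `v = e :: t :: hist`, `n :: v`, `t' :: n :: v`, `t'' :: t' :: n :: v`
  have a0 : Cf fun w => gt w (4 + (gt w 3 - 1 - gt w 0)) :=
    Cf.get ((Cf.const 4).add (((Cf.var 3).sub (Cf.const 1)).sub (Cf.var 0)))
  have b0 : Cf fun w => gt w (5 + (gt w 4 - 1 - gt w 0)) :=
    Cf.get ((Cf.const 5).add (((Cf.var 4).sub (Cf.const 1)).sub (Cf.var 0)))
  have b1 : Cf fun w => gt w (5 + (gt w 4 - 1 - gt w 1)) :=
    Cf.get ((Cf.const 5).add (((Cf.var 4).sub (Cf.const 1)).sub (Cf.var 1)))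
  have h1 : Cp fun w => gt w (4 + (gt w 3 - 1 - gt w 0)) < 2 ^ gt w 0 :=
    Cp.lt a0 (Cf.two_pow (Cf.var 0))
  have h2 : Cp fun w => ln (gt w 0) = ln (gt w 1) →
      gt w (5 + (gt w 4 - 1 - gt w 0)) / 2 ^ (gt w 0 - ln (gt w 1)) ≠
        gt w (5 + (gt w 4 - 1 - gt w 1)) / 2 ^ (gt w 1 - ln (gt w 1)) :=
    (Cp.eq (cf_ln (Cf.var 0)) (cf_ln (Cf.var 1))).imp
      (Cp.ne (b0.div (Cf.two_pow ((Cf.var 0).sub (cf_ln (Cf.var 1)))))
        (b1.div (Cf.two_pow ((Cf.var 1).sub (cf_ln (Cf.var 1))))))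
  have h3 := h1.and (Cp.all (Cf.var 0) h2)
  have h4 : Cp fun w => hit (gt w 2) (gt w 3) (gt w 0) :=
    Cp.sub3 (F := hit) cp_hit (Cf.var 2) (Cf.var 3) (Cf.var 0)
  have h5 : Cp fun w => gt w 1 / 2 ^ (gt w 3 - ln (gt w 0)) ≠
      gt w (4 + (gt w 3 - 1 - gt w 0)) / 2 ^ (gt w 0 - ln (gt w 0)) :=
    Cp.ne ((Cf.var 1).div (Cf.two_pow ((Cf.var 3).sub (cf_ln (Cf.var 0)))))
      (a0.div (Cf.two_pow ((Cf.var 0).sub (cf_ln (Cf.var 0)))))
  have h6 := Cp.all (Cf.var 2) (h3.imp (h4.imp h5))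
  have h7 : Cp fun w => aliveS (fun i => gt w.tail (2 + (gt w.tail 1 - 1 - i))) (gt w 1) (gt w 2)
      (gt w 0) := by
    refine h6.congr fun w => ?_
    rcases w with _ | ⟨n, v⟩
    · refine forall₂_congr fun t' ht' => ?_
      exact absurd ht' (Nat.not_lt_zero _)
    · refine forall₂_congr fun t' ht' => ?_
      have e4 : ∀ j, gt (t' :: n :: v) (4 + j) = gt v (2 + j) := by
        intro j
        have h8 : 4 + j = (2 + j) + 1 + 1 := by omega
        rw [h8]
        rfl
      have e5 : ∀ t'' j, gt (t'' :: t' :: n :: v) (5 + j) = gt v (2 + j) := by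
        intro t'' j
        have h8 : 5 + j = (2 + j) + 1 + 1 + 1 := by omega
        rw [h8]
        rfl
      unfold actS
      simp only [e4, e5]
      rfl
  exact Cf.leastCf (Cf.two_pow (Cf.var 1)) h7

theorem computable_hist : Computable fun v : List ℕ => hist (gt v 0) (gt v 1) := by
  have h0 : Computable fun v : List ℕ => gt v 0 := Cf.var 0
  have h1 : Computable₂ fun (v : List ℕ) (p : ℕ × List ℕ) =>
      stepF (gt v 0 :: p.1 :: p.2) :: p.2 := by
    refine Computable.list_cons.comp (Computable.comp cf_stepF ?_)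
      (Computable.snd.comp Computable.snd)
    exact Computable.list_cons.comp (h0.comp Computable.fst)
      (Computable.list_cons.comp (Computable.fst.comp Computable.snd)
        (Computable.snd.comp Computable.snd))
  have h2 := Computable.nat_rec (f := fun v : List ℕ => gt v 1) (g := fun _ => ([] : List ℕ))
    (h := fun (v : List ℕ) (p : ℕ × List ℕ) => stepF (gt v 0 :: p.1 :: p.2) :: p.2)
    (Cf.var 1) (Computable.const []) h1
  exact h2

theorem cf_zz : Cf fun v => zz (gt v 0) (gt v 1) :=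
  Computable.comp cf_stepF (Cf.cons (Cf.var 0) (Cf.cons (Cf.var 1) computable_hist))

theorem cp_actS : Cp fun v => actS (zz (gt v 0)) (gt v 1) := by
  have z0 : Cf fun v => zz (gt v 0) (gt v 1) := cf_zz
  have z1 : Cf fun v => zz (gt v 1) (gt v 0) := Cf.sub2 (F := zz) cf_zz (Cf.var 1) (Cf.var 0)
  have z2 : Cf fun v => zz (gt v 1) (gt v 2) := Cf.sub2 (F := zz) cf_zz (Cf.var 1) (Cf.var 2)
  have h1 : Cp fun v => zz (gt v 0) (gt v 1) < 2 ^ gt v 1 := Cp.lt z0 (Cf.two_pow (Cf.var 1))
  have h2 : Cp fun v => ln (gt v 0) = ln (gt v 2) → zz (gt v 1) (gt v 0) /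
      2 ^ (gt v 0 - ln (gt v 2)) ≠ zz (gt v 1) (gt v 2) / 2 ^ (gt v 2 - ln (gt v 2)) :=
    (Cp.eq (cf_ln (Cf.var 0)) (cf_ln (Cf.var 2))).imp
      (Cp.ne (z1.div (Cf.two_pow ((Cf.var 0).sub (cf_ln (Cf.var 2)))))
        (z2.div (Cf.two_pow ((Cf.var 2).sub (cf_ln (Cf.var 2))))))
  have h := h1.and (Cp.all (Cf.var 1) h2)
  exact h.congr fun v => Iff.rfl

/-- The column of an element. -/
noncomputable def col (x : ℕ) : ℕ := Cf.least x fun e => x % 2 ^ (e + 1) ≠ 0

theorem cf_col {f : List ℕ → ℕ} (hf : Cf f) : Cf fun v => col (f v) := by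
  have h1 : Cp fun v => gt v 1 % 2 ^ (gt v 0 + 1) ≠ 0 :=
    Cp.ne ((Cf.var 1).mod (Cf.two_pow ((Cf.var 0).add (Cf.const 1)))) (Cf.const 0)
  have h2 : Cf fun v => col (gt v 0) := Cf.leastCf (Cf.var 0) h1
  exact Cf.sub1 (F := col) h2 hf

theorem col_eq {x e : ℕ} (h : x % 2 ^ (e + 1) = 2 ^ e) : col x = e := by
  have h1 : 2 ^ e ≤ x := h ▸ Nat.mod_le _ _
  have h2 : e < 2 ^ e := Nat.lt_two_pow_self
  apply Cf.least_eq
  · omega
  · intro j hj
    push Not
    have h3 : 2 ^ (j + 1) ∣ 2 ^ e := Nat.pow_dvd_pow 2 hj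
    have h4 : 2 ^ (j + 1) ∣ 2 ^ (e + 1) := Nat.pow_dvd_pow 2 (by omega)
    have h5 : 2 ^ (j + 1) ∣ x := by
      have h6 := Nat.div_add_mod x (2 ^ (e + 1))
      rw [h] at h6
      rw [← h6]
      exact (h4.mul_right _).add h3
    exact Nat.mod_eq_zero_of_dvd h5
  · intro _
    rw [h]
    positivity

theorem mod_of_le_col {x E : ℕ} (h : E ≤ col x) : x % 2 ^ E = 0 := by
  rcases E with _ | j
  · simp [Nat.mod_one]
  · have := (Cf.least_spec x fun e => x % 2 ^ (e + 1) ≠ 0).2.1 j h
    push Not at this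
    exact this

/-- Outright enumerations. -/
def S0 (x : ℕ) : Prop := x = 0 ∨ ¬ actS (zz (col x)) (lev x)

/-- One-element axioms: the information refutes the string. -/
def S1 (x m b : ℕ) : Prop := m < ln (lev x) ∧ b ≠ zz (col x) (lev x) / 2 ^ (lev x - 1 - m) % 2

theorem rp_S0 : Rp fun v => S0 (gt v 0) := by
  have h1 : Cp fun v => gt v 0 = 0 := Cp.eq (Cf.var 0) (Cf.const 0)
  have h2 : Cp fun v => actS (zz (col (gt v 0))) (lev (gt v 0)) :=
    Cp.sub2 (F := fun e t => actS (zz e) t) cp_actS (cf_col (Cf.var 0)) (Cf.log2 (Cf.var 0))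
  exact (Rp.of_cp (h1.or h2.not)).congr fun v => Iff.rfl

theorem rp_S1 : Rp fun v => S1 (gt v 0) (gt v 1) (gt v 2) := by
  have h1 : Cf fun v => zz (col (gt v 0)) (lev (gt v 0)) :=
    Cf.sub2 (F := zz) cf_zz (cf_col (Cf.var 0)) (Cf.log2 (Cf.var 0))
  have hl : Cf fun v => lev (gt v 0) := Cf.log2 (Cf.var 0)
  have h2 := Cp.lt (Cf.var 1) (cf_ln hl)
  have h3 := Cp.ne (Cf.var 2) ((h1.div (Cf.two_pow ((hl.sub (Cf.const 1)).sub (Cf.var 1)))).mod
    (Cf.const 2))
  exact (Rp.of_cp (h2.and h3)).congr fun v => Iff.rfl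

/-! ### Properties of the sequence -/

theorem hit_mono {e s s' t : ℕ} (h : s ≤ s') (hh : hit e s t) : hit e s' t := by
  obtain ⟨x, h1, h2, h3, h4⟩ := hh
  exact ⟨x, h1, h2, h3, enumBy_mono h h4⟩

theorem div_shift (n : ℕ) {t l : ℕ} (h : l ≤ t) :
    n / 2 ^ (t + 1 - l) = n / 2 / 2 ^ (t - l) := by
  have : t + 1 - l = (t - l) + 1 := by omega
  rw [this, pow_succ, Nat.mul_comm, Nat.div_div_eq_div_mul]

theorem alive_down {e t n : ℕ} (h : aliveS (zz e) e (t + 1) n) : aliveS (zz e) e t (n / 2) := by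
  intro t' ht' hact hhit
  have h1 := h t' (by omega) hact (hit_mono (Nat.le_succ t) hhit)
  rwa [div_shift n (by have := ln_le t'; omega)] at h1

theorem zz_alive {e t : ℕ} (h : zz e t < 2 ^ t) : aliveS (zz e) e t (zz e t) := by
  have h1 := (Cf.least_spec (2 ^ t) (aliveS (zz e) e t)).2.2
  rw [← zz_eq] at h1
  exact h1 h

theorem zz_le {e t n : ℕ} (hn : n < 2 ^ t) (h : aliveS (zz e) e t n) : zz e t ≤ n := by
  by_contra hlt
  push Not at hlt
  have h1 := (Cf.least_spec (2 ^ t) (aliveS (zz e) e t)).2.1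
  rw [← zz_eq] at h1
  exact h1 n hlt h

theorem zz_step {e t : ℕ} (h : zz e (t + 1) < 2 ^ (t + 1)) : zz e t ≤ zz e (t + 1) / 2 := by
  apply zz_le
  · rw [pow_succ] at h
    omega
  · exact alive_down (zz_alive h)

theorem zz_lt_down {e t : ℕ} (h : zz e (t + 1) < 2 ^ (t + 1)) : zz e t < 2 ^ t := by
  have h1 := zz_step h
  rw [pow_succ] at h
  omega

theorem not_lt_up {e t₀ : ℕ} (h : ¬ zz e t₀ < 2 ^ t₀) : ∀ t ≥ t₀, ¬ zz e t < 2 ^ t := by
  intro t ht
  induction t, ht using Nat.le_induction with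
  | base => exact h
  | succ t _ ih => exact fun hlt => ih (zz_lt_down hlt)

section Path

variable {e : ℕ} (hz : ∀ t, zz e t < 2 ^ t)
include hz

/-- Prefixes of the leftmost strings converge. -/
theorem exists_pref_limit (l : ℕ) : ∃ L T, l ≤ T ∧ ∀ t ≥ T, zz e t / 2 ^ (t - l) = L := by
  have hmono : ∀ t ≥ l, ∀ t' ≥ t, zz e t / 2 ^ (t - l) ≤ zz e t' / 2 ^ (t' - l) := by
    intro t ht t' ht'
    induction t', ht' using Nat.le_induction with
    | base => exact le_rfl
    | succ t' h1 ih =>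
      refine ih.trans ?_
      rw [div_shift _ (by omega)]
      exact Nat.div_le_div_right (zz_step (hz (t' + 1)))
  have hbdd : ∀ t ≥ l, zz e t / 2 ^ (t - l) < 2 ^ l := by
    intro t ht
    apply Nat.div_lt_of_lt_mul
    rw [← pow_add]
    have : t - l + l = t := by omega
    rw [this]
    exact hz t
  -- the maximal value is attained
  let S : Set ℕ := {p | ∃ t ≥ l, zz e t / 2 ^ (t - l) = p}
  have hS : S.Nonempty := ⟨_, l, le_rfl, rfl⟩
  have hSb : BddAbove S := ⟨2 ^ l, by rintro p ⟨t, ht, rfl⟩; exact (hbdd t ht).le⟩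
  obtain ⟨T, hT, hTeq⟩ := Nat.sSup_mem hS hSb
  refine ⟨sSup S, T, hT, fun t ht => ?_⟩
  apply le_antisymm
  · exact le_csSup hSb ⟨t, le_trans hT ht, rfl⟩
  · rw [← hTeq]
    exact hmono T hT t ht

/-- Active times treat long prefixes. -/
theorem actS_large (M : ℕ) : ∃ T, ∀ t ≥ T, actS (zz e) t → M ≤ ln t := by
  choose L T hT hL using exists_pref_limit hz
  refine ⟨(Finset.range M).sup (fun l => Nat.pair l (T l)) + 1, fun t ht hact => ?_⟩
  by_contra hlt
  push Not at hlt
  have h1 : Nat.pair (ln t) (T (ln t)) ≤ (Finset.range M).sup (fun l => Nat.pair l (T l)) :=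
    Finset.le_sup (f := fun l => Nat.pair l (T l)) (Finset.mem_range.2 hlt)
  set t₁ := Nat.pair (ln t) (T (ln t)) with ht₁
  have h2 : ln t₁ = ln t := by rw [ht₁]; unfold ln; rw [Nat.unpair_pair]
  have h3 : T (ln t) ≤ t₁ := Nat.right_le_pair _ _
  apply hact.2 t₁ (by omega) h2
  rw [hL _ _ h3, hL _ _ (by omega)]

/-- If the `e`-th r.e. set has density one then the leftmost strings cannot stay alive. -/
theorem not_dense (hdense : Z0 {x | ∃ s, enumBy e s x}ᶜ) : False := by
  classical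
  obtain ⟨T₀, hT₀⟩ := hdense (2 ^ (e + 2) - 1)
  choose L T hT hL using exists_pref_limit hz
  let l := max T₀ (e + 1)
  have hex : ∃ t, ln t = l ∧ zz e t / 2 ^ (t - l) = L l := by
    refine ⟨Nat.pair l (T l), by unfold ln; rw [Nat.unpair_pair], ?_⟩
    exact hL _ _ (Nat.right_le_pair _ _)
  let t := Nat.find hex
  have ht : ln t = l ∧ zz e t / 2 ^ (t - l) = L l := Nat.find_spec hex
  have hmin : ∀ t' < t, ¬ (ln t' = l ∧ zz e t' / 2 ^ (t' - l) = L l) :=
    fun t' h => Nat.find_min hex h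
  have hlt : l ≤ t := by rw [← ht.1]; exact ln_le t
  have hact : actS (zz e) t := by
    refine ⟨hz t, fun t' ht' hln h => ?_⟩
    rw [ht.1] at hln h
    exact hmin t' ht' ⟨hln, h.trans ht.2⟩
  -- a hit
  have hhit : ∃ s, hit e s t := by
    by_contra hno
    push Not at hno
    have h1 : cnt {x | 2 ^ (e + 1) + x % 2 ^ (e + 1) ∈ ({2 ^ (e + 1) + 2 ^ e} : Set ℕ)} t ≤
        cnt {x | ∃ s, enumBy e s x}ᶜ t := by
      apply cnt_le_of
      intro x hx hx' hs
      obtain ⟨s, hs⟩ := hs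
      apply hno s
      refine ⟨x, hx.2, hx.1, ?_, hs⟩
      have : 2 ^ (e + 1) + x % 2 ^ (e + 1) = 2 ^ (e + 1) + 2 ^ e := hx'
      omega
    rw [cnt_label _ (show e + 1 ≤ t by omega)] at h1
    have h2 : cnt ({2 ^ (e + 1) + 2 ^ e} : Set ℕ) (e + 1) = 1 := by
      unfold cnt
      have : (({2 ^ (e + 1) + 2 ^ e} : Set ℕ) ∩ Set.Ico (2 ^ (e + 1)) (2 ^ (e + 1 + 1))) =
          {2 ^ (e + 1) + 2 ^ e} := by
        ext x
        simp only [Set.mem_inter_iff, Set.mem_singleton_iff, Set.mem_Ico, and_iff_left_iff_imp]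
        rintro rfl
        have h3 : 2 ^ (e + 1 + 1) = 2 ^ (e + 1) + 2 ^ (e + 1) := by rw [pow_succ]; ring
        have h4 : 2 ^ (e + 1) = 2 ^ e + 2 ^ e := by rw [pow_succ]; ring
        have h5 : 0 < 2 ^ e := by positivity
        omega
      rw [this, Set.ncard_singleton]
    rw [h2, Nat.mul_one] at h1
    have h3 := hT₀ t (by omega)
    have h4 : 2 ^ (e + 2) - 1 + 1 = 2 ^ (e + 2) := by
      have : 0 < 2 ^ (e + 2) := by positivity
      omega
    rw [h4] at h3
    have h5 : 2 ^ (e + 2) * 2 ^ (t - (e + 1)) ≤ 2 ^ t := (Nat.mul_le_mul_left _ h1).trans h3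
    rw [← pow_add] at h5
    have h6 : 2 ^ t < 2 ^ (e + 2 + (t - (e + 1))) :=
      Nat.pow_lt_pow_right (by norm_num) (by omega)
    omega
  obtain ⟨s, hs⟩ := hhit
  let u := max (max s (T l)) (t + 1)
  have h1 : zz e u / 2 ^ (u - l) = L l := hL l u (le_trans (le_max_right s _) (le_max_left _ _))
  have h2 := zz_alive (hz u) t (lt_of_lt_of_le (Nat.lt_succ_self t) (le_max_right _ _)) hact
    (hit_mono (le_trans (le_max_left s _) (le_max_left _ _)) hs)
  rw [ht.1, ht.2] at h2
  exact h2 h1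

end Path

/-! ### The two requirements -/

open Classical in
/-- Code of the initial segment of length `l`. -/
noncomputable def pre (A : Set ℕ) : ℕ → ℕ
  | 0 => 0
  | l + 1 => 2 * pre A l + (if l ∈ A then 1 else 0)

theorem pre_lt (A : Set ℕ) (l : ℕ) : pre A l < 2 ^ l := by
  induction l with
  | zero => simp [pre]
  | succ l ih =>
    rw [pre, pow_succ]
    split_ifs <;> omega

theorem pre_div (A : Set ℕ) {l t : ℕ} (h : l ≤ t) : pre A t / 2 ^ (t - l) = pre A l := by
  induction t, h using Nat.le_induction with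
  | base => simp
  | succ t ht ih =>
    rw [div_shift _ ht]
    have : pre A (t + 1) / 2 = pre A t := by
      rw [pre]
      split_ifs <;> omega
    rw [this, ih]

theorem pre_bit (A : Set ℕ) {m l : ℕ} (h : m < l) :
    Nat.pair m (pre A l / 2 ^ (l - 1 - m) % 2) ∈ graph A := by
  have h1 : l - 1 - m = l - (m + 1) := by omega
  rw [h1, pre_div A h, pre, mem_graph]
  split_ifs with hm
  · left; exact ⟨by omega, hm⟩
  · right; exact ⟨by omega, hm⟩

/-- **Case of a set which is not coarsely equal to a limit computable set.** -/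
theorem case_a {A : Set ℕ} (hA : ∀ G : ℕ → ℕ → ℕ, (Cf fun v => G (gt v 0) (gt v 1)) →
    ∀ Z : ℕ → ℕ, (∀ m, ∃ s₀, ∀ s ≥ s₀, G s m = Z m) →
      ¬ Z0 {m | Nat.pair m (Z m) ∉ graph A}) : Concl A := by
  refine assemble A S0 S1 rp_S0 rp_S1 ?_ ?_
  · intro X hX
    -- each column is eventually enumerated
    have hcol : ∀ e, ∃ T, ∀ t ≥ T, ∀ x ∈ Set.Ico (2 ^ t) (2 ^ (t + 1)), col x = e →
        x ∈ out S0 S1 X := by
      intro e
      by_cases hz : ∀ t, zz e t < 2 ^ t
      · let G : ℕ → ℕ → ℕ := fun s m => zz e s / 2 ^ (s - 1 - m) % 2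
        have hG : Cf fun v => G (gt v 0) (gt v 1) := by
          have h1 : Cf fun v => zz e (gt v 0) := Cf.sub2 (F := zz) cf_zz (Cf.const e) (Cf.var 0)
          exact (h1.div (Cf.two_pow (((Cf.var 0).sub (Cf.const 1)).sub (Cf.var 1)))).mod
            (Cf.const 2)
        choose L T hT hL using exists_pref_limit hz
        have hGL : ∀ m s, T (m + 1) ≤ s → G s m = L (m + 1) % 2 := by
          intro m s hs
          have h1 := hL (m + 1) s hs
          have h2 : s - 1 - m = s - (m + 1) := by omega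
          simp only [G]
          rw [h2, h1]
        have hno := hA G hG (fun m => L (m + 1) % 2) (fun m => ⟨T (m + 1), hGL m⟩)
        obtain ⟨m, hm1, hm2⟩ : ∃ m, m ∈ domX X ∧ Nat.pair m (L (m + 1) % 2) ∉ graph A := by
          by_contra hcon
          push Not at hcon
          apply hno
          refine hX.2.mono ?_
          intro m hm hm'
          exact hm (hcon m hm')
        obtain ⟨b, hb⟩ := hm1
        obtain ⟨T', hT'⟩ := actS_large hz (m + 1)
        refine ⟨max T' (T (m + 1)), fun t ht x hx hxe => ?_⟩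
        have hlev : lev x = t := by
          unfold lev
          rw [Nat.log_eq_iff (Or.inr ⟨by norm_num, ?_⟩)]
          · exact ⟨hx.1, hx.2⟩
          · have : 0 < 2 ^ t := by positivity
            have := hx.1
            omega
        by_cases hact : actS (zz e) t
        · refine Or.inr ⟨m, b, hb, ?_, ?_⟩
          · rw [hlev]
            exact hT' t ((le_max_left _ _).trans ht) hact
          · rw [hlev, hxe]
            intro h
            apply hm2
            have h1 := hGL m t ((le_max_right _ _).trans ht)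
            simp only [G] at h1
            rw [← h1, ← h]
            exact hX.1 hb
        · left
          right
          rw [hlev, hxe]
          exact hact
      · push Not at hz
        obtain ⟨t₀, ht₀⟩ := hz
        refine ⟨t₀, fun t ht x hx hxe => ?_⟩
        have hlev : lev x = t := by
          unfold lev
          rw [Nat.log_eq_iff (Or.inr ⟨by norm_num, ?_⟩)]
          · exact ⟨hx.1, hx.2⟩
          · have : 0 < 2 ^ t := by positivity
            have := hx.1
            omega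
        left
        right
        rw [hlev, hxe]
        intro hact
        exact not_lt_up (not_lt.2 ht₀) t ht hact.1
    choose T hT using hcol
    intro n
    refine ⟨max ((Finset.range (n + 1)).sup T) (n + 1), fun t ht => ?_⟩
    have h1 : cnt (out S0 S1 X)ᶜ t ≤
        cnt {x | 2 ^ (n + 1) + x % 2 ^ (n + 1) ∈ ({2 ^ (n + 1)} : Set ℕ)} t := by
      apply cnt_le_of
      intro x hx hx'
      have h2 : n + 1 ≤ col x := by
        by_contra hlt
        push Not at hlt
        apply hx'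
        have h3 : T (col x) ≤ (Finset.range (n + 1)).sup T :=
          Finset.le_sup (f := T) (Finset.mem_range.2 hlt)
        exact hT (col x) t (h3.trans ((le_max_left _ _).trans ht)) x hx rfl
      have h4 := mod_of_le_col h2
      change 2 ^ (n + 1) + x % 2 ^ (n + 1) = 2 ^ (n + 1)
      rw [h4, Nat.add_zero]
    rw [cnt_label _ ((le_max_right _ _).trans ht)] at h1
    have h2 : cnt ({2 ^ (n + 1)} : Set ℕ) (n + 1) = 1 := by
      unfold cnt
      have : (({2 ^ (n + 1)} : Set ℕ) ∩ Set.Ico (2 ^ (n + 1)) (2 ^ (n + 1 + 1))) =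
          {2 ^ (n + 1)} := by
        ext x
        simp only [Set.mem_inter_iff, Set.mem_singleton_iff, Set.mem_Ico, and_iff_left_iff_imp]
        rintro rfl
        exact ⟨le_rfl, Nat.pow_lt_pow_right (by norm_num) (Nat.lt_succ_self _)⟩
      rw [this, Set.ncard_singleton]
    rw [h2, Nat.mul_one] at h1
    have h3 : n + 1 ≤ 2 ^ (n + 1) := Nat.lt_two_pow_self.le
    calc (n + 1) * cnt (out S0 S1 X)ᶜ t ≤ 2 ^ (n + 1) * 2 ^ (t - (n + 1)) :=
          Nat.mul_le_mul h3 h1
      _ = 2 ^ t := by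
          rw [← pow_add]
          congr 1
          have := (le_max_right _ _).trans ht
          omega
  · intro e he hdense
    have hz : ∀ t, zz e t < 2 ^ t := by
      intro t
      refine lt_of_le_of_lt (zz_le (pre_lt A t) ?_) (pre_lt A t)
      intro t' ht' hact hhit heq
      obtain ⟨x, hx1, hx2, hx3, hx4⟩ := hhit
      have hx : x ∈ Set.Ico (2 ^ t') (2 ^ (t' + 1)) := ⟨hx2, hx1⟩
      have hlev : lev x = t' := by
        unfold lev
        rw [Nat.log_eq_iff (Or.inr ⟨by norm_num, ?_⟩)]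
        · exact ⟨hx.1, hx.2⟩
        · have : 0 < 2 ^ t' := by positivity
          omega
      have hcol : col x = e := col_eq hx3
      rcases he x t hx4 with (h0 | h0) | ⟨m, b, hg, h1, h2⟩
      · have : 0 < 2 ^ t' := by positivity
        omega
      · rw [hlev, hcol] at h0
        exact h0 hact
      · rw [hlev, hcol] at h2
        rw [hlev] at h1
        apply h2
        have hl := ln_le t'
        rw [pre_div A (by omega)] at heq
        have h3 := pre_bit A h1
        rw [heq, Nat.div_div_eq_div_mul, ← pow_add] at h3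
        have h4 : t' - ln t' + (ln t' - 1 - m) = t' - 1 - m := by omega
        rw [h4] at h3
        exact graph_unique hg h3
    exact not_dense hz hdense

/-- The theorem. -/
theorem main (A : Set ℕ) (hA : ¬ GC A) : Concl A := by
  by_cases h : ∃ G : ℕ → ℕ → ℕ, (Cf fun v => G (gt v 0) (gt v 1)) ∧
      ∃ Z : ℕ → ℕ, (∀ m, ∃ s₀, ∀ s ≥ s₀, G s m = Z m) ∧ Z0 {m | Nat.pair m (Z m) ∉ graph A}
  · obtain ⟨G, hG, Z, hZ, hclose⟩ := h
    exact case_b hG hA hZ hclose
  · push Not at h
    exact case_a h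

end Pool.Agent.Helper96.Igusa
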