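import Pool.Agent.Helper96.Complexity

/-!
# Numbers in binary as inputs and outputs of polynomial-time functions
-/

set_option autoImplicit false

namespace Pool.Agent.Helper96

open Classical

theorem bits_congr {len : ℕ} {b b' : ℕ → Prop} (h : ∀ i < len, (b i ↔ b' i)) :
    bits len b = bits len b' := by
  unfold bits
  apply List.map_congr_left
  intro i hi
  rw [List.mem_range] at hi
  exact decide_eq_decide.2 (h i hi)

theorem bits_succ (len : ℕ) (b : ℕ → Prop) :
    bits (len + 1) b = decide (b 0) :: bits len (fun i => b (i + 1)) := by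
  unfold bits
  rw [List.range_succ_eq_map, List.map_cons, List.map_map]
  rfl

theorem encodePosNum_eq (p : PosNum) :
    Computability.encodePosNum p = bits (p : ℕ).size (fun i => (p : ℕ).testBit i = true) := by
  induction p with
  | one => simp [Computability.encodePosNum, bits]
  | bit0 n ih =>
    have hpos : 0 < (n : ℕ) := PosNum.cast_pos n
    have h1 : ((PosNum.bit0 n : PosNum) : ℕ) = Nat.bit false (n : ℕ) := by
      rw [PosNum.cast_bit0]; simp [Nat.bit]; omega
    rw [h1, Nat.size_bit (by simp [Nat.bit]; omega), bits_succ]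
    simp only [Computability.encodePosNum, ih, Nat.testBit_bit_zero, Nat.testBit_bit_succ]
    rfl
  | bit1 n ih =>
    have h1 : ((PosNum.bit1 n : PosNum) : ℕ) = Nat.bit true (n : ℕ) := by
      rw [PosNum.cast_bit1]; simp [Nat.bit]; omega
    rw [h1, Nat.size_bit (by simp [Nat.bit]), bits_succ]
    simp only [Computability.encodePosNum, ih, Nat.testBit_bit_zero, Nat.testBit_bit_succ]
    rfl

theorem encodeNat_eq (n : ℕ) :
    Computability.encodeNat n = bits n.size (fun i => n.testBit i = true) := by
  unfold Computability.encodeNat Computability.encodeNum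
  rcases h : (n : Num) with _ | p
  · have h1 : n = 0 := by
      have := congrArg (fun z : Num => (z : ℕ)) h
      simpa using this
    subst h1
    simp [bits]
  · have h1 : n = (p : ℕ) := by
      have := congrArg (fun z : Num => (z : ℕ)) h
      simpa using this
    subst h1
    exact encodePosNum_eq p

theorem length_encodeNat (n : ℕ) : (Computability.encodeNat n).length = n.size := by
  rw [encodeNat_eq, length_bits]

theorem getElem?_encodeNat (n i : ℕ) :
    (Computability.encodeNat n)[i]? = some true ↔ n.testBit i = true := by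
  rw [encodeNat_eq, getElem?_bits]
  constructor
  · exact fun h => h.2
  · intro h
    refine ⟨?_, h⟩
    rw [Nat.lt_size]
    exact Nat.ge_two_pow_of_testBit h

theorem DefP.exp {P : Inp → (ℕ → ℕ) → Prop} (h : DefP P) :
    ∃ e : Exp, ∀ X v, e.eval X v ≠ 0 ↔ P X v := by
  obtain ⟨e, he⟩ := h
  refine ⟨e, fun X v => ?_⟩
  have h1 : e.eval X v = if P X v then 1 else 0 := he X v
  rw [h1]
  by_cases hP : P X v <;> simp [hP]

/-- If the binary digits of `F X` are definable then the binary expansion of `F X` is generated by
expressions. -/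
theorem exists_genOut_nat {len : Inp → ℕ} {b : Inp → ℕ → Prop}
    (hlen : Def fun X _ => len X) (hb : DefP fun X v => b X (v 0)) :
    ∃ L E B : Exp, ∀ (X : Inp) (N : ℕ), (∀ i, N.testBit i = true ↔ i < len X ∧ b X i) →
      genOut L E B X = Computability.encodeNat N := by
  have hE : DefP fun X v => ∃ j < len X, v 0 ≤ j ∧ b X j := by
    have h1 : DefP fun X v => v 1 ≤ v 0 := DefP.le (Def.var 1) (Def.var 0)
    exact DefP.ex hlen (h1.and hb)
  obtain ⟨L, hL⟩ := hlen
  obtain ⟨E, hE⟩ := hE.exp
  obtain ⟨B, hB⟩ := hb.exp
  refine ⟨L, E, B, fun X N hF => ?_⟩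
  rw [encodeNat_eq]
  have hsize : ∀ i, (∃ j < len X, i ≤ j ∧ b X j) ↔ i < N.size := by
    intro i
    rw [Nat.lt_size]
    constructor
    · rintro ⟨j, hj, hij, hbj⟩
      have h2 := Nat.ge_two_pow_of_testBit ((hF j).2 ⟨hj, hbj⟩)
      exact (Nat.pow_le_pow_right (by norm_num) hij).trans h2
    · intro h
      obtain ⟨j, hj, hbj⟩ := Nat.exists_ge_and_testBit_of_ge_two_pow h
      obtain ⟨h1, h2⟩ := (hF j).1 hbj
      exact ⟨j, h1, hj, h2⟩
  have hle : N.size ≤ len X := by
    by_contra hlt
    push Not at hlt
    obtain ⟨j, hj, hj', -⟩ := (hsize (len X)).2 hlt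
    omega
  unfold genOut bits
  rw [hL]
  have hfilter : (List.range (len X)).filter
      (fun i => decide (E.eval X (cons i env0) ≠ 0)) = List.range N.size := by
    have h1 : ∀ i, decide (E.eval X (cons i env0) ≠ 0) = decide (i < N.size) := by
      intro i
      rw [decide_eq_decide, hE, ← hsize i]
      rfl
    simp only [h1]
    obtain ⟨d, hd⟩ := Nat.exists_eq_add_of_le hle
    rw [hd, List.range_add, List.filter_append]
    rw [List.filter_eq_self.2 (by intro i hi; simpa using hi), List.filter_eq_nil_iff.2 (by
      intro i hi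
      rw [List.mem_map] at hi
      obtain ⟨j, -, rfl⟩ := hi
      simp)]
    simp
  rw [hfilter]
  apply List.map_congr_left
  intro i hi
  rw [List.mem_range] at hi
  have h2 : i < len X := lt_of_lt_of_le hi hle
  rw [decide_eq_decide, hB]
  exact ⟨fun h => (hF i).2 ⟨h2, h⟩, fun h => ((hF i).1 h).2⟩

/-- Encoding of a pair of a string and a number. -/
def pairNatEnc (z : List Bool × ℕ) : List (Bool ⊕ Bool) :=
  pairEnc (z.1, Computability.encodeNat z.2)

/-- Functions of a string and a number whose value has definable binary digits are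
polynomial-time computable. -/
theorem polyTime_num {r : List Bool × ℕ → ℕ} {len : Inp → ℕ} {b : Inp → ℕ → Prop}
    (hlen : Def fun X _ => len X) (hb : DefP fun X v => b X (v 0))
    (hr : ∀ x e i, (r (x, e)).testBit i = true ↔
      i < len (inp2 x (Computability.encodeNat e)) ∧ b (inp2 x (Computability.encodeNat e)) i) :
    PolyTime pairNatEnc Computability.encodeNat r := by
  obtain ⟨L, E, B, h⟩ := exists_genOut_nat hlen hb
  refine polyTime_gen (fun s : Bool ⊕ Bool => (Sum.isRight s, Sum.elim id id s)) pairNatEnc
    Computability.encodeNat r L E B fun z => ?_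
  have : (fun i => proj (fun s : Bool ⊕ Bool => (Sum.isRight s, Sum.elim id id s)) i
      (pairNatEnc z)) = inp2 z.1 (Computability.encodeNat z.2) := by
    funext i; exact proj_inp2 z.1 _ i
  rw [this]
  exact (h _ _ (hr z.1 z.2)).symm

end Pool.Agent.Helper96
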