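import Pool.Agent.Helper96.Tableau

/-!
# Simulation of `FinTM2` machines by cellular computations
-/

set_option autoImplicit false
set_option backward.isDefEq.respectTransparency false
set_option linter.unusedSectionVars false

namespace Pool.Agent.Helper96

open Turing Turing.TM2

section Atomic

variable (tm : FinTM2)

/-- Statements of the machine. -/
abbrev St := TM2.Stmt tm.Γ tm.Λ tm.σ

variable {tm}

/-- Next statement and internal state of the atomic machine. -/
def nextSt : St tm → tm.σ → (∀ k, Option (tm.Γ k)) → St tm × tm.σ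
  | .push _ _ q, v, _ => (q, v)
  | .peek k f q, v, tp => (q, f v (tp k))
  | .pop k f q, v, tp => (q, f v (tp k))
  | .load a q, v, _ => (q, a v)
  | .branch f q₁ q₂, v, _ => (cond (f v) q₁ q₂, v)
  | .goto f, v, _ => (tm.m (f v), v)
  | .halt, v, _ => (.halt, v)

/-- Next stacks of the atomic machine. -/
def nextStk : St tm → tm.σ → (∀ k, List (tm.Γ k)) → (∀ k, List (tm.Γ k))
  | .push k f _, v, S => Function.update S k (f v :: S k)
  | .pop k _ _, _, S => Function.update S k (S k).tail
  | _, _, S => S

/-- Configurations of the atomic machine. -/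
abbrev ACfg (tm : FinTM2) := (St tm × tm.σ) × (∀ k, List (tm.Γ k))

/-- One step of the atomic machine. -/
def aStep (c : ACfg tm) : ACfg tm :=
  (nextSt c.1.1 c.1.2 (fun k => (c.2 k).head?), nextStk c.1.1 c.1.2 c.2)

/-- Atomic configuration of a machine configuration. -/
def toA (c : tm.Cfg) : ACfg tm :=
  match c with
  | ⟨some l, v, S⟩ => ((tm.m l, v), S)
  | ⟨none, v, S⟩ => ((.halt, v), S)

/-- Maximal number of atomic steps in a statement. -/
def depth : St tm → ℕ
  | .push _ _ q => depth q + 1
  | .peek _ _ q => depth q + 1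
  | .pop _ _ q => depth q + 1
  | .load _ q => depth q + 1
  | .branch _ q₁ q₂ => max (depth q₁) (depth q₂) + 1
  | .goto _ => 1
  | .halt => 0

theorem stepAux_sim : ∀ (q : St tm) (v : tm.σ) (S : ∀ k, List (tm.Γ k)),
    ∃ n ≤ depth q, aStep^[n] ((q, v), S) = toA (TM2.stepAux q v S : tm.Cfg) := by
  intro q
  induction q with
  | push k f q ih =>
    intro v S
    obtain ⟨n, hn, h⟩ := ih v (Function.update S k (f v :: S k))
    exact ⟨n + 1, by simp only [depth]; omega, h⟩
  | peek k f q ih =>
    intro v S
    obtain ⟨n, hn, h⟩ := ih (f v (S k).head?) S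
    exact ⟨n + 1, by simp only [depth]; omega, h⟩
  | pop k f q ih =>
    intro v S
    obtain ⟨n, hn, h⟩ := ih (f v (S k).head?) (Function.update S k (S k).tail)
    exact ⟨n + 1, by simp only [depth]; omega, h⟩
  | load a q ih =>
    intro v S
    obtain ⟨n, hn, h⟩ := ih (a v) S
    exact ⟨n + 1, by simp only [depth]; omega, h⟩
  | branch f q₁ q₂ ih₁ ih₂ =>
    intro v S
    cases hf : f v with
    | true =>
      obtain ⟨n, hn, h⟩ := ih₁ v S
      refine ⟨n + 1, by simp only [depth]; omega, ?_⟩
      rw [Function.iterate_succ_apply]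
      have : aStep ((.branch f q₁ q₂, v), S) = ((q₁, v), S) := by
        simp [aStep, nextSt, nextStk, hf]
      rw [this, h]
      simp [TM2.stepAux, hf]
    | false =>
      obtain ⟨n, hn, h⟩ := ih₂ v S
      refine ⟨n + 1, by simp only [depth]; omega, ?_⟩
      rw [Function.iterate_succ_apply]
      have : aStep ((.branch f q₁ q₂, v), S) = ((q₂, v), S) := by
        simp [aStep, nextSt, nextStk, hf]
      rw [this, h]
      simp [TM2.stepAux, hf]
  | goto f => intro v S; exact ⟨1, le_rfl, rfl⟩
  | halt => intro v S; exact ⟨0, le_rfl, rfl⟩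

theorem exists_depth_bound : ∃ D, ∀ l, depth (tm.m l) ≤ D := by
  have := tm.ΛFin
  obtain ⟨D, hD⟩ := (Set.finite_range fun l => depth (tm.m l)).bddAbove
  exact ⟨D, fun l => hD ⟨l, rfl⟩⟩

theorem iterate_halt (v : tm.σ) (S : ∀ k, List (tm.Γ k)) :
    ∀ n, aStep^[n] ((.halt, v), S) = (((.halt, v), S) : ACfg tm) := by
  intro n
  induction n with
  | zero => rfl
  | succ n ih => rw [Function.iterate_succ_apply]; exact ih

theorem steps_sim {D : ℕ} (hD : ∀ l, depth (tm.m l) ≤ D) : ∀ (n : ℕ) (c c' : tm.Cfg),
    (flip bind tm.step)^[n] (some c) = some c' → ∃ m ≤ D * n, aStep^[m] (toA c) = toA c' := by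
  intro n
  induction n with
  | zero =>
    intro c c' h
    have : c = c' := by simpa using h
    subst this
    exact ⟨0, le_rfl, rfl⟩
  | succ n ih =>
    intro c c' h
    rw [Function.iterate_succ_apply] at h
    rcases c with ⟨_ | l, v, S⟩
    · exfalso
      have h1 : flip bind tm.step (some (⟨none, v, S⟩ : tm.Cfg)) = none := rfl
      rw [h1] at h
      have h2 : ∀ m, (flip bind tm.step)^[m] (none : Option tm.Cfg) = none := by
        intro m
        induction m with
        | zero => rfl
        | succ m ihm => rw [Function.iterate_succ_apply]; exact ihm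
      rw [h2] at h
      cases h
    · have h1 : flip bind tm.step (some (⟨some l, v, S⟩ : tm.Cfg)) =
          some (TM2.stepAux (tm.m l) v S) := rfl
      rw [h1] at h
      obtain ⟨m, hm, hm'⟩ := ih _ _ h
      obtain ⟨m₁, hm₁, hm₁'⟩ := stepAux_sim (tm.m l) v S
      refine ⟨m + m₁, ?_, ?_⟩
      · have := hD l
        rw [Nat.mul_succ]
        omega
      · rw [Function.iterate_add_apply]
        change aStep^[m] (aStep^[m₁] ((tm.m l, v), S)) = _
        rw [hm₁', hm']

/-- If the machine outputs `out` in time `t`, the atomic machine is in the corresponding halting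
configuration at every time `≥ D * t`. -/
theorem outputs_sim {D : ℕ} (hD : ∀ l, depth (tm.m l) ≤ D) {inp : List (tm.Γ tm.k₀)}
    {out : List (tm.Γ tm.k₁)} {t : ℕ} (h : TM2OutputsInTime tm inp (some out) t) {T : ℕ}
    (hT : D * t ≤ T) : aStep^[T] (toA (initList tm inp)) = toA (haltList tm out) := by
  have h1 := h.evals_in_steps
  have h2 := h.steps_le_m
  change (flip bind tm.step)^[h.steps] (some (initList tm inp)) = some (haltList tm out) at h1
  obtain ⟨m, hm, hm'⟩ := steps_sim hD _ _ _ h1
  have h3 : m ≤ T := (hm.trans (Nat.mul_le_mul_left D h2)).trans hT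
  obtain ⟨d, rfl⟩ := Nat.exists_eq_add_of_le h3
  rw [Nat.add_comm, Function.iterate_add_apply, hm']
  exact iterate_halt _ _ _

/-- Reachable statements. -/
def Reach (tm : FinTM2) : Set (St tm) := {q | q = .halt ∨ ∃ l, q ∈ TM2.stmts₁ (tm.m l)}

theorem reach_finite : (Reach tm).Finite := by
  have := tm.ΛFin
  have h : Reach tm = {.halt} ∪ ⋃ l, ((TM2.stmts₁ (tm.m l) : Finset (St tm)) : Set (St tm)) := by
    ext q
    simp [Reach]
  rw [h]
  exact (Set.finite_singleton _).union (Set.finite_iUnion fun l => Finset.finite_toSet _)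

theorem reach_next {q : St tm} (hq : q ∈ Reach tm) (v : tm.σ) (tp : ∀ k, Option (tm.Γ k)) :
    (nextSt q v tp).1 ∈ Reach tm := by
  classical
  rcases hq with rfl | ⟨l, hl⟩
  · exact Or.inl rfl
  · have hsub := TM2.stmts₁_trans hl
    cases q with
    | push k f q => exact Or.inr ⟨l, hsub (by
        simp only [TM2.stmts₁]; exact Finset.mem_insert_of_mem TM2.stmts₁_self)⟩
    | peek k f q => exact Or.inr ⟨l, hsub (by
        simp only [TM2.stmts₁]; exact Finset.mem_insert_of_mem TM2.stmts₁_self)⟩
    | pop k f q => exact Or.inr ⟨l, hsub (by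
        simp only [TM2.stmts₁]; exact Finset.mem_insert_of_mem TM2.stmts₁_self)⟩
    | load a q => exact Or.inr ⟨l, hsub (by
        simp only [TM2.stmts₁]; exact Finset.mem_insert_of_mem TM2.stmts₁_self)⟩
    | branch f q₁ q₂ =>
      change cond (f v) q₁ q₂ ∈ Reach tm
      cases f v with
      | true => exact Or.inr ⟨l, hsub (by
          simp only [TM2.stmts₁]
          exact Finset.mem_insert_of_mem (Finset.mem_union_left _ TM2.stmts₁_self))⟩
      | false => exact Or.inr ⟨l, hsub (by
          simp only [TM2.stmts₁]
          exact Finset.mem_insert_of_mem (Finset.mem_union_right _ TM2.stmts₁_self))⟩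
    | goto f => exact Or.inr ⟨f v, TM2.stmts₁_self⟩
    | halt => exact Or.inl rfl

/-- Control states. -/
abbrev Ctl (tm : FinTM2) := {q : St tm // q ∈ Reach tm} × tm.σ

instance : Finite (Ctl tm) := by
  have := tm.σFin
  have : Finite {q : St tm // q ∈ Reach tm} := reach_finite.to_subtype
  exact inferInstance

/-- Cells. -/
abbrev Cell (tm : FinTM2) := Option (Ctl tm) × (∀ k, Option (tm.Γ k))

theorem finite_cell (h : ∀ k, Finite (tm.Γ k)) : Finite (Cell tm) := by
  have := tm.kFin
  have h2 : Finite (∀ k, Option (tm.Γ k)) := Pi.finite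
  exact inferInstance

/-- Stack part of the local rule. -/
def stkRule : St tm → tm.σ → Cell tm → Cell tm → Cell tm → (∀ k, Option (tm.Γ k))
  | .push k f _, v, l, c, _ =>
      Function.update c.2 k (if c.1.isSome then some (f v) else l.2 k)
  | .pop k _ _, _, _, c, r => Function.update c.2 k (r.2 k)
  | _, _, _, c, _ => c.2

/-- The local rule. -/
def cellRule (l c r z : Cell tm) : Cell tm :=
  match z.1 with
  | none => c
  | some qv =>
    (c.1.map (fun _ => (⟨(nextSt qv.1.1 qv.2 z.2).1, reach_next qv.1.2 _ _⟩,
      (nextSt qv.1.1 qv.2 z.2).2)), stkRule qv.1.1 qv.2 l c r)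

/-- The blank cell. -/
def blankCell : Cell tm := (none, fun _ => none)

open Classical in
/-- The cell of an atomic configuration at a position. -/
noncomputable def cellOf (c : ACfg tm) (j : ℕ) : Cell tm :=
  (if h : j = 0 ∧ c.1.1 ∈ Reach tm then some (⟨c.1.1, h.2⟩, c.1.2) else none, fun k => (c.2 k)[j]?)

theorem cellOf_step (c : ACfg tm) (hc : c.1.1 ∈ Reach tm) (j : ℕ) :
    cellRule (cellOf c (j - 1)) (cellOf c j) (cellOf c (j + 1)) (cellOf c 0) =
      cellOf (aStep c) j := by
  classical
  obtain ⟨⟨q, v⟩, S⟩ := c
  have hz : (cellOf ((q, v), S) 0).1 = some ((⟨q, hc⟩, v) : Ctl tm) := by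
    unfold cellOf
    exact dif_pos ⟨rfl, hc⟩
  have hz2 : (cellOf ((q, v), S) 0).2 = fun k => (S k).head? := by
    funext k
    simp only [cellOf]
    rw [List.head?_eq_getElem?]
  unfold cellRule
  rw [hz]
  simp only [hz2]
  have hnext : (aStep ((q, v), S)).1.1 ∈ Reach tm := reach_next hc _ _
  apply Prod.ext
  · by_cases hj : j = 0
    · subst hj
      rw [hz]
      simp only [cellOf, Option.map_some]
      rw [dif_pos ⟨trivial, hnext⟩]
      rfl
    · have h1 : (cellOf ((q, v), S) j).1 = none := by
        simp only [cellOf]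
        rw [dif_neg (fun h => hj h.1)]
      have h2 : (cellOf (aStep ((q, v), S)) j).1 = none := by
        simp only [cellOf]
        rw [dif_neg (fun h => hj h.1)]
      rw [h1, h2]
      rfl
  · change stkRule q v _ _ _ = fun k => (nextStk q v S k)[j]?
    have hc2 : ∀ i, (cellOf ((q, v), S) i).2 = fun k => (S k)[i]? := fun i => rfl
    cases q with
    | push k f q' =>
      simp only [stkRule, nextStk, hc2]
      funext k'
      by_cases hk : k' = k
      · subst hk
        rw [Function.update_self, Function.update_self]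
        by_cases hj : j = 0
        · subst hj
          rw [hz]
          simp
        · have h1 : (cellOf ((.push k' f q', v), S) j).1 = none := by
            simp only [cellOf]
            rw [dif_neg (fun h => hj h.1)]
          rw [h1]
          obtain ⟨i, rfl⟩ : ∃ i, j = i + 1 := ⟨j - 1, by omega⟩
          simp
      · rw [Function.update_of_ne hk, Function.update_of_ne hk]
    | pop k f q' =>
      simp only [stkRule, nextStk, hc2]
      funext k'
      by_cases hk : k' = k
      · subst hk
        rw [Function.update_self, Function.update_self]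
        simp
      · rw [Function.update_of_ne hk, Function.update_of_ne hk]
    | peek k f q' => rfl
    | load a q' => rfl
    | branch f q₁ q₂ => rfl
    | goto f => rfl
    | halt => rfl

theorem length_nextStk (q : St tm) (v : tm.σ) (S : ∀ k, List (tm.Γ k)) (k : tm.K) :
    (nextStk q v S k).length ≤ (S k).length + 1 := by
  cases q with
  | push k' f q' =>
    simp only [nextStk]
    by_cases hk : k = k'
    · subst hk; simp
    · rw [Function.update_of_ne hk]; omega
  | pop k' f q' =>
    simp only [nextStk]
    by_cases hk : k = k'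
    · subst hk; simp; omega
    · rw [Function.update_of_ne hk]; omega
  | peek k' f q' => simp only [nextStk]; omega
  | load a q' => simp only [nextStk]; omega
  | branch f q₁ q₂ => simp only [nextStk]; omega
  | goto f => simp only [nextStk]; omega
  | halt => simp only [nextStk]; omega

theorem iterate_reach {c : ACfg tm} (hc : c.1.1 ∈ Reach tm) (n : ℕ) :
    (aStep^[n] c).1.1 ∈ Reach tm := by
  induction n with
  | zero => exact hc
  | succ n ih =>
    rw [Function.iterate_succ_apply']
    exact reach_next ih _ _

theorem iterate_length (c : ACfg tm) (k : tm.K) (n : ℕ) :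
    ((aStep^[n] c).2 k).length ≤ (c.2 k).length + n := by
  induction n with
  | zero => simp
  | succ n ih =>
    rw [Function.iterate_succ_apply']
    have := length_nextStk (aStep^[n] c).1.1 (aStep^[n] c).1.2 (aStep^[n] c).2 k
    change (nextStk (aStep^[n] c).1.1 (aStep^[n] c).1.2 (aStep^[n] c).2 k).length ≤ _
    omega

/-- The rows of the cellular computation are the cells of the atomic computation. -/
theorem row_cellOf (ca : CA (Cell tm)) (hF : ca.F = cellRule) (hb : ca.blank = blankCell)
    (c : ACfg tm) (hc : c.1.1 ∈ Reach tm) (S : ℕ) (T : ℕ) (hS : 2 ≤ S)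
    (hlen : ∀ k, (c.2 k).length + T + 1 ≤ S) : ∀ τ ≤ T,
    ca.row S (cellOf c) τ = cellOf (aStep^[τ] c) := by
  intro τ
  induction τ with
  | zero => intro _; rfl
  | succ τ ih =>
    intro hτ
    rw [row_succ, ih (by omega), Function.iterate_succ_apply']
    funext j
    unfold CA.evolve
    by_cases hj : j + 1 < S
    · rw [if_pos hj, hF]
      exact cellOf_step _ (iterate_reach hc τ) j
    · rw [if_neg hj, hb]
      unfold blankCell cellOf
      rw [dif_neg (by rintro ⟨h, _⟩; omega)]
      congr 1
      funext k
      symm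
      apply List.getElem?_eq_none
      have := iterate_length c k (τ + 1)
      rw [Function.iterate_succ_apply'] at this
      have := hlen k
      omega

end Atomic

end Pool.Agent.Helper96
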