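import Mathlib
import Pool.Agent.Helper96.Split6

/-!
# The two colourings
-/

namespace Pool.Agent.Helper96.Split

open Cardinal Set Ordinal

/-- Transfer of a colouring given by a predicate on finite sets to an arbitrary set of the right
size. -/
theorem transfer {T V : Type} {l₀ : Cardinal.{0}} {k m : ℕ} (E : Finset V → Prop)
    (L : Set V) (hL : #T ≤ #L)
    (h0 : ∀ H : Set V, H ⊆ L → #H = l₀ → ∃ s : Finset V, s.card = k ∧ ↑s ⊆ H ∧ E s)
    (h1 : ∀ S : Finset V, S.card = m → ∃ s ⊆ S, s.card = k ∧ ¬ E s) :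
    ∃ f : {s : Finset T // s.card = k} → Fin 2,
      (∀ H : Set T, #H = l₀ → ¬ ∀ s : {s : Finset T // s.card = k}, (s.1 : Set T) ⊆ H → f s = 0) ∧
      (∀ H : Set T, #H = (m : Cardinal) →
        ¬ ∀ s : {s : Finset T // s.card = k}, (s.1 : Set T) ⊆ H → f s = 1) := by
  classical
  obtain ⟨e⟩ : Nonempty (T ↪ L) := Cardinal.le_def _ _ |>.mp hL
  let g : T ↪ V := e.trans (Function.Embedding.subtype _)
  have hg : ∀ x, g x ∈ L := fun x => (e x).2
  refine ⟨fun s => if E (s.1.map g) then 1 else 0, ?_, ?_⟩
  · intro H hH hf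
    obtain ⟨s, hs, hsH, hE⟩ := h0 (g '' H) (by rintro _ ⟨x, _, rfl⟩; exact hg x)
      (by rw [mk_image_eq g.injective, hH])
    have hsub : ∀ v ∈ s, ∃ x ∈ H, g x = v := fun v hv => hsH hv
    let s' : Finset T := s.preimage g g.injective.injOn
    have hmap : s'.map g = s := by
      ext v
      simp only [Finset.mem_map, s', Finset.mem_preimage]
      constructor
      · rintro ⟨x, hx, rfl⟩; exact hx
      · intro hv
        obtain ⟨x, _, rfl⟩ := hsub v hv
        exact ⟨x, hv, rfl⟩
    have hcard : s'.card = k := by rw [← hs, ← hmap, Finset.card_map]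
    have := hf ⟨s', hcard⟩ (by
      intro x hx
      have hx' : g x ∈ s := by simpa [s'] using hx
      obtain ⟨y, hy, hyx⟩ := hsub _ hx'
      rwa [g.injective hyx] at hy)
    simp only [hmap, if_pos hE] at this
    exact absurd this (by decide)
  · intro H hH hf
    have hfin : H.Finite := by
      rw [← Cardinal.lt_aleph0_iff_set_finite, hH]
      exact natCast_lt_aleph0
    obtain ⟨S, rfl⟩ := hfin.exists_finset_coe
    have hS : S.card = m := by
      have : (#(S : Set T)) = (S.card : Cardinal) := by simp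
      rw [this] at hH
      exact_mod_cast hH
    obtain ⟨s, hsS, hs, hE⟩ := h1 (S.map g) (by rw [Finset.card_map, hS])
    obtain ⟨s', hs'S, rfl⟩ := Finset.subset_map_iff.mp hsS
    have hcard : s'.card = k := by rw [← hs, Finset.card_map]
    have := hf ⟨s', hcard⟩ (by exact_mod_cast hs'S)
    simp only [if_neg hE] at this
    exact absurd this (by decide)

theorem exists_J (I : Type) (hI : #I = ℵ_ (ω : Ordinal.{0})) (n : ℕ) :
    ∃ J : Set I, #J = ℵ_ (n : Ordinal.{0}) := by
  apply Cardinal.le_mk_iff_exists_set.mp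
  rw [hI]
  exact (aleph_lt_omega n).le

/-- functions supported in a set -/
theorem mk_supported {K V : Type} (S : Set K) (L : Set V) (φ : (K → Bool) → V)
    (hφ : Function.Injective φ) (hL : ∀ f : K → Bool, (∀ x ∉ S, f x = false) → φ f ∈ L) :
    2 ^ #S ≤ #L := by
  classical
  rw [← mk_set]
  let ψ : Set S → L := fun A => ⟨φ fun t => decide (∃ h : t ∈ S, (⟨t, h⟩ : S) ∈ A), by
    apply hL
    intro t ht
    simp only [decide_eq_false_iff_not]
    rintro ⟨h, _⟩
    exact ht h⟩
  apply mk_le_of_injective (f := ψ)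
  intro A A' h
  ext ⟨t, ht⟩
  have h1 := congrFun (hφ (congrArg Subtype.val h)) t
  rw [decide_eq_decide] at h1
  constructor
  · intro hA; exact (h1.mp ⟨ht, hA⟩).2
  · intro hA; exact (h1.mpr ⟨ht, hA⟩).2

/-- **Colouring of triples.** -/
theorem main3 {I : Type} [LinearOrder I] [WellFoundedLT I] (hI : #I = ℵ_ (ω : Ordinal.{0}))
    {B : I → Set ℕ} (hB : Good B) {T : Type}
    (hT : #T = ⨆ n : ℕ, 2 ^ ℵ_ (n : Ordinal.{0})) :
    ∃ f : {s : Finset T // s.card = 3} → Fin 2,
      (∀ H : Set T, #H = ℵ_ (ω : Ordinal.{0}) →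
        ¬ ∀ s : {s : Finset T // s.card = 3}, (s.1 : Set T) ⊆ H → f s = 0) ∧
      (∀ H : Set T, #H = ((4 : ℕ) : Cardinal) →
        ¬ ∀ s : {s : Finset T // s.card = 3}, (s.1 : Set T) ⊆ H → f s = 1) := by
  classical
  choose J hJ using exists_J I hI
  let r : (I → Bool) → (I → Bool) → Prop := WellOrderingRel
  let V := ℕ × (I → Bool)
  let L : Set V := {p | ∀ t ∉ J p.1, p.2 t = false}
  let E : Finset V → Prop := fun s => ∃ p q w, s = {p, q, w} ∧ Edge r B p q w
  apply transfer (V := V) E L
  · rw [hT]
    apply ciSup_le'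
    intro n
    rw [← hJ n]
    refine mk_supported (J n) L (fun f => (n, f)) (fun f g h => congrArg Prod.snd h) ?_
    intro f hf t ht
    exact hf t ht
  · intro H hHL hcard
    by_contra hc
    push Not at hc
    have := indep_small (r := r) hB J hJ H (fun p hp => hHL hp) (by
      intro p hp q hq w hw hE
      have hne : p ≠ q ∧ p ≠ w ∧ q ≠ w := by
        rcases hE with ⟨h1, h2, h3, h4, h5⟩ | ⟨h1, h2, h3, t, h4, h5⟩
        · refine ⟨?_, ?_, ?_⟩
          · rintro rfl; exact irrefl_of r _ h4
          · rintro rfl; exact irrefl_of r _ h5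
          · rintro rfl; exact asymm_of r h4 h5
        · refine ⟨?_, ?_, ?_⟩
          · rintro rfl; exact irrefl_of r _ h3
          · rintro rfl; exact lt_irrefl _ h2
          · rintro rfl; exact absurd h1 h2.ne
      refine hc {p, q, w} ?_ ?_ ⟨p, q, w, rfl, hE⟩
      · rw [Finset.card_eq_three]
        exact ⟨p, q, w, hne.1, hne.2.1, hne.2.2, rfl⟩
      · intro v hv
        simp only [Finset.coe_insert, Finset.coe_singleton, Set.mem_insert_iff,
          Set.mem_singleton_iff] at hv
        rcases hv with rfl | rfl | rfl <;> assumption)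
    rw [hcard] at this
    exact lt_irrefl _ this
  · intro S hS
    by_contra hc
    push Not at hc
    obtain ⟨p, q, w, v, hpq, hpw, hpv, hqw, hqv, hwv, rfl⟩ := Finset.card_eq_four.mp hS
    have key : ∀ a b c, a ∈ ({p, q, w, v} : Finset V) → b ∈ ({p, q, w, v} : Finset V) →
        c ∈ ({p, q, w, v} : Finset V) → a ≠ b → a ≠ c → b ≠ c → SE r B a b c := by
      intro a b c ha hb hc' hab hac hbc
      obtain ⟨a', b', c', he, hE⟩ := hc {a, b, c} (by
        intro z hz
        simp only [Finset.mem_insert, Finset.mem_singleton] at hz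
        rcases hz with rfl | rfl | rfl <;> assumption)
        (Finset.card_eq_three.mpr ⟨a, b, c, hab, hac, hbc, rfl⟩)
      have hcard : ({a', b', c'} : Finset V).card = 3 := by
        rw [← he]
        exact Finset.card_eq_three.mpr ⟨a, b, c, hab, hac, hbc, rfl⟩
      have ha' : a' = a ∨ a' = b ∨ a' = c := by
        have : a' ∈ ({a, b, c} : Finset V) := by rw [he]; simp
        simpa using this
      have hb' : b' = a ∨ b' = b ∨ b' = c := by
        have : b' ∈ ({a, b, c} : Finset V) := by rw [he]; simp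
        simpa using this
      have hc'' : c' = a ∨ c' = b ∨ c' = c := by
        have : c' ∈ ({a, b, c} : Finset V) := by rw [he]; simp
        simpa using this
      have hne1 : a' ≠ b' := by
        rintro rfl
        have := Finset.card_le_two (a := a') (b := c')
        simp only [Finset.insert_idem] at hcard
        omega
      have hne2 : b' ≠ c' := by
        rintro rfl
        have := Finset.card_le_two (a := a') (b := b')
        simp only [Finset.insert_eq_of_mem (Finset.mem_singleton_self _)] at hcard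
        omega
      have hne3 : a' ≠ c' := by
        rintro rfl
        have := Finset.card_le_two (a := b') (b := a')
        have e : ({a', b', a'} : Finset V) = {b', a'} := by ext; simp
        rw [e] at hcard
        omega
      unfold SE
      rcases ha' with rfl | rfl | rfl <;> rcases hb' with rfl | rfl | rfl <;>
        rcases hc'' with rfl | rfl | rfl <;>
        first
        | exact absurd rfl hne1
        | exact absurd rfl hne2
        | exact absurd rfl hne3
        | tauto
    exact no_quad hpq hpw hqw hpv hqv hwv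
      (key p q w (by simp) (by simp) (by simp) hpq hpw hqw)
      (key p q v (by simp) (by simp) (by simp) hpq hpv hqv)
      (key p w v (by simp) (by simp) (by simp) hpw hpv hwv)
      (key q w v (by simp) (by simp) (by simp) hqw hqv hwv)

/-- **Colouring of quadruples.** -/
theorem main4 {I : Type} [LinearOrder I] [WellFoundedLT I] (hI : #I = ℵ_ (ω : Ordinal.{0}))
    {B : I → Set ℕ} (hB : Good B) {T : Type}
    (hT : #T = ⨆ n : ℕ, 2 ^ ((2 : Cardinal.{0}) ^ ℵ_ (n : Ordinal.{0}))) :
    ∃ f : {s : Finset T // s.card = 4} → Fin 2,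
      (∀ H : Set T, #H = ℵ_ (ω : Ordinal.{0}) →
        ¬ ∀ s : {s : Finset T // s.card = 4}, (s.1 : Set T) ⊆ H → f s = 0) ∧
      (∀ H : Set T, #H = ((5 : ℕ) : Cardinal) →
        ¬ ∀ s : {s : Finset T // s.card = 4}, (s.1 : Set T) ⊆ H → f s = 1) := by
  classical
  choose J hJ using exists_J I hI
  let r : (I → Bool) → (I → Bool) → Prop := WellOrderingRel
  let R : (Br I → Bool) → (Br I → Bool) → Prop := WellOrderingRel
  let V := ℕ × (Br I → Bool)
  let L : Set V := {p | ∀ x : Br I, ¬ (∀ t ∉ J p.1, x t = false) → p.2 x = false}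
  let M' : Br I → Br I → Br I → Prop := fun a b c => M r a b c
  let G' : ℕ → Br I → Br I → Prop := fun m a b => G r B m a b
  apply transfer (V := V) (fun s => E4 R M' G' s) L
  · rw [hT]
    apply ciSup_le'
    intro n
    have h1 : 2 ^ #(J n) ≤ #{x : Br I | ∀ t ∉ J n, x t = false} := by
      refine mk_supported (V := Br I) (J n) {x : Br I | ∀ t ∉ J n, x t = false} (fun f => f)
        (fun f g h => h) ?_
      intro f hf
      exact hf
    rw [← hJ n]
    refine le_trans (power_le_power_left two_ne_zero h1) ?_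
    refine mk_supported {x : Br I | ∀ t ∉ J n, x t = false} L (fun f => (n, f))
      (fun f g h => congrArg Prod.snd h) ?_
    intro f hf x hx
    exact hf x hx
  · intro H hHL hcard
    by_contra hc
    push Not at hc
    have := indep4_small (r := r) (R := R) hB J hJ H (fun p hp => hHL hp)
      (fun s hs hsc => hc s hsc hs)
    rw [hcard] at this
    exact lt_irrefl _ this
  · intro S hS
    by_contra hc
    push Not at hc
    refine no_quint (R := R) (M := M') (G := G') ?_ ?_ hS (fun s hs hsc => hc s hs hsc)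
    · intro a b c d h1 h2 h3 m1 m2 m3 m4
      exact quad (r := r) h1 h2 h3 m1 m2 m3 m4
    · intro m a b c h1 h2 h3 h4
      exact triple (r := r) h1 h2 h3 h4

/-- The sets that do not split an infinite set form a meagre set. -/
theorem meagre_nonsplit {A : Set ℕ} (hA : A.Infinite) :
    IsMeagre {x : ℕ → Bool | (A ∩ {n | x n = true}).Finite ∨ (A \ {n | x n = true}).Finite} := by
  have key : ∀ (N : ℕ) (b : Bool), IsMeagre {x : ℕ → Bool | ∀ n ∈ A, N ≤ n → x n = b} := by
    intro N b
    apply IsNowhereDense.isMeagre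
    have hcl : IsClosed {x : ℕ → Bool | ∀ n ∈ A, N ≤ n → x n = b} := by
      have : {x : ℕ → Bool | ∀ n ∈ A, N ≤ n → x n = b} =
          ⋂ n : ℕ, ⋂ _ : n ∈ A, ⋂ _ : N ≤ n, {x : ℕ → Bool | x n = b} := by
        ext x; simp
      rw [this]
      refine isClosed_iInter fun n => isClosed_iInter fun _ => isClosed_iInter fun _ => ?_
      exact isClosed_eq (continuous_apply n) continuous_const
    rw [hcl.isNowhereDense_iff, Set.eq_empty_iff_forall_notMem]
    intro x hx
    rw [mem_interior_iff_mem_nhds] at hx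
    -- a sequence leaving the set
    have hex : ∀ k : ℕ, ∃ n ∈ A, max N k ≤ n := by
      intro k
      obtain ⟨n, hn, hkn⟩ := hA.exists_gt (max N k)
      exact ⟨n, hn, hkn.le⟩
    choose a ha ha2 using hex
    have ht : Filter.Tendsto (fun k => Function.update x (a k) (!b)) Filter.atTop (nhds x) := by
      rw [tendsto_pi_nhds]
      intro i
      apply tendsto_const_nhds.congr'
      filter_upwards [Filter.eventually_gt_atTop i] with k hk
      have : i ≠ a k := by
        have := (le_max_right N k).trans (ha2 k)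
        omega
      rw [Function.update_of_ne this]
    obtain ⟨k, hk⟩ := (ht.eventually hx).exists
    have := hk (a k) (ha k) ((le_max_left N k).trans (ha2 k))
    simp at this
  have hsub : {x : ℕ → Bool | (A ∩ {n | x n = true}).Finite ∨ (A \ {n | x n = true}).Finite} ⊆
      ⋃ N : ℕ, ({x : ℕ → Bool | ∀ n ∈ A, N ≤ n → x n = false} ∪
        {x : ℕ → Bool | ∀ n ∈ A, N ≤ n → x n = true}) := by
    rintro x (hx | hx)
    · obtain ⟨N, hN⟩ := hx.bddAbove
      rw [mem_iUnion]
      refine ⟨N + 1, Or.inl fun n hn hNn => ?_⟩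
      by_contra hc
      have h1 : x n = true := by simpa using hc
      have := hN (show n ∈ A ∩ {n | x n = true} from ⟨hn, h1⟩)
      omega
    · obtain ⟨N, hN⟩ := hx.bddAbove
      rw [mem_iUnion]
      refine ⟨N + 1, Or.inr fun n hn hNn => ?_⟩
      by_contra hc
      have := hN (show n ∈ A \ {n | x n = true} from ⟨hn, hc⟩)
      omega
  refine IsMeagre.mono hsub ?_
  exact isMeagre_iUnion fun N => (key N false).union (key N true)

/-- Luzin-type sets give families of splitting sets. -/
theorem of_luzin {I : Type} (hI : #I = ℵ_ (ω : Ordinal.{0})) {X : Set (ℕ → Bool)}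
    (hX : ℵ_ (ω : Ordinal.{0}) ≤ #X) (hM : ∀ Y ⊆ X, IsMeagre Y → #Y < ℵ_ (ω : Ordinal.{0})) :
    ∃ B : I → Set ℕ, ∀ A : Set ℕ, A.Infinite →
      #{i | ¬ ((A ∩ B i).Infinite ∧ (A \ B i).Infinite)} < ℵ_ (ω : Ordinal.{0}) := by
  obtain ⟨e⟩ : Nonempty (I ↪ X) := Cardinal.le_def _ _ |>.mp (hI.le.trans hX)
  refine ⟨fun i => {n | (e i).1 n = true}, fun A hA => ?_⟩
  set Z : Set (ℕ → Bool) :=
    {x | (A ∩ {n | x n = true}).Finite ∨ (A \ {n | x n = true}).Finite} with hZ
  have hlt := hM (X ∩ Z) inter_subset_left (IsMeagre.mono inter_subset_right (meagre_nonsplit hA))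
  refine lt_of_le_of_lt ?_ hlt
  refine mk_le_of_injective (f := fun i : {i | ¬ ((A ∩ {n | (e i).1 n = true}).Infinite ∧
      (A \ {n | (e i).1 n = true}).Infinite)} => (⟨(e i.1).1, (e i.1).2, ?_⟩ : (X ∩ Z : Set _))) ?_
  · have := i.2
    simp only [Set.mem_ofPred_eq, not_and_or, Set.not_infinite] at this
    exact this
  · intro i j h
    have h1 : (e i.1).1 = (e j.1).1 := by
      simpa using h
    exact Subtype.ext (e.injective (Subtype.ext h1))

end Pool.Agent.Helper96.Split
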