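import Pool.Agent.Helper96.Count

/-!
# A parsimonious CNF tableau for deterministic cellular computations
-/

set_option autoImplicit false
set_option linter.unusedSectionVars false

namespace Pool.Agent.Helper96

/-- Data of a deterministic cellular computation: the local rule (left, centre, right, zeroth
cell), the blank cell, the sets of admissible initial cells and the accepting cells. -/
structure CA (A : Type) where
  F : A → A → A → A → A
  blank : A
  I : ℕ → A → Prop
  Acc : A → Prop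

/-- Kinds of clauses. -/
inductive Kind (A : Type) : Type
  | pair : A → Kind A
  | amo : A → A → Kind A
  | init : Kind A
  | trans : A → A → A → A → Kind A
  | bound : Kind A
  | final : Kind A

/-- Kinds as a sum of products (for finiteness). -/
def Kind.equiv (A : Type) : Kind A ≃ (A ⊕ (A × A)) ⊕ ((A × A × A × A) ⊕ Fin 3) where
  toFun
    | .pair a => .inl (.inl a)
    | .amo a b => .inl (.inr (a, b))
    | .trans a b c d => .inr (.inl (a, b, c, d))
    | .init => .inr (.inr 0)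
    | .bound => .inr (.inr 1)
    | .final => .inr (.inr 2)
  invFun
    | .inl (.inl a) => .pair a
    | .inl (.inr (a, b)) => .amo a b
    | .inr (.inl (a, b, c, d)) => .trans a b c d
    | .inr (.inr 0) => .init
    | .inr (.inr 1) => .bound
    | .inr (.inr 2) => .final
  left_inv x := by cases x <;> rfl
  right_inv x := by
    rcases x with (a | ⟨a, b⟩) | (⟨a, b, c, d⟩ | i)
    · rfl
    · rfl
    · rfl
    · fin_cases i <;> rfl

instance {A : Type} [Finite A] : Finite (Kind A) := Finite.of_equiv _ (Kind.equiv A).symm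

instance {A : Type} [Nonempty A] : Nonempty (Kind A) := ⟨.init⟩

variable {A : Type}

/-- Membership of the literal (time `τ`, position `j`, cell `a`, sign `b`) in the clause
(time `τ'`, position `j'`, kind `κ`), for total time `T` and width `S`. -/
def tmemN (ca : CA A) (T S : ℕ) (τ j : ℕ) (a : A) (b : Bool) (τ' j' : ℕ) : Kind A → Prop
  | .pair a' => τ = τ' ∧ j = j' ∧ a = a'
  | .amo a₁ a₂ => a₁ = a₂ ∨ (b = false ∧ τ = τ' ∧ j = j' ∧ (a = a₁ ∨ a = a₂))
  | .init => τ' ≠ 0 ∨ (b = true ∧ τ = τ' ∧ j = j' ∧ ca.I j a)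
  | .trans l c r z => ¬ (τ' + 1 ≤ T ∧ j' + 1 < S) ∨
      (b = false ∧ τ = τ' ∧ ((j = j' - 1 ∧ a = l) ∨ (j = j' ∧ a = c) ∨ (j = j' + 1 ∧ a = r) ∨
        (j = 0 ∧ a = z))) ∨
      (b = true ∧ τ = τ' + 1 ∧ j = j' ∧ a = ca.F l c r z)
  | .bound => j' + 1 ≠ S ∨ (b = true ∧ τ = τ' ∧ j = j' ∧ a = ca.blank)
  | .final => ¬ (τ' = T ∧ j' = 0) ∨ (b = true ∧ τ = τ' ∧ j = j' ∧ ca.Acc a)

/-- Variables of the tableau. -/
abbrev TV (A : Type) (T S : ℕ) := Fin (T + 1) × Fin S × A

/-- Clauses of the tableau. -/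
abbrev TC (A : Type) (T S : ℕ) := Fin (T + 1) × Fin S × Kind A

/-- Membership of literals in clauses. -/
def tmem (ca : CA A) (T S : ℕ) (ℓ : Lit (TV A T S)) (c : TC A T S) : Prop :=
  tmemN ca T S ℓ.1.1.val ℓ.1.2.1.val ℓ.1.2.2 ℓ.2 c.1.val c.2.1.val c.2.2

/-- One step of the computation. -/
def CA.evolve (ca : CA A) (S : ℕ) (c : ℕ → A) : ℕ → A := fun j =>
  if j + 1 < S then ca.F (c (j - 1)) (c j) (c (j + 1)) (c 0) else ca.blank

/-- Rows of the computation. -/
def CA.row (ca : CA A) (S : ℕ) (c : ℕ → A) (τ : ℕ) : ℕ → A := (ca.evolve S)^[τ] c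

/-- Extension of a row by blanks. -/
def CA.ext (ca : CA A) {S : ℕ} (c : Fin S → A) : ℕ → A := fun j =>
  if h : j < S then c ⟨j, h⟩ else ca.blank

/-- The semantic conditions on an assignment. -/
structure Facts (ca : CA A) (T S : ℕ) (α : TV A T S → Bool) : Prop where
  amo : ∀ τ j a₁ a₂, α (τ, j, a₁) = true → α (τ, j, a₂) = true → a₁ = a₂
  init : ∀ j : Fin S, ∃ a, ca.I j.val a ∧ α (0, j, a) = true
  trans : ∀ (τ τ' : Fin (T + 1)) (jl jc jr jz : Fin S) (l c r z : A), τ'.val = τ.val + 1 →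
    jl.val = jc.val - 1 → jr.val = jc.val + 1 → jz.val = 0 → α (τ, jl, l) = true →
    α (τ, jc, c) = true → α (τ, jr, r) = true → α (τ, jz, z) = true →
    α (τ', jc, ca.F l c r z) = true
  bound : ∀ (τ : Fin (T + 1)) (j : Fin S), j.val + 1 = S → α (τ, j, ca.blank) = true
  final : ∀ (τ : Fin (T + 1)) (j : Fin S), τ.val = T → j.val = 0 → ∃ a, ca.Acc a ∧
    α (τ, j, a) = true

theorem sat_iff_facts (ca : CA A) (T S : ℕ) (α : TV A T S → Bool) :
    Sat (tmem ca T S) α ↔ Facts ca T S α := by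
  constructor
  · intro h
    refine ⟨?_, ?_, ?_, ?_, ?_⟩
    · intro τ j a₁ a₂ h1 h2
      by_contra hne
      obtain ⟨⟨⟨τ₀, j₀, a₀⟩, b⟩, hm, hα⟩ := h (τ, j, .amo a₁ a₂)
      simp only [tmem, tmemN] at hm hα
      rcases hm with hm | ⟨hb, hτ, hj, ha⟩
      · exact hne hm
      · have e1 : τ₀ = τ := Fin.ext hτ
        have e2 : j₀ = j := Fin.ext hj
        subst e1 e2
        rcases ha with rfl | rfl
        · rw [h1, hb] at hα; cases hα
        · rw [h2, hb] at hα; cases hα
    · intro j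
      obtain ⟨⟨⟨τ₀, j₀, a₀⟩, b⟩, hm, hα⟩ := h (0, j, .init)
      simp only [tmem, tmemN] at hm hα
      rcases hm with hm | ⟨hb, hτ, hj, ha⟩
      · exact absurd rfl hm
      · have e1 : τ₀ = 0 := Fin.ext hτ
        have e2 : j₀ = j := Fin.ext hj
        subst e1 e2
        exact ⟨a₀, ha, hα.trans hb⟩
    · intro τ τ' jl jc jr jz l c r z e1 e2 e3 e4 h1 h2 h3 h4
      obtain ⟨⟨⟨τ₀, j₀, a₀⟩, b⟩, hm, hα⟩ := h (τ, jc, .trans l c r z)
      simp only [tmem, tmemN] at hm hα
      rcases hm with hm | ⟨hb, hτ, hj⟩ | ⟨hb, hτ, hj, ha⟩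
      · exfalso
        apply hm
        have := τ'.2
        have := jr.2
        omega
      · exfalso
        have e5 : τ₀ = τ := Fin.ext hτ
        subst e5
        rcases hj with ⟨hj, rfl⟩ | ⟨hj, rfl⟩ | ⟨hj, rfl⟩ | ⟨hj, rfl⟩
        · have e6 : j₀ = jl := Fin.ext (by omega)
          subst e6
          rw [h1, hb] at hα; cases hα
        · have e6 : j₀ = jc := Fin.ext (by omega)
          subst e6
          rw [h2, hb] at hα; cases hα
        · have e6 : j₀ = jr := Fin.ext (by omega)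
          subst e6
          rw [h3, hb] at hα; cases hα
        · have e6 : j₀ = jz := Fin.ext (by omega)
          subst e6
          rw [h4, hb] at hα; cases hα
      · have e5 : τ₀ = τ' := Fin.ext (by omega)
        have e6 : j₀ = jc := Fin.ext hj
        subst e5 e6 ha
        exact hα.trans hb
    · intro τ j hj
      obtain ⟨⟨⟨τ₀, j₀, a₀⟩, b⟩, hm, hα⟩ := h (τ, j, .bound)
      simp only [tmem, tmemN] at hm hα
      rcases hm with hm | ⟨hb, hτ, hj', ha⟩
      · exact absurd hj hm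
      · have e1 : τ₀ = τ := Fin.ext hτ
        have e2 : j₀ = j := Fin.ext hj'
        subst e1 e2 ha
        exact hα.trans hb
    · intro τ j hτ' hj'
      obtain ⟨⟨⟨τ₀, j₀, a₀⟩, b⟩, hm, hα⟩ := h (τ, j, .final)
      simp only [tmem, tmemN] at hm hα
      rcases hm with hm | ⟨hb, hτ, hj, ha⟩
      · exact absurd ⟨hτ', hj'⟩ hm
      · have e1 : τ₀ = τ := Fin.ext hτ
        have e2 : j₀ = j := Fin.ext hj
        subst e1 e2
        exact ⟨a₀, ha, hα.trans hb⟩
  · intro h
    rintro ⟨τ, j, κ⟩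
    cases κ with
    | pair a => exact ⟨((τ, j, a), α (τ, j, a)), ⟨rfl, rfl, rfl⟩, rfl⟩
    | amo a₁ a₂ =>
      by_cases he : a₁ = a₂
      · exact ⟨((τ, j, a₁), α (τ, j, a₁)), Or.inl he, rfl⟩
      · by_cases h1 : α (τ, j, a₁) = true
        · have h2 : ¬ α (τ, j, a₂) = true := fun h2 => he (h.amo τ j a₁ a₂ h1 h2)
          exact ⟨((τ, j, a₂), false), Or.inr ⟨rfl, rfl, rfl, Or.inr rfl⟩,
            Bool.eq_false_of_not_eq_true h2⟩
        · exact ⟨((τ, j, a₁), false), Or.inr ⟨rfl, rfl, rfl, Or.inl rfl⟩,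
            Bool.eq_false_of_not_eq_true h1⟩
    | init =>
      by_cases h0 : τ.val = 0
      · obtain ⟨a, ha, hα⟩ := h.init j
        have : τ = 0 := Fin.ext h0
        subst this
        exact ⟨((0, j, a), true), Or.inr ⟨rfl, rfl, rfl, ha⟩, hα⟩
      · exact ⟨((τ, j, ca.blank), α (τ, j, ca.blank)), Or.inl h0, rfl⟩
    | trans l c r z =>
      by_cases hg : τ.val + 1 ≤ T ∧ j.val + 1 < S
      · have hS : 0 < S := by omega
        let τ' : Fin (T + 1) := ⟨τ.val + 1, by omega⟩
        let jl : Fin S := ⟨j.val - 1, by omega⟩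
        let jr : Fin S := ⟨j.val + 1, by omega⟩
        let jz : Fin S := ⟨0, hS⟩
        by_cases h1 : α (τ, jl, l) = true
        · by_cases h2 : α (τ, j, c) = true
          · by_cases h3 : α (τ, jr, r) = true
            · by_cases h4 : α (τ, jz, z) = true
              · exact ⟨((τ', j, ca.F l c r z), true),
                  Or.inr (Or.inr ⟨rfl, rfl, rfl, rfl⟩),
                  h.trans τ τ' jl j jr jz l c r z rfl rfl rfl rfl h1 h2 h3 h4⟩
              · exact ⟨((τ, jz, z), false),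
                  Or.inr (Or.inl ⟨rfl, rfl, Or.inr (Or.inr (Or.inr ⟨rfl, rfl⟩))⟩),
                  Bool.eq_false_of_not_eq_true h4⟩
            · exact ⟨((τ, jr, r), false),
                Or.inr (Or.inl ⟨rfl, rfl, Or.inr (Or.inr (Or.inl ⟨rfl, rfl⟩))⟩),
                Bool.eq_false_of_not_eq_true h3⟩
          · exact ⟨((τ, j, c), false),
              Or.inr (Or.inl ⟨rfl, rfl, Or.inr (Or.inl ⟨rfl, rfl⟩)⟩),
              Bool.eq_false_of_not_eq_true h2⟩
        · exact ⟨((τ, jl, l), false),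
            Or.inr (Or.inl ⟨rfl, rfl, Or.inl ⟨rfl, rfl⟩⟩),
            Bool.eq_false_of_not_eq_true h1⟩
      · exact ⟨((τ, j, ca.blank), α (τ, j, ca.blank)), Or.inl hg, rfl⟩
    | bound =>
      by_cases hj : j.val + 1 = S
      · exact ⟨((τ, j, ca.blank), true), Or.inr ⟨rfl, rfl, rfl, rfl⟩, h.bound τ j hj⟩
      · exact ⟨((τ, j, ca.blank), α (τ, j, ca.blank)), Or.inl hj, rfl⟩
    | final =>
      by_cases hg : τ.val = T ∧ j.val = 0
      · obtain ⟨a, ha, hα⟩ := h.final τ j hg.1 hg.2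
        exact ⟨((τ, j, a), true), Or.inr ⟨rfl, rfl, rfl, ha⟩, hα⟩
      · exact ⟨((τ, j, ca.blank), α (τ, j, ca.blank)), Or.inl hg, rfl⟩

/-- The condition on the initial row. -/
def GoodRow (ca : CA A) (T S : ℕ) (c : Fin S → A) : Prop :=
  (∀ j : Fin S, ca.I j.val (c j)) ∧ (∀ j : Fin S, j.val + 1 = S → c j = ca.blank) ∧
    ca.Acc (ca.row S (ca.ext c) T 0)

theorem row_succ (ca : CA A) (S : ℕ) (c : ℕ → A) (τ : ℕ) :
    ca.row S c (τ + 1) = ca.evolve S (ca.row S c τ) := by
  unfold CA.row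
  rw [Function.iterate_succ_apply']

theorem facts_row (ca : CA A) (T S : ℕ) [DecidableEq A] (c : Fin S → A)
    (hc : GoodRow ca T S c) :
    Facts ca T S (fun x => decide (ca.row S (ca.ext c) x.1.val x.2.1.val = x.2.2)) := by
  refine ⟨?_, ?_, ?_, ?_, ?_⟩
  · intro τ j a₁ a₂ h1 h2
    simp only [decide_eq_true_eq] at h1 h2
    exact h1.symm.trans h2
  · intro j
    refine ⟨c j, hc.1 j, ?_⟩
    simp [CA.row, CA.ext]
  · intro τ τ' jl jc jr jz l c' r z e1 e2 e3 e4 h1 h2 h3 h4
    simp only [decide_eq_true_eq] at h1 h2 h3 h4 ⊢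
    rw [e1, row_succ]
    unfold CA.evolve
    rw [if_pos (by have := jr.2; omega), ← h1, ← h2, ← h3, ← h4, e2, e3, e4]
  · intro τ j hj
    simp only [decide_eq_true_eq]
    rcases Nat.eq_zero_or_pos τ.val with h0 | hpos
    · rw [h0]
      have : ca.row S (ca.ext c) 0 j.val = c j := by simp [CA.row, CA.ext]
      rw [this]
      exact hc.2.1 j hj
    · obtain ⟨m, hm⟩ : ∃ m, τ.val = m + 1 := ⟨τ.val - 1, by omega⟩
      rw [hm, row_succ]
      unfold CA.evolve
      rw [if_neg (by omega)]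
  · intro τ j hτ hj
    refine ⟨_, hc.2.2, ?_⟩
    simp [hτ, hj]

theorem eq_of_facts (ca : CA A) (T S : ℕ) (hS : 0 < S) (α : TV A T S → Bool)
    (h : Facts ca T S α) : ∃ c : Fin S → A, GoodRow ca T S c ∧ ∀ x : TV A T S,
      α x = true ↔ ca.row S (ca.ext c) x.1.val x.2.1.val = x.2.2 := by
  choose c hcI hcα using h.init
  have key : ∀ τ (hτ : τ < T + 1) (j : Fin S),
      α (⟨τ, hτ⟩, j, ca.row S (ca.ext c) τ j.val) = true := by
    intro τ
    induction τ with
    | zero =>
      intro hτ j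
      have : ca.row S (ca.ext c) 0 j.val = c j := by simp [CA.row, CA.ext]
      rw [this]
      exact hcα j
    | succ τ ih =>
      intro hτ j
      rw [row_succ]
      unfold CA.evolve
      by_cases hj : j.val + 1 < S
      · rw [if_pos hj]
        exact h.trans ⟨τ, by omega⟩ ⟨τ + 1, hτ⟩ ⟨j.val - 1, by omega⟩ j ⟨j.val + 1, hj⟩
          ⟨0, by omega⟩ _ _ _ _ rfl rfl rfl rfl (ih _ _) (ih _ _) (ih _ _) (ih _ _)
      · rw [if_neg hj]
        exact h.bound _ _ (by have := j.2; omega)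
  have hiff : ∀ x : TV A T S, α x = true ↔ ca.row S (ca.ext c) x.1.val x.2.1.val = x.2.2 := by
    rintro ⟨τ, j, a⟩
    constructor
    · intro hα
      exact h.amo τ j _ _ (key τ.val τ.2 j) hα
    · intro he
      have := key τ.val τ.2 j
      simp only at he
      rw [he] at this
      exact this
  refine ⟨c, ⟨hcI, ?_, ?_⟩, hiff⟩
  · intro j hj
    have h1 := h.bound 0 j hj
    exact h.amo 0 j _ _ (hcα j) h1
  · obtain ⟨a, ha, hα⟩ := h.final ⟨T, Nat.lt_succ_self T⟩ ⟨0, hS⟩ rfl rfl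
    have := (hiff _).1 hα
    simp only at this
    rw [this]
    exact ha

/-- **The tableau is parsimonious.** -/
theorem card_tableau (ca : CA A) (T S : ℕ) (hS : 0 < S) :
    Nat.card {α : TV A T S → Bool // Sat (tmem ca T S) α} =
      Nat.card {c : Fin S → A // GoodRow ca T S c} := by
  classical
  symm
  refine Nat.card_congr (Equiv.ofBijective (fun c => ⟨fun x =>
    decide (ca.row S (ca.ext c.1) x.1.val x.2.1.val = x.2.2),
    (sat_iff_facts ca T S _).2 (facts_row ca T S c.1 c.2)⟩) ⟨?_, ?_⟩)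
  · rintro ⟨c, hc⟩ ⟨c', hc'⟩ h
    apply Subtype.ext
    funext j
    have h1 := congrFun (congrArg Subtype.val h) (0, j, c' j)
    simp only at h1
    have e1 : ca.row S (ca.ext c) 0 j.val = c j := by simp [CA.row, CA.ext]
    have e2 : ca.row S (ca.ext c') 0 j.val = c' j := by simp [CA.row, CA.ext]
    have h2 : decide (c j = c' j) = decide (c' j = c' j) := by
      have h3 : decide (ca.row S (ca.ext c) 0 j.val = c' j) =
        decide (ca.row S (ca.ext c') 0 j.val = c' j) := h1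
      rwa [e1, e2] at h3
    simpa using h2
  · rintro ⟨α, hα⟩
    obtain ⟨c, hc, hiff⟩ := eq_of_facts ca T S hS α ((sat_iff_facts ca T S α).1 hα)
    refine ⟨⟨c, hc⟩, ?_⟩
    apply Subtype.ext
    funext x
    have := hiff x
    simp only
    by_cases h : ca.row S (ca.ext c) x.1.val x.2.1.val = x.2.2
    · rw [this.2 h]; simpa using h
    · have h3 : ¬ α x = true := fun h' => h (this.1 h')
      rw [Bool.eq_false_of_not_eq_true h3]
      simpa using h

end Pool.Agent.Helper96
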